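import Pool.Agent.Lib.MP_172a45_an.H64.Big

set_option autoImplicit false

/-!
# `N ≥ 40`
-/

namespace Pool.Agent.Lib.MP_172a45_an.H64

open Finset F

variable {N : ℕ} {a : ℝ} {ζ z : Fin N → ℂ}

/-- a range of `a`, all `N ≥ 40` -/
theorem big (h : Fr N a ζ z) (hN : 40 ≤ N) (hW : W a ζ ≤ 1)
    {a2 b1 g0 ρ D0 e1 e2 T L : ℝ} (hb : 1 - a ^ 2 ≤ b1) (hb1 : b1 ≤ 1) (ha2 : a ≤ a2)
    (ha2' : a2 ≤ 1)
    (hc : Real.exp (b1 * g0) ≤ 1 + b1 * (40 * (1 - a2 ^ 2 / 4) - g0 / 2))
    (hρ : 0 ≤ ρ) (hρ' : ρ ≤ 1 - a2 * (8536 / 10000))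
    (hD0 : 0 < D0) (hD0' : D0 ≤ g0 - 5 / 2 + 2 * ρ ^ 2)
    (he1 : Real.exp (-((1 - b1) * g0)) ≤ e1)
    (he2 : Real.exp (-(D0 / 2)) ≤ e2)
    (hg1 : 1 / 2 ≤ g0) (hT : Real.exp (-(g0 - 1 / 2)) ≤ T)
    (hL : 1 / D0 + 4907 / 10000 * e2 +
      (5 / 24) * (4482 / 1000) * (a2 ^ 2 * (1184 / 1000 * e1 / (b1 * (1 - a2 ^ 2 / 4)))) ≤ L)
    (hF : T + L * (41 / 40) + a2 ^ 2 / (4 * L) < 1) : False := by
  have hA0 := h.a0
  have hA1 := h.a1
  have hNr : (40 : ℝ) ≤ N := by exact_mod_cast hN
  have hN0 : (0 : ℝ) < N := by linarith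
  have hβ : 0 < 1 - a ^ 2 := by nlinarith
  have hb0 : 0 < b1 := by linarith
  have ha20 : 0 < a2 := by linarith
  have hm : 0 < 1 - a2 ^ 2 / 4 := by nlinarith
  have hW0 : 0 ≤ W a ζ := W_nonneg
  have hG : g0 ≤ G a ζ := G_ge_exp (N1 := 40) h (by omega) hN hb ha2 ha2' (by
    push_cast; exact hc)
  set A := N * a ^ 2 with hA
  have hA0' : 0 < A := by positivity
  set D := N * a ^ 2 / 4 + (G a ζ - 5 / 2 + 2 * ρ ^ 2) with hD
  have hDA : A / 4 + D0 ≤ D := by rw [hD]; linarith
  have hD' : 0 < D := by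
    have : 0 < A / 4 := by positivity
    linarith
  obtain ⟨J, hJd⟩ : ∃ J, J = 1 / D ^ 2 + Real.exp (-(D / 2)) / 6 +
      5 * Real.exp (3 / 2 - G a ζ) / 24 := ⟨_, rfl⟩
  have hJ0 : 0 ≤ J := by rw [hJd]; positivity
  have hρa : ρ = 0 ∨ ρ ≤ 1 - a * (8536 / 10000) := Or.inr (by linarith)
  have hJ : ∀ k j, k ≠ j → ∫ s in (0:ℝ)..1, s * PP a ζ k j s ≤ J := by
    intro k j hkj
    rw [hJd]
    exact int_big' h (by omega) hW hρ hρa hD' k j hkj
  -- `A J ≤ L`
  have hAJ : A * J ≤ L := by
    have t1 : A * (1 / D ^ 2) ≤ 1 / D0 := by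
      rw [mul_one_div, div_le_div_iff₀ (by positivity) hD0]
      have : (A / 4 + D0) ^ 2 ≤ D ^ 2 := pow_le_pow_left₀ (by positivity) hDA 2
      nlinarith [sq_nonneg (A / 4 - D0)]
    have t2 : A * (Real.exp (-(D / 2)) / 6) ≤ 4907 / 10000 * e2 := by
      have k1 : Real.exp (-(D / 2)) ≤ Real.exp (-(A / 8)) * Real.exp (-(D0 / 2)) := by
        rw [← Real.exp_add]
        refine Real.exp_le_exp.2 ?_
        linarith
      have k2 := mul_exp_neg_le (A / 8)
      have k3 : A * Real.exp (-(D / 2)) ≤ 8 * (368 / 1000) * e2 := by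
        calc A * Real.exp (-(D / 2)) ≤ A * (Real.exp (-(A / 8)) * Real.exp (-(D0 / 2))) :=
              mul_le_mul_of_nonneg_left k1 hA0'.le
          _ = 8 * (A / 8 * Real.exp (-(A / 8))) * Real.exp (-(D0 / 2)) := by ring
          _ ≤ 8 * (368 / 1000) * e2 := by
              refine mul_le_mul (by linarith) he2 (Real.exp_nonneg _) (by norm_num)
      have he20 : 0 ≤ e2 := (Real.exp_nonneg _).trans he2
      linarith
    have t3 : A * (5 * Real.exp (3 / 2 - G a ζ) / 24) ≤
        (5 / 24) * (4482 / 1000) * (a2 ^ 2 * (1184 / 1000 * e1 / (b1 * (1 - a2 ^ 2 / 4)))) := by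
      have k1 := growth h (by omega) hb hb1 ha2 ha2' hG
      have k2 : N * Real.exp (-G a ζ) ≤ 1184 / 1000 * e1 / (b1 * (1 - a2 ^ 2 / 4)) := by
        rw [le_div_iff₀ (by positivity)]
        linarith
      have k3 : Real.exp (3 / 2) ≤ 4482 / 1000 := by
        have := exp_le_num 3 2 (by norm_num) (c := 4482 / 1000) (by norm_num) (by norm_num)
        push_cast at this
        exact this
      have k4 : Real.exp (3 / 2 - G a ζ) = Real.exp (3 / 2) * Real.exp (-G a ζ) := by
        rw [← Real.exp_add]; congr 1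
      rw [k4, hA]
      have k5 : a ^ 2 ≤ a2 ^ 2 := pow_le_pow_left₀ hA0.le ha2 2
      calc N * a ^ 2 * (5 * (Real.exp (3 / 2) * Real.exp (-G a ζ)) / 24) =
          (5 / 24) * Real.exp (3 / 2) * (a ^ 2 * (N * Real.exp (-G a ζ))) := by ring
        _ ≤ (5 / 24) * (4482 / 1000) *
            (a2 ^ 2 * (1184 / 1000 * e1 / (b1 * (1 - a2 ^ 2 / 4)))) := by
          refine mul_le_mul (by linarith) ?_ (by positivity) (by norm_num)
          exact mul_le_mul k5 k2 (by positivity) (sq_nonneg _)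
    rw [hJd]
    linarith
  -- the first term
  have hT0 : 0 ≤ T := (Real.exp_nonneg _).trans hT
  have hTT : (1 - (2 * G a ζ - W a ζ) / N) ^ (N + 1) ≤ T ^ 2 := by
    have hX0 := Fr.X_nonneg (a := a) (ζ := ζ) (by omega : 0 < N) 1
    rw [X_one h (by omega)] at hX0
    have hη : 0 ≤ 2 * G a ζ - W a ζ := by linarith
    have k1 : 1 - (2 * G a ζ - W a ζ) / N ≤ 1 := by
      have : 0 ≤ (2 * G a ζ - W a ζ) / N := by positivity
      linarith
    have k2 : (1 - (2 * G a ζ - W a ζ) / N) ^ (N + 1) ≤ (1 - (2 * G a ζ - W a ζ) / N) ^ N :=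
      pow_le_pow_of_le_one hX0 k1 (by omega)
    have e : 1 - (2 * G a ζ - W a ζ) / N = 1 + (-(2 * G a ζ - W a ζ)) / N := by ring
    have k3 : (1 - (2 * G a ζ - W a ζ) / N) ^ N ≤ Real.exp (-(2 * G a ζ - W a ζ)) := by
      rw [e] at hX0 ⊢
      exact one_add_div_pow_le_exp (by omega) hX0
    have k4 : Real.exp (-(2 * G a ζ - W a ζ)) ≤ Real.exp (-(g0 - 1 / 2)) ^ 2 := by
      rw [← Real.exp_nat_mul]
      refine Real.exp_le_exp.2 ?_
      push_cast
      linarith
    exact k2.trans (k3.trans (k4.trans (pow_le_pow_left₀ (Real.exp_nonneg _) hT 2)))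
  have hcore := core h (by omega) hJ hT0 hTT
  have hP1 := h.P_le (by omega)
  have hP0 := h.P_nonneg
  set P := Fr.P a ζ with hPdef
  have he : ∏ k, ‖Fr.u a ζ k‖ ≤ 1 := by
    rw [prod_eq_exp h]
    exact Real.exp_le_one_iff.2 (by linarith [deficit_nonneg h])
  have g1 : P * ∏ k, ‖Fr.u a ζ k‖ ≤ P := by
    calc P * ∏ k, ‖Fr.u a ζ k‖ ≤ P * 1 := mul_le_mul_of_nonneg_left he hP0
      _ = P := mul_one P
  have hL0 : 0 < L := by
    refine lt_of_lt_of_le ?_ hL
    have k1 : 0 ≤ e1 := (Real.exp_nonneg _).trans he1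
    have k2 : 0 ≤ e2 := (Real.exp_nonneg _).trans he2
    positivity
  -- `J N (a² - P²) ≤ L (1 - P²/a²)`
  have ha20' : 0 < a ^ 2 := by positivity
  have g2 : J * (a ^ 2 * (N + W a ζ) - N * P ^ 2) ≤ L * (41 / 40) - L / a ^ 2 * P ^ 2 := by
    have k1 : 0 ≤ 1 - P ^ 2 / a ^ 2 := by
      rw [sub_nonneg, div_le_one ha20']
      exact pow_le_pow_left₀ hP0 hP1 2
    have k2 : J * (a ^ 2 * (N + W a ζ) - N * P ^ 2) =
        A * J * (1 - P ^ 2 / a ^ 2) + A * J * (W a ζ / N) := by
      rw [hA]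
      field_simp
      ring
    have k3 : A * J * (1 - P ^ 2 / a ^ 2) ≤ L * (1 - P ^ 2 / a ^ 2) :=
      mul_le_mul_of_nonneg_right hAJ k1
    have k4 : W a ζ / N ≤ 1 / 40 := by
      rw [div_le_div_iff₀ hN0 (by norm_num)]
      linarith
    have k5 : A * J * (W a ζ / N) ≤ L * (1 / 40) :=
      mul_le_mul hAJ k4 (by positivity) hL0.le
    have k6 : L / a ^ 2 * P ^ 2 = L * (P ^ 2 / a ^ 2) := by ring
    rw [k2, k6]
    linarith
  have g3 : P - L / a ^ 2 * P ^ 2 ≤ a ^ 2 / (4 * L) := by
    rw [le_div_iff₀ (by positivity)]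
    have k1 : (P - L / a ^ 2 * P ^ 2) * (4 * L) = a ^ 2 - (a - 2 * L * P / a) ^ 2 := by
      field_simp
      ring
    rw [k1]
    linarith [sq_nonneg (a - 2 * L * P / a)]
  have g4 : a ^ 2 / (4 * L) ≤ a2 ^ 2 / (4 * L) :=
    div_le_div_of_nonneg_right (pow_le_pow_left₀ hA0.le ha2 2) (by positivity)
  linarith

/-- `N ≥ 40`, `a ≤ 9/10` -/
theorem big_mid (h : Fr N a ζ z) (hN : 40 ≤ N) (hW : W a ζ ≤ 1) (ha : a ≤ 9 / 10) : False := by
  have hA0 := h.a0
  rcases le_total a (38/100) with h1 | h1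
  · refine big h hN hW (a2 := 38/100) (b1 := 1) (g0 := 18/5) (ρ := 67/100) (D0 := 199/100)
      (e1 := 1) (e2 := 37/100) (T := 46/1000) (L := 86/100) (by nlinarith) le_rfl h1 (by norm_num)
      ?_ (by norm_num) (by norm_num) (by norm_num) (by norm_num) ?_ ?_ (by norm_num) ?_
      (by norm_num) (by norm_num)
    · have := exp_le_num 18 5 (by norm_num) (c := 367/10) (by norm_num) (by norm_num)
      push_cast at this
      rw [one_mul]
      norm_num at this ⊢
      linarith
    · norm_num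
    · have := exp_neg_le_num 199 200 (by norm_num) (c := 37/100) (by norm_num) (by norm_num)
      norm_num at this ⊢
      exact this
    · have := exp_neg_le_num 31 10 (by norm_num) (c := 46/1000) (by norm_num) (by norm_num)
      norm_num at this ⊢
      exact this
  rcases le_total a (1/2) with h2 | h2
  · refine big h hN hW (a2 := 1/2) (b1 := 6/7) (g0 := 4) (ρ := 573/1000) (D0 := 43/20)
      (e1 := 565/1000) (e2 := 342/1000) (T := 31/1000) (L := 84/100) (by nlinarith) (by norm_num)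
      h2 (by norm_num)
      ?_ (by norm_num) (by norm_num) (by norm_num) (by norm_num) ?_ ?_ (by norm_num) ?_
      (by norm_num) (by norm_num)
    · have := exp_le_num 24 7 (by norm_num) (c := 31) (by norm_num) (by norm_num)
      norm_num at this ⊢
      linarith
    · have := exp_neg_le_num 4 7 (by norm_num) (c := 565/1000) (by norm_num) (by norm_num)
      norm_num at this ⊢
      exact this
    · have := exp_neg_le_num 43 40 (by norm_num) (c := 342/1000) (by norm_num) (by norm_num)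
      norm_num at this ⊢
      exact this
    · have := exp_neg_le_num 7 2 (by norm_num) (c := 31/1000) (by norm_num) (by norm_num)
      norm_num at this ⊢
      exact this
  rcases le_total a (31/50) with h3 | h3
  · refine big h hN hW (a2 := 31/50) (b1 := 3/4) (g0 := 13/3) (ρ := 47/100) (D0 := 9/4)
      (e1 := 339/1000) (e2 := 325/1000) (T := 22/1000) (L := 83/100) (by nlinarith) (by norm_num)
      h3 (by norm_num)
      ?_ (by norm_num) (by norm_num) (by norm_num) (by norm_num) ?_ ?_ (by norm_num) ?_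
      (by norm_num) (by norm_num)
    · have := exp_le_num 13 4 (by norm_num) (c := 258/10) (by norm_num) (by norm_num)
      norm_num at this ⊢
      linarith
    · have := exp_neg_le_num 13 12 (by norm_num) (c := 339/1000) (by norm_num) (by norm_num)
      norm_num at this ⊢
      exact this
    · have := exp_neg_le_num 9 8 (by norm_num) (c := 325/1000) (by norm_num) (by norm_num)
      norm_num at this ⊢
      exact this
    · have := exp_neg_le_num 23 6 (by norm_num) (c := 22/1000) (by norm_num) (by norm_num)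
      norm_num at this ⊢
      exact this
  rcases le_total a (3/4) with h4 | h4
  · refine big h hN hW (a2 := 3/4) (b1 := 5/8) (g0 := 24/5) (ρ := 359/1000) (D0 := 5/2)
      (e1 := 166/1000) (e2 := 287/1000) (T := 14/1000) (L := 74/100) (by nlinarith) (by norm_num)
      h4 (by norm_num)
      ?_ (by norm_num) (by norm_num) (by norm_num) (by norm_num) ?_ ?_ (by norm_num) ?_
      (by norm_num) (by norm_num)
    · have := exp_le_num 3 1 (by norm_num) (c := 202/10) (by norm_num) (by norm_num)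
      norm_num at this ⊢
      linarith
    · have := exp_neg_le_num 9 5 (by norm_num) (c := 166/1000) (by norm_num) (by norm_num)
      norm_num at this ⊢
      exact this
    · have := exp_neg_le_num 5 4 (by norm_num) (c := 287/1000) (by norm_num) (by norm_num)
      norm_num at this ⊢
      exact this
    · have := exp_neg_le_num 43 10 (by norm_num) (c := 14/1000) (by norm_num) (by norm_num)
      norm_num at this ⊢
      exact this
  · refine big h hN hW (a2 := 9/10) (b1 := 7/16) (g0 := 40/7) (ρ := 231/1000) (D0 := 33/10)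
      (e1 := 41/1000) (e2 := 193/1000) (T := 6/1000) (L := 51/100) (by nlinarith) (by norm_num)
      ha (by norm_num)
      ?_ (by norm_num) (by norm_num) (by norm_num) (by norm_num) ?_ ?_ (by norm_num) ?_
      (by norm_num) (by norm_num)
    · have := exp_le_num 5 2 (by norm_num) (c := 122/10) (by norm_num) (by norm_num)
      norm_num at this ⊢
      linarith
    · have := exp_neg_le_num 45 14 (by norm_num) (c := 41/1000) (by norm_num) (by norm_num)
      norm_num at this ⊢
      exact this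
    · have := exp_neg_le_num 33 20 (by norm_num) (c := 193/1000) (by norm_num) (by norm_num)
      norm_num at this ⊢
      exact this
    · have := exp_neg_le_num 73 14 (by norm_num) (c := 6/1000) (by norm_num) (by norm_num)
      norm_num at this ⊢
      exact this

end Pool.Agent.Lib.MP_172a45_an.H64
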