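import Pool.Agent.Lib.MP_172a45_an.H64.Big

set_option autoImplicit false

/-!
# `N ≥ 40`, the corner
-/

namespace Pool.Agent.Lib.MP_172a45_an.H64

open Finset F

variable {N : ℕ} {a : ℝ} {ζ z : Fin N → ℂ}

/-- `N ≥ 40`, `a ≥ 9/10` -/
theorem big_corner (h : Fr N a ζ z) (hN : 40 ≤ N) (hW : W a ζ ≤ 1) (ha : 9 / 10 ≤ a)
    (hD : -∑ k, Real.log ‖Fr.u a ζ k‖ ≤ 3 / 10)
    (hWD : 3 * W a ζ ≤ 10 * (-∑ k, Real.log ‖Fr.u a ζ k‖)) : False := by
  have hA0 := h.a0
  have hA1 := h.a1
  have hNr : (40 : ℝ) ≤ N := by exact_mod_cast hN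
  have hN0 : (0 : ℝ) < N := by linarith
  have hβ : 0 < 1 - a ^ 2 := by linarith [pow_lt_one₀ hA0.le hA1 two_ne_zero]
  have hq2 := pow_le_pow_left₀ (by norm_num) ha 2
  have hb : 1 - a ^ 2 ≤ 19 / 100 := by
    norm_num at hq2 ⊢
    linarith
  have hW0 : 0 ≤ W a ζ := W_nonneg
  have hG : 9 ≤ G a ζ := G_ge_exp (N1 := 40) (b1 := 19/100) (a2 := 1) h (by omega) hN hb hA1.le
    le_rfl (by
    have := exp_le_num 171 100 (by norm_num) (c := 56/10) (by norm_num) (by norm_num)
    norm_num at this ⊢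
    linarith)
  have hgr := growth (b1 := 19/100) (a2 := 1) h (by omega) hb (by norm_num) hA1.le le_rfl hG
  have hx1 : Real.exp (-((1 - 19 / 100) * 9)) ≤ 72 / 100000 := by
    have := exp_neg_le_num 29 4 (by norm_num) (c := 72/100000) (by norm_num) (by norm_num)
    refine le_trans (Real.exp_le_exp.2 ?_) this
    norm_num
  have hNG : N * Real.exp (-G a ζ) ≤ 6 / 1000 := by
    have : (19:ℝ) / 100 * (1 - 1 ^ 2 / 4) * (N * Real.exp (-G a ζ)) ≤
      1184 / 1000 * (72 / 100000) := by linarith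
    linarith
  set D := N * a ^ 2 / 4 + (G a ζ - 5 / 2 + 2 * (0:ℝ) ^ 2) with hDd
  have ha81 : 81 / 100 ≤ a ^ 2 := by linarith
  have hDA : 2025 / 10000 * N + 13 / 2 ≤ D := by
    rw [hDd]
    have : N * (81 / 100) ≤ N * a ^ 2 := mul_le_mul_of_nonneg_left ha81 hN0.le
    linarith
  have hD' : 0 < D := by linarith
  obtain ⟨J, hJd⟩ : ∃ J, J = 1 / D ^ 2 + Real.exp (-(D / 2)) / 6 +
      5 * Real.exp (3 / 2 - G a ζ) / 24 := ⟨_, rfl⟩
  have hJ0 : 0 ≤ J := by rw [hJd]; positivity
  have hJ : ∀ k j, k ≠ j → ∫ s in (0:ℝ)..1, s * PP a ζ k j s ≤ J := by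
    intro k j hkj
    rw [hJd]
    exact int_big' h (by omega) hW le_rfl (Or.inl rfl) hD' k j hkj
  have hNJ : N * J ≤ 1 / 4 := by
    have t1 : N * (1 / D ^ 2) ≤ 19 / 100 := by
      rw [mul_one_div, div_le_iff₀ (by positivity)]
      have : (2025 / 10000 * N + 13 / 2) ^ 2 ≤ D ^ 2 := pow_le_pow_left₀ (by positivity) hDA 2
      linarith [sq_nonneg (2025 / 10000 * (N : ℝ) - 13 / 2)]
    have t2 : N * (Real.exp (-(D / 2)) / 6) ≤ 24 / 1000 := by
      have k1 : Real.exp (-(D / 2)) ≤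
          Real.exp (-(10125 / 100000 * N)) * Real.exp (-(13 / 4)) := by
        rw [← Real.exp_add]
        refine Real.exp_le_exp.2 ?_
        linarith
      have k2 := mul_exp_neg_le (10125 / 100000 * (N : ℝ))
      have k3 : Real.exp (-(13 / 4)) ≤ 39 / 1000 := by
        have := exp_neg_le_num 13 4 (by norm_num) (c := 39/1000) (by norm_num) (by norm_num)
        norm_num at this ⊢
        exact this
      have k4 : N * Real.exp (-(10125 / 100000 * N)) ≤ 3635 / 1000 := by linarith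
      have k5 : N * Real.exp (-(D / 2)) ≤ 3635 / 1000 * (39 / 1000) := by
        calc N * Real.exp (-(D / 2)) ≤
              N * (Real.exp (-(10125 / 100000 * N)) * Real.exp (-(13 / 4))) :=
              mul_le_mul_of_nonneg_left k1 hN0.le
          _ = N * Real.exp (-(10125 / 100000 * N)) * Real.exp (-(13 / 4)) := by ring
          _ ≤ 3635 / 1000 * (39 / 1000) :=
              mul_le_mul k4 k3 (Real.exp_nonneg _) (by norm_num)
      linarith
    have t3 : N * (5 * Real.exp (3 / 2 - G a ζ) / 24) ≤ 6 / 1000 := by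
      have k3 : Real.exp (3 / 2) ≤ 4482 / 1000 := by
        have := exp_le_num 3 2 (by norm_num) (c := 4482 / 1000) (by norm_num) (by norm_num)
        push_cast at this
        exact this
      have k4 : Real.exp (3 / 2 - G a ζ) = Real.exp (3 / 2) * Real.exp (-G a ζ) := by
        rw [← Real.exp_add]; congr 1
      rw [k4]
      calc N * (5 * (Real.exp (3 / 2) * Real.exp (-G a ζ)) / 24) =
          (5 / 24) * Real.exp (3 / 2) * (N * Real.exp (-G a ζ)) := by ring
        _ ≤ (5 / 24) * (4482 / 1000) * (6 / 1000) :=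
          mul_le_mul (by linarith) hNG (by positivity) (by norm_num)
        _ ≤ 6 / 1000 := by norm_num
    rw [hJd]
    linarith
  obtain ⟨V, hVd⟩ : ∃ V, V = Real.exp (-((G a ζ - 1 / 2) * (39 / 40))) := ⟨_, rfl⟩
  have hV0 : 0 ≤ V := by rw [hVd]; positivity
  have hV1 : V ≤ 1 := by
    rw [hVd]
    exact Real.exp_le_one_iff.2 (by linarith)
  have hX0 := Fr.X_nonneg (a := a) (ζ := ζ) (by omega : 0 < N) 1
  rw [X_one h (by omega)] at hX0
  have hV : (1 - (2 * G a ζ - W a ζ) / N) ^ (N - 1) ≤ V ^ 2 := by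
    have hη : 0 ≤ 2 * G a ζ - W a ζ := by linarith
    have k1 : 1 - (2 * G a ζ - W a ζ) / N ≤ Real.exp (-((2 * G a ζ - W a ζ) / N)) := by
      have := Real.add_one_le_exp (-((2 * G a ζ - W a ζ) / N))
      linarith
    refine (pow_le_pow_left₀ hX0 k1 _).trans ?_
    rw [hVd, ← Real.exp_nat_mul, ← Real.exp_nat_mul]
    refine Real.exp_le_exp.2 ?_
    rw [Nat.cast_sub (by omega)]
    push_cast
    have k2 : (39:ℝ) / 40 ≤ (N - 1) / N := by
      rw [div_le_div_iff₀ (by norm_num) hN0]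
      linarith
    have k3 : (2 * G a ζ - 1) * (39 / 40) ≤ (2 * G a ζ - W a ζ) * ((N - 1) / N) :=
      mul_le_mul (by linarith) k2 (by norm_num) hη
    have e : ((N:ℝ) - 1) * -((2 * G a ζ - W a ζ) / N) =
        -((2 * G a ζ - W a ζ) * ((N - 1) / N)) := by ring
    rw [e]
    linarith
  have hNV : N * V ≤ 1 := by
    -- `e^{-.975 (g - 1/2)} = e^{.4875} e^{-.19 g} e^{-.785 g}`
    have hrb := rw_exp_box (b1 := 19/100) (a2 := 1) h (by omega) hb hA1.le le_rfl
    have k1 := le_exp_mul (19 / 100 * G a ζ)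
    have k2 : 19 / 100 * (N * (3 / 4)) ≤ 1184 / 1000 * Real.exp (19 / 100 * G a ζ) := by
      linarith
    have k3 := mul_le_mul_of_nonneg_right k2 hV0
    have k4 : Real.exp (19 / 100 * G a ζ) * V ≤ 1 / 100 := by
      rw [hVd, ← Real.exp_add]
      have := exp_neg_le_num 6 1 (by norm_num) (c := 1/100) (by norm_num) (by norm_num)
      norm_num at this
      refine le_trans (Real.exp_le_exp.2 ?_) this
      linarith
    linarith
  refine corner h (by omega) ha hJ hJ0 hV0 (N_sub_G_le h (by omega))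
    (by
      have : (0:ℝ) ≤ N * (N - 2) := mul_nonneg hN0.le (by linarith)
      positivity) (QN := N / 6) (by linarith) hW hV hD hWD le_rfl (by linarith) ?_ ?_
  · have : 2 * ((N:ℝ) / 6) * V = (N * V) / 3 := by ring
    rw [this]
    linarith
  · have k1 : V / N ≤ 1 / 40 := by
      rw [div_le_div_iff₀ hN0 (by norm_num)]
      linarith
    have k2 : J ≤ 1 / 160 := by
      have : 40 * J ≤ N * J := mul_le_mul_of_nonneg_right hNr hJ0
      linarith
    linarith

end Pool.Agent.Lib.MP_172a45_an.H64
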