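import Pool.Agent.Lib.MP_172a45_an.H64.CBox

set_option autoImplicit false

/-!
# The corner `a ≥ 19/20` for `5 ≤ N ≤ 39` (numbers generated)
-/

namespace Pool.Agent.Lib.MP_172a45_an.H64

open F

theorem c5 : CorC 5 5 (19/20) 1 (2387/1000) (1067/625) (1433/2500) (183/1250) 0 (1963/2500) (5209/10000) (293/1000) (2613/10000) (419/2000) (301/5000) (1/5) (279/200) := by
  constructor <;> norm_num

theorem c6 : CorC 6 6 (19/20) 1 (1411/500) (1067/625) (1433/2500) (183/1250) 0 (6267/10000) (3253/10000) (141/1000) (23/200) (1299/10000) (243/10000) (2/3) (2147/2500) := by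
  constructor <;> norm_num

theorem c7 : CorC 7 7 (19/20) 1 (811/250) (1067/625) (1433/2500) (183/1250) 0 (4991/10000) (1007/5000) (337/5000) (503/10000) (213/2500) (101/10000) (5/6) (308/625) := by
  constructor <;> norm_num

theorem c8 : CorC 8 8 (19/20) 1 (1827/500) (1067/625) (1433/2500) (183/1250) 0 (3977/10000) (78/625) (163/5000) (9/400) (149/2500) (11/2500) 1 (317/1250) := by
  constructor <;> norm_num

theorem c9 : CorC 9 9 (19/20) 1 (4053/1000) (1067/625) (1433/2500) (183/1250) 0 (127/400) (389/5000) (2/125) (13/1250) (221/5000) (1/500) (7/6) (239/2500) := by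
  constructor <;> norm_num

theorem c10 : CorC 10 10 (19/20) 1 (111/25) (1067/625) (1433/2500) (183/1250) 0 (2543/10000) (489/10000) (81/10000) (1/200) (173/5000) (1/1000) (4/3) 0 := by
  constructor <;> norm_num

theorem c11 : CorC 11 11 (19/20) 1 (4817/1000) (1067/625) (1433/2500) (183/1250) 0 (2043/10000) (31/1000) (21/5000) (1/400) (141/5000) (1/2000) (3/2) 0 := by
  constructor <;> norm_num

theorem c12 : CorC 12 13 (19/20) 1 (1293/250) (1067/625) (1433/2500) (183/1250) 0 (427/2500) (239/10000) (37/10000) (3/1250) (251/10000) (1/1000) (11/6) 0 := by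
  constructor <;> norm_num

theorem c14 : CorC 14 15 (19/20) 1 (2939/500) (1067/625) (1433/2500) (183/1250) 0 (561/5000) (51/5000) (3/2500) (7/10000) (191/10000) (3/10000) (13/6) 0 := by
  constructor <;> norm_num

theorem c16 : CorC 16 18 (19/20) 1 (6537/1000) (1067/625) (1433/2500) (183/1250) 0 (773/10000) (53/10000) (3/5000) (1/2500) (161/10000) (3/10000) (8/3) 0 := by
  constructor <;> norm_num

theorem c19 : CorC 19 21 (19/20) 1 (7483/1000) (1067/625) (1433/2500) (183/1250) 0 (107/2500) (17/10000) (1/5000) (1/10000) (67/5000) (1/10000) (19/6) 0 := by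
  constructor <;> norm_num

theorem c22 : CorC 22 25 (19/20) 1 (4177/500) (1067/625) (1433/2500) (183/1250) 0 (251/10000) (7/10000) (1/10000) (1/10000) (61/5000) (1/10000) (23/6) 0 := by
  constructor <;> norm_num

theorem c26 : CorC 26 29 (19/20) 1 (236/25) (1067/625) (1433/2500) (183/1250) 0 (61/5000) (1/5000) (1/10000) (1/10000) (113/10000) (1/10000) (9/2) 0 := by
  constructor <;> norm_num

theorem c30 : CorC 30 34 (19/20) 1 (10431/1000) (1067/625) (1433/2500) (183/1250) 0 (63/10000) (1/10000) (1/10000) (1/10000) (109/10000) (1/10000) (16/3) (103/2500) := by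
  constructor <;> norm_num

theorem c35 : CorC 35 39 (19/20) 1 (11573/1000) (1067/625) (1433/2500) (183/1250) 0 (7/2500) (1/10000) (1/10000) (1/10000) (107/10000) (1/10000) (37/6) (673/5000) := by
  constructor <;> norm_num

theorem cor_five {a : ℝ} {ζ z : Fin 5 → ℂ} (h : Fr 5 a ζ z) (ha : 19/20 ≤ a) (hw : W a ζ ≤ 1)
    (hD : -∑ k, Real.log ‖Fr.u a ζ k‖ ≤ 3 / 10)
    (hWD : 3 * W a ζ ≤ 10 * (-∑ k, Real.log ‖Fr.u a ζ k‖)) : False :=
  cbox h c5 (by norm_num) (by norm_num) le_rfl le_rfl ha hw (five_sub_G_le h ha) zero_le_one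
    (by norm_num) hD hWD

theorem cor_gen {N : ℕ} {a : ℝ} {ζ z : Fin N → ℂ} (h : Fr N a ζ z) {N1 N2 : ℕ}
    {a1 w g τ ρ1 ρ2 ρ3 V1 V2 V3 V4 J V κ : ℝ}
    (c : CorC N1 N2 a1 w g τ ρ1 ρ2 ρ3 V1 V2 V3 V4 J V (((N2 : ℝ) - 2) / 6) κ)
    (h4 : 4 ≤ N) (hN1' : 2 ≤ N1) (hN1 : N1 ≤ N) (hN2 : N ≤ N2) (ha1 : a1 ≤ a)
    (hw : W a ζ ≤ w)
    (hD : -∑ k, Real.log ‖Fr.u a ζ k‖ ≤ 3 / 10)
    (hWD : 3 * W a ζ ≤ 10 * (-∑ k, Real.log ‖Fr.u a ζ k‖)) : False := by
  have hNr : (4 : ℝ) ≤ N := by exact_mod_cast h4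
  have hN2r : (N : ℝ) ≤ N2 := by exact_mod_cast hN2
  refine cbox h c h4 hN1' hN1 hN2 ha1 hw (N_sub_G_le h h4) ?_ ?_ hD hWD
  · have : (0:ℝ) ≤ N * (N - 2) := by nlinarith
    positivity
  · nlinarith

theorem cor_all {N : ℕ} {a : ℝ} {ζ z : Fin N → ℂ} (h : Fr N a ζ z) (h5 : 5 ≤ N) (h39 : N ≤ 39)
    (ha : 19/20 ≤ a) (hw : W a ζ ≤ 1)
    (hD : -∑ k, Real.log ‖Fr.u a ζ k‖ ≤ 3 / 10)
    (hWD : 3 * W a ζ ≤ 10 * (-∑ k, Real.log ‖Fr.u a ζ k‖)) : False := by
  rcases Nat.lt_or_ge 5 N with g | g
  swap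
  · obtain rfl : N = 5 := by omega
    exact cor_five h ha hw hD hWD
  rcases Nat.lt_or_ge 6 N with g | g
  swap
  · exact cor_gen h (by have := c6; norm_num at this ⊢; exact this) (by omega) (by norm_num) (by omega) g ha hw hD hWD
  rcases Nat.lt_or_ge 7 N with g | g
  swap
  · exact cor_gen h (by have := c7; norm_num at this ⊢; exact this) (by omega) (by norm_num) (by omega) g ha hw hD hWD
  rcases Nat.lt_or_ge 8 N with g | g
  swap
  · exact cor_gen h (by have := c8; norm_num at this ⊢; exact this) (by omega) (by norm_num) (by omega) g ha hw hD hWD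
  rcases Nat.lt_or_ge 9 N with g | g
  swap
  · exact cor_gen h (by have := c9; norm_num at this ⊢; exact this) (by omega) (by norm_num) (by omega) g ha hw hD hWD
  rcases Nat.lt_or_ge 10 N with g | g
  swap
  · exact cor_gen h (by have := c10; norm_num at this ⊢; exact this) (by omega) (by norm_num) (by omega) g ha hw hD hWD
  rcases Nat.lt_or_ge 11 N with g | g
  swap
  · exact cor_gen h (by have := c11; norm_num at this ⊢; exact this) (by omega) (by norm_num) (by omega) g ha hw hD hWD
  rcases Nat.lt_or_ge 13 N with g | g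
  swap
  · exact cor_gen h (by have := c12; norm_num at this ⊢; exact this) (by omega) (by norm_num) (by omega) g ha hw hD hWD
  rcases Nat.lt_or_ge 15 N with g | g
  swap
  · exact cor_gen h (by have := c14; norm_num at this ⊢; exact this) (by omega) (by norm_num) (by omega) g ha hw hD hWD
  rcases Nat.lt_or_ge 18 N with g | g
  swap
  · exact cor_gen h (by have := c16; norm_num at this ⊢; exact this) (by omega) (by norm_num) (by omega) g ha hw hD hWD
  rcases Nat.lt_or_ge 21 N with g | g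
  swap
  · exact cor_gen h (by have := c19; norm_num at this ⊢; exact this) (by omega) (by norm_num) (by omega) g ha hw hD hWD
  rcases Nat.lt_or_ge 25 N with g | g
  swap
  · exact cor_gen h (by have := c22; norm_num at this ⊢; exact this) (by omega) (by norm_num) (by omega) g ha hw hD hWD
  rcases Nat.lt_or_ge 29 N with g | g
  swap
  · exact cor_gen h (by have := c26; norm_num at this ⊢; exact this) (by omega) (by norm_num) (by omega) g ha hw hD hWD
  rcases Nat.lt_or_ge 34 N with g | g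
  swap
  · exact cor_gen h (by have := c30; norm_num at this ⊢; exact this) (by omega) (by norm_num) (by omega) g ha hw hD hWD
  exact cor_gen h (by have := c35; norm_num at this ⊢; exact this) (by omega) (by norm_num) (by omega) h39 ha hw hD hWD

end Pool.Agent.Lib.MP_172a45_an.H64
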