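import Pool.Agent.Lib.MP_172a45_an.H64.Box

set_option autoImplicit false

/-!
# Boxes: N from 6 to 7 (generated)
-/

namespace Pool.Agent.Lib.MP_172a45_an.H64

open F

theorem b6_0 : BoxC 6 6 0 (19/40) 0 1 1 (2299/1000) (1067/625) (913/1000) (1993/2500) (1189/2000) (1959/5000) (4583/5000) (7631/10000) (1121/2000) (3607/10000) (203/5000) (1499/5000) (299/1000) (387/1250) := by
  constructor <;> norm_num

theorem b6_1 : BoxC 6 6 (19/40) (59/100) 0 1 1 (1213/500) (1067/625) (913/1000) (7481/10000) (4963/10000) (489/2000) (839/1000) (6573/10000) (937/2000) (721/2500) (11/400) (2263/5000) (113/250) (133/500) := by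
  constructor <;> norm_num

theorem b6_2 : BoxC 6 6 (59/100) (13/20) 0 1 1 (313/125) (1067/625) (913/1000) (289/400) (4451/10000) (1677/10000) (1983/2500) (74/125) (1013/2500) (2481/10000) (211/10000) (537/1000) (537/1000) (149/625) := by
  constructor <;> norm_num

theorem b6_3 : BoxC 6 6 (13/20) (71/100) 0 1 1 (317/125) (1067/625) (913/1000) (6969/10000) (3939/10000) (909/10000) (1953/2500) (5701/10000) (753/2000) (581/2500) (189/10000) (5857/10000) (117/200) (1139/5000) := by
  constructor <;> norm_num

theorem b6_4 : BoxC 6 6 (71/100) (77/100) 0 (1/2) 1 (2573/1000) (3/2) (323/500) (889/1250) (169/400) (1337/10000) (3321/5000) (4109/10000) (2287/10000) (573/5000) (11/2000) (3301/5000) (33/50) (797/5000) := by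
  constructor <;> norm_num

theorem b6_5 : BoxC 6 6 (71/100) (77/100) (1/2) 1 (4283/5000) (2573/1000) (1067/625) (913/1000) (6713/10000) (3427/10000) (7/500) (1527/2000) (1347/2500) (3373/10000) (2149/10000) (33/2000) (1279/2000) (639/1000) (1067/5000) := by
  constructor <;> norm_num

theorem b6_6 : BoxC 6 6 (77/100) (83/100) 0 (1/2) 1 (2617/1000) (3/2) (323/500) (6887/10000) (151/400) (331/5000) (1601/2500) (3779/10000) (1967/10000) (501/5000) (11/2500) (1789/2500) (143/200) (1461/10000) := by
  constructor <;> norm_num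

theorem b6_7 : BoxC 6 6 (77/100) (83/100) (1/2) 1 (4283/5000) (2617/1000) (1067/625) (913/1000) (6457/10000) (583/2000) 0 (7399/10000) (623/1250) (291/1000) (39/200) (139/10000) (3493/5000) (349/500) (1959/10000) := by
  constructor <;> norm_num

theorem b6_8 : BoxC 6 6 (83/100) (89/100) 0 (1/2) 1 (2669/1000) (3/2) (323/500) (3331/5000) (133/400) 0 (1223/2000) (3383/10000) (1593/10000) (211/2500) (2/625) (7763/10000) (97/125) (261/2000) := by
  constructor <;> norm_num

theorem b6_9 : BoxC 6 6 (83/100) (43/50) (1/2) 1 (4283/5000) (1353/500) (1067/625) (913/1000) (6329/10000) (2659/10000) 0 (6893/10000) (268/625) (459/2000) (1577/10000) (6/625) (1539/2000) (769/1000) (841/5000) := by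
  constructor <;> norm_num

theorem b6_10 : BoxC 6 6 (43/50) (89/100) (1/2) 1 (4283/5000) (2739/1000) (1067/625) (913/1000) (6201/10000) (1201/5000) 0 (3361/5000) (4021/10000) (2047/10000) (181/1250) (83/10000) (4023/5000) (201/250) (1577/10000) := by
  constructor <;> norm_num

theorem b6_11 : BoxC 6 6 (89/100) (19/20) 0 (1/4) 1 (2731/1000) (846/625) (457/1000) (1357/2000) (357/1000) (71/2000) (5203/10000) (2379/10000) (897/10000) (389/10000) (9/10000) (2117/2500) (443/500) (47/500) := by
  constructor <;> norm_num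

theorem b6_12 : BoxC 6 6 (89/100) (19/20) (1/4) (1/2) (1833/2000) (2731/1000) (3/2) (323/500) (6437/10000) (23/80) 0 (231/400) (2931/10000) (301/2500) (337/5000) (11/5000) (337/400) (421/500) (227/2000) := by
  constructor <;> norm_num

theorem b6_13 : BoxC 6 6 (89/100) (23/25) (1/2) 1 (4283/5000) (111/40) (1067/625) (913/1000) (6073/10000) (1073/5000) 0 (817/1250) (467/1250) (1799/10000) (263/2000) (7/1000) (2103/2500) (841/1000) (367/2500) := by
  constructor <;> norm_num

theorem b6_14 : BoxC 6 6 (23/25) (19/20) (1/2) 1 (4283/5000) (1407/500) (1067/625) (913/1000) (1189/2000) (189/1000) 0 (396/625) (3437/10000) (777/5000) (1177/10000) (29/5000) (4397/5000) (879/1000) (1357/10000) := by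
  constructor <;> norm_num

theorem mid_6 {N : ℕ} {a : ℝ} {ζ z : Fin N → ℂ} (h : Fr N a ζ z) (hN1 : 6 ≤ N) (hN2 : N ≤ 6)
    (ha2 : a ≤ (19/20)) (hw2 : W a ζ ≤ 1) : False := by
  have ha1 : (0:ℝ) ≤ a := h.a0.le
  have hw1 : (0:ℝ) ≤ W a ζ := W_nonneg
  rcases le_total (a) (19/40) with g1 | g1
  · exact box h b6_0 (by omega) hN1 hN2 ha1 g1 hw1 hw2
  · rcases le_total (a) (71/100) with g2 | g2
    · rcases le_total (a) (59/100) with g3 | g3
      · exact box h b6_1 (by omega) hN1 hN2 g1 g3 hw1 hw2
      · rcases le_total (a) (13/20) with g4 | g4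
        · exact box h b6_2 (by omega) hN1 hN2 g3 g4 hw1 hw2
        · exact box h b6_3 (by omega) hN1 hN2 g4 g2 hw1 hw2
    · rcases le_total (a) (83/100) with g5 | g5
      · rcases le_total (a) (77/100) with g6 | g6
        · rcases le_total (W a ζ) (1/2) with g7 | g7
          · exact box h b6_4 (by omega) hN1 hN2 g2 g6 hw1 g7
          · exact box h b6_5 (by omega) hN1 hN2 g2 g6 g7 hw2
        · rcases le_total (W a ζ) (1/2) with g8 | g8
          · exact box h b6_6 (by omega) hN1 hN2 g6 g5 hw1 g8
          · exact box h b6_7 (by omega) hN1 hN2 g6 g5 g8 hw2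
      · rcases le_total (a) (89/100) with g9 | g9
        · rcases le_total (W a ζ) (1/2) with g10 | g10
          · exact box h b6_8 (by omega) hN1 hN2 g5 g9 hw1 g10
          · rcases le_total (a) (43/50) with g11 | g11
            · exact box h b6_9 (by omega) hN1 hN2 g5 g11 g10 hw2
            · exact box h b6_10 (by omega) hN1 hN2 g11 g9 g10 hw2
        · rcases le_total (W a ζ) (1/2) with g12 | g12
          · rcases le_total (W a ζ) (1/4) with g13 | g13
            · exact box h b6_11 (by omega) hN1 hN2 g9 ha2 hw1 g13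
            · exact box h b6_12 (by omega) hN1 hN2 g9 ha2 g13 g12
          · rcases le_total (a) (23/25) with g14 | g14
            · exact box h b6_13 (by omega) hN1 hN2 g9 g14 g12 hw2
            · exact box h b6_14 (by omega) hN1 hN2 g14 ha2 g12 hw2

theorem b7_0 : BoxC 7 7 0 (19/40) 0 1 1 (2443/1000) (1067/625) (463/500) (1993/2500) (1189/2000) (1959/5000) (8831/10000) (7061/10000) (993/2000) (1531/5000) (49/1250) (111/400) (277/1000) (2821/10000) := by
  constructor <;> norm_num

theorem b7_1 : BoxC 7 7 (19/40) (59/100) 0 1 1 (653/250) (1067/625) (463/500) (7481/10000) (4963/10000) (489/2000) (7807/10000) (5727/10000) (3859/10000) (2297/10000) (31/1250) (2153/5000) (43/100) (459/2000) := by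
  constructor <;> norm_num

theorem b7_2 : BoxC 7 7 (59/100) (13/20) 0 1 1 (1359/500) (1067/625) (463/500) (289/400) (4451/10000) (1677/10000) (903/1250) (4959/10000) (397/1250) (471/2500) (181/10000) (5157/10000) (103/200) (1987/10000) := by
  constructor <;> norm_num

theorem b7_3 : BoxC 7 7 (13/20) (71/100) 0 1 1 (2769/1000) (1067/625) (463/500) (6969/10000) (3939/10000) (909/10000) (3509/5000) (1163/2500) (2849/10000) (851/5000) (77/5000) (1131/2000) (113/200) (927/5000) := by
  constructor <;> norm_num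

theorem b7_4 : BoxC 7 7 (71/100) (77/100) 0 1 1 (283/100) (1067/625) (463/500) (6713/10000) (3427/10000) (7/500) (1687/2500) (4257/10000) (1219/5000) (1499/10000) (1/80) (6209/10000) (31/50) (1687/10000) := by
  constructor <;> norm_num

theorem b7_5 : BoxC 7 7 (77/100) (83/100) 0 (1/2) 1 (1451/500) (3/2) (131/200) (6887/10000) (151/400) (331/5000) (2769/5000) (178/625) (167/1250) (671/10000) (7/2000) (1741/2500) (87/125) (567/5000) := by
  constructor <;> norm_num

theorem b7_6 : BoxC 7 7 (77/100) (83/100) (1/2) 1 (8573/10000) (1451/500) (1067/625) (463/500) (6457/10000) (583/2000) 0 (6417/10000) (3787/10000) (993/5000) (1279/10000) (97/10000) (6819/10000) (681/1000) (749/5000) := by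
  constructor <;> norm_num

theorem b7_7 : BoxC 7 7 (83/100) (89/100) 0 (1/2) 1 (2989/1000) (3/2) (131/200) (3331/5000) (133/400) 0 (1033/2000) (121/500) (249/2500) (32/625) (23/10000) (7603/10000) (19/25) (39/400) := by
  constructor <;> norm_num

theorem b7_8 : BoxC 7 7 (83/100) (89/100) (1/2) 1 (8573/10000) (2989/1000) (1067/625) (463/500) (6201/10000) (1201/5000) 0 (753/1250) (813/2500) (307/2000) (13/125) (7/1000) (1873/2500) (749/1000) (259/2000) := by
  constructor <;> norm_num

theorem b7_9 : BoxC 7 7 (89/100) (19/20) 0 (1/2) 1 (619/200) (3/2) (131/200) (6437/10000) (23/80) 0 (237/500) (1957/10000) (167/2500) (22/625) (13/10000) (8307/10000) (22/25) (811/10000) := by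
  constructor <;> norm_num

theorem b7_10 : BoxC 7 7 (89/100) (19/20) (1/2) 1 (8573/10000) (619/200) (1067/625) (463/500) (1189/2000) (189/1000) 0 (5569/10000) (667/2500) (11/100) (789/10000) (9/2000) (8233/10000) (823/1000) (1083/10000) := by
  constructor <;> norm_num

theorem mid_7 {N : ℕ} {a : ℝ} {ζ z : Fin N → ℂ} (h : Fr N a ζ z) (hN1 : 7 ≤ N) (hN2 : N ≤ 7)
    (ha2 : a ≤ (19/20)) (hw2 : W a ζ ≤ 1) : False := by
  have ha1 : (0:ℝ) ≤ a := h.a0.le
  have hw1 : (0:ℝ) ≤ W a ζ := W_nonneg
  rcases le_total (a) (19/40) with g1 | g1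
  · exact box h b7_0 (by omega) hN1 hN2 ha1 g1 hw1 hw2
  · rcases le_total (a) (71/100) with g2 | g2
    · rcases le_total (a) (59/100) with g3 | g3
      · exact box h b7_1 (by omega) hN1 hN2 g1 g3 hw1 hw2
      · rcases le_total (a) (13/20) with g4 | g4
        · exact box h b7_2 (by omega) hN1 hN2 g3 g4 hw1 hw2
        · exact box h b7_3 (by omega) hN1 hN2 g4 g2 hw1 hw2
    · rcases le_total (a) (83/100) with g5 | g5
      · rcases le_total (a) (77/100) with g6 | g6
        · exact box h b7_4 (by omega) hN1 hN2 g2 g6 hw1 hw2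
        · rcases le_total (W a ζ) (1/2) with g7 | g7
          · exact box h b7_5 (by omega) hN1 hN2 g6 g5 hw1 g7
          · exact box h b7_6 (by omega) hN1 hN2 g6 g5 g7 hw2
      · rcases le_total (a) (89/100) with g8 | g8
        · rcases le_total (W a ζ) (1/2) with g9 | g9
          · exact box h b7_7 (by omega) hN1 hN2 g5 g8 hw1 g9
          · exact box h b7_8 (by omega) hN1 hN2 g5 g8 g9 hw2
        · rcases le_total (W a ζ) (1/2) with g10 | g10
          · exact box h b7_9 (by omega) hN1 hN2 g8 ha2 hw1 g10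
          · exact box h b7_10 (by omega) hN1 hN2 g8 ha2 g10 hw2

end Pool.Agent.Lib.MP_172a45_an.H64
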