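import Pool.Agent.Lib.MP_172a45_an.H64.Box

set_option autoImplicit false

/-!
# Boxes: N from 8 to 11 (generated)
-/

namespace Pool.Agent.Lib.MP_172a45_an.H64

open F

theorem b8_0 : BoxC 8 8 0 (19/40) 0 1 1 (2567/1000) (1067/625) (117/125) (1993/2500) (1189/2000) (1959/5000) (4277/5000) (6609/10000) (897/2000) (669/2500) (19/500) (2583/10000) (129/500) (2613/10000) := by
  constructor <;> norm_num

theorem b8_1 : BoxC 8 8 (19/40) (59/100) 0 1 1 (1387/500) (1067/625) (117/125) (7481/10000) (4963/10000) (489/2000) (457/625) (633/1250) (204/625) (381/2000) (57/2500) (4111/10000) (411/1000) (81/400) := by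
  constructor <;> norm_num

theorem b8_2 : BoxC 8 8 (59/100) (71/100) 0 1 1 (1431/500) (1067/625) (117/125) (6969/10000) (3939/10000) (909/10000) (6993/10000) (23/50) (1393/5000) (407/2500) (9/500) (491/1000) (491/1000) (913/5000) := by
  constructor <;> norm_num

theorem b8_3 : BoxC 8 8 (71/100) (77/100) 0 1 1 (153/50) (1067/625) (117/125) (6713/10000) (3427/10000) (7/500) (6007/10000) (3423/10000) (913/5000) (553/5000) (101/10000) (1207/2000) (603/1000) (1377/10000) := by
  constructor <;> norm_num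

theorem b8_4 : BoxC 8 8 (77/100) (83/100) 0 1 1 (3161/1000) (1067/625) (117/125) (6457/10000) (583/2000) 0 (5603/10000) (1463/5000) (281/2000) (89/1000) (73/10000) (6661/10000) (333/500) (593/5000) := by
  constructor <;> norm_num

theorem b8_5 : BoxC 8 8 (83/100) (89/100) 0 (1/2) 1 (657/200) (3/2) (331/500) (3331/5000) (133/400) 0 (879/2000) (883/5000) (163/2500) (333/10000) (17/10000) (7453/10000) (821/1000) (761/10000) := by
  constructor <;> norm_num

theorem b8_6 : BoxC 8 8 (83/100) (89/100) (1/2) 1 (4289/5000) (657/200) (1067/625) (117/125) (6201/10000) (1201/5000) 0 (5137/10000) (2387/10000) (201/2000) (133/2000) (47/10000) (1839/2500) (147/200) (989/10000) := by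
  constructor <;> norm_num

theorem b8_7 : BoxC 8 8 (89/100) (19/20) 0 (1/2) 1 (1719/500) (3/2) (331/500) (6437/10000) (23/80) 0 (783/2000) (133/1000) (97/2500) (199/10000) (1/1250) (8193/10000) (19/20) (611/10000) := by
  constructor <;> norm_num

theorem b8_8 : BoxC 8 8 (89/100) (19/20) (1/2) 1 (4289/5000) (1719/500) (1067/625) (117/125) (1189/2000) (189/1000) 0 (4613/10000) (183/1000) (161/2500) (111/2500) (13/5000) (508/625) (203/250) (793/10000) := by
  constructor <;> norm_num

theorem mid_8 {N : ℕ} {a : ℝ} {ζ z : Fin N → ℂ} (h : Fr N a ζ z) (hN1 : 8 ≤ N) (hN2 : N ≤ 8)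
    (ha2 : a ≤ (19/20)) (hw2 : W a ζ ≤ 1) : False := by
  have ha1 : (0:ℝ) ≤ a := h.a0.le
  have hw1 : (0:ℝ) ≤ W a ζ := W_nonneg
  rcases le_total (a) (19/40) with g1 | g1
  · exact box h b8_0 (by omega) hN1 hN2 ha1 g1 hw1 hw2
  · rcases le_total (a) (71/100) with g2 | g2
    · rcases le_total (a) (59/100) with g3 | g3
      · exact box h b8_1 (by omega) hN1 hN2 g1 g3 hw1 hw2
      · exact box h b8_2 (by omega) hN1 hN2 g3 g2 hw1 hw2
    · rcases le_total (a) (83/100) with g4 | g4
      · rcases le_total (a) (77/100) with g5 | g5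
        · exact box h b8_3 (by omega) hN1 hN2 g2 g5 hw1 hw2
        · exact box h b8_4 (by omega) hN1 hN2 g5 g4 hw1 hw2
      · rcases le_total (a) (89/100) with g6 | g6
        · rcases le_total (W a ζ) (1/2) with g7 | g7
          · exact box h b8_5 (by omega) hN1 hN2 g4 g6 hw1 g7
          · exact box h b8_6 (by omega) hN1 hN2 g4 g6 g7 hw2
        · rcases le_total (W a ζ) (1/2) with g8 | g8
          · exact box h b8_7 (by omega) hN1 hN2 g6 ha2 hw1 g8
          · exact box h b8_8 (by omega) hN1 hN2 g6 ha2 g8 hw2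

theorem b9_0 : BoxC 9 9 0 (19/40) 0 1 1 (2673/1000) (1067/625) (943/1000) (1993/2500) (1189/2000) (1959/5000) (2081/2500) (5/8) (4121/10000) (2397/10000) (37/1000) (1207/5000) (241/1000) (1227/5000) := by
  constructor <;> norm_num

theorem b9_1 : BoxC 9 9 (19/40) (59/100) 0 1 1 (729/250) (1067/625) (943/1000) (7481/10000) (4963/10000) (489/2000) (3443/5000) (2267/5000) (2821/10000) (1629/10000) (107/5000) (3937/10000) (393/1000) (1817/10000) := by
  constructor <;> norm_num

theorem b9_2 : BoxC 9 9 (59/100) (71/100) 0 1 1 (757/250) (1067/625) (943/1000) (6969/10000) (3939/10000) (909/10000) (807/1250) (3977/10000) (577/2500) (1343/10000) (81/5000) (2371/5000) (237/500) (199/1250) := by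
  constructor <;> norm_num

theorem b9_3 : BoxC 9 9 (71/100) (77/100) 0 1 1 (3267/1000) (1067/625) (943/1000) (6713/10000) (3427/10000) (7/500) (5383/10000) (2797/10000) (1409/10000) (171/2000) (17/2000) (47/80) (587/1000) (1153/10000) := by
  constructor <;> norm_num

theorem b9_4 : BoxC 9 9 (77/100) (83/100) 0 1 1 (1699/500) (1067/625) (943/1000) (6457/10000) (583/2000) 0 (4923/10000) (2297/10000) (1027/10000) (649/10000) (29/5000) (6513/10000) (651/1000) (483/5000) := by
  constructor <;> norm_num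

theorem b9_5 : BoxC 9 9 (83/100) (19/20) 0 (1/2) 1 (1733/500) (3/2) (667/1000) (6437/10000) (23/80) 0 (807/2000) (749/5000) (131/2500) (3/100) (19/10000) (7209/10000) (41/50) (677/10000) := by
  constructor <;> norm_num

theorem b9_6 : BoxC 9 9 (83/100) (89/100) (1/2) 1 (4291/5000) (89/25) (1067/625) (943/1000) (6201/10000) (1201/5000) 0 (2203/5000) (89/500) (681/10000) (447/10000) (17/5000) (7227/10000) (361/500) (781/10000) := by
  constructor <;> norm_num

theorem b9_7 : BoxC 9 9 (89/100) (19/20) (1/2) 1 (4291/5000) (941/250) (1067/625) (943/1000) (1189/2000) (189/1000) 0 (3839/10000) (1271/10000) (389/10000) (131/5000) (1/625) (8027/10000) (401/500) (303/5000) := by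
  constructor <;> norm_num

theorem mid_9 {N : ℕ} {a : ℝ} {ζ z : Fin N → ℂ} (h : Fr N a ζ z) (hN1 : 9 ≤ N) (hN2 : N ≤ 9)
    (ha2 : a ≤ (19/20)) (hw2 : W a ζ ≤ 1) : False := by
  have ha1 : (0:ℝ) ≤ a := h.a0.le
  have hw1 : (0:ℝ) ≤ W a ζ := W_nonneg
  rcases le_total (a) (19/40) with g1 | g1
  · exact box h b9_0 (by omega) hN1 hN2 ha1 g1 hw1 hw2
  · rcases le_total (a) (71/100) with g2 | g2
    · rcases le_total (a) (59/100) with g3 | g3
      · exact box h b9_1 (by omega) hN1 hN2 g1 g3 hw1 hw2
      · exact box h b9_2 (by omega) hN1 hN2 g3 g2 hw1 hw2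
    · rcases le_total (a) (83/100) with g4 | g4
      · rcases le_total (a) (77/100) with g5 | g5
        · exact box h b9_3 (by omega) hN1 hN2 g2 g5 hw1 hw2
        · exact box h b9_4 (by omega) hN1 hN2 g5 g4 hw1 hw2
      · rcases le_total (W a ζ) (1/2) with g6 | g6
        · exact box h b9_5 (by omega) hN1 hN2 g4 ha2 hw1 g6
        · rcases le_total (a) (89/100) with g7 | g7
          · exact box h b9_6 (by omega) hN1 hN2 g4 g7 g6 hw2
          · exact box h b9_7 (by omega) hN1 hN2 g7 ha2 g6 hw2

theorem b10_0 : BoxC 10 11 0 (19/40) 0 1 1 (2713/1000) (1067/625) (477/500) (1993/2500) (1189/2000) (1959/5000) (8247/10000) (1539/2500) (2039/5000) (1217/5000) (57/1250) (2011/10000) (201/1000) (2433/10000) := by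
  constructor <;> norm_num

theorem b10_1 : BoxC 10 11 (19/40) (59/100) 0 1 1 (2991/1000) (1067/625) (477/500) (7481/10000) (4963/10000) (489/2000) (3311/5000) (2139/5000) (168/625) (327/2000) (269/10000) (699/2000) (349/1000) (349/2000) := by
  constructor <;> norm_num

theorem b10_2 : BoxC 10 11 (59/100) (13/20) 0 1 1 (127/40) (1067/625) (477/500) (289/400) (4451/10000) (1677/10000) (2887/5000) (3351/10000) (1979/10000) (1231/10000) (23/1250) (433/1000) (433/1000) (1397/10000) := by
  constructor <;> norm_num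

theorem b10_3 : BoxC 10 11 (13/20) (71/100) 0 1 1 (3283/1000) (1067/625) (477/500) (6969/10000) (3939/10000) (909/10000) (539/1000) (2929/10000) (817/5000) (1033/10000) (73/5000) (2417/5000) (483/1000) (77/625) := by
  constructor <;> norm_num

theorem b10_4 : BoxC 10 11 (71/100) (77/100) 0 1 1 (683/200) (1067/625) (477/500) (6713/10000) (3427/10000) (7/500) (989/2000) (123/500) (1263/10000) (413/5000) (27/2500) (5399/10000) (539/1000) (1053/10000) := by
  constructor <;> norm_num

theorem b10_5 : BoxC 10 11 (77/100) (83/100) 0 1 1 (1789/500) (1067/625) (477/500) (6457/10000) (583/2000) 0 (1111/2500) (983/5000) (901/10000) (77/1250) (73/10000) (377/625) (603/1000) (217/2500) := by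
  constructor <;> norm_num

theorem b10_6 : BoxC 10 11 (83/100) (89/100) 0 1 1 (473/125) (1067/625) (477/500) (6201/10000) (1201/5000) 0 (973/2500) (1471/10000) (291/5000) (413/10000) (43/10000) (6743/10000) (337/500) (43/625) := by
  constructor <;> norm_num

theorem b10_7 : BoxC 10 11 (89/100) (19/20) 0 (1/2) 1 (4049/1000) (3/2) (27/40) (6437/10000) (23/80) 0 (351/1250) (747/10000) (211/10000) (63/5000) (9/10000) (3797/5000) (19/20) (107/2500) := by
  constructor <;> norm_num

theorem b10_8 : BoxC 10 11 (89/100) (19/20) (1/2) 1 (2147/2500) (4049/1000) (1067/625) (477/500) (1189/2000) (189/1000) 0 (1649/5000) (251/2500) (321/10000) (233/10000) (1/500) (3773/5000) (377/500) (523/10000) := by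
  constructor <;> norm_num

theorem mid_10 {N : ℕ} {a : ℝ} {ζ z : Fin N → ℂ} (h : Fr N a ζ z) (hN1 : 10 ≤ N) (hN2 : N ≤ 11)
    (ha2 : a ≤ (19/20)) (hw2 : W a ζ ≤ 1) : False := by
  have ha1 : (0:ℝ) ≤ a := h.a0.le
  have hw1 : (0:ℝ) ≤ W a ζ := W_nonneg
  rcases le_total (a) (19/40) with g1 | g1
  · exact box h b10_0 (by omega) hN1 hN2 ha1 g1 hw1 hw2
  · rcases le_total (a) (71/100) with g2 | g2
    · rcases le_total (a) (59/100) with g3 | g3
      · exact box h b10_1 (by omega) hN1 hN2 g1 g3 hw1 hw2
      · rcases le_total (a) (13/20) with g4 | g4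
        · exact box h b10_2 (by omega) hN1 hN2 g3 g4 hw1 hw2
        · exact box h b10_3 (by omega) hN1 hN2 g4 g2 hw1 hw2
    · rcases le_total (a) (83/100) with g5 | g5
      · rcases le_total (a) (77/100) with g6 | g6
        · exact box h b10_4 (by omega) hN1 hN2 g2 g6 hw1 hw2
        · exact box h b10_5 (by omega) hN1 hN2 g6 g5 hw1 hw2
      · rcases le_total (a) (89/100) with g7 | g7
        · exact box h b10_6 (by omega) hN1 hN2 g5 g7 hw1 hw2
        · rcases le_total (W a ζ) (1/2) with g8 | g8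
          · exact box h b10_7 (by omega) hN1 hN2 g7 ha2 hw1 g8
          · exact box h b10_8 (by omega) hN1 hN2 g7 ha2 g8 hw2

end Pool.Agent.Lib.MP_172a45_an.H64
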