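import Pool.Agent.Lib.MP_172a45_an.H64.Box

set_option autoImplicit false

/-!
# Boxes: N from 12 to 20 (generated)
-/

namespace Pool.Agent.Lib.MP_172a45_an.H64

open F

theorem b12_0 : BoxC 12 13 0 (19/40) 0 1 1 (721/250) (1067/625) (961/1000) (1993/2500) (1189/2000) (1959/5000) (3947/5000) (5631/10000) (3561/10000) (2031/10000) (409/10000) (1833/10000) (183/1000) (1101/5000) := by
  constructor <;> norm_num

theorem b12_1 : BoxC 12 13 (19/40) (59/100) 0 1 1 (402/125) (1067/625) (961/1000) (7481/10000) (4963/10000) (489/2000) (597/1000) (889/2500) (2123/10000) (1279/10000) (227/10000) (413/1250) (33/100) (1467/10000) := by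
  constructor <;> norm_num

theorem b12_2 : BoxC 12 13 (59/100) (13/20) 0 1 1 (1721/500) (1067/625) (961/1000) (289/400) (4451/10000) (1677/10000) (5013/10000) (653/2500) (291/2000) (57/625) (37/2500) (4137/10000) (413/1000) (561/5000) := by
  constructor <;> norm_num

theorem b12_3 : BoxC 12 13 (13/20) (71/100) 0 1 1 (179/50) (1067/625) (961/1000) (6969/10000) (3939/10000) (909/10000) (913/2000) (437/2000) (1141/10000) (367/5000) (7/625) (1161/2500) (58/125) (961/10000) := by
  constructor <;> norm_num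

theorem b12_4 : BoxC 12 13 (71/100) (77/100) 0 1 1 (3753/1000) (1067/625) (961/1000) (6713/10000) (3427/10000) (7/500) (2031/5000) (347/2000) (103/1250) (69/1250) (39/5000) (326/625) (521/1000) (793/10000) := by
  constructor <;> norm_num

theorem b12_5 : BoxC 12 13 (77/100) (83/100) 0 1 1 (397/100) (1067/625) (961/1000) (6457/10000) (583/2000) 0 (3519/10000) (323/2500) (67/1250) (377/10000) (3/625) (5861/10000) (61/100) (63/1000) := by
  constructor <;> norm_num

theorem b12_6 : BoxC 12 13 (83/100) (19/20) 0 (1/2) 1 (1037/250) (3/2) (17/25) (6437/10000) (23/80) 0 (541/2000) (751/10000) (49/2000) (41/2500) (17/10000) (263/400) (89/100) (27/625) := by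
  constructor <;> norm_num

theorem b12_7 : BoxC 12 13 (83/100) (19/20) (1/2) 1 (537/625) (1037/250) (1067/625) (961/1000) (1189/2000) (189/1000) 0 (789/2500) (983/10000) (7/200) (27/1000) (2/625) (1303/2000) (651/1000) (521/10000) := by
  constructor <;> norm_num

theorem mid_12 {N : ℕ} {a : ℝ} {ζ z : Fin N → ℂ} (h : Fr N a ζ z) (hN1 : 12 ≤ N) (hN2 : N ≤ 13)
    (ha2 : a ≤ (19/20)) (hw2 : W a ζ ≤ 1) : False := by
  have ha1 : (0:ℝ) ≤ a := h.a0.le
  have hw1 : (0:ℝ) ≤ W a ζ := W_nonneg
  rcases le_total (a) (19/40) with g1 | g1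
  · exact box h b12_0 (by omega) hN1 hN2 ha1 g1 hw1 hw2
  · rcases le_total (a) (71/100) with g2 | g2
    · rcases le_total (a) (59/100) with g3 | g3
      · exact box h b12_1 (by omega) hN1 hN2 g1 g3 hw1 hw2
      · rcases le_total (a) (13/20) with g4 | g4
        · exact box h b12_2 (by omega) hN1 hN2 g3 g4 hw1 hw2
        · exact box h b12_3 (by omega) hN1 hN2 g4 g2 hw1 hw2
    · rcases le_total (a) (83/100) with g5 | g5
      · rcases le_total (a) (77/100) with g6 | g6
        · exact box h b12_4 (by omega) hN1 hN2 g2 g6 hw1 hw2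
        · exact box h b12_5 (by omega) hN1 hN2 g6 g5 hw1 hw2
      · rcases le_total (W a ζ) (1/2) with g7 | g7
        · exact box h b12_6 (by omega) hN1 hN2 g5 ha2 hw1 g7
        · exact box h b12_7 (by omega) hN1 hN2 g5 ha2 g7 hw2

theorem b14_0 : BoxC 14 16 0 (19/40) 0 1 1 (2993/1000) (1067/625) (969/1000) (1993/2500) (1189/2000) (1959/5000) (7683/10000) (5341/10000) (3309/10000) (933/5000) (419/10000) (779/5000) (31/200) (2087/10000) := by
  constructor <;> norm_num

theorem b14_1 : BoxC 14 16 (19/40) (59/100) 0 1 1 (3373/1000) (1067/625) (969/1000) (7481/10000) (4963/10000) (489/2000) (2747/5000) (3103/10000) (114/625) (1131/10000) (57/2500) (1497/5000) (299/1000) (327/2500) := by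
  constructor <;> norm_num

theorem b14_2 : BoxC 14 16 (59/100) (13/20) 0 1 1 (3637/1000) (1067/625) (969/1000) (289/400) (4451/10000) (1677/10000) (2229/5000) (1081/5000) (1187/10000) (781/10000) (73/5000) (3809/10000) (19/50) (483/5000) := by
  constructor <;> norm_num

theorem b14_3 : BoxC 14 16 (13/20) (71/100) 0 1 1 (951/250) (1067/625) (969/1000) (6969/10000) (3939/10000) (909/10000) (3967/10000) (871/5000) (56/625) (153/2500) (109/10000) (4309/10000) (43/100) (101/1250) := by
  constructor <;> norm_num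

theorem b14_4 : BoxC 14 16 (71/100) (77/100) 0 1 1 (803/200) (1067/625) (969/1000) (6713/10000) (3427/10000) (7/500) (687/2000) (1323/10000) (617/10000) (111/2500) (37/5000) (2437/5000) (487/1000) (651/10000) := by
  constructor <;> norm_num

theorem b14_5 : BoxC 14 16 (77/100) (83/100) 0 1 1 (857/200) (1067/625) (969/1000) (6457/10000) (583/2000) 0 (2877/10000) (929/10000) (189/5000) (18/625) (11/2500) (1103/2000) (31/50) (63/1250) := by
  constructor <;> norm_num

theorem b14_6 : BoxC 14 16 (83/100) (19/20) 0 (1/2) 1 (907/200) (3/2) (137/200) (6437/10000) (23/80) 0 (17/80) (101/2000) (81/5000) (119/10000) (3/2000) (623/1000) (181/200) (69/2000) := by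
  constructor <;> norm_num

theorem b14_7 : BoxC 14 16 (83/100) (19/20) (1/2) 1 (2149/2500) (907/200) (1067/625) (969/1000) (1189/2000) (189/1000) 0 (1237/5000) (327/5000) (9/400) (47/2500) (13/5000) (6181/10000) (663/1000) (81/2000) := by
  constructor <;> norm_num

theorem mid_14 {N : ℕ} {a : ℝ} {ζ z : Fin N → ℂ} (h : Fr N a ζ z) (hN1 : 14 ≤ N) (hN2 : N ≤ 16)
    (ha2 : a ≤ (19/20)) (hw2 : W a ζ ≤ 1) : False := by
  have ha1 : (0:ℝ) ≤ a := h.a0.le
  have hw1 : (0:ℝ) ≤ W a ζ := W_nonneg
  rcases le_total (a) (19/40) with g1 | g1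
  · exact box h b14_0 (by omega) hN1 hN2 ha1 g1 hw1 hw2
  · rcases le_total (a) (71/100) with g2 | g2
    · rcases le_total (a) (59/100) with g3 | g3
      · exact box h b14_1 (by omega) hN1 hN2 g1 g3 hw1 hw2
      · rcases le_total (a) (13/20) with g4 | g4
        · exact box h b14_2 (by omega) hN1 hN2 g3 g4 hw1 hw2
        · exact box h b14_3 (by omega) hN1 hN2 g4 g2 hw1 hw2
    · rcases le_total (a) (83/100) with g5 | g5
      · rcases le_total (a) (77/100) with g6 | g6
        · exact box h b14_4 (by omega) hN1 hN2 g2 g6 hw1 hw2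
        · exact box h b14_5 (by omega) hN1 hN2 g6 g5 hw1 hw2
      · rcases le_total (W a ζ) (1/2) with g7 | g7
        · exact box h b14_6 (by omega) hN1 hN2 g5 ha2 hw1 g7
        · exact box h b14_7 (by omega) hN1 hN2 g5 ha2 g7 hw2

theorem b17_0 : BoxC 17 20 0 (6/25) 0 1 1 (3207/1000) (1067/625) (39/40) (359/400) (7951/10000) (6927/10000) (1523/2500) (3521/10000) (383/2000) (1507/10000) (91/2500) (1353/10000) (171/1000) (1457/10000) := by
  constructor <;> norm_num

theorem b17_1 : BoxC 17 20 (6/25) (19/40) 0 1 1 (163/50) (1067/625) (39/40) (1993/2500) (1189/2000) (1959/5000) (6523/10000) (4069/10000) (2413/10000) (1411/10000) (337/10000) (841/5000) (21/125) (327/2000) := by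
  constructor <;> norm_num

theorem b17_2 : BoxC 17 20 (19/40) (59/100) 0 1 1 (359/100) (1067/625) (39/40) (7481/10000) (4963/10000) (489/2000) (4869/10000) (1271/5000) (363/2500) (58/625) (207/10000) (2729/10000) (34/125) (221/2000) := by
  constructor <;> norm_num

theorem b17_3 : BoxC 17 20 (59/100) (13/20) 0 1 1 (3901/1000) (1067/625) (39/40) (289/400) (4451/10000) (1677/10000) (47/125) (41/250) (219/2500) (613/10000) (8/625) (441/1250) (44/125) (779/10000) := by
  constructor <;> norm_num

theorem b17_4 : BoxC 17 20 (13/20) (71/100) 0 1 1 (821/200) (1067/625) (39/40) (6969/10000) (3939/10000) (909/10000) (3237/10000) (313/2500) (313/5000) (231/5000) (23/2500) (201/500) (201/500) (317/5000) := by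
  constructor <;> norm_num

theorem b17_5 : BoxC 17 20 (71/100) (77/100) 0 1 1 (873/200) (1067/625) (39/40) (6713/10000) (3427/10000) (7/500) (539/2000) (891/10000) (403/10000) (159/5000) (3/500) (4579/10000) (63/125) (31/625) := by
  constructor <;> norm_num

theorem b17_6 : BoxC 17 20 (77/100) (83/100) 0 1 1 (2353/500) (1067/625) (39/40) (6457/10000) (583/2000) 0 (43/200) (23/400) (14/625) (19/1000) (33/10000) (1043/2000) (333/500) (3/80) := by
  constructor <;> norm_num

theorem b17_7 : BoxC 17 20 (83/100) (19/20) 0 1 1 (1011/200) (1067/625) (39/40) (1189/2000) (189/1000) 0 (1739/10000) (181/5000) (117/10000) (109/10000) (17/10000) (2947/5000) (853/1000) (293/10000) := by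
  constructor <;> norm_num

theorem mid_17 {N : ℕ} {a : ℝ} {ζ z : Fin N → ℂ} (h : Fr N a ζ z) (hN1 : 17 ≤ N) (hN2 : N ≤ 20)
    (ha2 : a ≤ (19/20)) (hw2 : W a ζ ≤ 1) : False := by
  have ha1 : (0:ℝ) ≤ a := h.a0.le
  have hw1 : (0:ℝ) ≤ W a ζ := W_nonneg
  rcases le_total (a) (19/40) with g1 | g1
  · rcases le_total (a) (6/25) with g2 | g2
    · exact box h b17_0 (by omega) hN1 hN2 ha1 g2 hw1 hw2
    · exact box h b17_1 (by omega) hN1 hN2 g2 g1 hw1 hw2
  · rcases le_total (a) (71/100) with g3 | g3
    · rcases le_total (a) (59/100) with g4 | g4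
      · exact box h b17_2 (by omega) hN1 hN2 g1 g4 hw1 hw2
      · rcases le_total (a) (13/20) with g5 | g5
        · exact box h b17_3 (by omega) hN1 hN2 g4 g5 hw1 hw2
        · exact box h b17_4 (by omega) hN1 hN2 g5 g3 hw1 hw2
    · rcases le_total (a) (83/100) with g6 | g6
      · rcases le_total (a) (77/100) with g7 | g7
        · exact box h b17_5 (by omega) hN1 hN2 g3 g7 hw1 hw2
        · exact box h b17_6 (by omega) hN1 hN2 g7 g6 hw1 hw2
      · exact box h b17_7 (by omega) hN1 hN2 g6 ha2 hw1 hw2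

end Pool.Agent.Lib.MP_172a45_an.H64
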