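import Pool.Agent.Lib.MP_172a45_an.H64.Box

set_option autoImplicit false

/-!
# Boxes: N from 21 to 39 (generated)
-/

namespace Pool.Agent.Lib.MP_172a45_an.H64

open F

theorem b21_0 : BoxC 21 25 0 (6/25) 0 1 1 (677/200) (1067/625) (49/50) (359/400) (7951/10000) (6927/10000) (5833/10000) (809/2500) (849/5000) (1277/10000) (33/1000) (577/5000) (149/1000) (669/5000) := by
  constructor <;> norm_num

theorem b21_1 : BoxC 21 25 (6/25) (19/40) 0 1 1 (1727/500) (1067/625) (49/50) (1993/2500) (1189/2000) (1959/5000) (3039/5000) (717/2000) (1023/5000) (47/400) (301/10000) (1481/10000) (37/250) (1451/10000) := by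
  constructor <;> norm_num

theorem b21_2 : BoxC 21 25 (19/40) (59/100) 0 1 1 (767/200) (1067/625) (49/50) (7481/10000) (4963/10000) (489/2000) (4191/10000) (1991/10000) (221/2000) (46/625) (177/10000) (2507/10000) (1/4) (907/10000) := by
  constructor <;> norm_num

theorem b21_3 : BoxC 21 25 (59/100) (13/20) 0 1 1 (4197/1000) (1067/625) (49/50) (289/400) (4451/10000) (1677/10000) (3039/10000) (583/5000) (38/625) (463/10000) (21/2000) (411/1250) (329/1000) (607/10000) := by
  constructor <;> norm_num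

theorem b21_4 : BoxC 21 25 (13/20) (71/100) 0 1 1 (2221/500) (1067/625) (49/50) (6969/10000) (3939/10000) (909/10000) (2509/10000) (833/10000) (203/5000) (67/2000) (73/10000) (3773/10000) (52/125) (6/125) := by
  constructor <;> norm_num

theorem b21_5 : BoxC 21 25 (71/100) (83/100) 0 1 1 (2347/500) (1067/625) (49/50) (6457/10000) (583/2000) 0 (263/1250) (593/10000) (257/10000) (119/5000) (1/200) (2149/5000) (259/500) (193/5000) := by
  constructor <;> norm_num

theorem b21_6 : BoxC 21 25 (83/100) (19/20) 0 1 1 (113/20) (1067/625) (49/50) (1189/2000) (189/1000) 0 (223/2000) (173/10000) (53/10000) (59/10000) (11/10000) (2821/5000) (469/500) (213/10000) := by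
  constructor <;> norm_num

theorem mid_21 {N : ℕ} {a : ℝ} {ζ z : Fin N → ℂ} (h : Fr N a ζ z) (hN1 : 21 ≤ N) (hN2 : N ≤ 25)
    (ha2 : a ≤ (19/20)) (hw2 : W a ζ ≤ 1) : False := by
  have ha1 : (0:ℝ) ≤ a := h.a0.le
  have hw1 : (0:ℝ) ≤ W a ζ := W_nonneg
  rcases le_total (a) (19/40) with g1 | g1
  · rcases le_total (a) (6/25) with g2 | g2
    · exact box h b21_0 (by omega) hN1 hN2 ha1 g2 hw1 hw2
    · exact box h b21_1 (by omega) hN1 hN2 g2 g1 hw1 hw2
  · rcases le_total (a) (71/100) with g3 | g3
    · rcases le_total (a) (59/100) with g4 | g4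
      · exact box h b21_2 (by omega) hN1 hN2 g1 g4 hw1 hw2
      · rcases le_total (a) (13/20) with g5 | g5
        · exact box h b21_3 (by omega) hN1 hN2 g4 g5 hw1 hw2
        · exact box h b21_4 (by omega) hN1 hN2 g5 g3 hw1 hw2
    · rcases le_total (a) (83/100) with g6 | g6
      · exact box h b21_5 (by omega) hN1 hN2 g3 g6 hw1 hw2
      · exact box h b21_6 (by omega) hN1 hN2 g6 ha2 hw1 hw2

theorem b26_0 : BoxC 26 31 0 (6/25) 0 1 1 (3569/1000) (1067/625) (123/125) (359/400) (7951/10000) (6927/10000) (223/400) (741/2500) (299/2000) (1073/10000) (293/10000) (99/1000) (131/1000) (1227/10000) := by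
  constructor <;> norm_num

theorem b26_1 : BoxC 26 31 (6/25) (9/25) 0 1 1 (737/200) (1067/625) (123/125) (8463/10000) (6927/10000) (539/1000) (641/1250) (1339/5000) (1431/10000) (937/10000) (253/10000) (331/2500) (141/1000) (71/625) := by
  constructor <;> norm_num

theorem b26_2 : BoxC 26 31 (9/25) (19/40) 0 1 1 (3843/1000) (1067/625) (123/125) (1993/2500) (1189/2000) (1959/5000) (1113/2500) (109/500) (239/2000) (777/10000) (103/5000) (1747/10000) (87/500) (969/10000) := by
  constructor <;> norm_num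

theorem b26_3 : BoxC 26 31 (19/40) (59/100) 0 1 1 (817/200) (1067/625) (123/125) (7481/10000) (4963/10000) (489/2000) (1763/5000) (1511/10000) (819/10000) (581/10000) (149/10000) (29/125) (29/125) (367/5000) := by
  constructor <;> norm_num

theorem b26_4 : BoxC 26 31 (59/100) (71/100) 0 1 1 (4459/1000) (1067/625) (123/125) (6969/10000) (3939/10000) (909/10000) (499/2000) (851/10000) (27/625) (183/5000) (9/1000) (3073/10000) (329/1000) (49/1000) := by
  constructor <;> norm_num

theorem b26_5 : BoxC 26 31 (71/100) (83/100) 0 1 1 (5099/1000) (1067/625) (123/125) (6457/10000) (583/2000) 0 (1471/10000) (169/5000) (9/625) (2/125) (9/2500) (817/2000) (567/1000) (71/2500) := by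
  constructor <;> norm_num

theorem b26_6 : BoxC 26 31 (83/100) (19/20) 0 1 1 (3137/500) (1067/625) (123/125) (1189/2000) (189/1000) 0 (331/5000) (3/400) (11/5000) (31/10000) (3/5000) (2709/5000) (19/20) (163/10000) := by
  constructor <;> norm_num

theorem mid_26 {N : ℕ} {a : ℝ} {ζ z : Fin N → ℂ} (h : Fr N a ζ z) (hN1 : 26 ≤ N) (hN2 : N ≤ 31)
    (ha2 : a ≤ (19/20)) (hw2 : W a ζ ≤ 1) : False := by
  have ha1 : (0:ℝ) ≤ a := h.a0.le
  have hw1 : (0:ℝ) ≤ W a ζ := W_nonneg
  rcases le_total (a) (19/40) with g1 | g1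
  · rcases le_total (a) (6/25) with g2 | g2
    · exact box h b26_0 (by omega) hN1 hN2 ha1 g2 hw1 hw2
    · rcases le_total (a) (9/25) with g3 | g3
      · exact box h b26_1 (by omega) hN1 hN2 g2 g3 hw1 hw2
      · exact box h b26_2 (by omega) hN1 hN2 g3 g1 hw1 hw2
  · rcases le_total (a) (71/100) with g4 | g4
    · rcases le_total (a) (59/100) with g5 | g5
      · exact box h b26_3 (by omega) hN1 hN2 g1 g5 hw1 hw2
      · exact box h b26_4 (by omega) hN1 hN2 g5 g4 hw1 hw2
    · rcases le_total (a) (83/100) with g6 | g6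
      · exact box h b26_5 (by omega) hN1 hN2 g4 g6 hw1 hw2
      · exact box h b26_6 (by omega) hN1 hN2 g6 ha2 hw1 hw2

theorem b32_0 : BoxC 32 39 0 (6/25) 0 1 1 (1871/500) (1067/625) (247/250) (359/400) (7951/10000) (6927/10000) (1069/2000) (683/2500) (133/1000) (917/10000) (33/1250) (831/10000) (14/125) (227/2000) := by
  constructor <;> norm_num

theorem b32_1 : BoxC 32 39 (6/25) (9/25) 0 1 1 (3871/1000) (1067/625) (247/250) (8463/10000) (6927/10000) (539/1000) (237/500) (2343/10000) (76/625) (791/10000) (9/400) (1159/10000) (63/500) (253/2500) := by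
  constructor <;> norm_num

theorem b32_2 : BoxC 32 39 (9/25) (19/40) 0 1 1 (506/125) (1067/625) (247/250) (1993/2500) (1189/2000) (1959/5000) (491/1250) (357/2000) (479/5000) (129/2000) (181/10000) (787/5000) (157/1000) (827/10000) := by
  constructor <;> norm_num

theorem b32_3 : BoxC 32 39 (19/40) (59/100) 0 1 1 (4321/1000) (1067/625) (247/250) (7481/10000) (4963/10000) (489/2000) (1459/5000) (1127/10000) (303/5000) (469/10000) (8/625) (267/1250) (43/200) (119/2000) := by
  constructor <;> norm_num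

theorem b32_4 : BoxC 32 39 (59/100) (71/100) 0 1 1 (4747/1000) (1067/625) (247/250) (6969/10000) (3939/10000) (909/10000) (947/5000) (559/10000) (57/2000) (141/5000) (37/5000) (1437/5000) (169/500) (379/10000) := by
  constructor <;> norm_num

theorem b32_5 : BoxC 32 39 (71/100) (83/100) 0 1 1 (5487/1000) (1067/625) (247/250) (6457/10000) (583/2000) 0 (247/2500) (23/1250) (1/125) (113/10000) (7/2500) (3863/10000) (59/100) (217/10000) := by
  constructor <;> norm_num

theorem b32_6 : BoxC 32 39 (83/100) (19/20) 0 1 1 (6887/1000) (1067/625) (247/250) (1189/2000) (189/1000) 0 (93/2500) (31/10000) (9/10000) (9/5000) (1/2500) (517/1000) (471/500) (17/1250) := by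
  constructor <;> norm_num

theorem mid_32 {N : ℕ} {a : ℝ} {ζ z : Fin N → ℂ} (h : Fr N a ζ z) (hN1 : 32 ≤ N) (hN2 : N ≤ 39)
    (ha2 : a ≤ (19/20)) (hw2 : W a ζ ≤ 1) : False := by
  have ha1 : (0:ℝ) ≤ a := h.a0.le
  have hw1 : (0:ℝ) ≤ W a ζ := W_nonneg
  rcases le_total (a) (19/40) with g1 | g1
  · rcases le_total (a) (6/25) with g2 | g2
    · exact box h b32_0 (by omega) hN1 hN2 ha1 g2 hw1 hw2
    · rcases le_total (a) (9/25) with g3 | g3
      · exact box h b32_1 (by omega) hN1 hN2 g2 g3 hw1 hw2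
      · exact box h b32_2 (by omega) hN1 hN2 g3 g1 hw1 hw2
  · rcases le_total (a) (71/100) with g4 | g4
    · rcases le_total (a) (59/100) with g5 | g5
      · exact box h b32_3 (by omega) hN1 hN2 g1 g5 hw1 hw2
      · exact box h b32_4 (by omega) hN1 hN2 g5 g4 hw1 hw2
    · rcases le_total (a) (83/100) with g6 | g6
      · exact box h b32_5 (by omega) hN1 hN2 g4 g6 hw1 hw2
      · exact box h b32_6 (by omega) hN1 hN2 g6 ha2 hw1 hw2

end Pool.Agent.Lib.MP_172a45_an.H64
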