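import Pool.Agent.Lib.MP_172a45_an.H64.Mid1
import Pool.Agent.Lib.MP_172a45_an.H64.Mid2
import Pool.Agent.Lib.MP_172a45_an.H64.Mid3
import Pool.Agent.Lib.MP_172a45_an.H64.Mid4
import Pool.Agent.Lib.MP_172a45_an.H64.Mid5
import Pool.Agent.Lib.MP_172a45_an.H64.Cor
import Pool.Agent.Lib.MP_172a45_an.H64.Big2
import Pool.Agent.Lib.MP_172a45_an.H64.Big3

set_option autoImplicit false

/-!
# Lemma R: there is no counterexample frame with `N ≥ 5` and `-∑ log ‖u k‖ ≤ 3/10`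
-/

namespace Pool.Agent.Lib.MP_172a45_an.F

open H64

/-- Lemma R -/
theorem Fr.R {N : ℕ} {a : ℝ} {ζ z : Fin N → ℂ} (h : Fr N a ζ z) (hN : 5 ≤ N)
    (hD : -∑ k, Real.log ‖Fr.u a ζ k‖ ≤ 3 / 10) : False := by
  have hWD := W_le (D := 3 / 10) (X := 1) h zero_le_one (by norm_num) hD
  norm_num at hWD
  have hWD' : 3 * W a ζ ≤ 10 * (-∑ k, Real.log ‖Fr.u a ζ k‖) := by linarith
  have hW : W a ζ ≤ 1 := by linarith
  rcases Nat.lt_or_ge 39 N with g | g
  · rcases le_total a (9/10) with ha | ha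
    · exact big_mid h (by omega) hW ha
    · exact big_corner h (by omega) hW ha hD hWD'
  rcases le_total (19/20) a with ha | ha
  · exact cor_all h hN g ha hW hD hWD'
  rcases Nat.lt_or_ge 5 N with g1 | g1
  swap
  · exact mid_5 h hN g1 ha hW
  rcases Nat.lt_or_ge 6 N with g2 | g2
  swap
  · exact mid_6 h g1 g2 ha hW
  rcases Nat.lt_or_ge 7 N with g3 | g3
  swap
  · exact mid_7 h g2 g3 ha hW
  rcases Nat.lt_or_ge 8 N with g4 | g4
  swap
  · exact mid_8 h g3 g4 ha hW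
  rcases Nat.lt_or_ge 9 N with g5 | g5
  swap
  · exact mid_9 h g4 g5 ha hW
  rcases Nat.lt_or_ge 11 N with g6 | g6
  swap
  · exact mid_10 h g5 g6 ha hW
  rcases Nat.lt_or_ge 13 N with g7 | g7
  swap
  · exact mid_12 h g6 g7 ha hW
  rcases Nat.lt_or_ge 16 N with g8 | g8
  swap
  · exact mid_14 h g7 g8 ha hW
  rcases Nat.lt_or_ge 20 N with g9 | g9
  swap
  · exact mid_17 h g8 g9 ha hW
  rcases Nat.lt_or_ge 25 N with g10 | g10
  swap
  · exact mid_21 h g9 g10 ha hW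
  rcases Nat.lt_or_ge 31 N with g11 | g11
  swap
  · exact mid_26 h g10 g11 ha hW
  exact mid_32 h g11 g ha hW

end Pool.Agent.Lib.MP_172a45_an.F
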