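import Pool.Agent.Lib.MP_172a45_an.H64.Five
import Pool.Agent.Lib.MP_172a45_an.H64.R
import Pool.Agent.Lib.MP_172a45_an.H22.Wfive

set_option autoImplicit false

/-!
# There is no counterexample frame with `N = 5`
-/

namespace Pool.Agent.Lib.MP_172a45_an.F

open H64

/-- the whole case `N = 5` -/
theorem Fr.R5 {a : ℝ} {ζ z : Fin 5 → ℂ} (h : Fr 5 a ζ z) : False := by
  rcases le_total (-∑ k, Real.log ‖Fr.u a ζ k‖) (3 / 10) with hD | hD
  · exact h.R le_rfl hD
  have hw := W_five h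
  have hE : ∏ k, ‖Fr.u a ζ k‖ ≤ 741 / 1000 := by
    rw [prod_eq_exp h]
    have h1 : Real.exp (-(-∑ k, Real.log ‖Fr.u a ζ k‖)) ≤ Real.exp (-(3 / 10)) :=
      Real.exp_le_exp.2 (by linarith)
    have h2 := exp_neg_le_num 3 10 (by norm_num) (c := 741 / 1000) (by norm_num) (by norm_num)
    norm_num at h2
    exact h1.trans h2
  rcases le_total a (19 / 20) with ha | ha
  · exact five_mid h le_rfl le_rfl h.a0.le ha hw hE
  · exact five_cor h le_rfl le_rfl ha h.a1.le hw hE

end Pool.Agent.Lib.MP_172a45_an.F
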