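import Pool.Agent.Lib.MP_172a45_an.H64.Corner

set_option autoImplicit false

/-!
# Large `N`
-/

namespace Pool.Agent.Lib.MP_172a45_an.H64

open Finset F

/-! ### numbers -/

theorem exp_le_num (p q : ℕ) (hq : 0 < q) {c : ℝ} (hc : 0 ≤ c)
    (h : (2.7182818286 : ℝ) ^ p ≤ c ^ q) : Real.exp ((p : ℝ) / q) ≤ c := by
  have h1 : Real.exp ((p : ℝ) / q) ^ q ≤ c ^ q := by
    rw [← Real.exp_nat_mul, mul_div_cancel₀ _ (by exact_mod_cast hq.ne' : (q : ℝ) ≠ 0)]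
    refine le_trans ?_ h
    rw [← mul_one (p : ℝ), Real.exp_nat_mul]
    exact pow_le_pow_left₀ (Real.exp_nonneg _) Real.exp_one_lt_d9.le p
  exact le_of_pow_le_pow_left₀ hq.ne' hc h1

theorem exp_neg_le_num (p q : ℕ) (hq : 0 < q) {c : ℝ} (hc : 0 ≤ c)
    (h : 1 ≤ c ^ q * (2.7182818283 : ℝ) ^ p) : Real.exp (-((p : ℝ) / q)) ≤ c := by
  have h1 : Real.exp (-((p : ℝ) / q)) ^ q ≤ c ^ q := by
    rw [← Real.exp_nat_mul, mul_neg, mul_div_cancel₀ _ (by exact_mod_cast hq.ne' : (q : ℝ) ≠ 0),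
      Real.exp_neg, inv_le_iff_one_le_mul₀ (Real.exp_pos _)]
    refine h.trans (mul_le_mul_of_nonneg_left ?_ (pow_nonneg hc q))
    rw [← mul_one (p : ℝ), Real.exp_nat_mul]
    exact pow_le_pow_left₀ (by norm_num) Real.exp_one_gt_d9.le p
  exact le_of_pow_le_pow_left₀ hq.ne' hc h1

/-- `x ≤ .368 e^x` -/
theorem le_exp_mul (x : ℝ) : x ≤ 368 / 1000 * Real.exp x := by
  have h1 := Real.add_one_le_exp (x - 1)
  rw [Real.exp_sub] at h1
  have h2 : Real.exp x / Real.exp 1 ≤ 368 / 1000 * Real.exp x := by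
    rw [div_le_iff₀ (Real.exp_pos 1)]
    have h3 := Real.exp_one_gt_d9
    have h4 := Real.exp_pos x
    nlinarith
  linarith

/-- `x e^{-x} ≤ .368` -/
theorem mul_exp_neg_le (x : ℝ) : x * Real.exp (-x) ≤ 368 / 1000 := by
  have h := le_exp_mul x
  have h2 := mul_le_mul_of_nonneg_right h (Real.exp_nonneg (-x))
  rwa [mul_assoc, ← Real.exp_add, add_neg_cancel, Real.exp_zero, mul_one] at h2

variable {N : ℕ} {a : ℝ} {ζ z : Fin N → ℂ}

/-- (Rw') in a range of `a` -/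
theorem rw_exp_box (h : Fr N a ζ z) (hN : 1 ≤ N) {b1 a2 : ℝ} (hb : 1 - a ^ 2 ≤ b1) (ha2 : a ≤ a2)
    (ha2' : a2 ≤ 1) : 1 + b1 * (N * (1 - a2 ^ 2 / 4) - G a ζ / 2) ≤ Real.exp (b1 * G a ζ) := by
  have hA0 := h.a0
  have hA1 := h.a1
  have hN0 : (0 : ℝ) < N := by exact_mod_cast hN
  have hβ : 0 < 1 - a ^ 2 := by nlinarith
  have hb1 : 0 < b1 := by linarith
  have h1 := rw_exp h hN
  set l := (1 - a ^ 2) / b1 with hl
  have hl0 : 0 < l := by positivity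
  have hl1 : l ≤ 1 := by rw [hl, div_le_one hb1]; exact hb
  have h2 := convexOn_exp.2 (Set.mem_univ (0:ℝ)) (Set.mem_univ (b1 * G a ζ))
    (by linarith : 0 ≤ 1 - l) hl0.le (by ring)
  simp only [smul_eq_mul, mul_zero, zero_add, Real.exp_zero, mul_one] at h2
  have e1 : l * (b1 * G a ζ) = (1 - a ^ 2) * G a ζ := by
    rw [hl]; field_simp
  rw [e1] at h2
  have h3 : l * (b1 * (N * (1 - a2 ^ 2 / 4) - G a ζ / 2)) ≤ l * (Real.exp (b1 * G a ζ) - 1) := by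
    have e2 : l * (b1 * (N * (1 - a2 ^ 2 / 4) - G a ζ / 2)) =
        (1 - a ^ 2) * (N * (1 - a2 ^ 2 / 4) - G a ζ / 2) := by
      rw [hl]; field_simp
    rw [e2]
    have h4 : (1 - a ^ 2) * (N * (1 - a2 ^ 2 / 4) - G a ζ / 2) ≤
        (1 - a ^ 2) * (N * (1 - a ^ 2 / 4) - G a ζ / 2) := by
      refine mul_le_mul_of_nonneg_left ?_ hβ.le
      have : (N : ℝ) * (1 - a2 ^ 2 / 4) ≤ N * (1 - a ^ 2 / 4) :=
        mul_le_mul_of_nonneg_left (by nlinarith) hN0.le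
      linarith
    linarith
  have := le_of_mul_le_mul_left h3 hl0
  linarith

/-- lower bound of `g` -/
theorem G_ge_exp (h : Fr N a ζ z) {N1 : ℕ} (hN : 1 ≤ N) (hN1 : N1 ≤ N) {b1 a2 g0 : ℝ}
    (hb : 1 - a ^ 2 ≤ b1) (ha2 : a ≤ a2) (ha2' : a2 ≤ 1)
    (hc : Real.exp (b1 * g0) ≤ 1 + b1 * (N1 * (1 - a2 ^ 2 / 4) - g0 / 2)) : g0 ≤ G a ζ := by
  by_contra hcon
  push Not at hcon
  have hA0 := h.a0
  have hA1 := h.a1
  have hβ : 0 < 1 - a ^ 2 := by nlinarith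
  have hb1 : 0 < b1 := by linarith
  have h1 := rw_exp_box h hN hb ha2 ha2'
  have hN1r : (N1 : ℝ) ≤ N := by exact_mod_cast hN1
  have h2 : Real.exp (b1 * G a ζ) < Real.exp (b1 * g0) := Real.exp_lt_exp.2 (by nlinarith)
  have h3 : b1 * (N1 * (1 - a2 ^ 2 / 4)) ≤ b1 * (N * (1 - a2 ^ 2 / 4)) := by
    refine mul_le_mul_of_nonneg_left (mul_le_mul_of_nonneg_right hN1r ?_) hb1.le
    nlinarith
  have h4 : b1 * G a ζ < b1 * g0 := by nlinarith
  linarith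

/-- growth of `e^g` -/
theorem growth (h : Fr N a ζ z) (hN : 1 ≤ N) {b1 a2 g0 : ℝ}
    (hb : 1 - a ^ 2 ≤ b1) (hb1 : b1 ≤ 1) (ha2 : a ≤ a2) (ha2' : a2 ≤ 1) (hg : g0 ≤ G a ζ) :
    b1 * (1 - a2 ^ 2 / 4) * (N * Real.exp (-G a ζ)) ≤
      1184 / 1000 * Real.exp (-((1 - b1) * g0)) := by
  have hA0 := h.a0
  have hA1 := h.a1
  have hβ : 0 < 1 - a ^ 2 := by nlinarith
  have hb0 : 0 < b1 := by linarith
  have h1 := rw_exp_box h hN hb ha2 ha2'
  have h2 := le_exp_mul (b1 * G a ζ)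
  have h3 : b1 * (N * (1 - a2 ^ 2 / 4)) ≤ 1184 / 1000 * Real.exp (b1 * G a ζ) := by linarith
  have h4 := mul_le_mul_of_nonneg_right h3 (Real.exp_nonneg (-G a ζ))
  have e1 : 1184 / 1000 * Real.exp (b1 * G a ζ) * Real.exp (-G a ζ) =
      1184 / 1000 * Real.exp (-((1 - b1) * G a ζ)) := by
    rw [mul_assoc, ← Real.exp_add]
    congr 2
    ring
  rw [e1] at h4
  have h5 : Real.exp (-((1 - b1) * G a ζ)) ≤ Real.exp (-((1 - b1) * g0)) := by
    refine Real.exp_le_exp.2 (neg_le_neg ?_)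
    exact mul_le_mul_of_nonneg_left hg (by linarith)
  have e2 : b1 * (1 - a2 ^ 2 / 4) * (N * Real.exp (-G a ζ)) =
      b1 * (N * (1 - a2 ^ 2 / 4)) * Real.exp (-G a ζ) := by ring
  rw [e2]
  linarith

theorem int_exp_le {D : ℝ} (hD : 0 < D) :
    ∫ s in (0:ℝ)..(1/2), s * Real.exp (-(D * s)) ≤ 1 / D ^ 2 := by
  have hd : ∀ s ∈ Set.uIcc (0:ℝ) (1/2), HasDerivAt
      (fun s : ℝ => -((s / D + 1 / D ^ 2) * Real.exp (-(D * s)))) (s * Real.exp (-(D * s))) s := by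
    intro s _
    have h1 : HasDerivAt (fun s : ℝ => s / D + 1 / D ^ 2) (1 / D) s :=
      ((hasDerivAt_id s).div_const D).add_const _
    have h2 : HasDerivAt (fun s : ℝ => Real.exp (-(D * s))) (Real.exp (-(D * s)) * (-(D * 1))) s :=
      (((hasDerivAt_id s).const_mul D).neg).exp
    refine (h1.mul h2).neg.congr_deriv ?_
    field_simp
    ring
  rw [intervalIntegral.integral_eq_sub_of_hasDerivAt hd]
  · have h3 : 0 ≤ (1 / 2 / D + 1 / D ^ 2) * Real.exp (-(D * (1 / 2))) := by positivity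
    simp only [zero_div, mul_zero, neg_zero, Real.exp_zero, mul_one, zero_add]
    linarith
  · refine Continuous.intervalIntegrable ?_ _ _
    fun_prop

/-- the bound of the pair integrals for large `N` -/
theorem int_big (hN : 4 ≤ N) {k j : Fin N} (hkj : k ≠ j) {D V4 : ℝ} (hD : 0 < D)
    (hV4 : 0 ≤ V4)
    (hC : CC a ζ k j (1/2) ≤ 1 + (-D) / ((N - 2 : ℕ) : ℝ))
    (hC4 : CC a ζ k j 1 ^ (N - 2) ≤ V4 ^ 2) :
    ∫ s in (0:ℝ)..1, s * PP a ζ k j s ≤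
      1 / D ^ 2 + Real.exp (-(D / 2)) / 6 + 5 * V4 / 24 := by
  have hn : (0 : ℝ) < ((N - 2 : ℕ) : ℝ) := by exact_mod_cast (by omega : 0 < N - 2)
  have hC0 := CC_nonneg (a := a) (ζ := ζ) k j (1/2)
  have c2 : CC a ζ k j (1/2) ^ (N - 2) ≤ Real.exp (-(D / 2)) ^ 2 := by
    refine (pow_le_pow_left₀ hC0 hC _).trans ?_
    refine (one_add_div_pow_le_exp (by omega) (hC0.trans hC)).trans (le_of_eq ?_)
    rw [← Real.exp_nat_mul]
    congr 1
    push_cast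
    ring
  have i2 := int_piece hN hkj (by norm_num : (0:ℝ) ≤ 1/2) (by norm_num : (1/2:ℝ) < 1)
    (Real.exp_nonneg _) hV4 c2 hC4
  have i1 : ∫ s in (0:ℝ)..(1/2), s * PP a ζ k j s ≤ 1 / D ^ 2 := by
    refine le_trans ?_ (int_exp_le hD)
    refine intervalIntegral.integral_mono_on (by norm_num) ?_ ?_ ?_
    · exact (continuous_id.mul (PP_cont k j)).intervalIntegrable _ _
    · refine Continuous.intervalIntegrable ?_ _ _
      fun_prop
    · intro s hs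
      refine mul_le_mul_of_nonneg_left ?_ hs.1
      have h1 := CC_convex (a := a) (ζ := ζ) k j 0 (1/2) (2 * s) (by linarith [hs.1])
        (by linarith [hs.2])
      rw [CC_zero (by omega) hkj] at h1
      have e1 : (1 - 2 * s) * 0 + 2 * s * (1 / 2) = s := by ring
      rw [e1] at h1
      have h2 : CC a ζ k j s ≤ 1 + (-(2 * (D * s))) / ((N - 2 : ℕ) : ℝ) := by
        have := mul_le_mul_of_nonneg_left hC (by linarith [hs.1] : 0 ≤ 2 * s)
        have e2 : 2 * s * (1 + (-D) / ((N - 2 : ℕ) : ℝ)) =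
            2 * s + (-(2 * (D * s))) / ((N - 2 : ℕ) : ℝ) := by
          field_simp
        linarith
      have h3 := PP_sq_le (a := a) (ζ := ζ) (by omega) hkj s
      have hC0 := CC_nonneg (a := a) (ζ := ζ) k j s
      have h4 : PP a ζ k j s ^ 2 ≤ Real.exp (-(D * s)) ^ 2 := by
        refine h3.trans ((pow_le_pow_left₀ hC0 h2 _).trans ?_)
        refine (one_add_div_pow_le_exp (by omega) (hC0.trans h2)).trans (le_of_eq ?_)
        rw [← Real.exp_nat_mul]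
        congr 1
        push_cast
        ring
      exact le_of_sq_le_sq h4 (Real.exp_nonneg _)
  have hint : ∀ x y : ℝ, IntervalIntegrable (fun s => s * PP a ζ k j s) MeasureTheory.volume x y :=
    fun x y => (continuous_id.mul (PP_cont k j)).intervalIntegrable _ _
  rw [← intervalIntegral.integral_add_adjacent_intervals (hint 0 (1/2)) (hint (1/2) 1)]
  linarith

/-- the pair integrals, with `D = N a²/4 + g - 5/2 + 2 ρ²` -/
theorem int_big' (h : Fr N a ζ z) (hN : 4 ≤ N) (hW : W a ζ ≤ 1) {ρ : ℝ} (hρ : 0 ≤ ρ)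
    (hρ' : ρ = 0 ∨ ρ ≤ 1 - a * (8536 / 10000))
    (hD : 0 < N * a ^ 2 / 4 + (G a ζ - 5 / 2 + 2 * ρ ^ 2)) (k j : Fin N) (hkj : k ≠ j) :
    ∫ s in (0:ℝ)..1, s * PP a ζ k j s ≤
      1 / (N * a ^ 2 / 4 + (G a ζ - 5 / 2 + 2 * ρ ^ 2)) ^ 2 +
      Real.exp (-((N * a ^ 2 / 4 + (G a ζ - 5 / 2 + 2 * ρ ^ 2)) / 2)) / 6 +
      5 * Real.exp (3 / 2 - G a ζ) / 24 := by
  have hp := pair_le h hW (by norm_num : (1:ℝ) ≤ 17072 / 10000) (by norm_num) hkj
  refine int_big hN hkj hD (Real.exp_nonneg _) ?_ ?_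
  · have h1 := (CC_le (A := N * a ^ 2) (η := 2 * G a ζ - W a ζ) (ρ := ρ) h (by omega) hkj hp
      (by norm_num : (0:ℝ) ≤ 1/2) (by norm_num) le_rfl le_rfl hρ
      (hρ'.imp id fun h' => h'.trans (by linarith))).2
    refine h1.trans ?_
    have hn : (0 : ℝ) < ((N - 2 : ℕ) : ℝ) := by exact_mod_cast (by omega : 0 < N - 2)
    have : (2 - N * a ^ 2 * (1/2) * (1 - 1/2) - (2 * G a ζ - W a ζ) * (1/2) - 2 * ρ ^ 2) /
        ((N - 2 : ℕ) : ℝ) ≤ (-(N * a ^ 2 / 4 + (G a ζ - 5 / 2 + 2 * ρ ^ 2))) /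
        ((N - 2 : ℕ) : ℝ) := by
      refine div_le_div_of_nonneg_right ?_ hn.le
      linarith
    linarith
  · have h1 := CC_le (A := N * a ^ 2) (η := 2 * G a ζ - W a ζ) (ρ := 0) h (by omega) hkj hp
      (by norm_num : (0:ℝ) ≤ 1) le_rfl le_rfl le_rfl le_rfl (Or.inl rfl)
    have h2 := (pow_le_pow_left₀ (CC_nonneg k j 1) h1.2 (N - 2)).trans
      (one_add_div_pow_le_exp (by omega) h1.1)
    refine h2.trans ?_
    rw [← Real.exp_nat_mul]
    refine Real.exp_le_exp.2 ?_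
    push_cast
    linarith

end Pool.Agent.Lib.MP_172a45_an.H64
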