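import Pool.Agent.Lib.MP_172a45_an.H64.Box

set_option autoImplicit false

/-!
# The box lemma with a given bound of the product of the norms
-/

namespace Pool.Agent.Lib.MP_172a45_an.H64

open Finset F

variable {N : ℕ} {a : ℝ} {ζ z : Fin N → ℂ}

/-- the numerical conditions of a box, `E` given -/
structure BoxE (N1 N2 : ℕ) (a1 a2 w2 E g τ ρ1 ρ2 ρ3 V1 V2 V3 V4 T pl r J : ℝ) : Prop where
  ha1 : 0 ≤ a1
  ha2 : a2 ≤ 1
  hg : 0 ≤ g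
  hτ : 1 ≤ τ
  hwτ : w2 ≤ 2 * (τ - 1) ^ 2
  gB : 0 ≤ 1 + (1 - a1 ^ 2) * (N1 * (1 - a2 ^ 2 / 4) - g / 2)
  gc : (1 + 2 * (1 - a1 ^ 2) * g / N2) ^ N2 ≤
    (1 + (1 - a1 ^ 2) * (N1 * (1 - a2 ^ 2 / 4) - g / 2)) ^ 2
  hρ1 : 0 ≤ ρ1 ∧ (ρ1 = 0 ∨ ρ1 ≤ 1 - 1/4 * a2 * τ)
  hρ2 : 0 ≤ ρ2 ∧ (ρ2 = 0 ∨ ρ2 ≤ 1 - 1/2 * a2 * τ)
  hρ3 : 0 ≤ ρ3 ∧ (ρ3 = 0 ∨ ρ3 ≤ 1 - 3/4 * a2 * τ)
  hV1 : 0 ≤ V1
  hV2 : 0 ≤ V2
  hV3 : 0 ≤ V3
  hV4 : 0 ≤ V4
  c1 : (1 + (2 - N1 * a1 ^ 2 * (1/4) * (1 - 1/4) - (2 * g - w2) * (1/4) - 2 * ρ1 ^ 2) /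
    (N2 - 2)) ^ (N2 - 2) ≤ V1 ^ 2
  c2 : (1 + (2 - N1 * a1 ^ 2 * (1/2) * (1 - 1/2) - (2 * g - w2) * (1/2) - 2 * ρ2 ^ 2) /
    (N2 - 2)) ^ (N2 - 2) ≤ V2 ^ 2
  c3 : (1 + (2 - N1 * a1 ^ 2 * (3/4) * (1 - 3/4) - (2 * g - w2) * (3/4) - 2 * ρ3 ^ 2) /
    (N2 - 2)) ^ (N2 - 2) ≤ V3 ^ 2
  c4 : (1 + (2 - (2 * g - w2)) / (N2 - 2)) ^ (N2 - 2) ≤ V4 ^ 2
  hT : 0 ≤ T
  cT : (1 - (2 * g - w2) / N2) ^ (N2 + 1) ≤ T ^ 2
  hpl : pl ≤ 0 ∨ (0 ≤ g - (1 - a1 ^ 2) * w2 / 2 ∧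
    pl ≤ a1 ^ 2 / 2 + (g - (1 - a1 ^ 2) * w2 / 2) / N2)
  hJ : 1 / 96 + V1 / 16 + V2 / 8 + 3 * V3 / 16 + 11 * V4 / 96 ≤ J
  F1 : T + J * a2 ^ 2 * (N2 + w2) + N2 * J * r ^ 2 + (E - 2 * (N2 * J) * r) * pl < 1
  F2 : T + J * a2 ^ 2 * (N2 + w2) + N2 * J * r ^ 2 + (E - 2 * (N2 * J) * r) * a2 < 1

/-- the box lemma, `E` given -/
theorem boxE (h : Fr N a ζ z) {N1 N2 : ℕ}
    {a1 a2 w2 E g τ ρ1 ρ2 ρ3 V1 V2 V3 V4 T pl r J : ℝ}
    (c : BoxE N1 N2 a1 a2 w2 E g τ ρ1 ρ2 ρ3 V1 V2 V3 V4 T pl r J)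
    (hE : ∏ k, ‖Fr.u a ζ k‖ ≤ E)
    (h4 : 4 ≤ N) (hN1 : N1 ≤ N) (hN2 : N ≤ N2) (ha1 : a1 ≤ a) (ha2 : a ≤ a2)
    (hw2 : W a ζ ≤ w2) : False := by
  have hA0 := h.a0
  have hA1 := h.a1
  have hNr : (4 : ℝ) ≤ N := by exact_mod_cast h4
  have hN1r : (N1 : ℝ) ≤ N := by exact_mod_cast hN1
  have hN2r : (N : ℝ) ≤ N2 := by exact_mod_cast hN2
  have hN10 : (0 : ℝ) ≤ N1 := Nat.cast_nonneg _
  have hW0 : 0 ≤ W a ζ := W_nonneg
  have hw20 : 0 ≤ w2 := hW0.trans hw2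
  have hG : g ≤ G a ζ := G_ge h N1 N2 a1 a2 g (by omega) hN1 hN2 c.ha1 ha1 ha2 c.ha2 c.hg c.gB c.gc
  have hη : 2 * g - w2 ≤ 2 * G a ζ - W a ζ := by linarith
  have hA : (N1 : ℝ) * a1 ^ 2 ≤ N * a ^ 2 :=
    mul_le_mul hN1r (pow_le_pow_left₀ c.ha1 ha1 2) (sq_nonneg _) (by linarith)
  have hc2 : ((N2 - 2 : ℕ) : ℝ) = (N2 : ℝ) - 2 := cast_sub_two (by omega)
  -- the integrals
  have hρ : ∀ {ρ s : ℝ}, 0 ≤ s → (0 ≤ ρ ∧ (ρ = 0 ∨ ρ ≤ 1 - s * a2 * τ)) →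
      (ρ = 0 ∨ ρ ≤ 1 - s * a * τ) := by
    intro ρ s hs hρ
    refine hρ.2.imp id fun h' => h'.trans ?_
    have : s * a * τ ≤ s * a2 * τ := by
      have := c.hτ
      exact mul_le_mul_of_nonneg_right (mul_le_mul_of_nonneg_left ha2 hs) (by linarith)
    linarith
  have hJ : ∀ k j, k ≠ j → ∫ s in (0:ℝ)..1, s * PP a ζ k j s ≤ J := by
    intro k j hkj
    refine le_trans ?_ c.hJ
    have hp := pair_le h hw2 c.hτ c.hwτ hkj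
    refine int_four h4 hkj c.hV1 c.hV2 c.hV3 c.hV4 ?_ ?_ ?_ ?_
    · refine CC_pow_le h (by omega) hN2 hkj hp (by norm_num) (by norm_num) hA hη c.hρ1.1
        (hρ (by norm_num) c.hρ1) ?_
      rw [hc2]; exact c.c1
    · refine CC_pow_le h (by omega) hN2 hkj hp (by norm_num) (by norm_num) hA hη c.hρ2.1
        (hρ (by norm_num) c.hρ2) ?_
      rw [hc2]; exact c.c2
    · refine CC_pow_le h (by omega) hN2 hkj hp (by norm_num) (by norm_num) hA hη c.hρ3.1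
        (hρ (by norm_num) c.hρ3) ?_
      rw [hc2]; exact c.c3
    · refine CC_pow_le (ρ := 0) h (by omega) hN2 hkj hp (by norm_num) (by norm_num) hA hη le_rfl
        (Or.inl rfl) ?_
      rw [hc2]
      refine le_trans (le_of_eq ?_) c.c4
      congr 2
      ring
  -- the first term
  have hT : (1 - (2 * G a ζ - W a ζ) / N) ^ (N + 1) ≤ T ^ 2 := by
    have hX0 := Fr.X_nonneg (a := a) (ζ := ζ) (by omega : 0 < N) 1
    rw [X_one h (by omega)] at hX0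
    have hN0 : (0:ℝ) < N := by linarith
    have g1 : 1 - (2 * G a ζ - W a ζ) / N ≤ 1 + (-(2 * g - w2)) / N := by
      have : (2 * g - w2) / N ≤ (2 * G a ζ - W a ζ) / N := div_le_div_of_nonneg_right hη hN0.le
      rw [neg_div]
      linarith
    have g2 : 0 ≤ 1 + (-(2 * g - w2)) / N := hX0.trans g1
    refine (pow_le_pow_left₀ hX0 g1 _).trans (le_trans ?_ c.cT)
    -- `(1 + c/N)^(N+1) ≤ (1 + c/N2)^(N2+1)`
    have g3 : (1 + (-(2 * g - w2)) / N) ^ N ≤ (1 + (-(2 * g - w2)) / N2) ^ N2 :=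
      one_add_div_pow_mono (by omega) hN2 g2
    rcases le_total (2 * g - w2) 0 with hs | hs
    · -- negative `η`: then `1 + c/N ≥ 1 + c/N2`, use the power `N + 1` directly
      exfalso
      have := c.F1
      have := c.F2
      have e1 : 1 ≤ T := by
        have e2 : (1:ℝ) ≤ (1 - (2 * g - w2) / N2) ^ (N2 + 1) := by
          refine one_le_pow₀ ?_
          have : (2 * g - w2) / N2 ≤ 0 := div_nonpos_of_nonpos_of_nonneg hs (Nat.cast_nonneg _)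
          linarith
        have e3 : (1:ℝ) ^ 2 ≤ T ^ 2 := by
          rw [one_pow]; exact e2.trans c.cT
        exact le_of_sq_le_sq e3 c.hT
      -- some point of the tangent line
      have hJ0 : 0 ≤ J := by
        refine le_trans ?_ c.hJ
        have := c.hV1; have := c.hV2; have := c.hV3; have := c.hV4
        positivity
      have hE0 : 0 ≤ E := le_trans (Finset.prod_nonneg fun _ _ => norm_nonneg _) hE
      have ha20 : 0 ≤ a2 := by linarith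
      have e4 : 0 ≤ J * a2 ^ 2 * (N2 + w2) := by positivity
      have e5 : N2 * J * r ^ 2 + (E - 2 * (N2 * J) * r) * a2 + J * a2 ^ 2 * (N2 + w2) =
          N2 * J * (r - a2) ^ 2 + E * a2 + J * a2 ^ 2 * w2 := by ring
      have e6 : 0 ≤ (N2:ℝ) * J * (r - a2) ^ 2 + E * a2 + J * a2 ^ 2 * w2 := by positivity
      linarith
    · have g4 : 1 + (-(2 * g - w2)) / N ≤ 1 + (-(2 * g - w2)) / N2 := by
        rw [neg_div, neg_div]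
        have : (2 * g - w2) / N2 ≤ (2 * g - w2) / N :=
          div_le_div_of_nonneg_left hs hN0 hN2r
        linarith
      have g5 : (1 - (2 * g - w2) / N2) ^ (N2 + 1) =
          (1 + (-(2 * g - w2)) / N2) ^ N2 * (1 + (-(2 * g - w2)) / N2) := by
        rw [neg_div, ← sub_eq_add_neg, pow_succ]
      rw [g5, pow_succ]
      exact mul_le_mul g3 g4 g2 ((pow_nonneg g2 _).trans g3)
  have hcore := core h (by omega) hJ c.hT hT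
  -- final
  have hP1 := h.P_le (by omega)
  have hP0 := h.P_nonneg
  have hJ0 : 0 ≤ J := by
    refine le_trans ?_ c.hJ
    have := c.hV1; have := c.hV2; have := c.hV3; have := c.hV4
    positivity
  have hpl : pl ≤ Fr.P a ζ := by
    rcases c.hpl with h0 | ⟨h0, h1⟩
    · linarith
    · refine h1.trans (le_trans ?_ (P_ge h (by omega)))
      have hβ : 1 - a ^ 2 ≤ 1 - a1 ^ 2 := by
        have := c.ha1
        nlinarith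
      have hβ0 : 0 ≤ 1 - a ^ 2 := by nlinarith
      have g1 : (1 - a ^ 2) * W a ζ ≤ (1 - a1 ^ 2) * w2 := mul_le_mul hβ hw2 hW0 (hβ0.trans hβ)
      have g2 : g - (1 - a1 ^ 2) * w2 / 2 ≤ G a ζ - (1 - a ^ 2) * W a ζ / 2 := by linarith
      have g3 : (g - (1 - a1 ^ 2) * w2 / 2) / N2 ≤ (G a ζ - (1 - a ^ 2) * W a ζ / 2) / N :=
        div_le_div₀ (h0.trans g2) g2 (by linarith) hN2r
      have g4 : a1 ^ 2 ≤ a ^ 2 := pow_le_pow_left₀ c.ha1 ha1 2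
      linarith
  set P := Fr.P a ζ with hPdef
  have hPa2 : P ≤ a2 := hP1.trans ha2
  have g1 : P * ∏ k, ‖Fr.u a ζ k‖ ≤ P * E := mul_le_mul_of_nonneg_left hE hP0
  have g2 : a ^ 2 * (N + W a ζ) - N * P ^ 2 ≤ a2 ^ 2 * (N2 + w2) - N2 * P ^ 2 := by
    have k1 : 0 ≤ a ^ 2 - P ^ 2 := by nlinarith
    have k2 : a ^ 2 ≤ a2 ^ 2 := pow_le_pow_left₀ hA0.le ha2 2
    have k3 : (N : ℝ) * (a ^ 2 - P ^ 2) ≤ N2 * (a2 ^ 2 - P ^ 2) :=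
      mul_le_mul hN2r (by linarith) k1 (by linarith)
    have k4 : a ^ 2 * W a ζ ≤ a2 ^ 2 * w2 := mul_le_mul k2 hw2 hW0 (sq_nonneg _)
    linarith
  have g3 : J * (a ^ 2 * (N + W a ζ) - N * P ^ 2) ≤ J * (a2 ^ 2 * (N2 + w2) - N2 * P ^ 2) :=
    mul_le_mul_of_nonneg_left g2 hJ0
  have g4 : 1 ≤ T + J * a2 ^ 2 * (N2 + w2) + N2 * J * r ^ 2 + (E - 2 * (N2 * J) * r) * P := by
    have k1 : 0 ≤ (N2 : ℝ) * J * (P - r) ^ 2 := by positivity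
    nlinarith
  have hF1 := c.F1
  have hF2 := c.F2
  rcases le_total 0 (E - 2 * (N2 * J) * r) with hs | hs
  · have := mul_le_mul_of_nonneg_left hPa2 hs
    linarith
  · have := mul_le_mul_of_nonpos_left hpl hs
    linarith


end Pool.Agent.Lib.MP_172a45_an.H64
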