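import Pool.Agent.Lib.MP_172a45_an.H64.Corner

set_option autoImplicit false

/-!
# The corner for given `N`
-/

namespace Pool.Agent.Lib.MP_172a45_an.H64

open Finset F

variable {N : ℕ} {a : ℝ} {ζ z : Fin N → ℂ}

/-- the numerical conditions of a corner box -/
structure CorC (N1 N2 : ℕ) (a1 w g τ ρ1 ρ2 ρ3 V1 V2 V3 V4 J V QN κ : ℝ) : Prop where
  ha1 : 0 ≤ a1
  hg : 0 ≤ g
  hτ : 1 ≤ τ
  hwτ : w ≤ 2 * (τ - 1) ^ 2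
  hwg : 0 ≤ 2 * g - w
  gB : 0 ≤ 1 + (1 - a1 ^ 2) * (N1 * (1 - 1 ^ 2 / 4) - g / 2)
  gc : (1 + 2 * (1 - a1 ^ 2) * g / N2) ^ N2 ≤
    (1 + (1 - a1 ^ 2) * (N1 * (1 - 1 ^ 2 / 4) - g / 2)) ^ 2
  hρ1 : 0 ≤ ρ1 ∧ (ρ1 = 0 ∨ ρ1 ≤ 1 - 1/4 * 1 * τ)
  hρ2 : 0 ≤ ρ2 ∧ (ρ2 = 0 ∨ ρ2 ≤ 1 - 1/2 * 1 * τ)
  hρ3 : 0 ≤ ρ3 ∧ (ρ3 = 0 ∨ ρ3 ≤ 1 - 3/4 * 1 * τ)
  hV1 : 0 ≤ V1
  hV2 : 0 ≤ V2
  hV3 : 0 ≤ V3
  hV4 : 0 ≤ V4
  c1 : (1 + (2 - N1 * a1 ^ 2 * (1/4) * (1 - 1/4) - (2 * g - w) * (1/4) - 2 * ρ1 ^ 2) /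
    (N2 - 2)) ^ (N2 - 2) ≤ V1 ^ 2
  c2 : (1 + (2 - N1 * a1 ^ 2 * (1/2) * (1 - 1/2) - (2 * g - w) * (1/2) - 2 * ρ2 ^ 2) /
    (N2 - 2)) ^ (N2 - 2) ≤ V2 ^ 2
  c3 : (1 + (2 - N1 * a1 ^ 2 * (3/4) * (1 - 3/4) - (2 * g - w) * (3/4) - 2 * ρ3 ^ 2) /
    (N2 - 2)) ^ (N2 - 2) ≤ V3 ^ 2
  c4 : (1 + (2 - (2 * g - w)) / (N2 - 2)) ^ (N2 - 2) ≤ V4 ^ 2
  hJ : 1 / 96 + V1 / 16 + V2 / 8 + 3 * V3 / 16 + 11 * V4 / 96 ≤ J
  hV : 0 ≤ V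
  cV : (1 - (2 * g - w) / N2) ^ (N1 - 1) ≤ V ^ 2
  hκ0 : 0 ≤ κ
  hκ : 2 * N2 * J - 7 / 10 ≤ κ
  hQN : 0 ≤ QN
  hb : 2 * QN * V + (QN + w / N1) * κ < 1
  hd : 4 * (V / N1 + J) ≤ a1

theorem cbox (h : Fr N a ζ z) {N1 N2 : ℕ} {a1 w g τ ρ1 ρ2 ρ3 V1 V2 V3 V4 J V QN κ : ℝ}
    (c : CorC N1 N2 a1 w g τ ρ1 ρ2 ρ3 V1 V2 V3 V4 J V QN κ)
    (h4 : 4 ≤ N) (hN1' : 2 ≤ N1) (hN1 : N1 ≤ N) (hN2 : N ≤ N2) (ha1 : a1 ≤ a)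
    (hw : W a ζ ≤ w) {Q : ℝ} (hQ : (N : ℝ) - 2 * G a ζ ≤ (1 - a ^ 2) * Q) (hQ0 : 0 ≤ Q)
    (hQN : Q ≤ QN * N)
    (hD : -∑ k, Real.log ‖Fr.u a ζ k‖ ≤ 3 / 10)
    (hWD : 3 * W a ζ ≤ 10 * (-∑ k, Real.log ‖Fr.u a ζ k‖)) : False := by
  have hA0 := h.a0
  have hA1 := h.a1
  have ha2 : a ≤ 1 := hA1.le
  have hNr : (4 : ℝ) ≤ N := by exact_mod_cast h4
  have hN1r : (N1 : ℝ) ≤ N := by exact_mod_cast hN1
  have hN2r : (N : ℝ) ≤ N2 := by exact_mod_cast hN2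
  have hN1p : (2 : ℝ) ≤ N1 := by exact_mod_cast hN1'
  have hN0 : (0:ℝ) < N := by linarith
  have hW0 : 0 ≤ W a ζ := W_nonneg
  have hw20 : 0 ≤ w := hW0.trans hw
  have hG : g ≤ G a ζ := G_ge h N1 N2 a1 1 g (by omega) hN1 hN2 c.ha1 ha1 ha2 le_rfl c.hg c.gB c.gc
  have hη : 2 * g - w ≤ 2 * G a ζ - W a ζ := by linarith
  have hA : (N1 : ℝ) * a1 ^ 2 ≤ N * a ^ 2 :=
    mul_le_mul hN1r (pow_le_pow_left₀ c.ha1 ha1 2) (sq_nonneg _) (by linarith)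
  have hc2 : ((N2 - 2 : ℕ) : ℝ) = (N2 : ℝ) - 2 := cast_sub_two (by omega)
  have hρ : ∀ {ρ s : ℝ}, 0 ≤ s → (0 ≤ ρ ∧ (ρ = 0 ∨ ρ ≤ 1 - s * 1 * τ)) →
      (ρ = 0 ∨ ρ ≤ 1 - s * a * τ) := by
    intro ρ s hs hρ
    refine hρ.2.imp id fun h' => h'.trans ?_
    have : s * a * τ ≤ s * 1 * τ := by
      have := c.hτ
      exact mul_le_mul_of_nonneg_right (mul_le_mul_of_nonneg_left ha2 hs) (by linarith)
    linarith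
  have hJ0 : 0 ≤ J := by
    refine le_trans ?_ c.hJ
    have := c.hV1; have := c.hV2; have := c.hV3; have := c.hV4
    positivity
  have hJ : ∀ k j, k ≠ j → ∫ s in (0:ℝ)..1, s * PP a ζ k j s ≤ J := by
    intro k j hkj
    refine le_trans ?_ c.hJ
    have hp := pair_le h hw c.hτ c.hwτ hkj
    refine int_four h4 hkj c.hV1 c.hV2 c.hV3 c.hV4 ?_ ?_ ?_ ?_
    · refine CC_pow_le h (by omega) hN2 hkj hp (by norm_num) (by norm_num) hA hη c.hρ1.1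
        (hρ (by norm_num) c.hρ1) ?_
      rw [hc2]; exact c.c1
    · refine CC_pow_le h (by omega) hN2 hkj hp (by norm_num) (by norm_num) hA hη c.hρ2.1
        (hρ (by norm_num) c.hρ2) ?_
      rw [hc2]; exact c.c2
    · refine CC_pow_le h (by omega) hN2 hkj hp (by norm_num) (by norm_num) hA hη c.hρ3.1
        (hρ (by norm_num) c.hρ3) ?_
      rw [hc2]; exact c.c3
    · refine CC_pow_le (ρ := 0) h (by omega) hN2 hkj hp (by norm_num) (by norm_num) hA hη le_rfl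
        (Or.inl rfl) ?_
      rw [hc2]
      refine le_trans (le_of_eq ?_) c.c4
      congr 2
      ring
  have hX0 := Fr.X_nonneg (a := a) (ζ := ζ) (by omega : 0 < N) 1
  rw [X_one h (by omega)] at hX0
  have hVq : (1 - (2 * G a ζ - W a ζ) / N) ^ (N - 1) ≤ V ^ 2 := by
    have g1 : 1 - (2 * G a ζ - W a ζ) / N ≤ 1 - (2 * g - w) / N2 := by
      have k1 : (2 * g - w) / N ≤ (2 * G a ζ - W a ζ) / N := div_le_div_of_nonneg_right hη hN0.le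
      have k2 : (2 * g - w) / N2 ≤ (2 * g - w) / N := div_le_div_of_nonneg_left c.hwg hN0 hN2r
      linarith
    have g2 : 1 - (2 * g - w) / N2 ≤ 1 := by
      have : 0 ≤ (2 * g - w) / N2 := div_nonneg c.hwg (by linarith)
      linarith
    refine (pow_le_pow_left₀ hX0 g1 _).trans (le_trans ?_ c.cV)
    exact pow_le_pow_of_le_one (hX0.trans g1) g2 (by omega)
  refine corner h (by omega) ha1 hJ hJ0 c.hV hQ hQ0 hQN hw hVq hD hWD c.hκ0 ?_ ?_ ?_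
  · refine le_trans ?_ c.hκ
    have : 2 * (N : ℝ) * J ≤ 2 * N2 * J := by
      exact mul_le_mul_of_nonneg_right (by linarith) hJ0
    linarith
  · refine lt_of_le_of_lt ?_ c.hb
    have : w / N ≤ w / N1 := div_le_div_of_nonneg_left hw20 (by linarith) hN1r
    have := mul_le_mul_of_nonneg_right this c.hκ0
    linarith
  · refine le_trans ?_ c.hd
    have : V / N ≤ V / N1 := div_le_div_of_nonneg_left c.hV (by linarith) hN1r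
    linarith

end Pool.Agent.Lib.MP_172a45_an.H64
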