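import Pool.Agent.Lib.MP_172a45_an.H64.Pair

set_option autoImplicit false

/-!
# The test with a bound of the pair integrals
-/

namespace Pool.Agent.Lib.MP_172a45_an.H64

open Finset F

variable {N : ℕ} {a : ℝ} {ζ z : Fin N → ℂ}

theorem X_one (h : Fr N a ζ z) (hN : 0 < N) :
    Fr.X a ζ 1 = 1 - (2 * G a ζ - W a ζ) / N := by
  have hN0 : (N : ℝ) ≠ 0 := by exact_mod_cast hN.ne'
  unfold Fr.X Fr.p Fr.S G
  rw [sum_sq h]
  field_simp
  ring

/-- the test -/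
theorem core (h : Fr N a ζ z) (hN : 3 ≤ N) {J T : ℝ}
    (hJ : ∀ k j, k ≠ j → ∫ s in (0:ℝ)..1, s * PP a ζ k j s ≤ J)
    (hT0 : 0 ≤ T) (hT : (1 - (2 * G a ζ - W a ζ) / N) ^ (N + 1) ≤ T ^ 2) :
    1 ≤ T + J * (a ^ 2 * (N + W a ζ) - N * Fr.P a ζ ^ 2) +
      Fr.P a ζ * ∏ k, ‖Fr.u a ζ k‖ := by
  have hNp : 0 < N := by omega
  have hN0 : (0 : ℝ) < N := by exact_mod_cast hNp
  have ha := h.a0
  have h1 := h.critX hNp
  have hX := X_one h hNp
  have hX0 := Fr.X_nonneg (a := a) (ζ := ζ) hNp 1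
  have t1 : ‖1 - (a : ℂ) * ((∑ k, Fr.u a ζ k) / N)‖ ≤ √(Fr.X a ζ 1) := by
    refine Real.le_sqrt_of_sq_le ?_
    have e : ‖1 - (a : ℂ) * ((∑ k, Fr.u a ζ k) / N)‖ ^ 2 =
        1 - 2 * Fr.p a ζ + Fr.P a ζ ^ 2 := by
      have e' : (a : ℂ) * ((∑ k, Fr.u a ζ k) / N) = ((a / N : ℝ) : ℂ) * ∑ k, Fr.u a ζ k := by
        push_cast; ring
      rw [e']
      unfold Fr.p Fr.P
      have h2 : ‖∑ k, Fr.u a ζ k‖ ^ 2 = (∑ k, Fr.u a ζ k).re * (∑ k, Fr.u a ζ k).re +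
          (∑ k, Fr.u a ζ k).im * (∑ k, Fr.u a ζ k).im := by
        rw [← Complex.normSq_eq_norm_sq, Complex.normSq_apply]
      have h3 : (a * (‖∑ k, Fr.u a ζ k‖ / N)) ^ 2 = (a / N) ^ 2 * ‖∑ k, Fr.u a ζ k‖ ^ 2 := by ring
      rw [h3, h2]
      simp only [← Complex.normSq_eq_norm_sq, Complex.normSq_apply]
      simp only [Complex.sub_re, Complex.sub_im, Complex.one_re, Complex.one_im, Complex.mul_re,
        Complex.mul_im, Complex.ofReal_re, Complex.ofReal_im]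
      ring
    rw [e]
    have := h.P_sq_le hNp
    unfold Fr.X
    linarith
  have t2 : ∏ k, ‖1 - (a : ℂ) * Fr.u a ζ k‖ ≤ √(Fr.X a ζ 1) ^ N := by
    have := Fr.prod_all_le (a := a) (ζ := ζ) hNp 1
    simpa using this
  have t5 : ‖1 - (a : ℂ) * ((∑ k, Fr.u a ζ k) / N)‖ * ∏ k, ‖1 - (a : ℂ) * Fr.u a ζ k‖ ≤ T := by
    have g1 : ‖1 - (a : ℂ) * ((∑ k, Fr.u a ζ k) / N)‖ * ∏ k, ‖1 - (a : ℂ) * Fr.u a ζ k‖ ≤
        √(Fr.X a ζ 1) * √(Fr.X a ζ 1) ^ N :=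
      mul_le_mul t1 t2 (Finset.prod_nonneg fun _ _ => norm_nonneg _) (Real.sqrt_nonneg _)
    refine g1.trans (le_of_sq_le_sq ?_ hT0)
    rw [← pow_succ', ← pow_mul, mul_comm (N + 1) 2, pow_mul, Real.sq_sqrt hX0, hX]
    exact hT
  have t3 : XI a (Fr.u a ζ) ≤ J * (2 * N * (N + W a ζ) - 2 * ‖∑ k, Fr.u a ζ k‖ ^ 2) := by
    have e0 : XI a (Fr.u a ζ) = ∑ k, ∑ j, ‖Fr.u a ζ k - Fr.u a ζ j‖ ^ 2 *
        ∫ s in (0:ℝ)..1, s * PP a ζ k j s := by
      unfold XI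
      have e1 : ∀ s : ℝ, s * ∑ k, ∑ j, ‖Fr.u a ζ k - Fr.u a ζ j‖ ^ 2 *
          ∏ l ∈ (univ.erase k).erase j, ‖1 - (s : ℂ) * a * Fr.u a ζ l‖ =
          ∑ k, ∑ j, ‖Fr.u a ζ k - Fr.u a ζ j‖ ^ 2 * (s * PP a ζ k j s) := fun s => by
        rw [Finset.mul_sum]
        refine Finset.sum_congr rfl fun k _ => ?_
        rw [Finset.mul_sum]
        refine Finset.sum_congr rfl fun j _ => ?_
        unfold PP
        ring
      simp only [e1]
      rw [intervalIntegral.integral_finsetSum]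
      · refine Finset.sum_congr rfl fun k _ => ?_
        rw [intervalIntegral.integral_finsetSum]
        · refine Finset.sum_congr rfl fun j _ => ?_
          rw [intervalIntegral.integral_const_mul]
        · intro j _
          exact (continuous_const.mul (continuous_id.mul (PP_cont k j))).intervalIntegrable _ _
      · intro k _
        refine Continuous.intervalIntegrable ?_ _ _
        exact continuous_finsetSum _ fun j _ =>
          continuous_const.mul (continuous_id.mul (PP_cont k j))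
    rw [e0, ← sum_sq h, ← sum_sum_norm_sub_sq, Finset.mul_sum]
    refine Finset.sum_le_sum fun k _ => ?_
    rw [Finset.mul_sum]
    refine Finset.sum_le_sum fun j _ => ?_
    by_cases hkj : k = j
    · subst hkj
      simp
    · rw [mul_comm J]
      exact mul_le_mul_of_nonneg_left (hJ k j hkj) (sq_nonneg _)
  have t4 : a ^ 2 / (2 * N) * XI a (Fr.u a ζ) ≤
      J * (a ^ 2 * (N + W a ζ) - N * Fr.P a ζ ^ 2) := by
    have := mul_le_mul_of_nonneg_left t3 (by positivity : 0 ≤ a ^ 2 / (2 * N))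
    refine this.trans (le_of_eq ?_)
    unfold Fr.P
    field_simp
  have t6 : a * (‖∑ k, Fr.u a ζ k‖ / N) * ∏ k, ‖Fr.u a ζ k‖ =
      Fr.P a ζ * ∏ k, ‖Fr.u a ζ k‖ := rfl
  rw [t6] at h1
  linarith

/-- `P` lies between `p` and `a` -/
theorem P_ge (h : Fr N a ζ z) (hN : 0 < N) :
    a ^ 2 / 2 + (G a ζ - (1 - a ^ 2) * W a ζ / 2) / N ≤ Fr.P a ζ := by
  have hN0 : (N : ℝ) ≠ 0 := by exact_mod_cast hN.ne'
  have h1 := h.abs_p_le
  have h2 := (abs_le.1 h1).2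
  refine le_trans (le_of_eq ?_) ((le_abs_self _).trans h1)
  unfold Fr.p G
  field_simp
  ring

/-- the test for `N (a² S - P²)`: this quantity is nonnegative -/
theorem var_nonneg (h : Fr N a ζ z) (hN : 0 < N) :
    0 ≤ a ^ 2 * (N + W a ζ) - N * Fr.P a ζ ^ 2 := by
  have hN0 : (0 : ℝ) < N := by exact_mod_cast hN
  have h1 := h.P_sq_le hN
  have e : a ^ 2 * (N + W a ζ) - N * Fr.P a ζ ^ 2 = N * (a ^ 2 * Fr.S a ζ - Fr.P a ζ ^ 2) := by
    unfold Fr.S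
    rw [sum_sq h]
    field_simp
  rw [e]
  exact mul_nonneg hN0.le (by linarith)

end Pool.Agent.Lib.MP_172a45_an.H64
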