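import Mathlib

set_option autoImplicit false

/-!
# The Pade bound of the exponential
-/

namespace Pool.Agent.Lib.MP_172a45_an.H64

/-- `e^x (6 - 2x) ≤ 6 + 4x + x²` for `x ≥ 0` -/
theorem pade {x : ℝ} (hx : 0 ≤ x) : Real.exp x * (6 - 2 * x) ≤ 6 + 4 * x + x ^ 2 := by
  have mono : ∀ (f f' : ℝ → ℝ), (∀ y, HasDerivAt f (f' y) y) → (∀ y, 0 ≤ y → 0 ≤ f' y) →
      f 0 = 0 → ∀ y, 0 ≤ y → 0 ≤ f y := by
    intro f f' hd hf' h0 y hy
    have hm : MonotoneOn f (Set.Ici (0:ℝ)) := by
      refine monotoneOn_of_deriv_nonneg (convex_Ici 0)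
        (fun y _ => (hd y).continuousAt.continuousWithinAt) (fun y _ => ?_) (fun y hy => ?_)
      · exact (hd y).differentiableAt.differentiableWithinAt
      · rw [(hd y).deriv]
        exact hf' y (interior_subset hy)
    have := hm (Set.mem_Ici.2 le_rfl) (Set.mem_Ici.2 hy) hy
    rw [h0] at this
    exact this
  have h2 : ∀ y : ℝ, 0 ≤ y → 0 ≤ 2 - Real.exp y * (2 - 2 * y) := by
    refine mono _ (fun y => Real.exp y * (2 * y)) (fun y => ?_) (fun y hy => by positivity)
      (by norm_num)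
    have h := ((Real.hasDerivAt_exp y).mul
      (((hasDerivAt_id y).const_mul 2).const_sub 2)).const_sub 2
    refine h.congr_deriv ?_
    simp only [id]
    ring
  have h1 : ∀ y : ℝ, 0 ≤ y → 0 ≤ 4 + 2 * y - Real.exp y * (4 - 2 * y) := by
    refine mono _ (fun y => 2 - Real.exp y * (2 - 2 * y)) (fun y => ?_) h2 (by norm_num)
    have h := (((hasDerivAt_id y).const_mul 2).const_add 4).sub ((Real.hasDerivAt_exp y).mul
      (((hasDerivAt_id y).const_mul 2).const_sub 4))
    refine h.congr_deriv ?_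
    simp only [id]
    ring
  have h0 : ∀ y : ℝ, 0 ≤ y → 0 ≤ 6 + 4 * y + y ^ 2 - Real.exp y * (6 - 2 * y) := by
    refine mono _ (fun y => 4 + 2 * y - Real.exp y * (4 - 2 * y)) (fun y => ?_) h1 (by norm_num)
    have g2 : HasDerivAt (fun s : ℝ => s ^ 2) (2 * y) y := by
      simpa using hasDerivAt_pow 2 y
    have h := ((((hasDerivAt_id y).const_mul 4).const_add 6).add g2).sub
      ((Real.hasDerivAt_exp y).mul (((hasDerivAt_id y).const_mul 2).const_sub 6))
    refine h.congr_deriv ?_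
    simp only [id]
    ring
  have := h0 x hx
  linarith

end Pool.Agent.Lib.MP_172a45_an.H64
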