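import Pool.Agent.Lib.MP_172a45_an.H64.Box
import Pool.Agent.Lib.MP_172a45_an.H64.Pade

set_option autoImplicit false

/-!
# The corner `a → 1`
-/

namespace Pool.Agent.Lib.MP_172a45_an.H64

open Finset F

variable {N : ℕ} {a : ℝ} {ζ z : Fin N → ℂ}

/-- (Rw') and AM-GM with the exponential -/
theorem rw_exp (h : Fr N a ζ z) (hN : 1 ≤ N) :
    1 + (1 - a ^ 2) * (N * (1 - a ^ 2 / 4) - G a ζ / 2) ≤ Real.exp ((1 - a ^ 2) * G a ζ) := by
  have hA0 := h.a0
  have hA1 := h.a1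
  have hN0 : (0 : ℝ) < N := by exact_mod_cast hN
  have hβ : 0 < 1 - a ^ 2 := by linarith [pow_lt_one₀ hA0.le hA1 two_ne_zero]
  have h1 := rw_amgm h hN
  have hms : 0 ≤ 1 + 2 * (1 - a ^ 2) * G a ζ / N := by
    have h5 := sum_norm_sq_add h a (1 - a ^ 2)
    have h6 : 0 ≤ ∑ k, ‖(a : ℂ) + ((1 - a ^ 2 : ℝ) : ℂ) * Fr.u a ζ k‖ ^ 2 :=
      Finset.sum_nonneg fun _ _ => sq_nonneg _
    rw [h5] at h6
    have e : 1 + 2 * (1 - a ^ 2) * G a ζ / N =
        (N * a ^ 2 + 2 * a * (1 - a ^ 2) * (∑ k, Fr.u a ζ k).re +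
          (1 - a ^ 2) ^ 2 * (N + W a ζ)) / N := by
      unfold G
      field_simp
      ring
    rw [e]
    positivity
  have h2 := one_add_div_pow_le_exp (c := 2 * (1 - a ^ 2) * G a ζ) (by omega : 0 < N) hms
  have h3 := h1.trans h2
  have e : Real.exp (2 * (1 - a ^ 2) * G a ζ) = Real.exp ((1 - a ^ 2) * G a ζ) ^ 2 := by
    rw [← Real.exp_nat_mul]
    congr 1
    push_cast
    ring
  rw [e] at h3
  have h4 := le_of_sq_le_sq h3 (Real.exp_nonneg _)
  refine le_trans ?_ h4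
  have h9 : a / 2 * (∑ k, Fr.u a ζ k).re =
      N * a ^ 2 / 4 + G a ζ / 2 - (1 - a ^ 2) * W a ζ / 4 := by
    unfold G
    ring
  have h10 : 0 ≤ (1 - a ^ 2) * ((1 - a ^ 2) * W a ζ) :=
    mul_nonneg hβ.le (mul_nonneg hβ.le W_nonneg)
  rw [h9]
  linarith

/-- the lower bound of `g` near `a = 1` -/
theorem N_sub_G_le (h : Fr N a ζ z) (hN : 4 ≤ N) :
    (N : ℝ) - 2 * G a ζ ≤ (1 - a ^ 2) * (N * (N - 2) / 6) := by
  have hA0 := h.a0
  have hA1 := h.a1
  have hNr : (4 : ℝ) ≤ N := by exact_mod_cast hN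
  have hβ : 0 < 1 - a ^ 2 := by linarith [pow_lt_one₀ hA0.le hA1 two_ne_zero]
  set β := 1 - a ^ 2 with hβd
  have hD : 0 < 18 + β * N * (3 + β) := by positivity
  have hG : 3 * N * (3 + β) / (18 + β * N * (3 + β)) ≤ G a ζ := by
    by_contra hc
    push Not at hc
    have h1 := rw_exp h (by omega)
    rw [← hβd] at h1
    set g0 := 3 * N * (3 + β) / (18 + β * N * (3 + β)) with hg0
    have hg00 : 0 < g0 := by positivity
    have h2 : Real.exp (β * G a ζ) < Real.exp (β * g0) := Real.exp_lt_exp.2 (mul_lt_mul_of_pos_left hc hβ)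
    have h3 := pade (x := β * g0) (by positivity)
    have h4 : 0 < 6 - 2 * (β * g0) := by
      have : β * g0 = 3 * (β * N * (3 + β)) / (18 + β * N * (3 + β)) := by
        rw [hg0]; field_simp
      have h5 : β * g0 < 3 := by
        rw [this, div_lt_iff₀ hD]
        linarith
      linarith
    have h5 : 1 + β * (N * (1 - a ^ 2 / 4) - g0 / 2) < Real.exp (β * g0) := by
      have : β * (G a ζ / 2) < β * (g0 / 2) := mul_lt_mul_of_pos_left (by linarith) hβ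
      linarith
    have h6 : (1 + β * (N * (1 - a ^ 2 / 4) - g0 / 2)) * (6 - 2 * (β * g0)) <
        6 + 4 * (β * g0) + (β * g0) ^ 2 := lt_of_lt_of_le (mul_lt_mul_of_pos_right h5 h4) h3
    have h7 : (1 + β * (N * (1 - a ^ 2 / 4) - g0 / 2)) * (6 - 2 * (β * g0)) =
        6 + 4 * (β * g0) + (β * g0) ^ 2 := by
      have e : (1 : ℝ) - a ^ 2 / 4 = (3 + β) / 4 := by rw [hβd]; ring
      rw [e, hg0]
      field_simp
      ring
    linarith
  have h1 : (N : ℝ) - 2 * (3 * N * (3 + β) / (18 + β * N * (3 + β))) ≤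
      β * (N * (N - 2) / 6) := by
    have e : (N : ℝ) - 2 * (3 * N * (3 + β) / (18 + β * N * (3 + β))) =
        β * (N * (N * (3 + β) - 6) / (18 + β * N * (3 + β))) := by
      field_simp
      ring
    rw [e]
    refine mul_le_mul_of_nonneg_left ?_ hβ.le
    rw [div_le_iff₀ hD]
    have h2 : 0 ≤ (N : ℝ) * β * N * (3 * (N - 2) + β * (N - 2) - 6) := by
      refine mul_nonneg (by positivity) ?_
      have h3 := mul_nonneg hβ.le (by linarith : (0 : ℝ) ≤ N - 2)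
      linarith
    linarith
  linarith

/-- the same for `N = 5`, `a ≥ 19/20` -/
theorem five_sub_G_le {ζ z : Fin 5 → ℂ} (h : Fr 5 a ζ z) (ha : 19 / 20 ≤ a) :
    (5 : ℝ) - 2 * G a ζ ≤ (1 - a ^ 2) * 1 := by
  have hA0 := h.a0
  have hA1 := h.a1
  have hβ : 0 < 1 - a ^ 2 := by linarith [pow_lt_one₀ hA0.le hA1 two_ne_zero]
  have hβ1 : 1 - a ^ 2 ≤ 39 / 400 := by
    have := pow_le_pow_left₀ (by norm_num) ha 2
    norm_num at this ⊢
    linarith
  by_contra hc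
  push Not at hc
  set β := 1 - a ^ 2 with hβd
  have h1 := rw_amgm h (by norm_num)
  rw [← hβd] at h1
  have hms : 0 ≤ 1 + 2 * β * G a ζ / ((5:ℕ) : ℝ) := by
    have h5 := sum_norm_sq_add h a β
    have h6 : 0 ≤ ∑ k, ‖(a : ℂ) + (β : ℂ) * Fr.u a ζ k‖ ^ 2 :=
      Finset.sum_nonneg fun _ _ => sq_nonneg _
    rw [h5] at h6
    have e : 1 + 2 * β * G a ζ / ((5:ℕ) : ℝ) =
        (((5:ℕ) : ℝ) * a ^ 2 + 2 * a * β * (∑ k, Fr.u a ζ k).re +
          β ^ 2 * (((5:ℕ) : ℝ) + W a ζ)) / ((5:ℕ) : ℝ) := by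
      unfold G
      rw [hβd]
      field_simp
      ring
    rw [e]
    positivity
  have h2 : 1 + 2 * β * G a ζ / ((5:ℕ) : ℝ) ≤ 1 + β - β ^ 2 / 5 := by
    push_cast
    linarith [mul_lt_mul_of_pos_left hc hβ]
  have h3 := pow_le_pow_left₀ hms h2 5
  have h4 : 1 + (5 / 2) * β + (3 / 2) * β ^ 2 < 1 + β * (((5:ℕ) : ℝ) - a / 2 * (∑ k, Fr.u a ζ k).re) := by
    have h9 : a / 2 * (∑ k, Fr.u a ζ k).re =
        5 * a ^ 2 / 4 + G a ζ / 2 - β * W a ζ / 4 := by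
      unfold G
      rw [hβd]
      push_cast
      ring
    have h10 : 0 ≤ β * (β * W a ζ) := mul_nonneg hβ.le (mul_nonneg hβ.le W_nonneg)
    rw [h9]
    push_cast
    have h11 : a ^ 2 = 1 - β := by rw [hβd]; ring
    rw [h11]
    linarith [mul_lt_mul_of_pos_left hc hβ]
  have h5 : (1 + (5 / 2) * β + (3 / 2) * β ^ 2) ^ 2 <
      (1 + β * (((5:ℕ) : ℝ) - a / 2 * (∑ k, Fr.u a ζ k).re)) ^ 2 :=
    pow_lt_pow_left₀ h4 (by positivity) two_ne_zero
  have h6 : (1 + β - β ^ 2 / 5) ^ 5 ≤ (1 + (5 / 2) * β + (3 / 2) * β ^ 2) ^ 2 := by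
    have e : (1 + (5 / 2) * β + (3 / 2) * β ^ 2) ^ 2 - (1 + β - β ^ 2 / 5) ^ 5 =
        β ^ 2 * (1 / 4 + 3 / 2 * β + 57 / 20 * β ^ 2 + 9 / 5 * β ^ 3 - 3 / 25 * β ^ 4
          - 6 / 25 * β ^ 5 + 9 / 125 * β ^ 6 - 1 / 125 * β ^ 7 + 1 / 3125 * β ^ 8) := by
      ring
    have k0 : β ≤ 1 := by linarith
    have k4 : β ^ 4 ≤ β := by
      calc β ^ 4 = β * β ^ 3 := by ring
        _ ≤ β * 1 := mul_le_mul_of_nonneg_left (pow_le_one₀ hβ.le k0) hβ.le
        _ = β := mul_one _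
    have k5 : β ^ 5 ≤ β := by
      calc β ^ 5 = β * β ^ 4 := by ring
        _ ≤ β * 1 := mul_le_mul_of_nonneg_left (pow_le_one₀ hβ.le k0) hβ.le
        _ = β := mul_one _
    have k7 : β ^ 7 ≤ β := by
      calc β ^ 7 = β * β ^ 6 := by ring
        _ ≤ β * 1 := mul_le_mul_of_nonneg_left (pow_le_one₀ hβ.le k0) hβ.le
        _ = β := mul_one _
    have k2 : 0 ≤ 57 / 20 * β ^ 2 + 9 / 5 * β ^ 3 + 9 / 125 * β ^ 6 + 1 / 3125 * β ^ 8 := by
      positivity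
    have k1 : 0 ≤ 1 / 4 + 3 / 2 * β + 57 / 20 * β ^ 2 + 9 / 5 * β ^ 3 - 3 / 25 * β ^ 4
          - 6 / 25 * β ^ 5 + 9 / 125 * β ^ 6 - 1 / 125 * β ^ 7 + 1 / 3125 * β ^ 8 := by
      linarith
    have := mul_nonneg (sq_nonneg β) k1
    linarith
  linarith

/-- the corner lemma: given a bound `J` of the pair integrals -/
theorem corner (h : Fr N a ζ z) (hN : 3 ≤ N) {J V Q QN w κ a1 : ℝ} (ha1 : a1 ≤ a)
    (hJ : ∀ k j, k ≠ j → ∫ s in (0:ℝ)..1, s * PP a ζ k j s ≤ J)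
    (hJ0 : 0 ≤ J) (hV0 : 0 ≤ V) (hQ : (N : ℝ) - 2 * G a ζ ≤ (1 - a ^ 2) * Q) (hQ0 : 0 ≤ Q)
    (hQN : Q ≤ QN * N) (hw : W a ζ ≤ w)
    (hV : (1 - (2 * G a ζ - W a ζ) / N) ^ (N - 1) ≤ V ^ 2)
    (hD : -∑ k, Real.log ‖Fr.u a ζ k‖ ≤ 3 / 10)
    (hWD : 3 * W a ζ ≤ 10 * (-∑ k, Real.log ‖Fr.u a ζ k‖))
    (hκ0 : 0 ≤ κ) (hκ : 2 * N * J - 7 / 10 ≤ κ)
    (hb : 2 * QN * V + (QN + w / N) * κ < 1) (hd : 4 * (V / N + J) ≤ a1) : False := by
  have hA0 := h.a0
  have hA1 := h.a1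
  have hNr : (3 : ℝ) ≤ N := by exact_mod_cast hN
  have hN0 : (0 : ℝ) < N := by linarith
  have hβ : 0 < 1 - a ^ 2 := by linarith [pow_lt_one₀ hA0.le hA1 two_ne_zero]
  have hβ2 : 1 - a ^ 2 ≤ 2 * (1 - a) := by linarith [sq_nonneg (1 - a)]
  have hW0 : 0 ≤ W a ζ := W_nonneg
  have hX0 := Fr.X_nonneg (a := a) (ζ := ζ) (by omega : 0 < N) 1
  rw [X_one h (by omega)] at hX0
  set q := 1 - (2 * G a ζ - W a ζ) / N with hq
  -- the first term
  have hT : q ^ (N + 1) ≤ (q * V) ^ 2 := by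
    have e : N + 1 = (N - 1) + 2 := by omega
    rw [e, pow_add, mul_pow, mul_comm (q ^ 2)]
    exact mul_le_mul_of_nonneg_right hV (sq_nonneg _)
  have hcore := core h hN hJ (mul_nonneg hX0 hV0) hT
  have hqN : q * N ≤ (1 - a ^ 2) * Q + W a ζ := by
    have : q * N = N - 2 * G a ζ + W a ζ := by
      rw [hq]
      field_simp
      ring
    linarith
  set D := -∑ k, Real.log ‖Fr.u a ζ k‖ with hDdef
  have hD0 : 0 ≤ D := deficit_nonneg h
  have hP := prod_eq_exp h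
  rw [← hDdef] at hP
  set e := ∏ k, ‖Fr.u a ζ k‖ with he
  have he1 : e ≤ 1 := by
    rw [hP]
    exact Real.exp_le_one_iff.2 (by linarith)
  have he7 : 7 / 10 ≤ e := by
    rw [hP]
    have := Real.add_one_le_exp (-D)
    linarith
  have heD : 17 / 20 * D ≤ 1 - e := by
    have g1 : Real.exp (-D) * (1 + D + D ^ 2 / 2) ≤ 1 := by
      have := Real.quadratic_le_exp_of_nonneg hD0
      have g2 : Real.exp (-D) * (1 + D + D ^ 2 / 2) ≤ Real.exp (-D) * Real.exp D :=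
        mul_le_mul_of_nonneg_left this (Real.exp_nonneg _)
      rwa [← Real.exp_add, neg_add_cancel, Real.exp_zero] at g2
    rw [← hP] at g1
    have g3 : (1 - 17 / 20 * D) * (1 + D + D ^ 2 / 2) ≥ 1 := by
      have : 0 ≤ D * (3 / 20 + D * (1 / 2 - 17 / 20) - 17 / 40 * D ^ 2) := by
        refine mul_nonneg hD0 ?_
        have k := mul_le_mul_of_nonneg_right hD hD0
        linarith
      linarith
    have g4 : 0 < 1 + D + D ^ 2 / 2 := by positivity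
    by_contra hc
    push Not at hc
    have g5 : (1 - 17 / 20 * D) * (1 + D + D ^ 2 / 2) < e * (1 + D + D ^ 2 / 2) :=
      mul_lt_mul_of_pos_right (by linarith) g4
    linarith
  have hWe : W a ζ ≤ 4 * (1 - e) := by linarith
  -- `r = a - P`
  have hP1 := h.P_le (by omega)
  have hP0 := h.P_nonneg
  have hPge := P_ge h (by omega)
  set P := Fr.P a ζ with hPdef
  obtain ⟨r, hr⟩ : ∃ r, r = a - P := ⟨_, rfl⟩
  have hr0 : 0 ≤ r := by linarith
  have hr1 : 2 * N * r ≤ (1 - a ^ 2) * (Q + w) := by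
    have g1 : (G a ζ - (1 - a ^ 2) * W a ζ / 2) / N * N = G a ζ - (1 - a ^ 2) * W a ζ / 2 :=
      div_mul_cancel₀ _ hN0.ne'
    have g2 : (a ^ 2 / 2 + (G a ζ - (1 - a ^ 2) * W a ζ / 2) / N) * N ≤ P * N :=
      mul_le_mul_of_nonneg_right hPge hN0.le
    have g3 : (1 - a ^ 2) * W a ζ ≤ (1 - a ^ 2) * w := mul_le_mul_of_nonneg_left hw hβ.le
    have g4 : 0 ≤ N * (1 - a) ^ 2 := by positivity
    rw [hr]
    linarith
  have g1 : J * (a ^ 2 * (N + W a ζ) - N * P ^ 2) + P * e ≤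
      J * W a ζ + a * e + r * κ := by
    have e1 : P = a - r := by linarith
    have k1 : J * (a ^ 2 * (N + W a ζ) - N * P ^ 2) + P * e =
        J * (a ^ 2 * W a ζ) + a * e + r * (2 * N * J * a - e) - J * N * r ^ 2 := by
      rw [e1]; ring
    have k2 : a ^ 2 * W a ζ ≤ W a ζ :=
      mul_le_of_le_one_left hW0 (pow_le_one₀ hA0.le hA1.le)
    have k3 : J * (a ^ 2 * W a ζ) ≤ J * W a ζ := mul_le_mul_of_nonneg_left k2 hJ0
    have k4 : 2 * N * J * a - e ≤ κ := by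
      have : 2 * N * J * a ≤ 2 * N * J * 1 := mul_le_mul_of_nonneg_left hA1.le (by positivity)
      linarith
    have k5 : r * (2 * N * J * a - e) ≤ r * κ := mul_le_mul_of_nonneg_left k4 hr0
    have k6 : 0 ≤ J * N * r ^ 2 := by positivity
    linarith
  -- all terms over `N`
  have g2 : q * V * N ≤ (2 * (1 - a) * (QN * N) + 4 * (1 - e)) * V := by
    have k1 : (1 - a ^ 2) * Q ≤ 2 * (1 - a) * (QN * N) :=
      mul_le_mul hβ2 hQN hQ0 (by linarith)
    have k2 : q * N ≤ 2 * (1 - a) * (QN * N) + 4 * (1 - e) := by linarith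
    have := mul_le_mul_of_nonneg_right k2 hV0
    linarith
  have g3 : r * κ * N ≤ (1 - a) * (QN * N + w) * κ := by
    have k1 : (1 - a ^ 2) * (Q + w) ≤ 2 * (1 - a) * (QN * N + w) := by
      have hw0 : 0 ≤ w := hW0.trans hw
      exact mul_le_mul hβ2 (by linarith) (by linarith) (by linarith)
    have k2 : r * N ≤ (1 - a) * (QN * N + w) := by linarith
    have := mul_le_mul_of_nonneg_right k2 hκ0
    linarith
  have hfin : (1 - a * e) * N ≤ q * V * N + J * W a ζ * N + r * κ * N := by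
    have : 1 - a * e ≤ q * V + J * W a ζ + r * κ := by linarith
    have := mul_le_mul_of_nonneg_right this hN0.le
    linarith
  have g4 : J * W a ζ ≤ J * (4 * (1 - e)) := mul_le_mul_of_nonneg_left hWe hJ0
  have hb' : (2 * QN * V + (QN + w / N) * κ) * N < 1 * N := mul_lt_mul_of_pos_right hb hN0
  have e2 : (2 * QN * V + (QN + w / N) * κ) * N = 2 * QN * V * N + (QN * N + w) * κ := by
    field_simp
  have hd' : 4 * (V / N + J) * N ≤ a1 * N := mul_le_mul_of_nonneg_right hd hN0.le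
  have e3 : 4 * (V / N + J) * N = 4 * V + 4 * J * N := by
    field_simp
  have h1a : 0 < 1 - a := by linarith
  have h1e : 0 ≤ 1 - e := by linarith
  have g5 : (1 - a) * (2 * QN * V * N + (QN * N + w) * κ) < (1 - a) * N := by
    rw [← e2]
    have := mul_lt_mul_of_pos_left hb' h1a
    linarith
  have g6 : (1 - e) * (4 * V + 4 * J * N) ≤ (1 - e) * (a * N) := by
    refine mul_le_mul_of_nonneg_left ?_ h1e
    rw [← e3]
    exact hd'.trans (mul_le_mul_of_nonneg_right ha1 hN0.le)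
  have g7 : J * W a ζ * N ≤ J * (4 * (1 - e)) * N := mul_le_mul_of_nonneg_right g4 hN0.le
  have e4 : (1 - a * e) * N = (1 - a) * N + (1 - e) * (a * N) := by ring
  rw [e4] at hfin
  linarith

end Pool.Agent.Lib.MP_172a45_an.H64
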