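import Pool.Agent.Lib.MP_172a45_an.H64.BoxE

set_option autoImplicit false

/-!
# Boxes for `N = 5` and product of the norms at most `.741` (generated)
-/

namespace Pool.Agent.Lib.MP_172a45_an.H64

open F

theorem five_mid_0 : BoxE 5 5 0 (19/40) (63/50) (741/1000) (17/8) (8969/5000) (7869/10000) (5739/10000) (3609/10000) (10071/10000) (4621/5000) (3797/5000) (1097/2000) (13/200) (299/1000) (299/1000) (1971/5000) := by
  constructor <;> norm_num

theorem five_mid_1 : BoxE 5 5 (19/40) (19/32) (63/50) (741/1000) (1103/500) (8969/5000) (7337/10000) (2337/5000) (2011/10000) (4811/5000) (8563/10000) (1381/2000) (967/2000) (101/2000) (1141/2500) (57/125) (29/80) := by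
  constructor <;> norm_num

theorem five_mid_2 : BoxE 5 5 (19/32) (209/320) (63/50) (741/1000) (2257/1000) (8969/5000) (7071/10000) (2071/5000) (1213/10000) (9289/10000) (8019/10000) (6279/10000) (4441/10000) (213/5000) (273/500) (273/500) (1687/5000) := by
  constructor <;> norm_num

theorem five_mid_3 : BoxE 5 5 (209/320) (57/80) (63/50) (741/1000) (227/100) (8969/5000) (1701/2500) (3609/10000) (207/5000) (116/125) (989/1250) (6011/10000) (2171/5000) (51/1250) (119/200) (119/200) (1649/5000) := by
  constructor <;> norm_num

theorem five_mid_4 : BoxE 5 5 (57/80) (95/128) (63/50) (741/1000) (231/100) (8969/5000) (6671/10000) (3343/10000) (7/5000) (8989/10000) (1487/2000) (273/500) (2021/5000) (353/10000) (6537/10000) (653/1000) (3083/10000) := by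
  constructor <;> norm_num

theorem five_mid_5 : BoxE 5 5 (95/128) (247/320) (63/50) (741/1000) (58/25) (8969/5000) (3269/5000) (3077/10000) 0 (8939/10000) (73/100) (1047/2000) (3969/10000) (341/10000) (1707/2500) (341/500) (753/2500) := by
  constructor <;> norm_num

theorem five_mid_6 : BoxE 5 5 (247/320) (513/640) (63/50) (741/1000) (2331/1000) (8969/5000) (1281/2000) (281/1000) 0 (71/80) (357/500) (5001/10000) (243/625) (327/10000) (7131/10000) (713/1000) (587/2000) := by
  constructor <;> norm_num

theorem five_mid_7 : BoxE 5 5 (513/640) (209/256) (63/50) (741/1000) (1179/500) (8969/5000) (3169/5000) (2677/10000) 0 (8683/10000) (3413/5000) (467/1000) (3693/10000) (59/2000) (3739/5000) (747/1000) (2799/10000) := by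
  constructor <;> norm_num

theorem five_mid_8 : BoxE 5 5 (209/256) (133/160) (63/50) (741/1000) (473/200) (8969/5000) (392/625) (159/625) 0 (4319/5000) (1681/2500) (4543/10000) (3643/10000) (287/10000) (3821/5000) (191/250) (1377/5000) := by
  constructor <;> norm_num

theorem five_mid_9 : BoxE 5 5 (133/160) (1083/1280) (63/50) (741/1000) (593/250) (8969/5000) (1241/2000) (2411/10000) 0 (537/625) (6617/10000) (883/2000) (3593/10000) (279/10000) (7809/10000) (39/50) (677/2500) := by
  constructor <;> norm_num

theorem five_mid_10 : BoxE 5 5 (1083/1280) (437/512) (63/50) (741/1000) (597/250) (8969/5000) (1543/2500) (293/1250) 0 (4241/5000) (6441/10000) (1059/2500) (87/250) (131/5000) (7997/10000) (799/1000) (2633/10000) := by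
  constructor <;> norm_num

theorem five_mid_11 : BoxE 5 5 (437/512) (551/640) (63/50) (741/1000) (2391/1000) (8969/5000) (6139/10000) (1139/5000) 0 (8457/10000) (3193/5000) (2087/5000) (3459/10000) (259/10000) (4041/5000) (101/125) (261/1000) := by
  constructor <;> norm_num

theorem five_mid_12 : BoxE 5 5 (551/640) (2223/2560) (63/50) (741/1000) (479/200) (8969/5000) (1221/2000) (2211/10000) 0 (8431/10000) (3163/5000) (1027/2500) (343/1000) (51/2000) (8169/10000) (102/125) (1293/5000) := by
  constructor <;> norm_num

theorem five_mid_13 : BoxE 5 5 (2223/2560) (1121/1280) (63/50) (741/1000) (2399/1000) (8969/5000) (759/1250) (429/2000) 0 (4201/5000) (1253/2000) (4041/10000) (3403/10000) (1/40) (4129/5000) (33/40) (2561/10000) := by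
  constructor <;> norm_num

theorem five_mid_14 : BoxE 5 5 (1121/1280) (2261/2560) (63/50) (741/1000) (601/250) (8969/5000) (6039/10000) (1039/5000) 0 (8371/10000) (6199/10000) (248/625) (421/1250) (49/2000) (8349/10000) (417/500) (2533/10000) := by
  constructor <;> norm_num

theorem five_mid_15 : BoxE 5 5 (2261/2560) (4541/5120) (63/50) (741/1000) (603/250) (8969/5000) (3011/5000) (409/2000) 0 (4157/5000) (6107/10000) (97/250) (207/625) (237/10000) (8447/10000) (211/250) (499/2000) := by
  constructor <;> norm_num

theorem five_mid_16 : BoxE 5 5 (4541/5120) (57/64) (63/50) (741/1000) (483/200) (8969/5000) (1201/2000) (2011/10000) 0 (8297/10000) (6071/10000) (3841/10000) (3291/10000) (117/5000) (4247/5000) (849/1000) (2479/10000) := by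
  constructor <;> norm_num

theorem five_mid_17 : BoxE 5 5 (57/64) (19/20) (63/100) (741/1000) (1173/500) (15613/10000) (6291/10000) (2583/10000) 0 (3689/5000) (241/500) (1281/5000) (1749/10000) (67/10000) (8527/10000) (213/250) (1849/10000) := by
  constructor <;> norm_num

theorem five_mid_18 : BoxE 5 5 (57/64) (589/640) (189/200) (741/1000) (298/125) (8437/5000) (6117/10000) (447/2000) 0 (981/1250) (679/1250) (3151/10000) (1229/5000) (131/10000) (4269/5000) (853/1000) (2147/10000) := by
  constructor <;> norm_num

theorem five_mid_19 : BoxE 5 5 (589/640) (19/20) (189/200) (741/1000) (12/5) (8437/5000) (749/1250) (124/625) 0 (3859/5000) (5181/10000) (1451/5000) (1179/5000) (121/10000) (889/1000) (889/1000) (2049/10000) := by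
  constructor <;> norm_num

theorem five_mid_20 : BoxE 5 5 (57/64) (1159/1280) (441/400) (741/1000) (2403/1000) (697/400) (1211/2000) (2111/10000) 0 (1007/1250) (2861/5000) (3461/10000) (1421/5000) (7/400) (534/625) (427/500) (1149/5000) := by
  constructor <;> norm_num

theorem five_mid_21 : BoxE 5 5 (1159/1280) (589/640) (441/400) (741/1000) (2411/1000) (697/400) (599/1000) (1981/10000) 0 (3997/5000) (1119/2000) (833/2500) (2789/10000) (21/1250) (4361/5000) (109/125) (281/1250) := by
  constructor <;> norm_num

theorem five_mid_22 : BoxE 5 5 (589/640) (1197/1280) (441/400) (741/1000) (121/50) (697/400) (2963/5000) (463/2500) 0 (3963/5000) (273/500) (1599/5000) (2731/10000) (161/10000) (4453/5000) (89/100) (439/2000) := by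
  constructor <;> norm_num

theorem five_mid_23 : BoxE 5 5 (1197/1280) (19/20) (441/400) (741/1000) (243/100) (697/400) (5861/10000) (1723/10000) 0 (3927/5000) (5317/10000) (153/500) (1333/5000) (77/5000) (4547/5000) (909/1000) (2139/10000) := by
  constructor <;> norm_num

theorem five_mid_24 : BoxC 5 5 (57/64) (2299/2560) (441/400) (63/50) (3611/5000) (603/250) (8969/5000) (251/250) (1493/2500) (389/2000) 0 (1039/1250) (6071/10000) (767/2000) (207/625) (237/10000) (8529/10000) (213/250) (1241/5000) := by
  constructor <;> norm_num

theorem five_mid_25 : BoxC 5 5 (2299/2560) (1159/1280) (441/400) (63/50) (3611/5000) (2417/1000) (8969/5000) (251/250) (5939/10000) (939/5000) 0 (8279/10000) (6001/10000) (3763/10000) (1639/5000) (29/1250) (4311/5000) (431/500) (2453/10000) := by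
  constructor <;> norm_num

theorem five_mid_26 : BoxC 5 5 (1159/1280) (2337/2560) (441/400) (63/50) (3611/5000) (2421/1000) (8969/5000) (251/250) (2953/5000) (453/2500) 0 (8247/10000) (1187/2000) (231/625) (13/40) (229/10000) (4357/5000) (871/1000) (2427/10000) := by
  constructor <;> norm_num

theorem five_mid_27 : BoxC 5 5 (2337/2560) (589/640) (441/400) (63/50) (3611/5000) (1213/500) (8969/5000) (251/250) (367/625) (349/2000) 0 (4107/5000) (5863/10000) (453/1250) (201/625) (14/625) (1101/1250) (22/25) (2399/10000) := by
  constructor <;> norm_num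

theorem five_mid_28 : BoxC 5 5 (589/640) (1197/1280) (441/400) (189/160) (7193/10000) (121/50) (8843/5000) (973/1000) (1173/2000) (173/1000) 0 (2021/2500) (2829/5000) (1701/5000) (299/1000) (97/5000) (4447/5000) (889/1000) (1149/5000) := by
  constructor <;> norm_num

theorem five_mid_29 : BoxC 5 5 (1197/1280) (19/20) (441/400) (189/160) (7193/10000) (243/100) (8843/5000) (973/1000) (5799/10000) (1599/10000) 0 (2003/2500) (5511/10000) (3261/10000) (2923/10000) (37/2000) (2271/2500) (227/250) (2241/10000) := by
  constructor <;> norm_num

theorem five_mid_30 : BoxC 5 5 (589/640) (475/512) (189/160) (63/50) (7061/10000) (243/100) (8969/5000) (251/250) (5839/10000) (1679/10000) 0 (8181/10000) (2897/5000) (3557/10000) (797/2500) (11/500) (4451/5000) (89/100) (593/2500) := by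
  constructor <;> norm_num

theorem five_mid_31 : BoxC 5 5 (475/512) (1197/1280) (189/160) (63/50) (7061/10000) (487/200) (8969/5000) (251/250) (2903/5000) (403/2500) 0 (1629/2000) (143/250) (697/2000) (1577/5000) (43/2000) (8997/10000) (899/1000) (293/1250) := by
  constructor <;> norm_num

theorem five_mid_32 : BoxC 5 5 (1197/1280) (2413/2560) (189/160) (63/50) (7061/10000) (61/25) (8969/5000) (251/250) (5773/10000) (773/5000) 0 (8109/10000) (1129/2000) (1707/5000) (39/125) (211/10000) (4547/5000) (909/1000) (463/2000) := by
  constructor <;> norm_num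

theorem five_mid_33 : BoxC 5 5 (2413/2560) (19/20) (189/160) (63/50) (7061/10000) (489/200) (8969/5000) (251/250) (5739/10000) (1479/10000) 0 (8073/10000) (557/1000) (1671/5000) (3087/10000) (103/5000) (9191/10000) (919/1000) (1143/5000) := by
  constructor <;> norm_num

theorem five_mid {N : ℕ} {a : ℝ} {ζ z : Fin N → ℂ} (h : Fr N a ζ z) (hN1 : 5 ≤ N) (hN2 : N ≤ 5)
    (ha1 : 0 ≤ a) (ha2 : a ≤ (19/20)) (hw2 : W a ζ ≤ (63/50))
    (hE : ∏ k, ‖Fr.u a ζ k‖ ≤ (741/1000)) : False := by
  have hw1 : (0:ℝ) ≤ W a ζ := W_nonneg
  rcases le_total (a) (19/40) with g1 | g1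
  · exact boxE h five_mid_0 hE (by omega) hN1 hN2 ha1 g1 hw2
  · rcases le_total (a) (57/80) with g2 | g2
    · rcases le_total (a) (19/32) with g3 | g3
      · exact boxE h five_mid_1 hE (by omega) hN1 hN2 g1 g3 hw2
      · rcases le_total (a) (209/320) with g4 | g4
        · exact boxE h five_mid_2 hE (by omega) hN1 hN2 g3 g4 hw2
        · exact boxE h five_mid_3 hE (by omega) hN1 hN2 g4 g2 hw2
    · rcases le_total (a) (133/160) with g5 | g5
      · rcases le_total (a) (247/320) with g6 | g6
        · rcases le_total (a) (95/128) with g7 | g7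
          · exact boxE h five_mid_4 hE (by omega) hN1 hN2 g2 g7 hw2
          · exact boxE h five_mid_5 hE (by omega) hN1 hN2 g7 g6 hw2
        · rcases le_total (a) (513/640) with g8 | g8
          · exact boxE h five_mid_6 hE (by omega) hN1 hN2 g6 g8 hw2
          · rcases le_total (a) (209/256) with g9 | g9
            · exact boxE h five_mid_7 hE (by omega) hN1 hN2 g8 g9 hw2
            · exact boxE h five_mid_8 hE (by omega) hN1 hN2 g9 g5 hw2
      · rcases le_total (a) (57/64) with g10 | g10
        · rcases le_total (a) (551/640) with g11 | g11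
          · rcases le_total (a) (1083/1280) with g12 | g12
            · exact boxE h five_mid_9 hE (by omega) hN1 hN2 g5 g12 hw2
            · rcases le_total (a) (437/512) with g13 | g13
              · exact boxE h five_mid_10 hE (by omega) hN1 hN2 g12 g13 hw2
              · exact boxE h five_mid_11 hE (by omega) hN1 hN2 g13 g11 hw2
          · rcases le_total (a) (1121/1280) with g14 | g14
            · rcases le_total (a) (2223/2560) with g15 | g15
              · exact boxE h five_mid_12 hE (by omega) hN1 hN2 g11 g15 hw2
              · exact boxE h five_mid_13 hE (by omega) hN1 hN2 g15 g14 hw2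
            · rcases le_total (a) (2261/2560) with g16 | g16
              · exact boxE h five_mid_14 hE (by omega) hN1 hN2 g14 g16 hw2
              · rcases le_total (a) (4541/5120) with g17 | g17
                · exact boxE h five_mid_15 hE (by omega) hN1 hN2 g16 g17 hw2
                · exact boxE h five_mid_16 hE (by omega) hN1 hN2 g17 g10 hw2
        · rcases le_total (W a ζ) (63/100) with g18 | g18
          · exact boxE h five_mid_17 hE (by omega) hN1 hN2 g10 ha2 g18
          · rcases le_total (W a ζ) (189/200) with g19 | g19
            · rcases le_total (a) (589/640) with g20 | g20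
              · exact boxE h five_mid_18 hE (by omega) hN1 hN2 g10 g20 g19
              · exact boxE h five_mid_19 hE (by omega) hN1 hN2 g20 ha2 g19
            · rcases le_total (W a ζ) (441/400) with g21 | g21
              · rcases le_total (a) (589/640) with g22 | g22
                · rcases le_total (a) (1159/1280) with g23 | g23
                  · exact boxE h five_mid_20 hE (by omega) hN1 hN2 g10 g23 g21
                  · exact boxE h five_mid_21 hE (by omega) hN1 hN2 g23 g22 g21
                · rcases le_total (a) (1197/1280) with g24 | g24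
                  · exact boxE h five_mid_22 hE (by omega) hN1 hN2 g22 g24 g21
                  · exact boxE h five_mid_23 hE (by omega) hN1 hN2 g24 ha2 g21
              · rcases le_total (a) (589/640) with g25 | g25
                · rcases le_total (a) (1159/1280) with g26 | g26
                  · rcases le_total (a) (2299/2560) with g27 | g27
                    · exact box h five_mid_24 (by omega) hN1 hN2 g10 g27 g21 hw2
                    · exact box h five_mid_25 (by omega) hN1 hN2 g27 g26 g21 hw2
                  · rcases le_total (a) (2337/2560) with g28 | g28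
                    · exact box h five_mid_26 (by omega) hN1 hN2 g26 g28 g21 hw2
                    · exact box h five_mid_27 (by omega) hN1 hN2 g28 g25 g21 hw2
                · rcases le_total (W a ζ) (189/160) with g29 | g29
                  · rcases le_total (a) (1197/1280) with g30 | g30
                    · exact box h five_mid_28 (by omega) hN1 hN2 g25 g30 g21 g29
                    · exact box h five_mid_29 (by omega) hN1 hN2 g30 ha2 g21 g29
                  · rcases le_total (a) (1197/1280) with g31 | g31
                    · rcases le_total (a) (475/512) with g32 | g32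
                      · exact box h five_mid_30 (by omega) hN1 hN2 g25 g32 g29 hw2
                      · exact box h five_mid_31 (by omega) hN1 hN2 g32 g31 g29 hw2
                    · rcases le_total (a) (2413/2560) with g33 | g33
                      · exact box h five_mid_32 (by omega) hN1 hN2 g31 g33 g29 hw2
                      · exact box h five_mid_33 (by omega) hN1 hN2 g33 ha2 g29 hw2

theorem five_cor_0 : BoxE 5 5 (19/20) 1 (63/100) (741/1000) (2387/1000) (15613/10000) (381/625) (2193/10000) 0 (7043/10000) (107/250) (2059/10000) (61/400) (51/10000) (369/400) (461/500) (1641/10000) := by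
  constructor <;> norm_num

theorem five_cor_1 : BoxE 5 5 (19/20) (39/40) (189/200) (741/1000) (303/125) (8437/5000) (2943/5000) (1773/10000) 0 (7541/10000) (4873/10000) (523/2000) (553/2500) (53/5000) (2317/2500) (463/500) (1929/10000) := by
  constructor <;> norm_num

theorem five_cor_2 : BoxE 5 5 (39/40) 1 (189/200) (741/1000) (61/25) (8437/5000) (5781/10000) (1563/10000) 0 (7411/10000) (463/1000) (2397/10000) (529/2500) (97/10000) (4793/5000) (479/500) (919/5000) := by
  constructor <;> norm_num

theorem five_cor_3 : BoxE 5 5 (19/20) (77/80) (441/400) (741/1000) (2443/1000) (697/400) (5807/10000) (807/5000) 0 (3881/5000) (5153/10000) (2907/10000) (2583/10000) (29/2000) (9291/10000) (929/1000) (83/400) := by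
  constructor <;> norm_num

theorem five_cor_4 : BoxE 5 5 (77/80) (39/40) (441/400) (741/1000) (2451/1000) (697/400) (719/1250) (301/2000) 0 (7699/10000) (5029/10000) (1397/5000) (633/2500) (139/10000) (2363/2500) (189/200) (507/2500) := by
  constructor <;> norm_num

theorem five_cor_5 : BoxE 5 5 (39/40) (79/80) (441/400) (741/1000) (123/50) (697/400) (2849/5000) (349/2500) 0 (7631/10000) (2449/5000) (669/2500) (99/400) (133/10000) (4809/5000) (961/1000) (1979/10000) := by
  constructor <;> norm_num

theorem five_cor_6 : BoxE 5 5 (79/80) 1 (441/400) (741/1000) (2469/1000) (697/400) (5643/10000) (1287/10000) 0 (3781/5000) (953/2000) (2559/10000) (2419/10000) (127/10000) (4893/5000) (489/500) (193/1000) := by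
  constructor <;> norm_num

theorem five_cor_7 : BoxC 5 5 (19/20) (77/80) (441/400) (189/160) (7193/10000) (2443/1000) (8843/5000) (973/1000) (359/625) (93/625) 0 (99/125) (5343/10000) (621/2000) (2837/10000) (87/5000) (9283/10000) (116/125) (87/400) := by
  constructor <;> norm_num

theorem five_cor_8 : BoxC 5 5 (77/80) (39/40) (441/400) (189/160) (7193/10000) (2451/1000) (8843/5000) (973/1000) (5689/10000) (689/5000) 0 (491/625) (1043/2000) (2989/10000) (557/2000) (21/1250) (9447/10000) (118/125) (2127/10000) := by
  constructor <;> norm_num

theorem five_cor_9 : BoxC 5 5 (39/40) (79/80) (441/400) (189/160) (7193/10000) (123/50) (8843/5000) (973/1000) (5633/10000) (1267/10000) 0 (7789/10000) (2541/5000) (2869/10000) (1363/5000) (161/10000) (4807/5000) (961/1000) (2077/10000) := by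
  constructor <;> norm_num

theorem five_cor_10 : BoxC 5 5 (79/80) 1 (441/400) (1827/1600) (7177/10000) (2469/1000) (17557/10000) (239/250) (561/1000) (1221/10000) 0 (7641/10000) (607/1250) (1327/5000) (2543/10000) (7/500) (1957/2000) (489/500) (989/5000) := by
  constructor <;> norm_num

theorem five_cor_11 : BoxC 5 5 (79/80) 1 (1827/1600) (189/160) (889/1250) (2469/1000) (8843/5000) (973/1000) (2789/5000) (1157/10000) 0 (7719/10000) (989/2000) (2749/10000) (667/2500) (77/5000) (1223/1250) (489/500) (1013/5000) := by
  constructor <;> norm_num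

theorem five_cor_12 : BoxC 5 5 (19/20) (153/160) (189/160) (63/50) (7061/10000) (613/250) (8969/5000) (251/250) (5711/10000) (1423/10000) 0 (321/400) (2741/5000) (163/500) (3039/10000) (1/50) (9293/10000) (929/1000) (2251/10000) := by
  constructor <;> norm_num

theorem five_cor_13 : BoxC 5 5 (153/160) (77/80) (189/160) (63/50) (7061/10000) (307/125) (8969/5000) (251/250) (5683/10000) (1367/10000) 0 (7993/10000) (2709/5000) (3201/10000) (753/2500) (49/2500) (586/625) (937/1000) (2227/10000) := by
  constructor <;> norm_num

theorem five_cor_14 : BoxC 5 5 (77/80) (31/32) (189/160) (63/50) (7061/10000) (2461/1000) (8969/5000) (251/250) (1131/2000) (1311/10000) 0 (7959/10000) (5349/10000) (3137/10000) (2979/10000) (12/625) (9461/10000) (473/500) (11/50) := by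
  constructor <;> norm_num

theorem five_cor_15 : BoxC 5 5 (31/32) (39/40) (189/160) (63/50) (7061/10000) (493/200) (8969/5000) (251/250) (5627/10000) (251/2000) 0 (7927/10000) (5283/10000) (3079/10000) (369/1250) (189/10000) (1193/1250) (477/500) (136/625) := by
  constructor <;> norm_num

theorem five_cor_16 : BoxC 5 5 (39/40) (157/160) (189/160) (63/50) (7061/10000) (247/100) (8969/5000) (251/250) (5599/10000) (1199/10000) 0 (1973/2500) (5213/10000) (603/2000) (2919/10000) (23/1250) (963/1000) (963/1000) (2149/10000) := by
  constructor <;> norm_num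

theorem five_cor_17 : BoxC 5 5 (157/160) (79/80) (189/160) (63/50) (7061/10000) (1237/500) (8969/5000) (251/250) (5571/10000) (1143/10000) 0 (3929/5000) (2573/5000) (2957/10000) (2893/10000) (181/10000) (1943/2000) (971/1000) (17/80) := by
  constructor <;> norm_num

theorem five_cor_18 : BoxC 5 5 (79/80) (159/160) (189/160) (63/50) (7061/10000) (2479/1000) (8969/5000) (251/250) (5543/10000) (1087/10000) 0 (3911/5000) (2537/5000) (1447/5000) (143/500) (177/10000) (4901/5000) (49/50) (1049/5000) := by
  constructor <;> norm_num

theorem five_cor_19 : BoxC 5 5 (159/160) 1 (189/160) (63/50) (7061/10000) (621/250) (8969/5000) (251/250) (1103/2000) (1031/10000) 0 (3893/5000) (2501/5000) (2831/10000) (2827/10000) (173/10000) (9889/10000) (247/250) (2071/10000) := by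
  constructor <;> norm_num

theorem five_cor {N : ℕ} {a : ℝ} {ζ z : Fin N → ℂ} (h : Fr N a ζ z) (hN1 : 5 ≤ N) (hN2 : N ≤ 5)
    (ha1 : (19/20) ≤ a) (ha2 : a ≤ 1) (hw2 : W a ζ ≤ (63/50))
    (hE : ∏ k, ‖Fr.u a ζ k‖ ≤ (741/1000)) : False := by
  have hw1 : (0:ℝ) ≤ W a ζ := W_nonneg
  rcases le_total (W a ζ) (63/100) with g1 | g1
  · exact boxE h five_cor_0 hE (by omega) hN1 hN2 ha1 ha2 g1
  · rcases le_total (W a ζ) (189/200) with g2 | g2
    · rcases le_total (a) (39/40) with g3 | g3
      · exact boxE h five_cor_1 hE (by omega) hN1 hN2 ha1 g3 g2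
      · exact boxE h five_cor_2 hE (by omega) hN1 hN2 g3 ha2 g2
    · rcases le_total (W a ζ) (441/400) with g4 | g4
      · rcases le_total (a) (39/40) with g5 | g5
        · rcases le_total (a) (77/80) with g6 | g6
          · exact boxE h five_cor_3 hE (by omega) hN1 hN2 ha1 g6 g4
          · exact boxE h five_cor_4 hE (by omega) hN1 hN2 g6 g5 g4
        · rcases le_total (a) (79/80) with g7 | g7
          · exact boxE h five_cor_5 hE (by omega) hN1 hN2 g5 g7 g4
          · exact boxE h five_cor_6 hE (by omega) hN1 hN2 g7 ha2 g4
      · rcases le_total (W a ζ) (189/160) with g8 | g8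
        · rcases le_total (a) (39/40) with g9 | g9
          · rcases le_total (a) (77/80) with g10 | g10
            · exact box h five_cor_7 (by omega) hN1 hN2 ha1 g10 g4 g8
            · exact box h five_cor_8 (by omega) hN1 hN2 g10 g9 g4 g8
          · rcases le_total (a) (79/80) with g11 | g11
            · exact box h five_cor_9 (by omega) hN1 hN2 g9 g11 g4 g8
            · rcases le_total (W a ζ) (1827/1600) with g12 | g12
              · exact box h five_cor_10 (by omega) hN1 hN2 g11 ha2 g4 g12
              · exact box h five_cor_11 (by omega) hN1 hN2 g11 ha2 g12 g8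
        · rcases le_total (a) (39/40) with g13 | g13
          · rcases le_total (a) (77/80) with g14 | g14
            · rcases le_total (a) (153/160) with g15 | g15
              · exact box h five_cor_12 (by omega) hN1 hN2 ha1 g15 g8 hw2
              · exact box h five_cor_13 (by omega) hN1 hN2 g15 g14 g8 hw2
            · rcases le_total (a) (31/32) with g16 | g16
              · exact box h five_cor_14 (by omega) hN1 hN2 g14 g16 g8 hw2
              · exact box h five_cor_15 (by omega) hN1 hN2 g16 g13 g8 hw2
          · rcases le_total (a) (79/80) with g17 | g17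
            · rcases le_total (a) (157/160) with g18 | g18
              · exact box h five_cor_16 (by omega) hN1 hN2 g13 g18 g8 hw2
              · exact box h five_cor_17 (by omega) hN1 hN2 g18 g17 g8 hw2
            · rcases le_total (a) (159/160) with g19 | g19
              · exact box h five_cor_18 (by omega) hN1 hN2 g17 g19 g8 hw2
              · exact box h five_cor_19 (by omega) hN1 hN2 g19 ha2 g8 hw2

end Pool.Agent.Lib.MP_172a45_an.H64
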