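import Pool.Agent.Lib.MP_172a45_an.H64.Log
import Pool.Agent.Lib.MP_172a45_an.F.Small

set_option autoImplicit false

/-!
# The lower bound for `a Re ∑ u` from (Rw') and AM-GM, in a box
-/

namespace Pool.Agent.Lib.MP_172a45_an.H64

open Finset F

/-- `(1 + c/m)^m` increases with `m` -/
theorem one_add_div_rpow_mono {c m M : ℝ} (hm : 0 < m) (hmM : m ≤ M) (hc : 0 ≤ 1 + c / m) :
    (1 + c / m) ^ m ≤ (1 + c / M) ^ M := by
  have hM : 0 < M := by linarith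
  have h0 : -m ≤ c := by
    have : 0 ≤ (1 + c / m) * m := mul_nonneg hc hm.le
    rw [add_mul, one_mul, div_mul_cancel₀ _ hm.ne'] at this
    linarith
  have h1 : -1 ≤ c / M := by
    rw [le_div_iff₀ hM]; linarith
  have h2 : 1 ≤ M / m := by rw [le_div_iff₀ hm]; linarith
  have h3 := one_add_mul_self_le_rpow_one_add h1 h2
  have e : M / m * (c / M) = c / m := by field_simp
  rw [e] at h3
  have h4 := Real.rpow_le_rpow hc h3 hm.le
  rw [← Real.rpow_mul (by linarith), div_mul_cancel₀ _ hm.ne'] at h4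
  exact h4

theorem one_add_div_pow_mono {c : ℝ} {m M : ℕ} (hm : 0 < m) (hmM : m ≤ M) (hc : 0 ≤ 1 + c / m) :
    (1 + c / m) ^ m ≤ (1 + c / M) ^ M := by
  have h := one_add_div_rpow_mono (c := c) (m := (m : ℝ)) (M := (M : ℝ)) (by exact_mod_cast hm)
    (by exact_mod_cast hmM) hc
  rwa [Real.rpow_natCast, Real.rpow_natCast] at h

theorem one_add_div_pow_le_exp {c : ℝ} {m : ℕ} (hm : 0 < m) (hc : 0 ≤ 1 + c / m) :
    (1 + c / m) ^ m ≤ Real.exp c := by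
  have h1 : 1 + c / m ≤ Real.exp (c / m) := by
    have := Real.add_one_le_exp (c / m)
    linarith
  have h2 := pow_le_pow_left₀ hc h1 m
  rw [← Real.exp_nat_mul, mul_div_cancel₀ _ (by exact_mod_cast hm.ne' : (m : ℝ) ≠ 0)] at h2
  exact h2

/-- the chord of a power (squared form): if `y^n ≤ B²`, `B ≥ 0`, then
`(1 - l + l y)^n ≤ (1 - l + l B)²` -/
theorem chord_pow {y B l : ℝ} {n : ℕ} (hn : 2 ≤ n) (hy : 0 ≤ y) (hB : 0 ≤ B) (hyB : y ^ n ≤ B ^ 2)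
    (hl : 0 ≤ l) (hl1 : l ≤ 1) : (1 - l + l * y) ^ n ≤ (1 - l + l * B) ^ 2 := by
  have hp : (1:ℝ) ≤ (n : ℝ) / 2 := by
    have : (2:ℝ) ≤ n := by exact_mod_cast hn
    linarith
  have h1 := (convexOn_rpow hp).2 (Set.mem_Ici.2 (zero_le_one (α := ℝ))) (Set.mem_Ici.2 hy)
    (by linarith : 0 ≤ 1 - l) hl (by ring)
  simp only [smul_eq_mul, mul_one, Real.one_rpow] at h1
  have h2 : y ^ ((n : ℝ) / 2) ≤ B := by
    refine le_of_sq_le_sq ?_ hB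
    rw [← Real.rpow_natCast (y ^ ((n : ℝ) / 2)) 2, ← Real.rpow_mul hy]
    have : (n : ℝ) / 2 * ((2:ℕ) : ℝ) = n := by push_cast; ring
    rw [this, Real.rpow_natCast]
    exact hyB
  have h3 : (1 - l + l * y) ^ ((n : ℝ) / 2) ≤ 1 - l + l * B :=
    h1.trans (by linarith [mul_le_mul_of_nonneg_left h2 hl])
  have h0 : 0 ≤ 1 - l + l * y := by
    have := mul_nonneg hl hy
    linarith
  have h4 := pow_le_pow_left₀ (Real.rpow_nonneg h0 _) h3 2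
  rw [← Real.rpow_natCast ((1 - l + l * y) ^ ((n : ℝ) / 2)) 2, ← Real.rpow_mul h0] at h4
  have : (n : ℝ) / 2 * ((2:ℕ) : ℝ) = n := by push_cast; ring
  rw [this, Real.rpow_natCast] at h4
  exact h4

variable {N : ℕ} {a : ℝ} {ζ z : Fin N → ℂ}

/-- the quantity `g` -/
noncomputable def G (a : ℝ) (ζ : Fin N → ℂ) : ℝ :=
  a * (∑ k, Fr.u a ζ k).re - N * a ^ 2 / 2 + (1 - a ^ 2) * W a ζ / 2

theorem sum_norm_sq_add (h : Fr N a ζ z) (x y : ℝ) :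
    ∑ k, ‖(x : ℂ) + (y : ℂ) * Fr.u a ζ k‖ ^ 2 =
      N * x ^ 2 + 2 * x * y * (∑ k, Fr.u a ζ k).re + y ^ 2 * (N + W a ζ) := by
  rw [← sum_sq h, Complex.re_sum]
  have e : ∀ k, ‖(x : ℂ) + (y : ℂ) * Fr.u a ζ k‖ ^ 2 =
      x ^ 2 + 2 * x * y * (Fr.u a ζ k).re + y ^ 2 * ‖Fr.u a ζ k‖ ^ 2 := fun k => by
    rw [← Complex.normSq_eq_norm_sq, ← Complex.normSq_eq_norm_sq, Complex.normSq_apply,
      Complex.normSq_apply]
    simp only [Complex.add_re, Complex.add_im, Complex.mul_re, Complex.mul_im, Complex.ofReal_re,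
      Complex.ofReal_im]
    ring
  simp only [e, Finset.sum_add_distrib, ← Finset.mul_sum]
  simp only [Finset.sum_const, Finset.card_univ, Fintype.card_fin, nsmul_eq_mul]

theorem re_sum_le (h : Fr N a ζ z) : (∑ k, Fr.u a ζ k).re ≤ N :=
  (Complex.re_le_norm _).trans ((norm_sum_le _ _).trans (le_of_eq h.mean))

theorem norm_sum_le' (h : Fr N a ζ z) : ‖∑ k, Fr.u a ζ k‖ ≤ N :=
  (norm_sum_le _ _).trans (le_of_eq h.mean)

/-- (Rw') and AM-GM -/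
theorem rw_amgm (h : Fr N a ζ z) (hN : 1 ≤ N) :
    (1 + (1 - a ^ 2) * (N - a / 2 * (∑ k, Fr.u a ζ k).re)) ^ 2 ≤
      (1 + 2 * (1 - a ^ 2) * G a ζ / N) ^ N := by
  have ha0 := h.a0
  have ha1 := h.a1
  have hN0 : (0 : ℝ) < N := by exact_mod_cast hN
  have h1 := h.Rw'
  have h2 := re_sum_le h
  have h3 : 0 ≤ 1 + (1 - a ^ 2) * (N - a / 2 * (∑ k, Fr.u a ζ k).re) := by
    have : 0 ≤ (1 - a ^ 2) * (N - a / 2 * (∑ k, Fr.u a ζ k).re) := by
      refine mul_nonneg (by linarith [pow_lt_one₀ ha0.le ha1 two_ne_zero]) ?_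
      have e1 := mul_le_mul_of_nonneg_left h2 (by linarith : 0 ≤ a / 2)
      have e2 := mul_le_mul_of_nonneg_right (by linarith : a / 2 ≤ 1) hN0.le
      linarith
    linarith
  have h4 := pow_le_pow_left₀ h3 h1 2
  refine h4.trans ?_
  rw [← Finset.prod_pow]
  refine (prod_le_pow_mean hN _ fun k => sq_nonneg _).trans (le_of_eq ?_)
  congr 1
  have e : ∀ k, ‖(a : ℂ) + (1 - (a : ℂ) ^ 2) * Fr.u a ζ k‖ ^ 2 =
      ‖((a : ℝ) : ℂ) + ((1 - a ^ 2 : ℝ) : ℂ) * Fr.u a ζ k‖ ^ 2 := fun k => by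
    push_cast; rfl
  simp only [e]
  rw [sum_norm_sq_add h]
  unfold G
  field_simp
  ring

/-- the lower bound for `g` in a box (`N₁ ≤ N ≤ N₂`, `a₁ ≤ a ≤ a₂`) -/
theorem G_ge (h : Fr N a ζ z) (N1 N2 : ℕ) (a1 a2 g0 : ℝ) (hN : 2 ≤ N) (hN1 : N1 ≤ N)
    (hN2 : N ≤ N2) (h0 : 0 ≤ a1) (ha1 : a1 ≤ a) (ha2 : a ≤ a2) (ha2' : a2 ≤ 1) (hg0 : 0 ≤ g0)
    (hB : 0 ≤ 1 + (1 - a1 ^ 2) * (N1 * (1 - a2 ^ 2 / 4) - g0 / 2))
    (hc : (1 + 2 * (1 - a1 ^ 2) * g0 / N2) ^ N2 ≤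
      (1 + (1 - a1 ^ 2) * (N1 * (1 - a2 ^ 2 / 4) - g0 / 2)) ^ 2) :
    g0 ≤ G a ζ := by
  by_contra hcon
  push Not at hcon
  have hA0 := h.a0
  have hA1 := h.a1
  have hN0 : (0 : ℝ) < N := by exact_mod_cast (by omega : 0 < N)
  have hN20 : (0 : ℝ) < N2 := by exact_mod_cast (by omega : 0 < N2)
  have hβ : 0 < 1 - a ^ 2 := by linarith [pow_lt_one₀ hA0.le hA1 two_ne_zero]
  have hβ1 : 0 < 1 - a1 ^ 2 := by
    linarith [pow_lt_one₀ h0 (ha1.trans_lt hA1) two_ne_zero]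
  have hββ : 1 - a ^ 2 ≤ 1 - a1 ^ 2 := by linarith [pow_le_pow_left₀ h0 ha1 2]
  have h1 := rw_amgm h (by omega)
  set B := 1 + (1 - a1 ^ 2) * (N1 * (1 - a2 ^ 2 / 4) - g0 / 2) with hBdef
  set β := 1 - a ^ 2 with hβdef
  set β1 := 1 - a1 ^ 2 with hβ1def
  -- mean square is nonnegative
  have hms : 0 ≤ 1 + 2 * β * G a ζ / N := by
    have h5 := sum_norm_sq_add h a β
    have h6 : 0 ≤ ∑ k, ‖(a : ℂ) + (β : ℂ) * Fr.u a ζ k‖ ^ 2 :=
      Finset.sum_nonneg fun _ _ => sq_nonneg _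
    rw [h5] at h6
    have e : 1 + 2 * β * G a ζ / N =
        (N * a ^ 2 + 2 * a * β * (∑ k, Fr.u a ζ k).re + β ^ 2 * (N + W a ζ)) / N := by
      unfold G
      rw [hβdef]
      field_simp
      ring
    rw [e]
    positivity
  have h2 : (1 + 2 * β * G a ζ / N) ^ N ≤ (1 + 2 * β * g0 / N) ^ N := by
    refine pow_le_pow_left₀ hms ?_ N
    have : 2 * β * G a ζ / N ≤ 2 * β * g0 / N := by
      refine div_le_div_of_nonneg_right ?_ hN0.le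
      exact mul_le_mul_of_nonneg_left hcon.le (by linarith)
    linarith
  have h3 : (1 + 2 * β * g0 / N) ^ N ≤ (1 + 2 * β * g0 / N2) ^ N2 :=
    one_add_div_pow_mono (by omega) hN2 (by positivity)
  have hl : 1 + 2 * β * g0 / N2 = 1 - β / β1 + β / β1 * (1 + 2 * β1 * g0 / N2) := by
    field_simp
    ring
  have hl1 : β / β1 ≤ 1 := by rw [div_le_one hβ1]; exact hββ
  have h4 : (1 + 2 * β * g0 / N2) ^ N2 ≤ (1 - β / β1 + β / β1 * B) ^ 2 := by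
    rw [hl]
    exact chord_pow (by omega) (by positivity) hB hc (by positivity) hl1
  have h5 : 1 - β / β1 + β / β1 * B = 1 + β * (N1 * (1 - a2 ^ 2 / 4) - g0 / 2) := by
    rw [hBdef]
    field_simp
    ring
  have h6 : 0 ≤ 1 - β / β1 + β / β1 * B := by
    have : 0 ≤ β / β1 * B := by positivity
    linarith
  have h7 : 1 + β * (N1 * (1 - a2 ^ 2 / 4) - g0 / 2) <
      1 + β * (N - a / 2 * (∑ k, Fr.u a ζ k).re) := by
    have h8 : (N1 : ℝ) * (1 - a2 ^ 2 / 4) ≤ N * (1 - a ^ 2 / 4) := by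
      have g1 : (N1 : ℝ) ≤ N := by exact_mod_cast hN1
      have g2 : 0 ≤ 1 - a2 ^ 2 / 4 := by
        have : a2 ^ 2 ≤ 1 := pow_le_one₀ (hA0.le.trans ha2) ha2'
        linarith
      have g3 : 1 - a2 ^ 2 / 4 ≤ 1 - a ^ 2 / 4 := by
        linarith [pow_le_pow_left₀ hA0.le ha2 2]
      exact mul_le_mul g1 g3 g2 hN0.le
    have h9 : a / 2 * (∑ k, Fr.u a ζ k).re = N * a ^ 2 / 4 + G a ζ / 2 - β * W a ζ / 4 := by
      unfold G
      rw [hβdef]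
      ring
    have h10 : 0 ≤ β * W a ζ := mul_nonneg hβ.le W_nonneg
    have h11 : (N1 : ℝ) * (1 - a2 ^ 2 / 4) - g0 / 2 < N - a / 2 * (∑ k, Fr.u a ζ k).re := by
      rw [h9]
      linarith
    linarith [mul_lt_mul_of_pos_left h11 hβ]
  have h8 := pow_lt_pow_left₀ (h5 ▸ h7 : 1 - β / β1 + β / β1 * B < _) h6 (two_ne_zero)
  linarith

end Pool.Agent.Lib.MP_172a45_an.H64
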