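import Pool.Agent.Lib.MP_172a45_an.F.Facts

set_option autoImplicit false

/-!
# The variance of the norms is at most a multiple of the deficit `-∑ log ‖u k‖`
-/

namespace Pool.Agent.Lib.MP_172a45_an.H64

open Finset F

/-- `log (1 + x) ≤ x (6 + x)/(6 + 4 x)` for `x ≥ 0` -/
theorem log_one_add_le {x : ℝ} (hx : 0 ≤ x) :
    Real.log (1 + x) ≤ x * (6 + x) / (6 + 4 * x) := by
  have hd : ∀ y ∈ Set.Ici (0:ℝ), HasDerivAt (fun y => y * (6 + y) / (6 + 4 * y) - Real.log (1 + y))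
      (4 * y ^ 3 / ((6 + 4 * y) ^ 2 * (1 + y))) y := by
    intro y hy
    have hy0 : (0:ℝ) ≤ y := hy
    have h1 : HasDerivAt (fun y : ℝ => y * (6 + y)) (1 * (6 + y) + y * 1) y :=
      (hasDerivAt_id y).mul ((hasDerivAt_id y).const_add 6)
    have h2 : HasDerivAt (fun y : ℝ => 6 + 4 * y) (4 * 1) y :=
      ((hasDerivAt_id y).const_mul 4).const_add 6
    have h3 : HasDerivAt (fun y : ℝ => Real.log (1 + y)) (1 / (1 + y)) y :=
      ((hasDerivAt_id y).const_add 1).log (by simp only [id]; positivity)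
    have h4 := (h1.div h2 (by positivity)).sub h3
    refine h4.congr_deriv ?_
    field_simp
    ring
  have hm : MonotoneOn (fun y => y * (6 + y) / (6 + 4 * y) - Real.log (1 + y)) (Set.Ici (0:ℝ)) := by
    refine monotoneOn_of_deriv_nonneg (convex_Ici 0)
      (fun y hy => (hd y hy).continuousAt.continuousWithinAt) (fun y hy => ?_) (fun y hy => ?_)
    · exact (hd y (interior_subset hy)).differentiableAt.differentiableWithinAt
    · have hy0 : (0:ℝ) ≤ y := interior_subset hy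
      rw [(hd y hy0).deriv]
      positivity
  have h := hm (Set.mem_Ici.2 le_rfl) (Set.mem_Ici.2 hx) hx
  simp only [add_zero, Real.log_one, zero_mul, mul_zero, zero_div, sub_zero] at h
  linarith

/-- `log (1 + x) ≤ x - x²/2` for `-1 < x ≤ 0` -/
theorem log_one_add_le_neg {x : ℝ} (hx : x ≤ 0) (hx1 : -1 < x) :
    Real.log (1 + x) ≤ x - x ^ 2 / 2 := by
  have hd : ∀ y ∈ Set.Ioc (-1:ℝ) 0, HasDerivAt (fun y => y - y ^ 2 / 2 - Real.log (1 + y))
      (-(y ^ 2 / (1 + y))) y := by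
    intro y hy
    have hy0 : (0:ℝ) < 1 + y := by linarith [hy.1]
    have h1 : HasDerivAt (fun y : ℝ => y - y ^ 2 / 2) (1 - (2:ℕ) * y ^ (2 - 1) * 1 / 2) y :=
      (hasDerivAt_id y).sub (((hasDerivAt_id y).pow 2).div_const 2)
    have h3 : HasDerivAt (fun y : ℝ => Real.log (1 + y)) (1 / (1 + y)) y :=
      ((hasDerivAt_id y).const_add 1).log (by simp only [id]; exact hy0.ne')
    have h4 := h1.sub h3
    refine h4.congr_deriv ?_
    field_simp
    push_cast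
    ring
  have hm : AntitoneOn (fun y => y - y ^ 2 / 2 - Real.log (1 + y)) (Set.Ioc (-1:ℝ) 0) := by
    refine antitoneOn_of_deriv_nonpos (convex_Ioc _ _)
      (fun y hy => (hd y hy).continuousAt.continuousWithinAt) (fun y hy => ?_) (fun y hy => ?_)
    · exact (hd y (interior_subset hy)).differentiableAt.differentiableWithinAt
    · have hy0 := interior_subset hy
      rw [(hd y hy0).deriv]
      have : (0:ℝ) < 1 + y := by linarith [hy0.1]
      have : 0 ≤ y ^ 2 / (1 + y) := by positivity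
      linarith
  have h := hm (⟨hx1, hx⟩ : x ∈ Set.Ioc (-1:ℝ) 0) (⟨by norm_num, le_rfl⟩) hx
  simp only [add_zero, Real.log_one] at h
  norm_num at h
  linarith

/-- `3 (t-1)² ≤ (6 + 4X) (t - 1 - log t)` -/
theorem delta_ge {t X : ℝ} (ht : 0 < t) (hX : 0 ≤ X) (htX : t - 1 ≤ X) :
    3 * (t - 1) ^ 2 ≤ (6 + 4 * X) * (t - 1 - Real.log t) := by
  rcases le_total 1 t with h1 | h1
  · have h2 := log_one_add_le (x := t - 1) (by linarith)
    rw [add_sub_cancel] at h2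
    have h3 : 0 < 6 + 4 * (t - 1) := by linarith
    rw [le_div_iff₀ h3] at h2
    have h4 : 3 * (t - 1) ^ 2 ≤ (6 + 4 * (t - 1)) * (t - 1 - Real.log t) := by nlinarith
    have h5 : 0 ≤ t - 1 - Real.log t := by
      have := Real.log_le_sub_one_of_pos ht
      linarith
    nlinarith
  · have h2 := log_one_add_le_neg (x := t - 1) (by linarith) (by linarith)
    rw [add_sub_cancel] at h2
    have h5 : 0 ≤ t - 1 - Real.log t := by
      have := Real.log_le_sub_one_of_pos ht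
      linarith
    nlinarith

variable {N : ℕ} {a : ℝ} {ζ z : Fin N → ℂ}

/-- the variance -/
noncomputable def W (a : ℝ) (ζ : Fin N → ℂ) : ℝ := ∑ k, (‖Fr.u a ζ k‖ - 1) ^ 2

theorem W_nonneg : 0 ≤ W a ζ := Finset.sum_nonneg fun _ _ => sq_nonneg _

theorem sum_sq (h : Fr N a ζ z) : ∑ k, ‖Fr.u a ζ k‖ ^ 2 = N + W a ζ := by
  unfold W
  have h1 := h.mean
  have e : ∀ k, (‖Fr.u a ζ k‖ - 1) ^ 2 = ‖Fr.u a ζ k‖ ^ 2 - 2 * ‖Fr.u a ζ k‖ + 1 := fun k => by ring
  simp only [e, Finset.sum_add_distrib, Finset.sum_sub_distrib, ← Finset.mul_sum, h1]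
  simp only [Finset.sum_const, Finset.card_univ, Fintype.card_fin, nsmul_eq_mul, mul_one]
  ring

/-- the variance and the deficit -/
theorem W_le (h : Fr N a ζ z) {D X : ℝ} (hX : 0 ≤ X) (hDX : D * (6 + 4 * X) ≤ 3 * X ^ 2)
    (hD : -∑ k, Real.log ‖Fr.u a ζ k‖ ≤ D) :
    3 * W a ζ ≤ (6 + 4 * X) * (-∑ k, Real.log ‖Fr.u a ζ k‖) := by
  have hpos : ∀ k, 0 < ‖Fr.u a ζ k‖ := fun k => norm_pos_iff.2 (h.u_ne k)
  have hδ : ∀ k, 0 ≤ ‖Fr.u a ζ k‖ - 1 - Real.log ‖Fr.u a ζ k‖ := fun k => by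
    have := Real.log_le_sub_one_of_pos (hpos k)
    linarith
  have hs : ∑ k, (‖Fr.u a ζ k‖ - 1 - Real.log ‖Fr.u a ζ k‖) = -∑ k, Real.log ‖Fr.u a ζ k‖ := by
    simp only [Finset.sum_sub_distrib, h.mean]
    simp
  have hx : ∀ k, ‖Fr.u a ζ k‖ - 1 ≤ X := by
    intro k
    by_contra hc
    push Not at hc
    have h1 := delta_ge (hpos k) (by linarith) (le_refl (‖Fr.u a ζ k‖ - 1))
    have h2 : ‖Fr.u a ζ k‖ - 1 - Real.log ‖Fr.u a ζ k‖ ≤ D := by
      refine le_trans ?_ hD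
      rw [← hs]
      exact Finset.single_le_sum (f := fun k => ‖Fr.u a ζ k‖ - 1 - Real.log ‖Fr.u a ζ k‖)
        (fun k _ => hδ k) (Finset.mem_univ k)
    set x := ‖Fr.u a ζ k‖ - 1 with hxd
    have h0 : 0 < x := by linarith
    have h3 : 3 * x ^ 2 ≤ (6 + 4 * x) * D := h1.trans (mul_le_mul_of_nonneg_left h2 (by linarith))
    have h4 : 3 * x ^ 2 * (6 + 4 * X) ≤ (6 + 4 * x) * (3 * X ^ 2) := by
      have := mul_le_mul_of_nonneg_left hDX (by linarith : (0:ℝ) ≤ 6 + 4 * x)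
      have := mul_le_mul_of_nonneg_right h3 (by linarith : (0:ℝ) ≤ 6 + 4 * X)
      nlinarith
    have h5 : 0 < (x - X) * (18 * (x + X) + 12 * x * X) := by
      refine mul_pos (by linarith) ?_
      positivity
    nlinarith
  have h1 : ∑ k, 3 * (‖Fr.u a ζ k‖ - 1) ^ 2 ≤
      ∑ k, (6 + 4 * X) * (‖Fr.u a ζ k‖ - 1 - Real.log ‖Fr.u a ζ k‖) :=
    Finset.sum_le_sum fun k _ => delta_ge (hpos k) hX (hx k)
  rw [← Finset.mul_sum, ← Finset.mul_sum, hs] at h1
  exact h1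

/-- the product of the norms -/
theorem prod_eq_exp (h : Fr N a ζ z) :
    ∏ k, ‖Fr.u a ζ k‖ = Real.exp (-(-∑ k, Real.log ‖Fr.u a ζ k‖)) := by
  rw [neg_neg, Real.exp_sum]
  exact Finset.prod_congr rfl fun k _ => (Real.exp_log (norm_pos_iff.2 (h.u_ne k))).symm

theorem deficit_nonneg (h : Fr N a ζ z) : 0 ≤ -∑ k, Real.log ‖Fr.u a ζ k‖ := by
  have hs : ∑ k, (‖Fr.u a ζ k‖ - 1 - Real.log ‖Fr.u a ζ k‖) = -∑ k, Real.log ‖Fr.u a ζ k‖ := by
    simp only [Finset.sum_sub_distrib, h.mean]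
    simp
  rw [← hs]
  refine Finset.sum_nonneg fun k _ => ?_
  have := Real.log_le_sub_one_of_pos (norm_pos_iff.2 (h.u_ne k))
  linarith

end Pool.Agent.Lib.MP_172a45_an.H64
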