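import Pool.Agent.Lib.MP_172a45_an.H64.Box

set_option autoImplicit false

/-!
# Boxes: N from 5 to 5 (generated)
-/

namespace Pool.Agent.Lib.MP_172a45_an.H64

open F

theorem b5_0 : BoxC 5 5 0 (19/40) 0 1 1 (17/8) (1067/625) (179/200) (1993/2500) (1189/2000) (1959/5000) (4793/5000) (2097/2500) (6519/10000) (557/1250) (429/10000) (13/40) (13/40) (697/2000) := by
  constructor <;> norm_num

theorem b5_1 : BoxC 5 5 (19/40) (59/100) 0 1 1 (276/125) (1067/625) (179/200) (7481/10000) (4963/10000) (489/2000) (9091/10000) (7687/10000) (2943/5000) (3837/10000) (159/5000) (4769/10000) (119/250) (3177/10000) := by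
  constructor <;> norm_num

theorem b5_2 : BoxC 5 5 (59/100) (13/20) 0 1 1 (282/125) (1067/625) (179/200) (289/400) (4451/10000) (1677/10000) (1757/2000) (7213/10000) (336/625) (1747/5000) (33/1250) (14/25) (14/25) (741/2500) := by
  constructor <;> norm_num

theorem b5_3 : BoxC 5 5 (13/20) (71/100) 0 1 1 (2269/1000) (1067/625) (179/200) (6969/10000) (3939/10000) (909/10000) (548/625) (7123/10000) (647/1250) (3403/10000) (1/40) (6073/10000) (607/1000) (2903/10000) := by
  constructor <;> norm_num

theorem b5_4 : BoxC 5 5 (71/100) (77/100) 0 (1/2) 1 (571/250) (3/2) (633/1000) (889/1250) (169/400) (1337/10000) (3801/5000) (2679/5000) (208/625) (433/2500) (13/2000) (171/250) (171/250) (259/1250) := by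
  constructor <;> norm_num

theorem b5_5 : BoxC 5 5 (71/100) (77/100) (1/2) 1 (2139/2500) (571/250) (1067/625) (179/200) (6713/10000) (3427/10000) (7/500) (8701/10000) (3469/5000) (4847/10000) (1649/5000) (47/2000) (412/625) (659/1000) (1401/5000) := by
  constructor <;> norm_num

theorem b5_6 : BoxC 5 5 (77/100) (83/100) 0 (1/2) 1 (2301/1000) (3/2) (633/1000) (6887/10000) (151/400) (331/5000) (7471/10000) (1283/2500) (3049/10000) (819/5000) (29/5000) (3681/5000) (92/125) (493/2500) := by
  constructor <;> norm_num

theorem b5_7 : BoxC 5 5 (77/100) (4/5) (1/2) 1 (2139/2500) (233/100) (1067/625) (179/200) (1317/2000) (3171/10000) 0 (8359/10000) (16/25) (4263/10000) (1493/5000) (193/10000) (7217/10000) (721/1000) (2569/10000) := by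
  constructor <;> norm_num

theorem b5_8 : BoxC 5 5 (4/5) (83/100) (1/2) 1 (2139/2500) (1171/500) (1067/625) (179/200) (6457/10000) (583/2000) 0 (207/250) (6229/10000) (4031/10000) (1453/5000) (183/10000) (1881/2500) (94/125) (249/1000) := by
  constructor <;> norm_num

theorem b5_9 : BoxC 5 5 (83/100) (89/100) 0 (1/4) 1 (1161/500) (846/625) (56/125) (1747/2500) (497/1250) (241/2500) (3311/5000) (399/1000) (1021/5000) (227/2500) (9/5000) (801/1000) (801/1000) (94/625) := by
  constructor <;> norm_num

theorem b5_10 : BoxC 5 5 (83/100) (89/100) (1/4) (1/2) (229/250) (1161/500) (3/2) (633/1000) (3331/5000) (133/400) 0 (7293/10000) (2413/5000) (1339/5000) (61/400) (51/10000) (1983/2500) (793/1000) (1841/10000) := by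
  constructor <;> norm_num

theorem b5_11 : BoxC 5 5 (83/100) (43/50) (1/2) (3/4) (4243/5000) (471/200) (4031/2500) (31/40) (6533/10000) (1533/5000) 0 (957/1250) (213/400) (1567/5000) (1021/5000) (9/1000) (7921/10000) (99/125) (207/1000) := by
  constructor <;> norm_num

theorem b5_12 : BoxC 5 5 (83/100) (43/50) (3/4) 1 (3961/5000) (471/200) (1067/625) (179/200) (6329/10000) (2659/10000) 0 (2047/2500) (1509/2500) (237/625) (141/500) (43/2500) (7843/10000) (98/125) (481/2000) := by
  constructor <;> norm_num

theorem b5_13 : BoxC 5 5 (43/50) (89/100) (1/2) (3/4) (4243/5000) (2369/1000) (4031/2500) (31/40) (1603/2500) (353/1250) 0 (151/200) (5129/10000) (581/2000) (49/250) (83/10000) (103/125) (103/125) (1987/10000) := by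
  constructor <;> norm_num

theorem b5_14 : BoxC 5 5 (43/50) (89/100) (3/4) 1 (3961/5000) (2369/1000) (1067/625) (179/200) (6201/10000) (1201/5000) 0 (8083/10000) (291/500) (3547/10000) (2729/10000) (161/10000) (327/400) (817/1000) (463/2000) := by
  constructor <;> norm_num

theorem b5_15 : BoxC 5 5 (89/100) (19/20) 0 (1/8) 1 (469/200) (5/4) (317/1000) (7031/10000) (2031/5000) (1093/10000) (1493/2500) (3179/10000) (1403/10000) (553/10000) (7/10000) (539/625) (431/500) (601/5000) := by
  constructor <;> norm_num

theorem b5_16 : BoxC 5 5 (89/100) (19/20) (1/8) (1/4) (9531/10000) (469/200) (846/625) (56/125) (1357/2000) (357/1000) (71/2000) (1279/2000) (183/500) (107/625) (807/10000) (3/2000) (4299/5000) (859/1000) (11/80) := by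
  constructor <;> norm_num

theorem b5_17 : BoxC 5 5 (89/100) (23/25) (1/4) (1/2) (229/250) (298/125) (3/2) (633/1000) (131/200) (31/100) 0 (857/1250) (841/2000) (209/1000) (603/5000) (2/625) (539/625) (431/500) (1589/10000) := by
  constructor <;> norm_num

theorem b5_18 : BoxC 5 5 (23/25) (19/20) (1/4) (1/2) (229/250) (12/5) (3/2) (633/1000) (6437/10000) (23/80) 0 (3363/5000) (3993/10000) (117/625) (141/1250) (7/2500) (1791/2000) (179/200) (94/625) := by
  constructor <;> norm_num

theorem b5_19 : BoxC 5 5 (89/100) (23/25) (1/2) (3/4) (4243/5000) (298/125) (4031/2500) (31/40) (6291/10000) (1291/5000) 0 (929/1250) (307/625) (267/1000) (1873/10000) (19/2500) (2143/2500) (857/1000) (949/5000) := by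
  constructor <;> norm_num

theorem b5_20 : BoxC 5 5 (89/100) (181/200) (3/4) 1 (3961/5000) (1201/500) (1067/625) (179/200) (6137/10000) (1137/5000) 0 (1963/2500) (2731/5000) (801/2500) (1259/5000) (137/10000) (2139/2500) (171/200) (2167/10000) := by
  constructor <;> norm_num

theorem b5_21 : BoxC 5 5 (181/200) (23/25) (3/4) 1 (3961/5000) (2411/1000) (1067/625) (179/200) (6073/10000) (1073/5000) 0 (7787/10000) (2667/5000) (192/625) (2461/10000) (131/10000) (546/625) (873/1000) (529/2500) := by
  constructor <;> norm_num

theorem b5_22 : BoxC 5 5 (23/25) (19/20) (1/2) (3/4) (4243/5000) (12/5) (4031/2500) (31/40) (617/1000) (2341/10000) 0 (3651/5000) (4677/10000) (2433/10000) (891/5000) (69/10000) (2229/2500) (891/1000) (903/5000) := by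
  constructor <;> norm_num

theorem b5_23 : BoxC 5 5 (23/25) (187/200) (3/4) 1 (3961/5000) (121/50) (1067/625) (179/200) (6009/10000) (1009/5000) 0 (7719/10000) (5203/10000) (2941/10000) (481/2000) (1/80) (4459/5000) (891/1000) (129/625) := by
  constructor <;> norm_num

theorem b5_24 : BoxC 5 5 (187/200) (19/20) (3/4) 1 (3961/5000) (2429/1000) (1067/625) (179/200) (1189/2000) (189/1000) 0 (7649/10000) (1267/2500) (281/1000) (2349/10000) (3/250) (9103/10000) (91/100) (503/2500) := by
  constructor <;> norm_num

theorem mid_5 {N : ℕ} {a : ℝ} {ζ z : Fin N → ℂ} (h : Fr N a ζ z) (hN1 : 5 ≤ N) (hN2 : N ≤ 5)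
    (ha2 : a ≤ (19/20)) (hw2 : W a ζ ≤ 1) : False := by
  have ha1 : (0:ℝ) ≤ a := h.a0.le
  have hw1 : (0:ℝ) ≤ W a ζ := W_nonneg
  rcases le_total (a) (19/40) with g1 | g1
  · exact box h b5_0 (by omega) hN1 hN2 ha1 g1 hw1 hw2
  · rcases le_total (a) (71/100) with g2 | g2
    · rcases le_total (a) (59/100) with g3 | g3
      · exact box h b5_1 (by omega) hN1 hN2 g1 g3 hw1 hw2
      · rcases le_total (a) (13/20) with g4 | g4
        · exact box h b5_2 (by omega) hN1 hN2 g3 g4 hw1 hw2
        · exact box h b5_3 (by omega) hN1 hN2 g4 g2 hw1 hw2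
    · rcases le_total (a) (83/100) with g5 | g5
      · rcases le_total (a) (77/100) with g6 | g6
        · rcases le_total (W a ζ) (1/2) with g7 | g7
          · exact box h b5_4 (by omega) hN1 hN2 g2 g6 hw1 g7
          · exact box h b5_5 (by omega) hN1 hN2 g2 g6 g7 hw2
        · rcases le_total (W a ζ) (1/2) with g8 | g8
          · exact box h b5_6 (by omega) hN1 hN2 g6 g5 hw1 g8
          · rcases le_total (a) (4/5) with g9 | g9
            · exact box h b5_7 (by omega) hN1 hN2 g6 g9 g8 hw2
            · exact box h b5_8 (by omega) hN1 hN2 g9 g5 g8 hw2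
      · rcases le_total (a) (89/100) with g10 | g10
        · rcases le_total (W a ζ) (1/2) with g11 | g11
          · rcases le_total (W a ζ) (1/4) with g12 | g12
            · exact box h b5_9 (by omega) hN1 hN2 g5 g10 hw1 g12
            · exact box h b5_10 (by omega) hN1 hN2 g5 g10 g12 g11
          · rcases le_total (a) (43/50) with g13 | g13
            · rcases le_total (W a ζ) (3/4) with g14 | g14
              · exact box h b5_11 (by omega) hN1 hN2 g5 g13 g11 g14
              · exact box h b5_12 (by omega) hN1 hN2 g5 g13 g14 hw2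
            · rcases le_total (W a ζ) (3/4) with g15 | g15
              · exact box h b5_13 (by omega) hN1 hN2 g13 g10 g11 g15
              · exact box h b5_14 (by omega) hN1 hN2 g13 g10 g15 hw2
        · rcases le_total (W a ζ) (1/2) with g16 | g16
          · rcases le_total (W a ζ) (1/4) with g17 | g17
            · rcases le_total (W a ζ) (1/8) with g18 | g18
              · exact box h b5_15 (by omega) hN1 hN2 g10 ha2 hw1 g18
              · exact box h b5_16 (by omega) hN1 hN2 g10 ha2 g18 g17
            · rcases le_total (a) (23/25) with g19 | g19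
              · exact box h b5_17 (by omega) hN1 hN2 g10 g19 g17 g16
              · exact box h b5_18 (by omega) hN1 hN2 g19 ha2 g17 g16
          · rcases le_total (a) (23/25) with g20 | g20
            · rcases le_total (W a ζ) (3/4) with g21 | g21
              · exact box h b5_19 (by omega) hN1 hN2 g10 g20 g16 g21
              · rcases le_total (a) (181/200) with g22 | g22
                · exact box h b5_20 (by omega) hN1 hN2 g10 g22 g21 hw2
                · exact box h b5_21 (by omega) hN1 hN2 g22 g20 g21 hw2
            · rcases le_total (W a ζ) (3/4) with g23 | g23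
              · exact box h b5_22 (by omega) hN1 hN2 g20 ha2 g16 g23
              · rcases le_total (a) (187/200) with g24 | g24
                · exact box h b5_23 (by omega) hN1 hN2 g20 g24 g23 hw2
                · exact box h b5_24 (by omega) hN1 hN2 g24 ha2 g23 hw2

end Pool.Agent.Lib.MP_172a45_an.H64
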