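import Pool.Agent.Lib.MP_172a45_an.H64.Core
import Pool.Agent.Lib.MP_172a45_an.H64.Pade
import Pool.Agent.Lib.MP_172a45_an.F.Hybrid

set_option autoImplicit false

/-!
# One index kept out: the tail
-/

namespace Pool.Agent.Lib.MP_172a45_an.H64.P

open Finset F

variable {M : ℕ} {a : ℝ} {ζ z : Fin (M + 1) → ℂ}

/-- the excess of the norm of index `0` -/
noncomputable def ex (a : ℝ) (ζ : Fin (M + 1) → ℂ) : ℝ := ‖Fr.u a ζ 0‖ - 1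

/-- the variance of the tail -/
noncomputable def wv (a : ℝ) (ζ : Fin (M + 1) → ℂ) : ℝ := ∑ k : Fin M, (‖Fr.ut a ζ k‖ - 1) ^ 2

/-- `∑ ‖ut‖² = M + yv` -/
noncomputable def yv (a : ℝ) (ζ : Fin (M + 1) → ℂ) : ℝ := wv a ζ - 2 * ex a ζ

/-- the quantity `g` of the tail -/
noncomputable def gv (a : ℝ) (ζ : Fin (M + 1) → ℂ) : ℝ :=
  a * (∑ k, Fr.ut a ζ k).re - M * a ^ 2 / 2 + (1 - a ^ 2) * yv a ζ / 2

/-- the factor of index `0` in (Rw') -/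
noncomputable def A0 (a : ℝ) (ζ : Fin (M + 1) → ℂ) : ℝ :=
  ‖(a : ℂ) + (1 - (a : ℂ) ^ 2) * Fr.u a ζ 0‖

/-- `g` plus the share of index `0` -/
noncomputable def gh (a : ℝ) (ζ : Fin (M + 1) → ℂ) : ℝ :=
  gv a ζ + Real.log (A0 a ζ) / (1 - a ^ 2)

theorem wv_nonneg : 0 ≤ wv a ζ := Finset.sum_nonneg fun _ _ => sq_nonneg _

theorem sum_tail (h : Fr (M + 1) a ζ z) : ∑ k, ‖Fr.ut a ζ k‖ = M - ex a ζ := by
  have h1 := h.mean
  rw [Fin.sum_univ_succ] at h1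
  push_cast at h1
  unfold ex Fr.ut
  linarith

theorem sum_tail_sq (h : Fr (M + 1) a ζ z) : ∑ k, ‖Fr.ut a ζ k‖ ^ 2 = M + yv a ζ := by
  have h1 := sum_tail h
  unfold yv wv
  have e : ∀ k, (‖Fr.ut a ζ k‖ - 1) ^ 2 = ‖Fr.ut a ζ k‖ ^ 2 - 2 * ‖Fr.ut a ζ k‖ + 1 :=
    fun k => by ring
  simp only [e, Finset.sum_add_distrib, Finset.sum_sub_distrib, ← Finset.mul_sum, h1]
  simp only [Finset.sum_const, Finset.card_univ, Fintype.card_fin, nsmul_eq_mul, mul_one]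
  ring

theorem ex_nonneg (h : Fr (M + 1) a ζ z) (hmax : ∀ k, ‖Fr.u a ζ k‖ ≤ ‖Fr.u a ζ 0‖) :
    0 ≤ ex a ζ := by
  by_contra hcon
  push Not at hcon
  unfold ex at hcon
  have h4 : ∑ k, ‖Fr.u a ζ k‖ < ∑ _k : Fin (M + 1), (1 : ℝ) :=
    Finset.sum_lt_sum_of_nonempty univ_nonempty fun k _ => (hmax k).trans_lt (by linarith)
  rw [h.mean] at h4
  simp at h4

theorem yv_ge : -(2 * ex a ζ) ≤ yv a ζ := by
  have := wv_nonneg (a := a) (ζ := ζ)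
  unfold yv
  linarith

theorem wv_le (h : Fr (M + 1) a ζ z) (hmax : ∀ k, ‖Fr.u a ζ k‖ ≤ ‖Fr.u a ζ 0‖) :
    3 * (wv a ζ + ex a ζ ^ 2) ≤ (6 + 4 * ex a ζ) * (-∑ k, Real.log ‖Fr.u a ζ k‖) := by
  have hpos : ∀ k, 0 < ‖Fr.u a ζ k‖ := fun k => norm_pos_iff.2 (h.u_ne k)
  have h0 := ex_nonneg h hmax
  have hs : ∑ k, (‖Fr.u a ζ k‖ - 1 - Real.log ‖Fr.u a ζ k‖) = -∑ k, Real.log ‖Fr.u a ζ k‖ := by
    simp only [Finset.sum_sub_distrib, h.mean]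
    simp
  have h1 : ∑ k, 3 * (‖Fr.u a ζ k‖ - 1) ^ 2 ≤
      ∑ k, (6 + 4 * ex a ζ) * (‖Fr.u a ζ k‖ - 1 - Real.log ‖Fr.u a ζ k‖) :=
    Finset.sum_le_sum fun k _ => delta_ge (hpos k) h0 (by
      have := hmax k
      unfold ex
      linarith)
  rw [← Finset.mul_sum, ← Finset.mul_sum, hs, Fin.sum_univ_succ] at h1
  refine le_trans (le_of_eq ?_) h1
  unfold wv ex Fr.ut
  ring

/-- bounds of the excess, the variance and `yv` from the deficit -/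
theorem yv_le (h : Fr (M + 1) a ζ z) (hmax : ∀ k, ‖Fr.u a ζ k‖ ≤ ‖Fr.u a ζ 0‖) {D : ℝ}
    (hD : -∑ k, Real.log ‖Fr.u a ζ k‖ ≤ D) :
    wv a ζ ≤ (2 + 4 * ex a ζ / 3) * D - ex a ζ ^ 2 ∧
    yv a ζ ≤ 2 * D + (4 * D / 3 - 2) * ex a ζ - ex a ζ ^ 2 := by
  have h1 := wv_le h hmax
  have h0 := ex_nonneg h hmax
  have h2 : (6 + 4 * ex a ζ) * (-∑ k, Real.log ‖Fr.u a ζ k‖) ≤ (6 + 4 * ex a ζ) * D :=
    mul_le_mul_of_nonneg_left hD (by linarith)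
  constructor
  · linarith
  · unfold yv
    linarith

theorem ex_le (h : Fr (M + 1) a ζ z) (hmax : ∀ k, ‖Fr.u a ζ k‖ ≤ ‖Fr.u a ζ 0‖) {D xm : ℝ}
    (hD : -∑ k, Real.log ‖Fr.u a ζ k‖ ≤ D) (hxm : 0 ≤ xm) (hx : (2 + 4 * xm / 3) * D ≤ xm ^ 2) :
    ex a ζ ≤ xm := by
  have h1 := (yv_le h hmax hD).1
  have h0 := ex_nonneg h hmax
  have h2 := wv_nonneg (a := a) (ζ := ζ)
  have hD0 : 0 ≤ D := (deficit_nonneg h).trans hD
  by_contra hcon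
  push Not at hcon
  set x := ex a ζ
  have h3 : x ^ 2 ≤ (2 + 4 * x / 3) * D := by linarith
  have hx0 : 0 < x := by linarith
  -- `x² (2 + 4 xm/3) D ≤ x² xm²` and so on
  have h4 : x ^ 2 * (6 + 4 * xm) * D ≤ x ^ 2 * (3 * xm ^ 2) := by
    have := mul_le_mul_of_nonneg_left hx (sq_nonneg x)
    linarith
  have h5 : 3 * x ^ 2 * (6 + 4 * xm) ≤ (6 + 4 * x) * D * (6 + 4 * xm) := by
    have := mul_le_mul_of_nonneg_right h3 (by positivity : 0 ≤ 3 * (6 + 4 * xm))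
    linarith
  have h6 : (6 + 4 * x) * D * (6 + 4 * xm) ≤ (6 + 4 * x) * (3 * xm ^ 2) := by
    have := mul_le_mul_of_nonneg_left hx (by positivity : 0 ≤ 3 * (6 + 4 * x))
    linarith
  have h7 : 0 < (x - xm) * (18 * (x + xm) + 12 * x * xm) := by
    refine mul_pos (by linarith) ?_
    positivity
  nlinarith

/-- a pair in the tail -/
theorem pair_le (h : Fr (M + 1) a ζ z) (hmax : ∀ k, ‖Fr.u a ζ k‖ ≤ ‖Fr.u a ζ 0‖) {D τ : ℝ}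
    (hD : -∑ k, Real.log ‖Fr.u a ζ k‖ ≤ D) (hτ : 1 ≤ τ) (hτD : 2 * D / 3 ≤ τ - 1)
    (hτ2 : (2 + 4 * (τ - 1) / 3) * D ≤ 3 * (τ - 1) ^ 2) {k j : Fin M} (hkj : k ≠ j) :
    ‖Fr.ut a ζ k‖ + ‖Fr.ut a ζ j‖ ≤ 2 * τ := by
  have h0 := ex_nonneg h hmax
  rcases le_total (ex a ζ) (τ - 1) with hx | hx
  · have h1 := hmax k.succ
    have h2 := hmax j.succ
    unfold ex at hx
    unfold Fr.ut
    linarith
  · have h1 := (yv_le h hmax hD).1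
    have h2 : wv a ζ ≤ 2 * (τ - 1) ^ 2 := by
      have h3 : (2 + 4 * ex a ζ / 3) * D - ex a ζ ^ 2 ≤
          (2 + 4 * (τ - 1) / 3) * D - (τ - 1) ^ 2 := by
        have h4 : 0 ≤ (ex a ζ - (τ - 1)) * (ex a ζ + (τ - 1) - 4 * D / 3) :=
          mul_nonneg (by linarith) (by linarith)
        nlinarith
      linarith
    have h3 : (‖Fr.ut a ζ k‖ - 1) ^ 2 + (‖Fr.ut a ζ j‖ - 1) ^ 2 ≤ wv a ζ := by
      unfold wv
      rw [← Finset.sum_pair (f := fun k => (‖Fr.ut a ζ k‖ - 1) ^ 2) hkj]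
      exact Finset.sum_le_sum_of_subset_of_nonneg (Finset.subset_univ _) fun _ _ _ => sq_nonneg _
    set p := ‖Fr.ut a ζ k‖ - 1 with hp
    set q := ‖Fr.ut a ζ j‖ - 1 with hq
    have h4 : (p + q) ^ 2 ≤ (2 * (τ - 1)) ^ 2 := by nlinarith [sq_nonneg (p - q)]
    have h5 : p + q ≤ 2 * (τ - 1) := le_of_sq_le_sq h4 (by linarith)
    linarith

/-! ### products -/

theorem norm_le_exp (v : ℂ) : ‖v‖ ≤ Real.exp ((‖v‖ ^ 2 - 1) / 2) := by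
  have h1 := Real.add_one_le_exp (‖v‖ ^ 2 - 1)
  refine le_of_sq_le_sq ?_ (Real.exp_nonneg _)
  rw [← Real.exp_nat_mul]
  have e : ((2 : ℕ) : ℝ) * ((‖v‖ ^ 2 - 1) / 2) = ‖v‖ ^ 2 - 1 := by push_cast; ring
  rw [e]
  linarith

theorem prod_le_exp {ι : Type} (s : Finset ι) (f : ι → ℂ) :
    ∏ k ∈ s, ‖f k‖ ≤ Real.exp ((∑ k ∈ s, (‖f k‖ ^ 2 - 1)) / 2) := by
  rw [Finset.sum_div, Real.exp_sum]
  exact Finset.prod_le_prod (fun _ _ => norm_nonneg _) fun k _ => norm_le_exp _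

/-- the sum of the squares -/
theorem sum_seg (h : Fr (M + 1) a ζ z) (s : ℝ) :
    ∑ k, (‖(1 : ℂ) - s * a * Fr.ut a ζ k‖ ^ 2 - 1) =
      -(M * a ^ 2) * (s * (1 - s)) - 2 * gv a ζ * s +
        yv a ζ * (s * (1 - a ^ 2 * (1 - s))) := by
  have h1 := sum_norm_one_sub_sq (Fr.ut a ζ) (s * a)
  rw [sum_tail_sq h] at h1
  have e : ∑ k, ‖(1 : ℂ) - s * a * Fr.ut a ζ k‖ ^ 2 =
      ∑ k, ‖(1 : ℂ) - ((s * a : ℝ) : ℂ) * Fr.ut a ζ k‖ ^ 2 := by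
    refine Finset.sum_congr rfl fun k _ => ?_
    push_cast
    rfl
  rw [Finset.sum_sub_distrib, e, h1]
  simp only [Finset.sum_const, Finset.card_univ, Fintype.card_fin, nsmul_eq_mul, mul_one]
  have h2 : a * (∑ k, Fr.ut a ζ k).re =
      gv a ζ + M * a ^ 2 / 2 - (1 - a ^ 2) * yv a ζ / 2 := by unfold gv; ring
  have h3 : 2 * (s * a) * (∑ k, Fr.ut a ζ k).re = 2 * s * (a * (∑ k, Fr.ut a ζ k).re) := by ring
  rw [h3, h2]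
  ring

theorem prod_tail_le (h : Fr (M + 1) a ζ z) (s : ℝ) :
    ∏ k, ‖(1 : ℂ) - s * a * Fr.ut a ζ k‖ ≤
      Real.exp (-(M * a ^ 2 / 2) * (s * (1 - s)) - gv a ζ * s +
        yv a ζ * (s * (1 - a ^ 2 * (1 - s))) / 2) := by
  refine (prod_le_exp univ _).trans (Real.exp_le_exp.2 (le_of_eq ?_))
  rw [sum_seg h]
  ring

theorem prod_pair_le (h : Fr (M + 1) a ζ z) {k j : Fin M} (hkj : k ≠ j) {τ ρ s : ℝ}
    (hτ : ‖Fr.ut a ζ k‖ + ‖Fr.ut a ζ j‖ ≤ 2 * τ) (hs : 0 ≤ s) (hρ : 0 ≤ ρ)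
    (hρ' : ρ = 0 ∨ ρ ≤ 1 - s * a * τ) :
    ∏ l ∈ (univ.erase k).erase j, ‖(1 : ℂ) - s * a * Fr.ut a ζ l‖ ≤
      Real.exp (-(M * a ^ 2 / 2) * (s * (1 - s)) - gv a ζ * s +
        yv a ζ * (s * (1 - a ^ 2 * (1 - s))) / 2 + (1 - ρ ^ 2)) := by
  have ha0 := h.a0
  refine (prod_le_exp _ _).trans (Real.exp_le_exp.2 ?_)
  have e2 := Finset.add_sum_erase univ
    (fun l => ‖(1 : ℂ) - s * a * Fr.ut a ζ l‖ ^ 2 - 1) (Finset.mem_univ k)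
  have e3 := Finset.add_sum_erase (univ.erase k)
    (fun l => ‖(1 : ℂ) - s * a * Fr.ut a ζ l‖ ^ 2 - 1)
    (Finset.mem_erase.2 ⟨hkj.symm, Finset.mem_univ j⟩)
  have e4 := sum_seg h s
  have hnk : ∀ i, 1 - s * a * ‖Fr.ut a ζ i‖ ≤ ‖(1 : ℂ) - s * a * Fr.ut a ζ i‖ := fun i => by
    have g1 := norm_sub_norm_le (1 : ℂ) ((s : ℂ) * a * Fr.ut a ζ i)
    rw [norm_one, norm_mul, norm_mul, Complex.norm_real, Complex.norm_real,
      Real.norm_of_nonneg hs, Real.norm_of_nonneg ha0.le] at g1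
    exact g1
  have h5 : 2 * ρ ^ 2 ≤ ‖(1 : ℂ) - s * a * Fr.ut a ζ k‖ ^ 2 +
      ‖(1 : ℂ) - s * a * Fr.ut a ζ j‖ ^ 2 := by
    rcases hρ' with h0 | h0
    · rw [h0]
      nlinarith [sq_nonneg ‖(1 : ℂ) - s * a * Fr.ut a ζ k‖,
        sq_nonneg ‖(1 : ℂ) - s * a * Fr.ut a ζ j‖]
    · have g1 := hnk k
      have g2 := hnk j
      have g3 : s * a * (‖Fr.ut a ζ k‖ + ‖Fr.ut a ζ j‖) ≤ s * a * (2 * τ) :=
        mul_le_mul_of_nonneg_left hτ (by positivity)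
      set p := ‖(1 : ℂ) - s * a * Fr.ut a ζ k‖
      set q := ‖(1 : ℂ) - s * a * Fr.ut a ζ j‖
      have g4 : 2 * ρ ≤ p + q := by linarith
      have g5 : (2 * ρ) ^ 2 ≤ (p + q) ^ 2 := pow_le_pow_left₀ (by linarith) g4 2
      nlinarith [sq_nonneg (p - q)]
  linarith

/-! ### (Rw') -/

theorem sum_sq_add (h : Fr (M + 1) a ζ z) :
    ∑ k, (‖(a : ℂ) + (1 - (a : ℂ) ^ 2) * Fr.ut a ζ k‖ ^ 2 - 1) = 2 * (1 - a ^ 2) * gv a ζ := by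
  have e : ∀ k, ‖(a : ℂ) + (1 - (a : ℂ) ^ 2) * Fr.ut a ζ k‖ ^ 2 - 1 =
      (a ^ 2 - 1) + 2 * a * (1 - a ^ 2) * (Fr.ut a ζ k).re +
        (1 - a ^ 2) ^ 2 * ‖Fr.ut a ζ k‖ ^ 2 := fun k => by
    have e' : (a : ℂ) + (1 - (a : ℂ) ^ 2) * Fr.ut a ζ k =
        ((a : ℝ) : ℂ) + ((1 - a ^ 2 : ℝ) : ℂ) * Fr.ut a ζ k := by push_cast; rfl
    rw [e', ← Complex.normSq_eq_norm_sq, ← Complex.normSq_eq_norm_sq, Complex.normSq_apply,
      Complex.normSq_apply]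
    simp only [Complex.add_re, Complex.add_im, Complex.mul_re, Complex.mul_im, Complex.ofReal_re,
      Complex.ofReal_im]
    ring
  simp only [e, Finset.sum_add_distrib, ← Finset.mul_sum]
  rw [sum_tail_sq h]
  simp only [Finset.sum_const, Finset.card_univ, Fintype.card_fin, nsmul_eq_mul]
  unfold gv
  rw [Complex.re_sum]
  ring

theorem rw_tail (h : Fr (M + 1) a ζ z) :
    1 + (1 - a ^ 2) * ((M + 1) - a / 2 * ((Fr.u a ζ 0).re + (∑ k, Fr.ut a ζ k).re)) ≤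
      A0 a ζ * Real.exp ((1 - a ^ 2) * gv a ζ) := by
  have h1 := h.Rw'
  rw [Fin.prod_univ_succ, Fin.sum_univ_succ] at h1
  have h2 := prod_le_exp (univ : Finset (Fin M))
    (fun k => (a : ℂ) + (1 - (a : ℂ) ^ 2) * Fr.ut a ζ k)
  rw [sum_sq_add h] at h2
  have e : 2 * (1 - a ^ 2) * gv a ζ / 2 = (1 - a ^ 2) * gv a ζ := by ring
  rw [e] at h2
  have h3 := mul_le_mul_of_nonneg_left h2 (norm_nonneg ((a : ℂ) + (1 - (a : ℂ) ^ 2) * Fr.u a ζ 0))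
  refine le_trans (le_of_eq ?_) (h1.trans h3)
  unfold Fr.ut
  rw [Complex.add_re]
  push_cast
  ring

theorem A0_sq : A0 a ζ ^ 2 = a ^ 2 + 2 * a * (1 - a ^ 2) * (Fr.u a ζ 0).re +
    (1 - a ^ 2) ^ 2 * ‖Fr.u a ζ 0‖ ^ 2 := by
  unfold A0
  have e' : (a : ℂ) + (1 - (a : ℂ) ^ 2) * Fr.u a ζ 0 =
      ((a : ℝ) : ℂ) + ((1 - a ^ 2 : ℝ) : ℂ) * Fr.u a ζ 0 := by push_cast; rfl
  rw [e', ← Complex.normSq_eq_norm_sq, ← Complex.normSq_eq_norm_sq, Complex.normSq_apply,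
    Complex.normSq_apply]
  simp only [Complex.add_re, Complex.add_im, Complex.mul_re, Complex.mul_im, Complex.ofReal_re,
    Complex.ofReal_im]
  ring

theorem seg_sq (s : ℝ) : ‖(1 : ℂ) - s * a * Fr.u a ζ 0‖ ^ 2 =
    1 - 2 * s * a * (Fr.u a ζ 0).re + s ^ 2 * a ^ 2 * ‖Fr.u a ζ 0‖ ^ 2 := by
  have e' : (1 : ℂ) - s * a * Fr.u a ζ 0 = 1 - ((s * a : ℝ) : ℂ) * Fr.u a ζ 0 := by push_cast; rfl
  rw [e', ← Complex.normSq_eq_norm_sq, ← Complex.normSq_eq_norm_sq, Complex.normSq_apply,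
    Complex.normSq_apply]
  simp only [Complex.sub_re, Complex.sub_im, Complex.mul_re, Complex.mul_im, Complex.ofReal_re,
    Complex.ofReal_im, Complex.one_re, Complex.one_im]
  ring

theorem one_le_A0 (h : Fr (M + 1) a ζ z) : 1 ≤ A0 a ζ := by
  have ha0 := h.a0
  have ha1 := h.a1
  have h1 := h.gl 0
  have h2 := seg_sq (a := a) (ζ := ζ) 1
  have h3 : ‖(1 : ℂ) - ((1 : ℝ) : ℂ) * a * Fr.u a ζ 0‖ ^ 2 ≤ ‖Fr.u a ζ 0‖ ^ 2 := by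
    refine pow_le_pow_left₀ (norm_nonneg _) ?_ 2
    push_cast
    rwa [one_mul]
  have hA : 0 ≤ A0 a ζ := norm_nonneg _
  refine le_of_sq_le_sq ?_ hA
  rw [A0_sq (a := a) (ζ := ζ)]
  have hm : 0 < 1 - a ^ 2 := by nlinarith
  have h5 : 0 ≤ (1 - a ^ 2) * (‖Fr.u a ζ 0‖ ^ 2 -
      (1 - 2 * 1 * a * (Fr.u a ζ 0).re + 1 ^ 2 * a ^ 2 * ‖Fr.u a ζ 0‖ ^ 2)) := by
    refine mul_nonneg hm.le ?_
    rw [← h2]
    linarith
  nlinarith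

theorem gv_le_gh (h : Fr (M + 1) a ζ z) : gv a ζ ≤ gh a ζ := by
  have ha0 := h.a0
  have ha1 := h.a1
  have hm : 0 < 1 - a ^ 2 := by nlinarith
  have h1 : 0 ≤ Real.log (A0 a ζ) / (1 - a ^ 2) := div_nonneg (Real.log_nonneg (one_le_A0 h)) hm.le
  unfold gh
  linarith

/-- (Rw') in terms of `gh` -/
theorem gh_rw (h : Fr (M + 1) a ζ z) :
    1 + (1 - a ^ 2) * (M - M * a ^ 2 / 4 + 1 - a * (1 + ex a ζ) / 2 - (1 - a ^ 2) * ex a ζ / 2 -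
      gh a ζ / 2) ≤ Real.exp ((1 - a ^ 2) * gh a ζ) := by
  have ha0 := h.a0
  have ha1 := h.a1
  have hm : 0 < 1 - a ^ 2 := by nlinarith
  have h1 := rw_tail h
  have hA := one_le_A0 h
  have e1 : Real.exp ((1 - a ^ 2) * gh a ζ) = A0 a ζ * Real.exp ((1 - a ^ 2) * gv a ζ) := by
    unfold gh
    rw [mul_add, mul_div_cancel₀ _ hm.ne', Real.exp_add, Real.exp_log (by linarith), mul_comm]
  rw [e1]
  refine le_trans ?_ h1
  have h2 : (Fr.u a ζ 0).re ≤ 1 + ex a ζ := by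
    have := Complex.re_le_norm (Fr.u a ζ 0)
    unfold ex
    linarith
  have h3 : a * (∑ k, Fr.ut a ζ k).re =
      gv a ζ + M * a ^ 2 / 2 - (1 - a ^ 2) * yv a ζ / 2 := by unfold gv; ring
  have h4 := gv_le_gh h
  have h5 := yv_ge (a := a) (ζ := ζ)
  have h6 : a / 2 * (∑ k, Fr.ut a ζ k).re ≤
      gh a ζ / 2 + M * a ^ 2 / 4 + (1 - a ^ 2) * ex a ζ / 2 := by
    have h7 : -((1 - a ^ 2) * (2 * ex a ζ)) ≤ (1 - a ^ 2) * yv a ζ := by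
      have := mul_le_mul_of_nonneg_left h5 hm.le
      linarith
    nlinarith
  have h8 : a / 2 * (Fr.u a ζ 0).re ≤ a * (1 + ex a ζ) / 2 := by
    have := mul_le_mul_of_nonneg_left h2 (by linarith : 0 ≤ a / 2)
    linarith
  have h9 := mul_le_mul_of_nonneg_left (add_le_add h6 h8) hm.le
  linarith

/-- the lower bound of `gh` -/
theorem gh_ge (h : Fr (M + 1) a ζ z) {m1 g0 B : ℝ} (hm1 : 1 - a ^ 2 ≤ m1)
    (hB : B ≤ M - M * a ^ 2 / 4 + 1 - a * (1 + ex a ζ) / 2 - (1 - a ^ 2) * ex a ζ / 2)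
    (hc : Real.exp (m1 * g0) ≤ 1 + m1 * (B - g0 / 2)) : g0 ≤ gh a ζ := by
  have ha0 := h.a0
  have ha1 := h.a1
  have hm : 0 < 1 - a ^ 2 := by nlinarith
  by_contra hcon
  push Not at hcon
  have h1 := gh_rw h
  have hm1' : 0 < m1 := by linarith
  -- the chord of the exponential
  have h2 : Real.exp ((1 - a ^ 2) * g0) ≤ 1 + (1 - a ^ 2) * (B - g0 / 2) := by
    have hl0 : 0 ≤ (1 - a ^ 2) / m1 := by positivity
    have hl1 : (1 - a ^ 2) / m1 ≤ 1 := by rw [div_le_one hm1']; exact hm1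
    have h3 := convexOn_exp.2 (Set.mem_univ (0:ℝ)) (Set.mem_univ (m1 * g0))
      (by linarith : 0 ≤ 1 - (1 - a ^ 2) / m1) hl0 (by ring)
    simp only [smul_eq_mul, mul_zero, zero_add, Real.exp_zero, mul_one] at h3
    have e : (1 - a ^ 2) / m1 * (m1 * g0) = (1 - a ^ 2) * g0 := by field_simp
    rw [e] at h3
    have h4 := mul_le_mul_of_nonneg_left hc hl0
    have e2 : (1 - a ^ 2) / m1 * (1 + m1 * (B - g0 / 2)) =
        (1 - a ^ 2) / m1 + (1 - a ^ 2) * (B - g0 / 2) := by field_simp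
    rw [e2] at h4
    linarith
  have h3 : Real.exp ((1 - a ^ 2) * gh a ζ) < Real.exp ((1 - a ^ 2) * g0) :=
    Real.exp_lt_exp.2 (mul_lt_mul_of_pos_left hcon hm)
  have h4 : (1 - a ^ 2) * (B - g0 / 2) ≤ (1 - a ^ 2) * (M - M * a ^ 2 / 4 + 1 -
      a * (1 + ex a ζ) / 2 - (1 - a ^ 2) * ex a ζ / 2 - gh a ζ / 2) :=
    mul_le_mul_of_nonneg_left (by linarith) hm.le
  linarith

end Pool.Agent.Lib.MP_172a45_an.H64.P
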