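import Pool.Agent.Lib.MP_172a45_an.H64.P1

set_option autoImplicit false

/-!
# One index kept out: the bracket of index `0`, and integrals through nodes
-/

namespace Pool.Agent.Lib.MP_172a45_an.H64.P

open Finset F

/-! ### integrals -/

theorem int_chord {F : ℝ → ℝ} {p q A B : ℝ} (hp : 0 ≤ p) (hpq : p < q) (hF : Continuous F)
    (h : ∀ l, 0 ≤ l → l ≤ 1 → F ((1 - l) * p + l * q) ≤ (1 - l) * A + l * B) :
    ∫ s in p..q, s * F s ≤ (q - p) * ((2 * p + q) * A + (p + 2 * q) * B) / 6 := by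
  have hd : 0 < q - p := by linarith
  have h1 : ∀ s ∈ Set.Icc p q, s * F s ≤ s * (A + (s - p) / (q - p) * (B - A)) := by
    intro s hs
    refine mul_le_mul_of_nonneg_left ?_ (hp.trans hs.1)
    have h2 := h ((s - p) / (q - p)) (div_nonneg (by linarith [hs.1]) hd.le)
      (by rw [div_le_one hd]; linarith [hs.2])
    have e : (1 - (s - p) / (q - p)) * p + (s - p) / (q - p) * q = s := by
      field_simp
      ring
    rw [e] at h2
    linarith
  have h2 : ∫ s in p..q, s * F s ≤ ∫ s in p..q, s * (A + (s - p) / (q - p) * (B - A)) := by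
    refine intervalIntegral.integral_mono_on hpq.le ?_ ?_ h1
    · exact (continuous_id.mul hF).intervalIntegrable _ _
    · exact (Continuous.intervalIntegrable (by fun_prop) _ _)
  refine h2.trans (le_of_eq ?_)
  have hder : ∀ s ∈ Set.uIcc p q, HasDerivAt
      (fun s : ℝ => s ^ 2 / 2 * (A - p / (q - p) * (B - A)) + s ^ 3 / 3 * ((B - A) / (q - p)))
      (s * (A + (s - p) / (q - p) * (B - A))) s := by
    intro s _
    have g2 : HasDerivAt (fun s : ℝ => s ^ 2) (2 * s) s := by simpa using hasDerivAt_pow 2 s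
    have g3 : HasDerivAt (fun s : ℝ => s ^ 3) (3 * s ^ 2) s := by simpa using hasDerivAt_pow 3 s
    have g := ((g2.div_const 2).mul_const (A - p / (q - p) * (B - A))).add
      ((g3.div_const 3).mul_const ((B - A) / (q - p)))
    refine g.congr_deriv ?_
    field_simp
    ring
  rw [intervalIntegral.integral_eq_sub_of_hasDerivAt hder
    (Continuous.intervalIntegrable (by fun_prop) _ _)]
  field_simp
  ring

/-- the integral through the nodes `0, 1/8, 1/4, 1/2, 3/4, 1` -/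
theorem int_nodes {F ψ : ℝ → ℝ} (hF : Continuous F)
    (hFψ : ∀ s ∈ Set.Icc (0:ℝ) 1, F s ≤ Real.exp (ψ s)) (hψ : ConvexOn ℝ (Set.Icc (0:ℝ) 1) ψ)
    {V0 V1 V2 V3 V4 V5 : ℝ} (h0 : Real.exp (ψ 0) ≤ V0) (h1 : Real.exp (ψ (1/8)) ≤ V1)
    (h2 : Real.exp (ψ (1/4)) ≤ V2) (h3 : Real.exp (ψ (1/2)) ≤ V3) (h4 : Real.exp (ψ (3/4)) ≤ V4)
    (h5 : Real.exp (ψ 1) ≤ V5) :
    ∫ s in (0:ℝ)..1, s * F s ≤
      V0 / 384 + V1 / 64 + 7 * V2 / 128 + V3 / 8 + 3 * V4 / 16 + 11 * V5 / 96 := by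
  have key : ∀ {p q A B : ℝ}, 0 ≤ p → p < q → q ≤ 1 → Real.exp (ψ p) ≤ A → Real.exp (ψ q) ≤ B →
      ∫ s in p..q, s * F s ≤ (q - p) * ((2 * p + q) * A + (p + 2 * q) * B) / 6 := by
    intro p q A B hp hpq hq hA hB
    refine int_chord hp hpq hF fun l hl hl1 => ?_
    have hpI : p ∈ Set.Icc (0:ℝ) 1 := ⟨hp, by linarith⟩
    have hqI : q ∈ Set.Icc (0:ℝ) 1 := ⟨by linarith, hq⟩
    have hl' : 0 ≤ 1 - l := by linarith
    have g1 := hψ.2 hpI hqI hl' hl (by ring)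
    simp only [smul_eq_mul] at g1
    have g2 := convexOn_exp.2 (Set.mem_univ (ψ p)) (Set.mem_univ (ψ q)) hl' hl (by ring)
    simp only [smul_eq_mul] at g2
    have hI : (1 - l) * p + l * q ∈ Set.Icc (0:ℝ) 1 := by
      constructor
      · have := mul_nonneg hl' hp
        have := mul_nonneg hl hqI.1
        linarith
      · nlinarith
    have g3 := hFψ _ hI
    have g4 := Real.exp_le_exp.2 g1
    have g5 := mul_le_mul_of_nonneg_left hA hl'
    have g6 := mul_le_mul_of_nonneg_left hB hl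
    linarith
  have hi : ∀ p q : ℝ, IntervalIntegrable (fun s => s * F s) MeasureTheory.volume p q :=
    fun p q => (continuous_id.mul hF).intervalIntegrable _ _
  have e1 := intervalIntegral.integral_add_adjacent_intervals (hi 0 (1/8)) (hi (1/8) (1/4))
  have e2 := intervalIntegral.integral_add_adjacent_intervals (hi 0 (1/4)) (hi (1/4) (1/2))
  have e3 := intervalIntegral.integral_add_adjacent_intervals (hi 0 (1/2)) (hi (1/2) (3/4))
  have e4 := intervalIntegral.integral_add_adjacent_intervals (hi 0 (3/4)) (hi (3/4) 1)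
  have k1 := key (p := 0) (q := 1/8) le_rfl (by norm_num) (by norm_num) h0 h1
  have k2 := key (p := 1/8) (q := 1/4) (by norm_num) (by norm_num) (by norm_num) h1 h2
  have k3 := key (p := 1/4) (q := 1/2) (by norm_num) (by norm_num) (by norm_num) h2 h3
  have k4 := key (p := 1/2) (q := 3/4) (by norm_num) (by norm_num) (by norm_num) h3 h4
  have k5 := key (p := 3/4) (q := 1) (by norm_num) (by norm_num) le_rfl h4 h5
  rw [← e4, ← e3, ← e2, ← e1]
  linarith

theorem convexOn_quad {α : ℝ} (hα : 0 ≤ α) (β γ : ℝ) (S : Set ℝ) (hS : Convex ℝ S) :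
    ConvexOn ℝ S fun s => α * s ^ 2 + β * s + γ := by
  refine ⟨hS, fun p _ q _ u v hu hv huv => ?_⟩
  simp only [smul_eq_mul]
  have e : v = 1 - u := by linarith
  subst e
  have : 0 ≤ α * (u * (1 - u) * (p - q) ^ 2) := mul_nonneg hα (by positivity)
  nlinarith

theorem convexOn_pos (c : ℝ) (S : Set ℝ) (hS : Convex ℝ S) :
    ConvexOn ℝ S fun s => (max 0 (s * c - 1)) ^ 2 := by
  refine ⟨hS, fun p _ q _ u v hu hv huv => ?_⟩
  simp only [smul_eq_mul]
  have e : v = 1 - u := by linarith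
  subst e
  set A := max 0 (p * c - 1) with hA
  set B := max 0 (q * c - 1) with hB
  have hA0 : 0 ≤ A := le_max_left _ _
  have hB0 : 0 ≤ B := le_max_left _ _
  have h1 : max 0 ((u * p + (1 - u) * q) * c - 1) ≤ u * A + (1 - u) * B := by
    refine max_le (by positivity) ?_
    have g1 := mul_le_mul_of_nonneg_left (le_max_right 0 (p * c - 1)) hu
    have g2 := mul_le_mul_of_nonneg_left (le_max_right 0 (q * c - 1)) hv
    rw [← hA] at g1
    rw [← hB] at g2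
    nlinarith
  refine (pow_le_pow_left₀ (le_max_left _ _) h1 2).trans ?_
  have : 0 ≤ u * (1 - u) * (A - B) ^ 2 := by positivity
  nlinarith

theorem rho_eq (v : ℝ) : 1 - (max 0 (1 - v)) ^ 2 = 2 * v - v ^ 2 + (max 0 (v - 1)) ^ 2 := by
  rcases le_total v 1 with hv | hv
  · rw [max_eq_right (by linarith), max_eq_left (by linarith)]
    ring
  · rw [max_eq_left (by linarith), max_eq_right (by linarith)]
    ring

/-! ### the brackets -/

variable {M : ℕ} {a : ℝ} {ζ z : Fin (M + 1) → ℂ}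

theorem log_tangent {x z0 : ℝ} (hx : 0 < x) (hz : 0 < z0) :
    Real.log x ≤ Real.log z0 - 1 + x * (1 / z0) := by
  have h1 := Real.log_le_sub_one_of_pos (div_pos hx hz)
  rw [Real.log_div hx.ne' hz.ne'] at h1
  have e : x * (1 / z0) = x / z0 := by ring
  rw [e]
  linarith

/-- the bracket of index `0` -/
theorem K_le (h : Fr (M + 1) a ζ z) {s z0 ℓ Y : ℝ} (hs : 0 ≤ s) (hs1 : s ≤ 1) (hz : 0 < z0)
    (hℓ : Real.log z0 - 1 + 1 / z0 ≤ ℓ) (hY : (1 + ex a ζ) ^ 2 * (1 / z0) + yv a ζ ≤ Y) :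
    ‖(1 : ℂ) - s * a * Fr.u a ζ 0‖ *
      Real.exp (-gv a ζ * s + yv a ζ * (s * (1 - a ^ 2 * (1 - s))) / 2) ≤
      Real.exp (-gh a ζ * s + ℓ / 2 + s * (ℓ / (2 * (1 - a ^ 2)) - 1 / z0 / 2) +
        s * (1 - a ^ 2 * (1 - s)) * Y / 2) := by
  have ha0 := h.a0
  have ha1 := h.a1
  have hm : 0 < 1 - a ^ 2 := by nlinarith
  rcases (norm_nonneg ((1 : ℂ) - s * a * Fr.u a ζ 0)).eq_or_lt with h0 | h0
  · rw [← h0, zero_mul]
    exact Real.exp_nonneg _
  have hA := one_le_A0 h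
  have hA' : 0 < A0 a ζ := by linarith
  nth_rewrite 1 [← Real.exp_log h0]
  rw [← Real.exp_add]
  refine Real.exp_le_exp.2 ?_
  obtain ⟨σ, hσ⟩ : ∃ σ, σ = s / (2 * (1 - a ^ 2)) := ⟨_, rfl⟩
  have hσ0 : 0 ≤ σ := by rw [hσ]; positivity
  have hσs : 2 * σ * (1 - a ^ 2) = s := by rw [hσ]; field_simp
  have g1 := log_tangent (pow_pos h0 2) hz
  have g2 := log_tangent (pow_pos hA' 2) hz
  rw [Real.log_pow] at g1 g2
  push_cast at g1 g2
  rw [seg_sq] at g1
  rw [A0_sq] at g2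
  have g3 : gv a ζ * s = gh a ζ * s - 2 * σ * Real.log (A0 a ζ) := by
    unfold gh
    rw [hσ]
    field_simp
    ring
  have g4 := mul_le_mul_of_nonneg_left g2 hσ0
  have hq0 : 0 ≤ s * (1 - a ^ 2 * (1 - s)) := by
    refine mul_nonneg hs ?_
    have : a ^ 2 * (1 - s) ≤ 1 * 1 := mul_le_mul (by nlinarith) (by linarith) (by linarith) one_pos.le
    linarith
  have g5 := mul_le_mul_of_nonneg_left hY hq0
  have g6 : (1 / 2 + σ) * (Real.log z0 - 1 + 1 / z0) ≤ (1 / 2 + σ) * ℓ :=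
    mul_le_mul_of_nonneg_left hℓ (by linarith)
  have e7 : s * (ℓ / (2 * (1 - a ^ 2)) - 1 / z0 / 2) = σ * ℓ - s * (1 / z0) / 2 := by
    rw [hσ]; ring
  rw [e7]
  have ht : ‖Fr.u a ζ 0‖ = 1 + ex a ζ := by unfold ex; ring
  rw [ht] at g1 g4
  set iz := 1 / z0
  set r := (Fr.u a ζ 0).re
  set L := Real.log z0
  have e8 : -gv a ζ * s = -gh a ζ * s + 2 * σ * Real.log (A0 a ζ) := by linarith
  rw [e8]
  -- the identity behind
  have key : 1 / 2 * (1 - 2 * s * a * r + s ^ 2 * a ^ 2 * (1 + ex a ζ) ^ 2) * iz +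
      σ * ((a ^ 2 + 2 * a * (1 - a ^ 2) * r + (1 - a ^ 2) ^ 2 * (1 + ex a ζ) ^ 2) * iz) =
      (1 / 2 + σ) * iz - s * iz / 2 +
        s * (1 - a ^ 2 * (1 - s)) * ((1 + ex a ζ) ^ 2 * iz) / 2 := by
    have : σ * (1 - a ^ 2) = s / 2 := by linarith
    linear_combination (iz * (-1 + 2 * a * r + (1 - a ^ 2) * (1 + ex a ζ) ^ 2)) * this
  nlinarith

theorem logA0_le (h : Fr (M + 1) a ζ z) {z0 ℓ : ℝ} (hz : 0 < z0)
    (hℓ : Real.log z0 - 1 + 1 / z0 ≤ ℓ) :
    Real.log (A0 a ζ) / (1 - a ^ 2) ≤ ℓ / (1 - a ^ 2) + (ex a ζ + a / (1 + a)) * (1 / z0) := by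
  have ha0 := h.a0
  have ha1 := h.a1
  have hm : 0 < 1 - a ^ 2 := by nlinarith
  have hA := one_le_A0 h
  have hA' : 0 < A0 a ζ := by linarith
  have g1 := log_tangent hA' hz
  have g2 : A0 a ζ ≤ a + (1 - a ^ 2) * (1 + ex a ζ) := by
    unfold A0 ex
    refine (norm_add_le _ _).trans ?_
    rw [norm_mul, Complex.norm_real, Real.norm_of_nonneg ha0.le]
    have e : (1 : ℂ) - (a : ℂ) ^ 2 = ((1 - a ^ 2 : ℝ) : ℂ) := by push_cast; ring
    rw [e, Complex.norm_real, Real.norm_of_nonneg hm.le]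
    apply le_of_eq
    ring
  have hiz : 0 < 1 / z0 := by positivity
  have g3 := mul_le_mul_of_nonneg_right g2 hiz.le
  rw [div_le_iff₀ hm, add_mul, div_mul_cancel₀ _ hm.ne']
  have e : (ex a ζ + a / (1 + a)) * (1 / z0) * (1 - a ^ 2) =
      (a + (1 - a ^ 2) * (1 + ex a ζ)) * (1 / z0) - 1 / z0 := by
    have : (1 : ℝ) + a ≠ 0 := by linarith
    field_simp
    ring
  rw [e]
  linarith

/-- the bracket of index `0` in the peel term -/
theorem peel_le (h : Fr (M + 1) a ζ z) {s z0 ℓ D : ℝ} (hs : 0 ≤ s) (hs1 : s ≤ 1) (hz : 0 < z0)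
    (hℓ : Real.log z0 - 1 + 1 / z0 ≤ ℓ)
    (hy : yv a ζ ≤ 2 * D + (4 * D / 3 - 2) * ex a ζ - ex a ζ ^ 2) :
    -gv a ζ * s + yv a ζ * (s * (1 - a ^ 2 * (1 - s))) / 2 ≤
      -gh a ζ * s + s * (ℓ / (1 - a ^ 2) + (ex a ζ + a / (1 + a)) * (1 / z0)) +
        s * (D + (2 * D / 3 - 1) * ex a ζ - ex a ζ ^ 2 / 2) + s * (1 - s) * a ^ 2 * ex a ζ := by
  have g4 := logA0_le h hz hℓ
  have g5 : -gv a ζ * s = -gh a ζ * s + s * (Real.log (A0 a ζ) / (1 - a ^ 2)) := by
    unfold gh; ring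
  have g6 := mul_le_mul_of_nonneg_left g4 hs
  have g7 : yv a ζ * (s * (1 - a ^ 2 * (1 - s))) / 2 ≤
      s * (D + (2 * D / 3 - 1) * ex a ζ - ex a ζ ^ 2 / 2) + s * (1 - s) * a ^ 2 * ex a ζ := by
    have k1 := mul_le_mul_of_nonneg_left hy hs
    have k2 : 0 ≤ s * (1 - s) * a ^ 2 * (yv a ζ + 2 * ex a ζ) := by
      have := yv_ge (a := a) (ζ := ζ)
      refine mul_nonneg ?_ (by linarith)
      have : 0 ≤ 1 - s := by linarith
      positivity
    nlinarith
  linarith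

end Pool.Agent.Lib.MP_172a45_an.H64.P
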