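import Pool.Agent.Lib.MP_172a45_an.H64.P2

set_option autoImplicit false

/-!
# One index kept out: the test
-/

namespace Pool.Agent.Lib.MP_172a45_an.H64.P

open Finset F

variable {M : ℕ} {a : ℝ} {ζ z : Fin (M + 1) → ℂ}

/-- the tail product -/
noncomputable def Q (a : ℝ) (ζ : Fin (M + 1) → ℂ) (s : ℝ) : ℝ :=
  ∏ k, ‖(1 : ℂ) - s * a * Fr.ut a ζ k‖

/-- the tail product without a pair, times the factor of index `0` -/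
noncomputable def QP (a : ℝ) (ζ : Fin (M + 1) → ℂ) (k j : Fin M) (s : ℝ) : ℝ :=
  ‖(1 : ℂ) - s * a * Fr.u a ζ 0‖ *
    ∏ l ∈ (univ.erase k).erase j, ‖(1 : ℂ) - s * a * Fr.ut a ζ l‖

theorem Q_cont : Continuous fun s => Q a ζ s := by unfold Q; fun_prop

theorem QP_cont (k j : Fin M) : Continuous fun s => QP a ζ k j s := by unfold QP; fun_prop

/-- the test -/
theorem core (h : Fr (M + 1) a ζ z) (hM : 0 < M) (hmax : ∀ k, ‖Fr.u a ζ k‖ ≤ ‖Fr.u a ζ 0‖)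
    {J I T : ℝ} (hJ : ∀ k j, k ≠ j → ∫ s in (0:ℝ)..1, s * QP a ζ k j s ≤ J)
    (hI : ‖Fr.u a ζ 0‖ * (‖Fr.u a ζ 0‖ + 1) * ∫ s in (0:ℝ)..1, s * Q a ζ s ≤ I)
    (hT : ‖1 - (a : ℂ) * Fr.u a ζ 0‖ * ∏ k, ‖1 - (a : ℂ) * Fr.ut a ζ k‖ ≤ T) (hJ0 : 0 ≤ J)
    (hR : M * a ^ 2 / 2 ≤ a * (∑ k, Fr.ut a ζ k).re) :
    1 ≤ T + a * ∏ k, ‖Fr.u a ζ k‖ + a ^ 2 * I +
      (M * a ^ 2 * (1 - a ^ 2 / 4) + a ^ 2 * yv a ζ) * J := by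
  have ha0 := h.a0
  have ha1 := h.a1
  have hM0 : (0 : ℝ) < M := by exact_mod_cast hM
  have h1 := h.critS hM hmax
  have hex := ex_nonneg h hmax
  have hsum := sum_tail h
  have hn : ‖∑ k, Fr.ut a ζ k‖ ≤ M := by
    refine (norm_sum_le _ _).trans ?_
    rw [hsum]
    linarith
  have hre : (∑ k, Fr.ut a ζ k).re ≤ ‖∑ k, Fr.ut a ζ k‖ := Complex.re_le_norm _
  -- the first factor
  have t1 : ‖1 - (a : ℂ) * ((∑ k, Fr.ut a ζ k) / M)‖ ≤ 1 := by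
    refine le_of_sq_le_sq ?_ zero_le_one
    have e' : (a : ℂ) * ((∑ k, Fr.ut a ζ k) / M) = ((a / M : ℝ) : ℂ) * ∑ k, Fr.ut a ζ k := by
      push_cast; ring
    rw [e']
    have e2 : ‖1 - ((a / M : ℝ) : ℂ) * ∑ k, Fr.ut a ζ k‖ ^ 2 =
        1 - 2 * (a / M) * (∑ k, Fr.ut a ζ k).re + (a / M) ^ 2 * ‖∑ k, Fr.ut a ζ k‖ ^ 2 := by
      rw [← Complex.normSq_eq_norm_sq, ← Complex.normSq_eq_norm_sq, Complex.normSq_apply,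
        Complex.normSq_apply]
      simp only [Complex.sub_re, Complex.sub_im, Complex.one_re, Complex.one_im, Complex.mul_re,
        Complex.mul_im, Complex.ofReal_re, Complex.ofReal_im]
      ring
    rw [e2]
    have g1 : ‖∑ k, Fr.ut a ζ k‖ ^ 2 ≤ (M : ℝ) ^ 2 := pow_le_pow_left₀ (norm_nonneg _) hn 2
    have g2 : (a / M) ^ 2 * ‖∑ k, Fr.ut a ζ k‖ ^ 2 ≤ (a / M) ^ 2 * (M : ℝ) ^ 2 :=
      mul_le_mul_of_nonneg_left g1 (sq_nonneg _)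
    have g3 : (a / M) ^ 2 * (M : ℝ) ^ 2 = a ^ 2 := by field_simp
    have g4 : 2 * (a / M) * (∑ k, Fr.ut a ζ k).re = 2 / M * (a * (∑ k, Fr.ut a ζ k).re) := by ring
    have g5 : 2 / M * (M * a ^ 2 / 2) ≤ 2 / M * (a * (∑ k, Fr.ut a ζ k).re) :=
      mul_le_mul_of_nonneg_left hR (by positivity)
    have g6 : 2 / M * (M * a ^ 2 / 2) = a ^ 2 := by field_simp
    linarith
  have hT0 : 0 ≤ ‖1 - (a : ℂ) * Fr.u a ζ 0‖ * ∏ k, ‖1 - (a : ℂ) * Fr.ut a ζ k‖ :=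
    mul_nonneg (norm_nonneg _) (Finset.prod_nonneg fun _ _ => norm_nonneg _)
  have t2 : ‖1 - (a : ℂ) * ((∑ k, Fr.ut a ζ k) / M)‖ *
      (‖1 - (a : ℂ) * Fr.u a ζ 0‖ * ∏ k, ‖1 - (a : ℂ) * Fr.ut a ζ k‖) ≤ T := by
    refine le_trans ?_ hT
    have := mul_le_mul_of_nonneg_right t1 hT0
    linarith
  -- the mean of the tail
  have t3 : ‖Fr.u a ζ 0 - (∑ k, Fr.ut a ζ k) / M‖ ≤ ‖Fr.u a ζ 0‖ + 1 := by
    refine (norm_sub_le _ _).trans ?_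
    rw [norm_div, Complex.norm_natCast]
    have : ‖∑ k, Fr.ut a ζ k‖ / M ≤ 1 := by rw [div_le_one hM0]; exact hn
    linarith
  have hQ0 : ∀ s, 0 ≤ Q a ζ s := fun s => Finset.prod_nonneg fun _ _ => norm_nonneg _
  have hQI : 0 ≤ ∫ s in (0:ℝ)..1, s * Q a ζ s :=
    intervalIntegral.integral_nonneg zero_le_one fun s hs => mul_nonneg hs.1 (hQ0 s)
  -- the integral
  have t4 : ∫ s in (0:ℝ)..1, s * (a ^ 2 * (‖Fr.u a ζ 0‖ * ‖Fr.u a ζ 0 - (∑ k, Fr.ut a ζ k) / M‖) *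
          ∏ k, ‖1 - (s : ℂ) * a * Fr.ut a ζ k‖ +
        ‖1 - (s : ℂ) * a * Fr.u a ζ 0‖ / (2 * M) * (a ^ 2 * ∑ k, ∑ j, ‖Fr.ut a ζ k - Fr.ut a ζ j‖ ^ 2 *
          ∏ l ∈ (univ.erase k).erase j, ‖1 - (s : ℂ) * a * Fr.ut a ζ l‖)) =
      a ^ 2 * (‖Fr.u a ζ 0‖ * ‖Fr.u a ζ 0 - (∑ k, Fr.ut a ζ k) / M‖ *
        ∫ s in (0:ℝ)..1, s * Q a ζ s) +
      a ^ 2 / (2 * M) * ∑ k, ∑ j, ‖Fr.ut a ζ k - Fr.ut a ζ j‖ ^ 2 *
        ∫ s in (0:ℝ)..1, s * QP a ζ k j s := by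
    have e1 : ∀ s : ℝ, s * (a ^ 2 * (‖Fr.u a ζ 0‖ * ‖Fr.u a ζ 0 - (∑ k, Fr.ut a ζ k) / M‖) *
          ∏ k, ‖1 - (s : ℂ) * a * Fr.ut a ζ k‖ +
        ‖1 - (s : ℂ) * a * Fr.u a ζ 0‖ / (2 * M) * (a ^ 2 * ∑ k, ∑ j, ‖Fr.ut a ζ k - Fr.ut a ζ j‖ ^ 2 *
          ∏ l ∈ (univ.erase k).erase j, ‖1 - (s : ℂ) * a * Fr.ut a ζ l‖)) =
        (a ^ 2 * (‖Fr.u a ζ 0‖ * ‖Fr.u a ζ 0 - (∑ k, Fr.ut a ζ k) / M‖)) * (s * Q a ζ s) +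
        ∑ k, ∑ j, (a ^ 2 / (2 * M) * ‖Fr.ut a ζ k - Fr.ut a ζ j‖ ^ 2) * (s * QP a ζ k j s) := by
      intro s
      have e2 : ∀ k j, (a ^ 2 / (2 * M) * ‖Fr.ut a ζ k - Fr.ut a ζ j‖ ^ 2) * (s * QP a ζ k j s) =
          (s * ‖1 - (s : ℂ) * a * Fr.u a ζ 0‖ / (2 * M) * a ^ 2) *
            (‖Fr.ut a ζ k - Fr.ut a ζ j‖ ^ 2 *
          ∏ l ∈ (univ.erase k).erase j, ‖1 - (s : ℂ) * a * Fr.ut a ζ l‖) := fun k j => by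
        unfold QP; ring
      simp only [e2, ← Finset.mul_sum]
      unfold Q
      ring
    simp only [e1]
    rw [intervalIntegral.integral_add, intervalIntegral.integral_const_mul,
      intervalIntegral.integral_finsetSum, Finset.mul_sum]
    · congr 1
      · ring
      · refine Finset.sum_congr rfl fun k _ => ?_
        rw [intervalIntegral.integral_finsetSum, Finset.mul_sum]
        · refine Finset.sum_congr rfl fun j _ => ?_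
          rw [intervalIntegral.integral_const_mul]
          ring
        · intro j _
          exact (continuous_const.mul (continuous_id.mul (QP_cont k j))).intervalIntegrable _ _
    · intro k _
      refine Continuous.intervalIntegrable ?_ _ _
      exact continuous_finsetSum _ fun j _ =>
        continuous_const.mul (continuous_id.mul (QP_cont k j))
    · exact (continuous_const.mul (continuous_id.mul Q_cont)).intervalIntegrable _ _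
    · refine Continuous.intervalIntegrable ?_ _ _
      exact continuous_finsetSum _ fun k _ => continuous_finsetSum _ fun j _ =>
        continuous_const.mul (continuous_id.mul (QP_cont k j))
  rw [t4] at h1
  have t5 : ‖Fr.u a ζ 0‖ * ‖Fr.u a ζ 0 - (∑ k, Fr.ut a ζ k) / M‖ *
      ∫ s in (0:ℝ)..1, s * Q a ζ s ≤ I := by
    refine le_trans ?_ hI
    exact mul_le_mul_of_nonneg_right (mul_le_mul_of_nonneg_left t3 (norm_nonneg _)) hQI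
  have t6 : ∑ k, ∑ j, ‖Fr.ut a ζ k - Fr.ut a ζ j‖ ^ 2 * ∫ s in (0:ℝ)..1, s * QP a ζ k j s ≤
      (2 * M * (M + yv a ζ) - 2 * ‖∑ k, Fr.ut a ζ k‖ ^ 2) * J := by
    rw [← sum_tail_sq h, ← sum_sum_norm_sub_sq, Finset.sum_mul]
    refine Finset.sum_le_sum fun k _ => ?_
    rw [Finset.sum_mul]
    refine Finset.sum_le_sum fun j _ => ?_
    by_cases hkj : k = j
    · subst hkj
      simp
    · exact mul_le_mul_of_nonneg_left (hJ k j hkj) (sq_nonneg _)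
  have t7 : a ^ 2 / (2 * M) * ∑ k, ∑ j, ‖Fr.ut a ζ k - Fr.ut a ζ j‖ ^ 2 *
        ∫ s in (0:ℝ)..1, s * QP a ζ k j s ≤
      (M * a ^ 2 * (1 - a ^ 2 / 4) + a ^ 2 * yv a ζ) * J := by
    have g1 := mul_le_mul_of_nonneg_left t6 (by positivity : 0 ≤ a ^ 2 / (2 * M))
    refine g1.trans ?_
    have g2 : a ^ 2 / (2 * M) * ((2 * M * (M + yv a ζ) - 2 * ‖∑ k, Fr.ut a ζ k‖ ^ 2) * J) =
        (a ^ 2 * (M + yv a ζ) - a ^ 2 * ‖∑ k, Fr.ut a ζ k‖ ^ 2 / M) * J := by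
      field_simp
    rw [g2]
    refine mul_le_mul_of_nonneg_right ?_ hJ0
    have g3 : M * a ^ 2 / 2 ≤ a * ‖∑ k, Fr.ut a ζ k‖ :=
      hR.trans (mul_le_mul_of_nonneg_left hre ha0.le)
    have g4 : (M * a ^ 2 / 2) ^ 2 ≤ (a * ‖∑ k, Fr.ut a ζ k‖) ^ 2 :=
      pow_le_pow_left₀ (by positivity) g3 2
    have g5 : (M * a ^ 2 / 2) ^ 2 / M ≤ (a * ‖∑ k, Fr.ut a ζ k‖) ^ 2 / M :=
      div_le_div_of_nonneg_right g4 hM0.le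
    have g6 : (M * a ^ 2 / 2) ^ 2 / M = M * a ^ 2 * (a ^ 2 / 4) := by
      field_simp
      ring
    have g7 : (a * ‖∑ k, Fr.ut a ζ k‖) ^ 2 / M = a ^ 2 * ‖∑ k, Fr.ut a ζ k‖ ^ 2 / M := by ring
    rw [g6, g7] at g5
    linarith
  have t8 := mul_le_mul_of_nonneg_left t5 (sq_nonneg a)
  linarith

/-! ### the integrals through the nodes -/

/-- the majorant of the pair products -/
theorem pair_psi (h : Fr (M + 1) a ζ z) {k j : Fin M} (hkj : k ≠ j) {τ z0 ℓ Y : ℝ}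
    (hτ1 : 1 ≤ τ) (hτ : ‖Fr.ut a ζ k‖ + ‖Fr.ut a ζ j‖ ≤ 2 * τ) (hMτ : 2 * τ ^ 2 ≤ M)
    (hz : 0 < z0) (hℓ : Real.log z0 - 1 + 1 / z0 ≤ ℓ) (hY0 : 0 ≤ Y)
    (hY : (1 + ex a ζ) ^ 2 * (1 / z0) + yv a ζ ≤ Y)
    {A G a2 : ℝ} (ha2 : a ≤ a2) (hA : A ≤ M * a ^ 2 + a ^ 2 * Y)
    (hG : G + (ℓ / (2 * (1 - a ^ 2)) - 1 / z0 / 2) + Y / 2 ≤ gh a ζ) :
    ∃ ψ : ℝ → ℝ, (∀ s ∈ Set.Icc (0:ℝ) 1, QP a ζ k j s ≤ Real.exp (ψ s)) ∧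
      ConvexOn ℝ (Set.Icc (0:ℝ) 1) ψ ∧ ψ 0 = ℓ / 2 ∧
      ∀ s ρ : ℝ, 0 ≤ s → s ≤ 1 → (0 ≤ ρ ∧ (ρ = 0 ∨ ρ ≤ 1 - s * (a2 * τ))) →
        ψ s ≤ ℓ / 2 + (-(A / 2 * (s * (1 - s)) + G * s)) + (1 - ρ ^ 2) := by
  have ha0 := h.a0
  have ha1 := h.a1
  have hm : 0 < 1 - a ^ 2 := by nlinarith
  set c1 := ℓ / (2 * (1 - a ^ 2)) - 1 / z0 / 2 with hc1
  set ψ : ℝ → ℝ := fun s => -(M * a ^ 2 / 2) * (s * (1 - s)) - gh a ζ * s + ℓ / 2 + s * c1 +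
    s * (1 - a ^ 2 * (1 - s)) * Y / 2 + (1 - (max 0 (1 - s * (a * τ))) ^ 2) with hψ
  refine ⟨ψ, ?_, ?_, ?_, ?_⟩
  · -- the pointwise bound
    intro s hs
    have h1 := prod_pair_le h hkj (τ := τ) (ρ := max 0 (1 - s * (a * τ))) hτ hs.1
      (le_max_left _ _) (by
        rcases max_choice 0 (1 - s * (a * τ)) with h0 | h0
        · left; exact h0
        · right; rw [h0]; apply le_of_eq; ring)
    have h2 := K_le h hs.1 hs.2 hz hℓ hY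
    unfold QP
    refine (mul_le_mul_of_nonneg_left h1
      (norm_nonneg ((1 : ℂ) - s * a * Fr.u a ζ 0))).trans ?_
    have e1 : Real.exp (-(M * a ^ 2 / 2) * (s * (1 - s)) - gv a ζ * s +
        yv a ζ * (s * (1 - a ^ 2 * (1 - s))) / 2 + (1 - (max 0 (1 - s * (a * τ))) ^ 2)) =
        Real.exp (-gv a ζ * s + yv a ζ * (s * (1 - a ^ 2 * (1 - s))) / 2) *
        Real.exp (-(M * a ^ 2 / 2) * (s * (1 - s)) + (1 - (max 0 (1 - s * (a * τ))) ^ 2)) := by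
      rw [← Real.exp_add]; congr 1; ring
    rw [e1, ← mul_assoc]
    refine (mul_le_mul_of_nonneg_right h2 (Real.exp_nonneg _)).trans (le_of_eq ?_)
    rw [← Real.exp_add, hψ]
    congr 1
    simp only [hc1]
    ring
  · -- convexity
    have hC : Convex ℝ (Set.Icc (0:ℝ) 1) := convex_Icc (0:ℝ) 1
    have h1 := (convexOn_quad (α := M * a ^ 2 / 2 + a ^ 2 * Y / 2 - (a * τ) ^ 2) (by
        have : 0 ≤ a ^ 2 * (M - 2 * τ ^ 2) := mul_nonneg (sq_nonneg _) (by linarith)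
        have : 0 ≤ a ^ 2 * Y := by positivity
        nlinarith)
      (-(M * a ^ 2 / 2) - gh a ζ + c1 + (1 - a ^ 2) * Y / 2 + 2 * (a * τ)) (ℓ / 2)
      (Set.Icc (0:ℝ) 1) hC).add (convexOn_pos (a * τ) (Set.Icc (0:ℝ) 1) hC)
    refine h1.congr fun s _ => ?_
    simp only [hψ, Pi.add_apply]
    rw [rho_eq]
    ring
  · simp only [hψ]
    have : max (0:ℝ) (1 - 0 * (a * τ)) = 1 := by simp
    rw [this]
    ring
  · intro s ρ hs hs1 hρ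
    simp only [hψ]
    have hss : 0 ≤ s * (1 - s) := mul_nonneg hs (by linarith)
    have k1 := mul_le_mul_of_nonneg_right hA hss
    have k2 := mul_le_mul_of_nonneg_right hG hs
    have k3 : ρ ^ 2 ≤ (max 0 (1 - s * (a * τ))) ^ 2 := by
      refine pow_le_pow_left₀ hρ.1 ?_ 2
      rcases hρ.2 with h0 | h0
      · rw [h0]; exact le_max_left _ _
      · refine le_trans ?_ (le_max_right _ _)
        have : s * (a * τ) ≤ s * (a2 * τ) :=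
          mul_le_mul_of_nonneg_left (mul_le_mul_of_nonneg_right ha2 (by linarith)) hs
        linarith
    nlinarith

/-- the pair integrals -/
theorem pair_int (h : Fr (M + 1) a ζ z) {k j : Fin M} (hkj : k ≠ j) {τ z0 ℓ Y : ℝ}
    (hτ1 : 1 ≤ τ) (hτ : ‖Fr.ut a ζ k‖ + ‖Fr.ut a ζ j‖ ≤ 2 * τ) (hMτ : 2 * τ ^ 2 ≤ M)
    (hz : 0 < z0) (hℓ : Real.log z0 - 1 + 1 / z0 ≤ ℓ) (hY0 : 0 ≤ Y)
    (hY : (1 + ex a ζ) ^ 2 * (1 / z0) + yv a ζ ≤ Y)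
    {A G a2 pf ρ1 ρ2 ρ3 ρ4 ρ5 X1 X2 X3 X4 X5 V1 V2 V3 V4 V5 : ℝ} (ha2 : a ≤ a2)
    (hA : A ≤ M * a ^ 2 + a ^ 2 * Y)
    (hG : G + (ℓ / (2 * (1 - a ^ 2)) - 1 / z0 / 2) + Y / 2 ≤ gh a ζ)
    (hpf : Real.exp (ℓ / 2) ≤ pf)
    (hρ1 : 0 ≤ ρ1 ∧ (ρ1 = 0 ∨ ρ1 ≤ 1 - 1/8 * (a2 * τ)))
    (hρ2 : 0 ≤ ρ2 ∧ (ρ2 = 0 ∨ ρ2 ≤ 1 - 1/4 * (a2 * τ)))
    (hρ3 : 0 ≤ ρ3 ∧ (ρ3 = 0 ∨ ρ3 ≤ 1 - 1/2 * (a2 * τ)))
    (hρ4 : 0 ≤ ρ4 ∧ (ρ4 = 0 ∨ ρ4 ≤ 1 - 3/4 * (a2 * τ)))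
    (hρ5 : 0 ≤ ρ5 ∧ (ρ5 = 0 ∨ ρ5 ≤ 1 - 1 * (a2 * τ)))
    (hX1 : Real.exp (1 - ρ1 ^ 2) ≤ X1) (hX2 : Real.exp (1 - ρ2 ^ 2) ≤ X2)
    (hX3 : Real.exp (1 - ρ3 ^ 2) ≤ X3) (hX4 : Real.exp (1 - ρ4 ^ 2) ≤ X4)
    (hX5 : Real.exp (1 - ρ5 ^ 2) ≤ X5)
    (hV1 : Real.exp (-(A / 2 * (1/8 * (1 - 1/8)) + G * (1/8))) ≤ V1)
    (hV2 : Real.exp (-(A / 2 * (1/4 * (1 - 1/4)) + G * (1/4))) ≤ V2)
    (hV3 : Real.exp (-(A / 2 * (1/2 * (1 - 1/2)) + G * (1/2))) ≤ V3)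
    (hV4 : Real.exp (-(A / 2 * (3/4 * (1 - 3/4)) + G * (3/4))) ≤ V4)
    (hV5 : Real.exp (-(A / 2 * (1 * (1 - 1)) + G * 1)) ≤ V5) :
    ∫ s in (0:ℝ)..1, s * QP a ζ k j s ≤
      pf * (1 / 384 + V1 * X1 / 64 + 7 * (V2 * X2) / 128 + V3 * X3 / 8 + 3 * (V4 * X4) / 16 +
        11 * (V5 * X5) / 96) := by
  obtain ⟨ψ, hF, hconv, hψ0, hψ⟩ := pair_psi h hkj hτ1 hτ hMτ hz hℓ hY0 hY ha2 hA hG
  have hpf0 : 0 ≤ pf := (Real.exp_nonneg _).trans hpf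
  have node : ∀ {s ρ X V : ℝ}, 0 ≤ s → s ≤ 1 → (0 ≤ ρ ∧ (ρ = 0 ∨ ρ ≤ 1 - s * (a2 * τ))) →
      Real.exp (1 - ρ ^ 2) ≤ X → Real.exp (-(A / 2 * (s * (1 - s)) + G * s)) ≤ V →
      Real.exp (ψ s) ≤ pf * (V * X) := by
    intro s ρ X V hs hs1 hρ hX hV
    have g2 : Real.exp (ψ s) ≤ Real.exp (ℓ / 2) *
        Real.exp (-(A / 2 * (s * (1 - s)) + G * s)) * Real.exp (1 - ρ ^ 2) := by
      rw [← Real.exp_add, ← Real.exp_add]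
      exact Real.exp_le_exp.2 (hψ s ρ hs hs1 hρ)
    refine g2.trans ?_
    have hV0 : 0 ≤ V := (Real.exp_nonneg _).trans hV
    have e2 : pf * (V * X) = pf * V * X := by ring
    rw [e2]
    exact mul_le_mul (mul_le_mul hpf hV (Real.exp_nonneg _) hpf0) hX (Real.exp_nonneg _)
      (mul_nonneg hpf0 hV0)
  have h0 : Real.exp (ψ 0) ≤ pf := by rw [hψ0]; exact hpf
  have key := int_nodes (QP_cont k j) hF hconv h0 (node (by norm_num) (by norm_num) hρ1 hX1 hV1)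
    (node (by norm_num) (by norm_num) hρ2 hX2 hV2) (node (by norm_num) (by norm_num) hρ3 hX3 hV3)
    (node (by norm_num) (by norm_num) hρ4 hX4 hV4) (node (by norm_num) le_rfl hρ5 hX5 hV5)
  refine key.trans (le_of_eq ?_)
  ring

/-- the peel integral -/
theorem peel_int (h : Fr (M + 1) a ζ z) {Z0 Z1 Z2 Z3 Z4 Z5 : ℝ}
    (h0 : ‖Fr.u a ζ 0‖ * (‖Fr.u a ζ 0‖ + 1) ≤ Z0)
    (hZ : ∀ s V, (s = 1/8 ∧ V = Z1) ∨ (s = 1/4 ∧ V = Z2) ∨ (s = 1/2 ∧ V = Z3) ∨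
      (s = 3/4 ∧ V = Z4) ∨ (s = 1 ∧ V = Z5) →
      ‖Fr.u a ζ 0‖ * (‖Fr.u a ζ 0‖ + 1) * Real.exp (-(M * a ^ 2 / 2) * (s * (1 - s)) -
        gv a ζ * s + yv a ζ * (s * (1 - a ^ 2 * (1 - s))) / 2) ≤ V) :
    ‖Fr.u a ζ 0‖ * (‖Fr.u a ζ 0‖ + 1) * ∫ s in (0:ℝ)..1, s * Q a ζ s ≤
      Z0 / 384 + Z1 / 64 + 7 * Z2 / 128 + Z3 / 8 + 3 * Z4 / 16 + 11 * Z5 / 96 := by
  have ha0 := h.a0
  have ht := h.t_pos 0
  set t := ‖Fr.u a ζ 0‖ * (‖Fr.u a ζ 0‖ + 1) with htd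
  have ht0 : 0 < t := by positivity
  set ψ : ℝ → ℝ := fun s => -(M * a ^ 2 / 2) * (s * (1 - s)) - gv a ζ * s +
    yv a ζ * (s * (1 - a ^ 2 * (1 - s))) / 2 with hψ
  have hF : ∀ s ∈ Set.Icc (0:ℝ) 1, Q a ζ s ≤ Real.exp (ψ s) := fun s _ => prod_tail_le h s
  have hconv : ConvexOn ℝ (Set.Icc (0:ℝ) 1) ψ := by
    have h2 := sum_tail_sq h
    have h3 : 0 ≤ M + yv a ζ := by
      rw [← h2]
      exact Finset.sum_nonneg fun _ _ => sq_nonneg _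
    have h1 := convexOn_quad (α := a ^ 2 * (M + yv a ζ) / 2) (by positivity)
      (-(M * a ^ 2 / 2) - gv a ζ + yv a ζ * (1 - a ^ 2) / 2) 0 (Set.Icc (0:ℝ) 1)
      (convex_Icc (0:ℝ) 1)
    refine h1.congr fun s _ => ?_
    simp only [hψ]
    ring
  have key := int_nodes Q_cont hF hconv (V0 := Z0 / t) (V1 := Z1 / t) (V2 := Z2 / t)
    (V3 := Z3 / t) (V4 := Z4 / t) (V5 := Z5 / t) (by
      rw [le_div_iff₀ ht0]
      simp only [hψ]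
      refine le_trans (le_of_eq ?_) h0
      simp) (by
      rw [le_div_iff₀ ht0, mul_comm]
      exact hZ _ _ (Or.inl ⟨rfl, rfl⟩)) (by
      rw [le_div_iff₀ ht0, mul_comm]
      exact hZ _ _ (Or.inr (Or.inl ⟨rfl, rfl⟩))) (by
      rw [le_div_iff₀ ht0, mul_comm]
      exact hZ _ _ (Or.inr (Or.inr (Or.inl ⟨rfl, rfl⟩)))) (by
      rw [le_div_iff₀ ht0, mul_comm]
      exact hZ _ _ (Or.inr (Or.inr (Or.inr (Or.inl ⟨rfl, rfl⟩))))) (by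
      rw [le_div_iff₀ ht0, mul_comm]
      exact hZ _ _ (Or.inr (Or.inr (Or.inr (Or.inr ⟨rfl, rfl⟩)))))
  have key2 := mul_le_mul_of_nonneg_left key ht0.le
  refine key2.trans (le_of_eq ?_)
  field_simp

end Pool.Agent.Lib.MP_172a45_an.H64.P
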