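import Pool.Agent.Lib.MP_172a45_an.H64.Pade

set_option autoImplicit false

/-!
# One index kept out: boxes
-/

namespace Pool.Agent.Lib.MP_172a45_an.H64.P

open Finset

/-! ### numbers -/

/-- `e^{-u} (6 + 2u) ≤ 6 - 4u + u²` for `u ≥ 0` -/
theorem pade_neg {u : ℝ} (hu : 0 ≤ u) : Real.exp (-u) * (6 + 2 * u) ≤ 6 - 4 * u + u ^ 2 := by
  have mono : ∀ (f f' : ℝ → ℝ), (∀ y, HasDerivAt f (f' y) y) → (∀ y, 0 ≤ y → 0 ≤ f' y) →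
      f 0 = 0 → ∀ y, 0 ≤ y → 0 ≤ f y := by
    intro f f' hd hf' h0 y hy
    have hm : MonotoneOn f (Set.Ici (0:ℝ)) := by
      refine monotoneOn_of_deriv_nonneg (convex_Ici 0)
        (fun y _ => (hd y).continuousAt.continuousWithinAt) (fun y _ => ?_) (fun y hy => ?_)
      · exact (hd y).differentiableAt.differentiableWithinAt
      · rw [(hd y).deriv]
        exact hf' y (interior_subset hy)
    have := hm (Set.mem_Ici.2 le_rfl) (Set.mem_Ici.2 hy) hy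
    rw [h0] at this
    exact this
  have g2 : ∀ y : ℝ, HasDerivAt (fun s : ℝ => s ^ 2) (2 * y) y := fun y => by
    simpa using hasDerivAt_pow 2 y
  have h1 : ∀ y : ℝ, 0 ≤ y → 0 ≤ (2 - 2 * y + y ^ 2) * Real.exp y - 2 := by
    refine mono _ (fun y => y ^ 2 * Real.exp y) (fun y => ?_) (fun y _ => by positivity)
      (by norm_num)
    have h := (((((hasDerivAt_id y).const_mul 2).const_sub 2).add (g2 y)).mul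
      (Real.hasDerivAt_exp y)).sub_const 2
    refine h.congr_deriv ?_
    simp only [id, Pi.add_apply]
    ring
  have h0 : ∀ y : ℝ, 0 ≤ y → 0 ≤ (6 - 4 * y + y ^ 2) * Real.exp y - (6 + 2 * y) := by
    refine mono _ (fun y => (2 - 2 * y + y ^ 2) * Real.exp y - 2) (fun y => ?_) h1 (by norm_num)
    have h := (((((hasDerivAt_id y).const_mul 4).const_sub 6).add (g2 y)).mul
      (Real.hasDerivAt_exp y)).sub (((hasDerivAt_id y).const_mul 2).const_add 6)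
    refine h.congr_deriv ?_
    simp only [id, Pi.add_apply]
    ring
  have h := h0 u hu
  have h2 := mul_nonneg (Real.exp_nonneg (-u)) h
  have e : Real.exp (-u) * ((6 - 4 * u + u ^ 2) * Real.exp u - (6 + 2 * u)) =
      (6 - 4 * u + u ^ 2) * (Real.exp (-u) * Real.exp u) - Real.exp (-u) * (6 + 2 * u) := by ring
  rw [e, ← Real.exp_add, neg_add_cancel, Real.exp_zero] at h2
  linarith

theorem pade' (x : ℝ) : Real.exp x * (6 - 2 * x) ≤ 6 + 4 * x + x ^ 2 := by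
  rcases le_total 0 x with hx | hx
  · exact pade hx
  · have h := pade_neg (u := -x) (by linarith)
    rw [neg_neg] at h
    linarith [sq_nonneg x]

/-- upper bound of `e^E` -/
noncomputable def Pd (E : ℝ) : ℝ := ((6 + 4 * (E / 16) + (E / 16) ^ 2) / (6 - 2 * (E / 16))) ^ 16

theorem exp_le_Pd {E : ℝ} (hE : E < 48) : Real.exp E ≤ Pd E := by
  have h1 : 0 < 6 - 2 * (E / 16) := by linarith
  have h2 : Real.exp (E / 16) ≤ (6 + 4 * (E / 16) + (E / 16) ^ 2) / (6 - 2 * (E / 16)) := by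
    rw [le_div_iff₀ h1]
    exact pade' _
  have h3 := pow_le_pow_left₀ (Real.exp_nonneg _) h2 16
  rw [← Real.exp_nat_mul] at h3
  have e : ((16 : ℕ) : ℝ) * (E / 16) = E := by push_cast; ring
  rw [e] at h3
  exact h3

theorem exp_num {E V : ℝ} (hE : E < 48) (h : Pd E ≤ V) : Real.exp E ≤ V := (exp_le_Pd hE).trans h

theorem exp_small {v X : ℝ} (hv : v < 3) (h : 6 + 4 * v + v ^ 2 ≤ X * (6 - 2 * v)) :
    Real.exp v ≤ X := by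
  have h1 : 0 < 6 - 2 * v := by linarith
  exact le_of_mul_le_mul_right ((pade' v).trans h) h1

theorem log_num {z0 l : ℝ} (hz : 0 < z0) (hl : 0 ≤ l) (h : z0 ≤ (1 + l / 8 + (l / 8) ^ 2 / 2) ^ 8) :
    Real.log z0 ≤ l := by
  rw [Real.log_le_iff_le_exp hz]
  refine h.trans ?_
  have h1 := Real.quadratic_le_exp_of_nonneg (by positivity : 0 ≤ l / 8)
  have h2 := pow_le_pow_left₀ (by positivity) h1 8
  rw [← Real.exp_nat_mul] at h2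
  have e : ((8 : ℕ) : ℝ) * (l / 8) = l := by push_cast; ring
  rw [e] at h2
  exact h2

theorem Y_cert {z0 D Y : ℝ} (hz : 1 < z0)
    (h : (2 / z0 + 4 * D / 3 - 2) ^ 2 ≤ 4 * (1 - 1 / z0) * (Y - 1 / z0 - 2 * D)) (x : ℝ) :
    (1 + x) ^ 2 * (1 / z0) + (2 * D + (4 * D / 3 - 2) * x - x ^ 2) ≤ Y := by
  have hz0 : 0 < z0 := by linarith
  have hp : 0 < 1 - 1 / z0 := by
    rw [sub_pos, div_lt_one hz0]; exact hz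
  have e : 2 / z0 = 2 * (1 / z0) := by ring
  rw [e] at h
  set i := 1 / z0
  have h1 : 0 ≤ 4 * (1 - i) * (Y - ((1 + x) ^ 2 * i + (2 * D + (4 * D / 3 - 2) * x - x ^ 2))) := by
    have h2 : 4 * (1 - i) * (Y - ((1 + x) ^ 2 * i + (2 * D + (4 * D / 3 - 2) * x - x ^ 2))) =
        (2 * (1 - i) * x - (2 * i + 4 * D / 3 - 2)) ^ 2 +
          (4 * (1 - i) * (Y - i - 2 * D) - (2 * i + 4 * D / 3 - 2) ^ 2) := by ring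
    rw [h2]
    nlinarith [sq_nonneg (2 * (1 - i) * x - (2 * i + 4 * D / 3 - 2))]
  have h3 : 0 ≤ Y - ((1 + x) ^ 2 * i + (2 * D + (4 * D / 3 - 2) * x - x ^ 2)) := by
    by_contra hcon
    push Not at hcon
    have := mul_neg_of_pos_of_neg (by linarith : 0 < 4 * (1 - i)) hcon
    linarith
  linarith

/-- one node of the peel term -/
theorem R_cert {xm q ξ s c l b V R : ℝ} (hq : 0 ≤ q) (hs : 0 ≤ s)
    (hσ : 0 ≤ 1 / (1 + q) + 1 / (2 + q) + l - s * ξ)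
    (hE : -(q * (1 / (1 + q) + 1 / (2 + q))) + s * c + b + s * ξ ^ 2 / 2 +
      (1 / (1 + q) + 1 / (2 + q) + l - s * ξ) * xm < 48)
    (hV : Pd (-(q * (1 / (1 + q) + 1 / (2 + q))) + s * c + b + s * ξ ^ 2 / 2 +
      (1 / (1 + q) + 1 / (2 + q) + l - s * ξ) * xm) ≤ V)
    (hR : (1 + q) * (2 + q) * V ≤ R) (x : ℝ) (hx : 0 ≤ x) (hxm : x ≤ xm) :
    (1 + x) * (2 + x) * Real.exp (s * c + l * x - s * x ^ 2 / 2 + b) ≤ R := by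
  have tan : ∀ {p : ℝ}, 0 < p + q → 0 ≤ p + x → p + x ≤ (p + q) * Real.exp ((x - q) * (1 / (p + q))) := by
    intro p hp _
    have h1 := Real.add_one_le_exp ((x - q) * (1 / (p + q)))
    have h2 := mul_le_mul_of_nonneg_left h1 hp.le
    have e : (p + q) * ((x - q) * (1 / (p + q)) + 1) = p + x := by
      field_simp
      ring
    rw [e] at h2
    exact h2
  have t1 := tan (p := 1) (by linarith) (by linarith)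
  have t2 := tan (p := 2) (by linarith) (by linarith)
  have t3 := mul_le_mul t1 t2 (by linarith) (by positivity)
  have t4 := mul_le_mul_of_nonneg_right t3 (Real.exp_nonneg (s * c + l * x - s * x ^ 2 / 2 + b))
  refine t4.trans ?_
  have e : (1 + q) * Real.exp ((x - q) * (1 / (1 + q))) *
      ((2 + q) * Real.exp ((x - q) * (1 / (2 + q)))) *
      Real.exp (s * c + l * x - s * x ^ 2 / 2 + b) = (1 + q) * (2 + q) *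
      Real.exp ((x - q) * (1 / (1 + q)) + (x - q) * (1 / (2 + q)) +
        (s * c + l * x - s * x ^ 2 / 2 + b)) := by
    rw [Real.exp_add ((x - q) * (1 / (1 + q)) + (x - q) * (1 / (2 + q)))
      (s * c + l * x - s * x ^ 2 / 2 + b),
      Real.exp_add ((x - q) * (1 / (1 + q))) ((x - q) * (1 / (2 + q)))]
    ring
  rw [e]
  refine le_trans (mul_le_mul_of_nonneg_left ?_ (by positivity)) hR
  refine le_trans (Real.exp_le_exp.2 ?_) (exp_num hE hV)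
  have k1 : 0 ≤ s * (x - ξ) ^ 2 := by positivity
  have k2 := mul_le_mul_of_nonneg_left hxm hσ
  nlinarith

/-! ### the data -/

/-- the constants which depend on the deficit only -/
structure DC (D xm τ z0 ℓ Y pf : ℝ) : Prop where
  hD : 0 ≤ D
  hD2 : D ≤ 3 / 2
  hxm : 0 ≤ xm
  hx : (2 + 4 * xm / 3) * D ≤ xm ^ 2
  hτ : 1 ≤ τ
  hτD : 2 * D / 3 ≤ τ - 1
  hτ2 : (2 + 4 * (τ - 1) / 3) * D ≤ 3 * (τ - 1) ^ 2
  hz : 1 ≤ z0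
  hℓ : Real.log z0 - 1 + 1 / z0 ≤ ℓ
  hℓ0 : 0 ≤ ℓ
  hY : ∀ x, 0 ≤ x → x ≤ xm → (1 + x) ^ 2 * (1 / z0) + (2 * D + (4 * D / 3 - 2) * x - x ^ 2) ≤ Y
  hpf : Real.exp (ℓ / 2) ≤ pf

/-- the constants of the peel term -/
structure RC (D xm z0 c α β R0 R1 R2 R3 R4 R5 : ℝ) : Prop where
  h0 : (1 + xm) * (2 + xm) ≤ R0
  h1 : ∀ x, 0 ≤ x → x ≤ xm → (1 + x) * (2 + x) * Real.exp (1/8 * c +
    (1/8 * (1 / z0 + 2 * D / 3 - 1) + 1/8 * (1 - 1/8) * α) * x - 1/8 * x ^ 2 / 2 +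
      1/8 * (1 - 1/8) * β) ≤ R1
  h2 : ∀ x, 0 ≤ x → x ≤ xm → (1 + x) * (2 + x) * Real.exp (1/4 * c +
    (1/4 * (1 / z0 + 2 * D / 3 - 1) + 1/4 * (1 - 1/4) * α) * x - 1/4 * x ^ 2 / 2 +
      1/4 * (1 - 1/4) * β) ≤ R2
  h3 : ∀ x, 0 ≤ x → x ≤ xm → (1 + x) * (2 + x) * Real.exp (1/2 * c +
    (1/2 * (1 / z0 + 2 * D / 3 - 1) + 1/2 * (1 - 1/2) * α) * x - 1/2 * x ^ 2 / 2 +
      1/2 * (1 - 1/2) * β) ≤ R3
  h4 : ∀ x, 0 ≤ x → x ≤ xm → (1 + x) * (2 + x) * Real.exp (3/4 * c +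
    (3/4 * (1 / z0 + 2 * D / 3 - 1) + 3/4 * (1 - 3/4) * α) * x - 3/4 * x ^ 2 / 2 +
      3/4 * (1 - 3/4) * β) ≤ R4
  h5 : ∀ x, 0 ≤ x → x ≤ xm → (1 + x) * (2 + x) * Real.exp (1 * c +
    (1 * (1 / z0 + 2 * D / 3 - 1) + 1 * (1 - 1) * α) * x - 1 * x ^ 2 / 2 +
      1 * (1 - 1) * β) ≤ R5

/-- a box -/
structure PB (D E xm τ z0 ℓ Y pf c α β R0 R1 R2 R3 R4 R5 Ma b1 b2 b3 A1 A2 α1 α2 a2 A g0 G
    ρ1 ρ2 ρ3 ρ4 ρ5 X1 X2 X3 X4 X5 V1 V2 V3 V4 V5 : ℝ) : Prop where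
  hMa : 1 ≤ Ma
  hMτ : 2 * τ ^ 2 ≤ Ma
  hb1 : Ma ≤ b1
  hb2 : b1 ≤ b2
  hb3 : b2 ≤ b3
  hA1 : 0 ≤ A1
  hα1 : 0 ≤ α1
  hα2 : A2 ≤ α2 * Ma
  hα3 : α2 < 1
  ha2 : 0 ≤ a2
  hαa : α2 ≤ a2 ^ 2
  ha2' : a2 ≤ 1
  hA : A ≤ A1 + α1 * Y
  hA0 : 0 ≤ A
  hg0 : 0 ≤ g0
  hg24 : g0 ≤ 24
  hG0 : 0 ≤ G
  hG : G + (ℓ / (2 * (1 - α2)) - 1 / z0 / 2) + Y / 2 ≤ g0
  hgy : ℓ / (1 - α2) + (xm + 1 / 2) * (1 / z0) + D ≤ g0
  g1 : Pd ((1 - A1 / b1) * g0) ≤ 1 + (1 - A1 / b1) * (Ma - A2 / 4 + 1 - a2 * (1 + xm) / 2 -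
    (1 - A1 / b1) * xm / 2 - g0 / 2)
  g2 : Pd ((1 - A1 / b2) * g0) ≤ 1 + (1 - A1 / b2) * (b1 - A2 / 4 + 1 - a2 * (1 + xm) / 2 -
    (1 - A1 / b2) * xm / 2 - g0 / 2)
  g3 : Pd ((1 - A1 / b3) * g0) ≤ 1 + (1 - A1 / b3) * (b2 - A2 / 4 + 1 - a2 * (1 + xm) / 2 -
    (1 - A1 / b3) * xm / 2 - g0 / 2)
  g4 : Pd ((1 - α1) * g0) ≤ 1 + (1 - α1) * (b3 - A2 / 4 + 1 - a2 * (1 + xm) / 2 -
    (1 - α1) * xm / 2 - g0 / 2)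
  hρ1 : 0 ≤ ρ1 ∧ (ρ1 = 0 ∨ ρ1 ≤ 1 - 1/8 * (a2 * τ))
  hρ2 : 0 ≤ ρ2 ∧ (ρ2 = 0 ∨ ρ2 ≤ 1 - 1/4 * (a2 * τ))
  hρ3 : 0 ≤ ρ3 ∧ (ρ3 = 0 ∨ ρ3 ≤ 1 - 1/2 * (a2 * τ))
  hρ4 : 0 ≤ ρ4 ∧ (ρ4 = 0 ∨ ρ4 ≤ 1 - 3/4 * (a2 * τ))
  hρ5 : 0 ≤ ρ5 ∧ (ρ5 = 0 ∨ ρ5 ≤ 1 - 1 * (a2 * τ))
  hX1 : 6 + 4 * (1 - ρ1 ^ 2) + (1 - ρ1 ^ 2) ^ 2 ≤ X1 * (6 - 2 * (1 - ρ1 ^ 2))
  hX2 : 6 + 4 * (1 - ρ2 ^ 2) + (1 - ρ2 ^ 2) ^ 2 ≤ X2 * (6 - 2 * (1 - ρ2 ^ 2))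
  hX3 : 6 + 4 * (1 - ρ3 ^ 2) + (1 - ρ3 ^ 2) ^ 2 ≤ X3 * (6 - 2 * (1 - ρ3 ^ 2))
  hX4 : 6 + 4 * (1 - ρ4 ^ 2) + (1 - ρ4 ^ 2) ^ 2 ≤ X4 * (6 - 2 * (1 - ρ4 ^ 2))
  hX5 : 6 + 4 * (1 - ρ5 ^ 2) + (1 - ρ5 ^ 2) ^ 2 ≤ X5 * (6 - 2 * (1 - ρ5 ^ 2))
  hV1 : Pd (-(A / 2 * (1/8 * (1 - 1/8)) + G * (1/8))) ≤ V1
  hV2 : Pd (-(A / 2 * (1/4 * (1 - 1/4)) + G * (1/4))) ≤ V2
  hV3 : Pd (-(A / 2 * (1/2 * (1 - 1/2)) + G * (1/2))) ≤ V3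
  hV4 : Pd (-(A / 2 * (3/4 * (1 - 3/4)) + G * (3/4))) ≤ V4
  hV5 : Pd (-(A / 2 * (1 * (1 - 1)) + G * 1)) ≤ V5
  hc : ℓ / (1 - α2) + a2 / (1 + a2) * (1 / z0) + D - (g0 - G) ≤ c
  hα : α2 ≤ α
  hβ : (A - A1) / 2 ≤ β
  hF : pf * V5 + a2 * E + α2 * (R0 / 384 + R1 * V1 / 64 + 7 * (R2 * V2) / 128 + R3 * V3 / 8 +
    3 * (R4 * V4) / 16 + 11 * (R5 * V5) / 96) +
    (A2 * (1 - α1 / 4) + α2 * (2 * D)) *
    (pf * (1 / 384 + V1 * X1 / 64 + 7 * (V2 * X2) / 128 + V3 * X3 / 8 + 3 * (V4 * X4) / 16 +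
        11 * (V5 * X5) / 96)) < 1

end Pool.Agent.Lib.MP_172a45_an.H64.P
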