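import Pool.Agent.Lib.MP_172a45_an.H64.P3
import Pool.Agent.Lib.MP_172a45_an.H64.P4A

set_option autoImplicit false

/-!
# One index kept out: a box of the tail
-/

namespace Pool.Agent.Lib.MP_172a45_an.H64.P

open Finset F

variable {M : ℕ} {a : ℝ} {ζ z : Fin (M + 1) → ℂ}

/-- the bound of `gh` in a range of `M` -/
theorem gh_ge_range (h : Fr (M + 1) a ζ z) (hmax : ∀ k, ‖Fr.u a ζ k‖ ≤ ‖Fr.u a ζ 0‖)
    {xm A2 a2 m1 b g0 : ℝ} (hx : ex a ζ ≤ xm) (hb : b ≤ M) (hA2 : M * a ^ 2 ≤ A2) (ha2 : a ≤ a2)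
    (hm1 : 1 - a ^ 2 ≤ m1) (hg : m1 * g0 < 48)
    (hc : Pd (m1 * g0) ≤ 1 + m1 * (b - A2 / 4 + 1 - a2 * (1 + xm) / 2 - m1 * xm / 2 - g0 / 2)) :
    g0 ≤ gh a ζ := by
  have ha0 := h.a0
  have ha1 := h.a1
  have hm : 0 < 1 - a ^ 2 := by nlinarith
  have h0 := ex_nonneg h hmax
  refine gh_ge h (B := b - A2 / 4 + 1 - a2 * (1 + xm) / 2 - m1 * xm / 2) hm1 ?_
    ((exp_le_Pd hg).trans hc)
  have k1 : a * (1 + ex a ζ) ≤ a2 * (1 + xm) :=
    mul_le_mul ha2 (by linarith) (by linarith) (by linarith)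
  have k2 : (1 - a ^ 2) * ex a ζ ≤ m1 * xm := mul_le_mul hm1 hx h0 (by linarith)
  linarith

theorem pbox (h : Fr (M + 1) a ζ z) (hmax : ∀ k, ‖Fr.u a ζ k‖ ≤ ‖Fr.u a ζ 0‖)
    {D E xm τ z0 ℓ Y pf c α β R0 R1 R2 R3 R4 R5 Ma b1 b2 b3 A1 A2 α1 α2 a2 A g0 G
    ρ1 ρ2 ρ3 ρ4 ρ5 X1 X2 X3 X4 X5 V1 V2 V3 V4 V5 : ℝ}
    (dc : DC D xm τ z0 ℓ Y pf) (rc : RC D xm z0 c α β R0 R1 R2 R3 R4 R5)
    (b : PB D E xm τ z0 ℓ Y pf c α β R0 R1 R2 R3 R4 R5 Ma b1 b2 b3 A1 A2 α1 α2 a2 A g0 G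
      ρ1 ρ2 ρ3 ρ4 ρ5 X1 X2 X3 X4 X5 V1 V2 V3 V4 V5)
    (hM : Ma ≤ M) (hA1 : A1 ≤ M * a ^ 2) (hA2 : M * a ^ 2 ≤ A2) (hα1 : α1 ≤ a ^ 2)
    (hD : -∑ k, Real.log ‖Fr.u a ζ k‖ ≤ D) (hE : ∏ k, ‖Fr.u a ζ k‖ ≤ E) : False := by
  have ha0 := h.a0
  have ha1 := h.a1
  have hm : 0 < 1 - a ^ 2 := by nlinarith
  have hMa := b.hMa
  have hM0 : (0 : ℝ) < M := by linarith
  have hM1 : 0 < M := by exact_mod_cast hM0
  have hex := ex_nonneg h hmax
  have hxm := ex_le h hmax hD dc.hxm dc.hx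
  obtain ⟨_, hy⟩ := yv_le h hmax hD
  have hz0 : 0 < z0 := by linarith [dc.hz]
  have hiz : 0 < 1 / z0 := by positivity
  -- `a`
  have haα : a ^ 2 ≤ α2 := by
    have h1 : M * a ^ 2 ≤ M * α2 := by
      have hα20 : 0 ≤ α2 := by
        by_contra hcon
        push Not at hcon
        have := mul_neg_of_neg_of_pos hcon (by linarith : 0 < Ma)
        have := b.hα2
        have := b.hA1
        have : 0 < M * a ^ 2 := by positivity
        linarith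
      have h2 : α2 * Ma ≤ α2 * M := mul_le_mul_of_nonneg_left hM hα20
      have := b.hα2
      linarith
    exact le_of_mul_le_mul_left h1 hM0
  have haa : a ≤ a2 := le_of_sq_le_sq (haα.trans b.hαa) b.ha2
  have hm2 : 1 - α2 ≤ 1 - a ^ 2 := by linarith
  have hm20 : 0 < 1 - α2 := by linarith [b.hα3]
  -- `gh`
  have hgh : g0 ≤ gh a ζ := by
    have hmA : ∀ {b' : ℝ}, 0 < b' → (M : ℝ) ≤ b' → 1 - a ^ 2 ≤ 1 - A1 / b' := by
      intro b' hb' hMb
      have : A1 / b' ≤ a ^ 2 := by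
        rw [div_le_iff₀ hb']
        have := mul_le_mul_of_nonneg_right hMb (sq_nonneg a)
        linarith
      linarith
    have hlt : ∀ {b' : ℝ}, 0 < b' → (1 - A1 / b') * g0 < 48 := by
      intro b' hb'
      have h1 : 0 ≤ A1 / b' := div_nonneg b.hA1 hb'.le
      have h2 : (1 - A1 / b') * g0 ≤ 1 * g0 := mul_le_mul_of_nonneg_right (by linarith) b.hg0
      have := b.hg24
      linarith
    have hb1 : 0 < b1 := by linarith [b.hb1]
    have hb2 : 0 < b2 := by linarith [b.hb2]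
    have hb3 : 0 < b3 := by linarith [b.hb3]
    rcases le_total (M : ℝ) b1 with hc1 | hc1
    · exact gh_ge_range h hmax hxm hM hA2 haa (hmA hb1 hc1) (hlt hb1) b.g1
    rcases le_total (M : ℝ) b2 with hc2 | hc2
    · exact gh_ge_range h hmax hxm hc1 hA2 haa (hmA hb2 hc2) (hlt hb2) b.g2
    rcases le_total (M : ℝ) b3 with hc3 | hc3
    · exact gh_ge_range h hmax hxm hc2 hA2 haa (hmA hb3 hc3) (hlt hb3) b.g3
    · refine gh_ge_range h hmax hxm hc3 hA2 haa (by linarith) ?_ b.g4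
      have h2 : (1 - α1) * g0 ≤ 1 * g0 :=
        mul_le_mul_of_nonneg_right (by linarith [b.hα1]) b.hg0
      have := b.hg24
      linarith
  -- comparison of the constants
  have hℓm : ℓ / (1 - a ^ 2) ≤ ℓ / (1 - α2) := div_le_div_of_nonneg_left dc.hℓ0 hm20 hm2
  have hℓm2 : ℓ / (2 * (1 - a ^ 2)) ≤ ℓ / (2 * (1 - α2)) :=
    div_le_div_of_nonneg_left dc.hℓ0 (by linarith) (by linarith)
  have haq : a / (1 + a) ≤ a2 / (1 + a2) := by
    rw [div_le_div_iff₀ (by linarith) (by linarith)]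
    nlinarith
  have haq2 : a / (1 + a) ≤ 1 / 2 := by
    rw [div_le_div_iff₀ (by linarith) (by norm_num)]
    linarith
  have hD2 := dc.hD2
  have hy2 : yv a ζ ≤ 2 * D := by
    have h1 : (4 * D / 3 - 2) * ex a ζ ≤ 0 := mul_nonpos_of_nonpos_of_nonneg (by linarith) hex
    linarith [sq_nonneg (ex a ζ)]
  have hY0 : 0 ≤ Y := by
    have h1 := dc.hY 0 le_rfl dc.hxm
    have := dc.hD
    norm_num at h1
    have h2 : z0⁻¹ = 1 / z0 := by rw [one_div]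
    rw [h2] at h1
    linarith
  have hY : (1 + ex a ζ) ^ 2 * (1 / z0) + yv a ζ ≤ Y := by
    have h1 := dc.hY _ hex hxm
    linarith
  -- the real part
  have hR : M * a ^ 2 / 2 ≤ a * (∑ k, Fr.ut a ζ k).re := by
    have h1 := logA0_le h hz0 dc.hℓ
    have h2 : a * (∑ k, Fr.ut a ζ k).re =
        gv a ζ + M * a ^ 2 / 2 - (1 - a ^ 2) * yv a ζ / 2 := by unfold gv; ring
    have h3 : gh a ζ = gv a ζ + Real.log (A0 a ζ) / (1 - a ^ 2) := rfl
    have h4 : (ex a ζ + a / (1 + a)) * (1 / z0) ≤ (xm + 1 / 2) * (1 / z0) :=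
      mul_le_mul_of_nonneg_right (by linarith) hiz.le
    have h5 : (1 - a ^ 2) * yv a ζ / 2 ≤ D := by
      have g1 : (1 - a ^ 2) * yv a ζ ≤ (1 - a ^ 2) * (2 * D) := mul_le_mul_of_nonneg_left hy2 hm.le
      have g2 : (1 - a ^ 2) * (2 * D) ≤ 1 * (2 * D) :=
        mul_le_mul_of_nonneg_right (by linarith [sq_nonneg a]) (by linarith [dc.hD])
      linarith
    have h6 := b.hgy
    rw [h2]
    linarith
  -- the pair integrals
  have hJ : ∀ k j, k ≠ j → ∫ s in (0:ℝ)..1, s * QP a ζ k j s ≤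
      pf * (1 / 384 + V1 * X1 / 64 + 7 * (V2 * X2) / 128 + V3 * X3 / 8 + 3 * (V4 * X4) / 16 +
        11 * (V5 * X5) / 96) := by
    intro k j hkj
    have hAe : A ≤ M * a ^ 2 + a ^ 2 * Y := by
      have := mul_le_mul_of_nonneg_right hα1 hY0
      linarith [b.hA]
    have hX : ∀ {ρ X : ℝ}, 6 + 4 * (1 - ρ ^ 2) + (1 - ρ ^ 2) ^ 2 ≤ X * (6 - 2 * (1 - ρ ^ 2)) →
        Real.exp (1 - ρ ^ 2) ≤ X := fun {ρ X} hX => exp_small (by linarith [sq_nonneg ρ]) hX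
    have hneg : ∀ {s : ℝ}, 0 ≤ s → s ≤ 1 → -(A / 2 * (s * (1 - s)) + G * s) < 48 := by
      intro s hs hs1
      have h1 : 0 ≤ A / 2 * (s * (1 - s)) :=
        mul_nonneg (by linarith [b.hA0]) (mul_nonneg hs (by linarith))
      have h2 : 0 ≤ G * s := mul_nonneg b.hG0 hs
      linarith
    refine pair_int h hkj dc.hτ (pair_le h hmax hD dc.hτ dc.hτD dc.hτ2 hkj)
      (by linarith [b.hMτ]) hz0 dc.hℓ hY0 hY haa hAe (by linarith [b.hG]) dc.hpf
      b.hρ1 b.hρ2 b.hρ3 b.hρ4 b.hρ5 (hX b.hX1) (hX b.hX2) (hX b.hX3) (hX b.hX4) (hX b.hX5)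
      (exp_num (hneg (by norm_num) (by norm_num)) b.hV1)
      (exp_num (hneg (by norm_num) (by norm_num)) b.hV2)
      (exp_num (hneg (by norm_num) (by norm_num)) b.hV3)
      (exp_num (hneg (by norm_num) (by norm_num)) b.hV4)
      (exp_num (hneg (by norm_num) le_rfl) b.hV5)
  have hneg : ∀ {s : ℝ}, 0 ≤ s → s ≤ 1 → -(A / 2 * (s * (1 - s)) + G * s) < 48 := by
    intro s hs hs1
    have h1 : 0 ≤ A / 2 * (s * (1 - s)) :=
      mul_nonneg (by linarith [b.hA0]) (mul_nonneg hs (by linarith))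
    have h2 : 0 ≤ G * s := mul_nonneg b.hG0 hs
    linarith
  have hVn : ∀ {s V : ℝ}, 0 ≤ s → s ≤ 1 → Pd (-(A / 2 * (s * (1 - s)) + G * s)) ≤ V → 0 ≤ V :=
    fun hs hs1 hV => (Real.exp_nonneg _).trans (exp_num (hneg hs hs1) hV)
  -- the peel integral
  have ht : ‖Fr.u a ζ 0‖ = 1 + ex a ζ := by unfold ex; ring
  have hI : ‖Fr.u a ζ 0‖ * (‖Fr.u a ζ 0‖ + 1) * ∫ s in (0:ℝ)..1, s * Q a ζ s ≤
      R0 / 384 + R1 * V1 / 64 + 7 * (R2 * V2) / 128 + R3 * V3 / 8 +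
        3 * (R4 * V4) / 16 + 11 * (R5 * V5) / 96 := by
    have hnode : ∀ {s V R : ℝ}, 0 ≤ s → s ≤ 1 → Pd (-(A / 2 * (s * (1 - s)) + G * s)) ≤ V →
        (∀ x, 0 ≤ x → x ≤ xm → (1 + x) * (2 + x) * Real.exp (s * c +
          (s * (1 / z0 + 2 * D / 3 - 1) + s * (1 - s) * α) * x - s * x ^ 2 / 2 +
            s * (1 - s) * β) ≤ R) →
        ‖Fr.u a ζ 0‖ * (‖Fr.u a ζ 0‖ + 1) * Real.exp (-(M * a ^ 2 / 2) * (s * (1 - s)) -
          gv a ζ * s + yv a ζ * (s * (1 - a ^ 2 * (1 - s))) / 2) ≤ R * V := by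
      intro s V R hs hs1 hV hR'
      have h1 := peel_le h hs hs1 hz0 dc.hℓ hy
      have h2 := hR' _ hex hxm
      have h3 := exp_num (hneg hs hs1) hV
      have h4 := mul_le_mul h2 h3 (Real.exp_nonneg _) (le_trans (by positivity) h2)
      refine le_trans ?_ h4
      rw [mul_assoc _ (Real.exp _) (Real.exp _), ← Real.exp_add]
      have e1 : ‖Fr.u a ζ 0‖ * (‖Fr.u a ζ 0‖ + 1) = (1 + ex a ζ) * (2 + ex a ζ) := by
        rw [ht]; ring
      rw [e1]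
      refine mul_le_mul_of_nonneg_left (Real.exp_le_exp.2 ?_) (by positivity)
      have hss : 0 ≤ s * (1 - s) := mul_nonneg hs (by linarith)
      have k1 := mul_le_mul_of_nonneg_right hA1 hss
      have k2 := mul_le_mul_of_nonneg_right hgh hs
      have k3 := mul_le_mul_of_nonneg_left (haα.trans b.hα) hss
      have k4 := mul_le_mul_of_nonneg_right k3 hex
      have k5 := mul_le_mul_of_nonneg_left b.hβ hss
      have k6 : s * (ℓ / (1 - a ^ 2) + (ex a ζ + a / (1 + a)) * (1 / z0) + D - (g0 - G)) ≤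
          s * (c + ex a ζ * (1 / z0)) := by
        refine mul_le_mul_of_nonneg_left ?_ hs
        have q1 := mul_le_mul_of_nonneg_right haq hiz.le
        have q2 := b.hc
        linarith
      linarith
    refine peel_int h (Z0 := R0) (Z1 := R1 * V1) (Z2 := R2 * V2) (Z3 := R3 * V3) (Z4 := R4 * V4)
      (Z5 := R5 * V5) ?_ ?_
    · rw [ht]
      have h1 := rc.h0
      have h2 : (1 + ex a ζ) * (1 + ex a ζ + 1) ≤ (1 + xm) * (2 + xm) :=
        mul_le_mul (by linarith) (by linarith) (by linarith) (by linarith)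
      linarith
    · rintro s V (⟨rfl, rfl⟩ | ⟨rfl, rfl⟩ | ⟨rfl, rfl⟩ | ⟨rfl, rfl⟩ | ⟨rfl, rfl⟩)
      · exact hnode (by norm_num) (by norm_num) b.hV1 rc.h1
      · exact hnode (by norm_num) (by norm_num) b.hV2 rc.h2
      · exact hnode (by norm_num) (by norm_num) b.hV3 rc.h3
      · exact hnode (by norm_num) (by norm_num) b.hV4 rc.h4
      · exact hnode (by norm_num) le_rfl b.hV5 rc.h5
  -- the first term
  have hT : ‖1 - (a : ℂ) * Fr.u a ζ 0‖ * ∏ k, ‖1 - (a : ℂ) * Fr.ut a ζ k‖ ≤ pf * V5 := by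
    have h1 := prod_tail_le h 1
    have h2 := K_le h (s := 1) zero_le_one le_rfl hz0 dc.hℓ hY
    have h3 : ‖(1 : ℂ) - ((1 : ℝ) : ℂ) * a * Fr.u a ζ 0‖ *
        ∏ k, ‖(1 : ℂ) - ((1 : ℝ) : ℂ) * a * Fr.ut a ζ k‖ ≤
        Real.exp (ℓ / 2) * Real.exp (-(A / 2 * (1 * (1 - 1)) + G * 1)) := by
      refine (mul_le_mul_of_nonneg_left h1 (norm_nonneg _)).trans ?_
      have e1 : -(M * a ^ 2 / 2) * (1 * (1 - 1)) - gv a ζ * 1 +
          yv a ζ * (1 * (1 - a ^ 2 * (1 - 1))) / 2 =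
          -gv a ζ * 1 + yv a ζ * (1 * (1 - a ^ 2 * (1 - 1))) / 2 := by ring
      rw [e1]
      refine h2.trans ?_
      rw [← Real.exp_add]
      refine Real.exp_le_exp.2 ?_
      have := b.hG
      linarith
    have h4 : Real.exp (ℓ / 2) * Real.exp (-(A / 2 * (1 * (1 - 1)) + G * 1)) ≤ pf * V5 :=
      mul_le_mul dc.hpf (exp_num (hneg zero_le_one le_rfl) b.hV5) (Real.exp_nonneg _)
        ((Real.exp_nonneg _).trans dc.hpf)
    refine le_trans (le_of_eq ?_) (h3.trans h4)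
    simp
  -- the end
  have hpf0 : 0 ≤ pf := (Real.exp_nonneg _).trans dc.hpf
  have hXn : ∀ {ρ X : ℝ}, 6 + 4 * (1 - ρ ^ 2) + (1 - ρ ^ 2) ^ 2 ≤ X * (6 - 2 * (1 - ρ ^ 2)) →
      0 ≤ X := fun {ρ X} hX =>
    (Real.exp_nonneg _).trans (exp_small (by linarith [sq_nonneg ρ]) hX)
  have hV1 := hVn (by norm_num) (by norm_num) b.hV1
  have hV2 := hVn (by norm_num) (by norm_num) b.hV2
  have hV3 := hVn (by norm_num) (by norm_num) b.hV3
  have hV4 := hVn (by norm_num) (by norm_num) b.hV4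
  have hV5 := hVn (by norm_num) le_rfl b.hV5
  have hX1 := hXn b.hX1
  have hX2 := hXn b.hX2
  have hX3 := hXn b.hX3
  have hX4 := hXn b.hX4
  have hX5 := hXn b.hX5
  set J := pf * (1 / 384 + V1 * X1 / 64 + 7 * (V2 * X2) / 128 + V3 * X3 / 8 +
    3 * (V4 * X4) / 16 + 11 * (V5 * X5) / 96) with hJd
  have hJ0 : 0 ≤ J := by rw [hJd]; positivity
  have hfin := core h hM1 hmax hJ hI hT hJ0 hR
  set I := R0 / 384 + R1 * V1 / 64 + 7 * (R2 * V2) / 128 + R3 * V3 / 8 +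
        3 * (R4 * V4) / 16 + 11 * (R5 * V5) / 96 with hId
  have hI0 : 0 ≤ I := by
    refine le_trans ?_ hI
    refine mul_nonneg (by positivity) ?_
    exact intervalIntegral.integral_nonneg zero_le_one fun s hs =>
      mul_nonneg hs.1 (Finset.prod_nonneg fun _ _ => norm_nonneg _)
  have f1 : a * ∏ k, ‖Fr.u a ζ k‖ ≤ a2 * E :=
    mul_le_mul haa hE (Finset.prod_nonneg fun _ _ => norm_nonneg _) b.ha2
  have f2 : a ^ 2 * I ≤ α2 * I := mul_le_mul_of_nonneg_right haα hI0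
  have f3 : M * a ^ 2 * (1 - a ^ 2 / 4) + a ^ 2 * yv a ζ ≤ A2 * (1 - α1 / 4) + α2 * (2 * D) := by
    have k1 : M * a ^ 2 * (1 - a ^ 2 / 4) ≤ A2 * (1 - α1 / 4) :=
      mul_le_mul hA2 (by linarith)
        (by
          have : a ^ 2 ≤ 1 := pow_le_one₀ h.a0.le h.a1.le
          linarith) (by
        refine le_trans ?_ hA2
        positivity)
    have k2 : a ^ 2 * yv a ζ ≤ a ^ 2 * (2 * D) := mul_le_mul_of_nonneg_left hy2 (sq_nonneg a)
    have k3 : a ^ 2 * (2 * D) ≤ α2 * (2 * D) :=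
      mul_le_mul_of_nonneg_right haα (by linarith [dc.hD])
    linarith
  have f4 := mul_le_mul_of_nonneg_right f3 hJ0
  have hF := b.hF
  rw [← hId, ← hJd] at hF
  linarith

end Pool.Agent.Lib.MP_172a45_an.H64.P
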