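import Pool.Agent.Lib.MP_172a45_an.H64.P3
import Pool.Agent.Lib.MP_172a45_an.H64.P4A

set_option autoImplicit false

/-!
# One index kept out: large `M a²`
-/

namespace Pool.Agent.Lib.MP_172a45_an.H64.P

open Finset F

/-- an integral through the nodes `0, 1/2, 1` -/
theorem int_two {F ψ : ℝ → ℝ} (hF : Continuous F)
    (hFψ : ∀ s ∈ Set.Icc (0:ℝ) 1, F s ≤ Real.exp (ψ s)) (hψ : ConvexOn ℝ (Set.Icc (0:ℝ) 1) ψ)
    {u0 u1 d σ : ℝ} (hd : 0 < d) (hσ : 0 < σ) (h0 : ψ 0 ≤ u0) (h1 : ψ (1 / 2) ≤ u0 - d / 2)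
    (h2 : ψ (1 / 2) ≤ u1 - σ / 2) (h3 : ψ 1 ≤ u1) :
    ∫ s in (0:ℝ)..1, s * F s ≤ Real.exp u0 * (1 / d ^ 2) + Real.exp u1 * (1 / σ) := by
  have hi : ∀ p q : ℝ, IntervalIntegrable (fun s => s * F s) MeasureTheory.volume p q :=
    fun p q => (continuous_id.mul hF).intervalIntegrable _ _
  have e1 := intervalIntegral.integral_add_adjacent_intervals (hi 0 (1/2)) (hi (1/2) 1)
  have I0 : (0:ℝ) ∈ Set.Icc (0:ℝ) 1 := ⟨le_rfl, zero_le_one⟩
  have I1 : (1:ℝ) ∈ Set.Icc (0:ℝ) 1 := ⟨zero_le_one, le_rfl⟩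
  have I2 : (1/2:ℝ) ∈ Set.Icc (0:ℝ) 1 := ⟨by norm_num, by norm_num⟩
  -- the first half
  have a1 : ∫ s in (0:ℝ)..(1/2), s * F s ≤
      ∫ s in (0:ℝ)..(1/2), s * (Real.exp u0 * Real.exp (-(d * s))) := by
    refine intervalIntegral.integral_mono_on (by norm_num) (hi _ _)
      (Continuous.intervalIntegrable (by fun_prop) _ _) fun s hs => ?_
    refine mul_le_mul_of_nonneg_left ?_ hs.1
    have hs1 : s ∈ Set.Icc (0:ℝ) 1 := ⟨hs.1, by linarith [hs.2]⟩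
    refine (hFψ s hs1).trans ?_
    rw [← Real.exp_add]
    refine Real.exp_le_exp.2 ?_
    have g := hψ.2 I0 I2 (by linarith [hs.2] : 0 ≤ 1 - 2 * s) (by linarith [hs.1] : 0 ≤ 2 * s)
      (by ring)
    simp only [smul_eq_mul, mul_zero, zero_add] at g
    have e : 2 * s * (1 / 2) = s := by ring
    rw [e] at g
    have g1 := mul_le_mul_of_nonneg_left h0 (by linarith [hs.2] : 0 ≤ 1 - 2 * s)
    have g2 := mul_le_mul_of_nonneg_left h1 (by linarith [hs.1] : 0 ≤ 2 * s)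
    linarith
  have a2 : ∫ s in (0:ℝ)..(1/2), s * (Real.exp u0 * Real.exp (-(d * s))) ≤
      Real.exp u0 * (1 / d ^ 2) := by
    have hder : ∀ s ∈ Set.uIcc (0:ℝ) (1/2), HasDerivAt
        (fun s : ℝ => Real.exp u0 * (-(s / d + 1 / d ^ 2) * Real.exp (-(d * s))))
        (s * (Real.exp u0 * Real.exp (-(d * s)))) s := by
      intro s _
      have g1 : HasDerivAt (fun s : ℝ => Real.exp (-(d * s))) (Real.exp (-(d * s)) * (-d)) s := by
        have := ((hasDerivAt_id s).const_mul d).neg.exp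
        simpa using this
      have g2 : HasDerivAt (fun s : ℝ => -(s / d + 1 / d ^ 2)) (-(1 / d)) s :=
        (((hasDerivAt_id s).div_const d).add_const (1 / d ^ 2)).neg
      have g := (g2.mul g1).const_mul (Real.exp u0)
      refine g.congr_deriv ?_
      field_simp
      ring
    rw [intervalIntegral.integral_eq_sub_of_hasDerivAt hder
      (Continuous.intervalIntegrable (by fun_prop) _ _)]
    have k1 : 0 ≤ Real.exp u0 * ((1/2 / d + 1 / d ^ 2) * Real.exp (-(d * (1/2)))) := by positivity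
    have e2 : Real.exp u0 * (-(1/2 / d + 1 / d ^ 2) * Real.exp (-(d * (1/2)))) -
        Real.exp u0 * (-(0 / d + 1 / d ^ 2) * Real.exp (-(d * 0))) =
        Real.exp u0 * (1 / d ^ 2) -
          Real.exp u0 * ((1/2 / d + 1 / d ^ 2) * Real.exp (-(d * (1/2)))) := by
      rw [mul_zero, neg_zero, Real.exp_zero]
      ring
    rw [e2]
    linarith
  -- the second half
  have b1 : ∫ s in (1/2:ℝ)..1, s * F s ≤
      ∫ s in (1/2:ℝ)..1, Real.exp u1 * Real.exp (-(σ * (1 - s))) := by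
    refine intervalIntegral.integral_mono_on (by norm_num) (hi _ _)
      (Continuous.intervalIntegrable (by fun_prop) _ _) fun s hs => ?_
    have hs0 : 0 ≤ s := by linarith [hs.1]
    have hs1 : s ∈ Set.Icc (0:ℝ) 1 := ⟨hs0, hs.2⟩
    have k : F s ≤ Real.exp u1 * Real.exp (-(σ * (1 - s))) := by
      refine (hFψ s hs1).trans ?_
      rw [← Real.exp_add]
      refine Real.exp_le_exp.2 ?_
      have g := hψ.2 I2 I1 (by linarith [hs.2] : 0 ≤ 2 - 2 * s)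
        (by linarith [hs.1] : 0 ≤ 2 * s - 1) (by ring)
      simp only [smul_eq_mul] at g
      have e : (2 - 2 * s) * (1 / 2) + (2 * s - 1) * 1 = s := by ring
      rw [e] at g
      have g1 := mul_le_mul_of_nonneg_left h2 (by linarith [hs.2] : 0 ≤ 2 - 2 * s)
      have g2 := mul_le_mul_of_nonneg_left h3 (by linarith [hs.1] : 0 ≤ 2 * s - 1)
      linarith
    have k2 : 0 ≤ Real.exp u1 * Real.exp (-(σ * (1 - s))) := by positivity
    calc s * F s ≤ s * (Real.exp u1 * Real.exp (-(σ * (1 - s)))) :=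
          mul_le_mul_of_nonneg_left k hs0
      _ ≤ 1 * (Real.exp u1 * Real.exp (-(σ * (1 - s)))) := mul_le_mul_of_nonneg_right hs.2 k2
      _ = _ := one_mul _
  have b2 : ∫ s in (1/2:ℝ)..1, Real.exp u1 * Real.exp (-(σ * (1 - s))) ≤
      Real.exp u1 * (1 / σ) := by
    have hder : ∀ s ∈ Set.uIcc (1/2:ℝ) 1, HasDerivAt
        (fun s : ℝ => Real.exp u1 * (1 / σ * Real.exp (-(σ * (1 - s)))))
        (Real.exp u1 * Real.exp (-(σ * (1 - s)))) s := by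
      intro s _
      have g1 : HasDerivAt (fun s : ℝ => Real.exp (-(σ * (1 - s))))
          (Real.exp (-(σ * (1 - s))) * σ) s := by
        have := (((hasDerivAt_id s).const_sub 1).const_mul σ).neg.exp
        simpa using this
      have g := (g1.const_mul (1 / σ)).const_mul (Real.exp u1)
      refine g.congr_deriv ?_
      field_simp
    rw [intervalIntegral.integral_eq_sub_of_hasDerivAt hder
      (Continuous.intervalIntegrable (by fun_prop) _ _)]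
    have k1 : 0 ≤ Real.exp u1 * (1 / σ * Real.exp (-(σ * (1 - 1/2)))) := by positivity
    have e2 : Real.exp (-(σ * (1 - 1))) = 1 := by simp
    rw [e2]
    linarith
  rw [← e1]
  linarith

/-- a range of the tail -/
structure PT (D E xm τ z0 ℓ Y pf Mb Lm α1 α2 a2 κ g0 G Gp ρ V Vp : ℝ) : Prop where
  hMb : 1 ≤ Mb
  hMτ : 2 * τ ^ 2 ≤ Mb
  hLm : 0 < Lm
  hα1 : 0 ≤ α1
  hα12 : α1 ≤ 1
  hα2 : 0 ≤ α2
  ha2 : 0 ≤ a2
  hαa : α2 ≤ a2 ^ 2
  hκ : 0 ≤ κ
  hκ' : ℓ ≤ κ * (1 - α2)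
  hg0 : (1 - α1) * g0 < 48
  hG0 : 0 ≤ G
  hGp0 : 0 ≤ Gp
  hG : G + (κ / 2 - 1 / z0 / 2) + Y / 2 ≤ g0
  hGp : Gp + (κ + (xm + 1 / 2) * (1 / z0) + D) ≤ g0
  g1 : Pd ((1 - α1) * g0) ≤ 1 + (1 - α1) * (Mb * (1 - α2 / 4) + 1 - a2 * (1 + xm) / 2 -
    (1 - α1) * xm / 2 - g0 / 2)
  hρ : 0 ≤ ρ ∧ (ρ = 0 ∨ ρ ≤ 1 - 1 / 2 * (a2 * τ))
  hV : Pd (-G) ≤ V
  hVp : Pd (-Gp) ≤ Vp
  he : (α1 * Y / 4 + G - 2 * (1 - ρ ^ 2)) ^ 2 ≤ (Lm / 4) ^ 2
  hd : 0 < Lm / 4 + (α1 * Y / 4 + G - 2 * (1 - ρ ^ 2))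
  hf : α1 * Y / 4 - G + 2 * ρ ^ 2 ≤ 0
  hs : 0 < Lm / 4 + (α1 * Y / 4 - G + 2 * ρ ^ 2)
  hsp : 0 < (Lm - 2 * α2 * xm) / 4 - Gp
  hF : pf * V + a2 * E + α2 * ((1 + xm) * (2 + xm)) *
      (1 / ((Lm - 2 * α2 * xm) / 4 + Gp) ^ 2 + Vp * (1 / ((Lm - 2 * α2 * xm) / 4 - Gp))) +
      ((1 - α1 / 4) + α2 * (2 * D) / Lm) * (pf *
        (Lm / (Lm / 4 + (α1 * Y / 4 + G - 2 * (1 - ρ ^ 2))) ^ 2 +
          27183 / 10000 * V * (Lm / (Lm / 4 + (α1 * Y / 4 - G + 2 * ρ ^ 2))))) < 1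

variable {M : ℕ} {a : ℝ} {ζ z : Fin (M + 1) → ℂ}

theorem ptail (h : Fr (M + 1) a ζ z) (hmax : ∀ k, ‖Fr.u a ζ k‖ ≤ ‖Fr.u a ζ 0‖)
    {D E xm τ z0 ℓ Y pf Mb Lm α1 α2 a2 κ g0 G Gp ρ V Vp : ℝ}
    (dc : DC D xm τ z0 ℓ Y pf)
    (b : PT D E xm τ z0 ℓ Y pf Mb Lm α1 α2 a2 κ g0 G Gp ρ V Vp)
    (hM : Mb ≤ M) (hL : Lm ≤ M * a ^ 2) (hα1 : α1 ≤ a ^ 2) (hα2 : a ^ 2 ≤ α2)
    (hD : -∑ k, Real.log ‖Fr.u a ζ k‖ ≤ D) (hE : ∏ k, ‖Fr.u a ζ k‖ ≤ E) : False := by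
  have ha0 := h.a0
  have ha1 := h.a1
  have hm : 0 < 1 - a ^ 2 := by nlinarith
  have hMb := b.hMb
  have hM0 : (0 : ℝ) < M := by linarith
  have hM1 : 0 < M := by exact_mod_cast hM0
  have hex := ex_nonneg h hmax
  have hxm := ex_le h hmax hD dc.hxm dc.hx
  obtain ⟨_, hy⟩ := yv_le h hmax hD
  have hz0 : 0 < z0 := by linarith [dc.hz]
  have hiz : 0 < 1 / z0 := by positivity
  have haa : a ≤ a2 := le_of_sq_le_sq (hα2.trans b.hαa) b.ha2
  have hD2 := dc.hD2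
  have hDn := dc.hD
  have hLm := b.hLm
  -- `gh`
  have hgh : g0 ≤ gh a ζ := by
    refine gh_ge h (B := Mb * (1 - α2 / 4) + 1 - a2 * (1 + xm) / 2 - (1 - α1) * xm / 2)
      (by linarith : 1 - a ^ 2 ≤ 1 - α1) ?_ ((exp_le_Pd b.hg0).trans b.g1)
    have k1 : a * (1 + ex a ζ) ≤ a2 * (1 + xm) :=
      mul_le_mul haa (by linarith) (by linarith) b.ha2
    have k2 : (1 - a ^ 2) * ex a ζ ≤ (1 - α1) * xm :=
      mul_le_mul (by linarith) hxm hex (by linarith [b.hα12])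
    have k3 : Mb * (1 - α2 / 4) ≤ M * (1 - a ^ 2 / 4) := by
      have j1 : Mb * (1 - α2 / 4) ≤ Mb * (1 - a ^ 2 / 4) :=
        mul_le_mul_of_nonneg_left (by linarith) (by linarith)
      exact j1.trans (mul_le_mul_of_nonneg_right hM (by nlinarith))
    linarith
  -- comparison of the constants
  have hℓm : ℓ / (1 - a ^ 2) ≤ κ := by
    rw [div_le_iff₀ hm]
    have := mul_le_mul_of_nonneg_left (by linarith : 1 - α2 ≤ 1 - a ^ 2) b.hκ
    exact b.hκ'.trans this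
  have hℓm2 : ℓ / (2 * (1 - a ^ 2)) ≤ κ / 2 := by
    have e : ℓ / (2 * (1 - a ^ 2)) = ℓ / (1 - a ^ 2) / 2 := by
      field_simp
    rw [e]
    linarith
  have haq2 : a / (1 + a) ≤ 1 / 2 := by
    rw [div_le_div_iff₀ (by linarith) (by norm_num)]
    linarith
  have hy2 : yv a ζ ≤ 2 * D := by
    have h1 : (4 * D / 3 - 2) * ex a ζ ≤ 0 := mul_nonpos_of_nonpos_of_nonneg (by linarith) hex
    linarith [sq_nonneg (ex a ζ)]
  have hY0 : 0 ≤ Y := by
    have h1 := dc.hY 0 le_rfl dc.hxm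
    norm_num at h1
    have h2 : z0⁻¹ = 1 / z0 := by rw [one_div]
    rw [h2] at h1
    linarith
  have hY : (1 + ex a ζ) ^ 2 * (1 / z0) + yv a ζ ≤ Y := by
    have h1 := dc.hY _ hex hxm
    linarith
  have hG' : G + (ℓ / (2 * (1 - a ^ 2)) - 1 / z0 / 2) + Y / 2 ≤ gh a ζ := by
    have := b.hG
    linarith
  -- the real part
  have hR : M * a ^ 2 / 2 ≤ a * (∑ k, Fr.ut a ζ k).re := by
    have h1 := logA0_le h hz0 dc.hℓ
    have h2 : a * (∑ k, Fr.ut a ζ k).re =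
        gv a ζ + M * a ^ 2 / 2 - (1 - a ^ 2) * yv a ζ / 2 := by unfold gv; ring
    have h3 : gh a ζ = gv a ζ + Real.log (A0 a ζ) / (1 - a ^ 2) := rfl
    have h4 : (ex a ζ + a / (1 + a)) * (1 / z0) ≤ (xm + 1 / 2) * (1 / z0) :=
      mul_le_mul_of_nonneg_right (by linarith) hiz.le
    have h5 : (1 - a ^ 2) * yv a ζ / 2 ≤ D := by
      have g1 : (1 - a ^ 2) * yv a ζ ≤ (1 - a ^ 2) * (2 * D) := mul_le_mul_of_nonneg_left hy2 hm.le
      have g2 : (1 - a ^ 2) * (2 * D) ≤ 1 * (2 * D) :=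
        mul_le_mul_of_nonneg_right (by linarith [sq_nonneg a]) (by linarith [dc.hD])
      linarith
    have h6 := b.hGp
    have h7 := b.hGp0
    rw [h2]
    linarith
  have hexpG : Real.exp (-G) ≤ V := exp_num (by linarith [b.hG0]) b.hV
  have hexpGp : Real.exp (-Gp) ≤ Vp := exp_num (by linarith [b.hGp0]) b.hVp
  have hV0 : 0 ≤ V := (Real.exp_nonneg _).trans hexpG
  have hVp0 : 0 ≤ Vp := (Real.exp_nonneg _).trans hexpGp
  have hpf0 : 0 ≤ pf := (Real.exp_nonneg _).trans dc.hpf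
  obtain ⟨L, hLd⟩ : ∃ L, L = M * a ^ 2 := ⟨_, rfl⟩
  obtain ⟨e0, he0⟩ : ∃ e0, e0 = α1 * Y / 4 + G - 2 * (1 - ρ ^ 2) := ⟨_, rfl⟩
  obtain ⟨f0, hf0⟩ : ∃ f0, f0 = α1 * Y / 4 - G + 2 * ρ ^ 2 := ⟨_, rfl⟩
  have hbd := b.hd
  have hbs := b.hs
  have hbe := b.he
  have hbf := b.hf
  have hF := b.hF
  rw [← he0] at hbd hbe hF
  rw [← hf0] at hbs hbf hF
  rw [← hLd] at hL
  have hd : 0 < L / 4 + e0 := by linarith
  have hs : 0 < L / 4 + f0 := by linarith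
  -- the pair integrals
  have hJ : ∀ k j, k ≠ j → ∫ s in (0:ℝ)..1, s * QP a ζ k j s ≤
      pf * (1 / (L / 4 + e0) ^ 2 + 27183 / 10000 * V * (1 / (L / 4 + f0))) := by
    intro k j hkj
    have hAe : L + α1 * Y ≤ M * a ^ 2 + a ^ 2 * Y := by
      have := mul_le_mul_of_nonneg_right hα1 hY0
      linarith
    obtain ⟨ψ, hFψ, hconv, hψ0, hψ⟩ := pair_psi h hkj dc.hτ
      (pair_le h hmax hD dc.hτ dc.hτD dc.hτ2 hkj) (by linarith [b.hMτ]) hz0 dc.hℓ hY0 hY haa hAe hG'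
    have p1 := hψ (1/2) ρ (by norm_num) (by norm_num) b.hρ
    have p2 := hψ 1 0 (by norm_num) le_rfl ⟨le_rfl, Or.inl rfl⟩
    have key := int_two (QP_cont k j) hFψ hconv (u0 := ℓ / 2) (u1 := ℓ / 2 - G + 1)
      (d := L / 4 + e0) (σ := L / 4 + f0) hd hs hψ0.le
      (by rw [he0]; linarith) (by rw [hf0]; linarith) (by linarith)
    refine key.trans ?_
    have q1 : Real.exp (ℓ / 2 - G + 1) ≤ pf * (27183 / 10000 * V) := by
      have e : ℓ / 2 - G + 1 = ℓ / 2 + (1 + -G) := by ring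
      rw [e, Real.exp_add, Real.exp_add]
      have q2 : Real.exp 1 ≤ 27183 / 10000 := by
        have := Real.exp_one_lt_d9
        linarith
      exact mul_le_mul dc.hpf (mul_le_mul q2 hexpG (Real.exp_nonneg _) (by norm_num))
        (by positivity) hpf0
    have q3 := mul_le_mul_of_nonneg_right dc.hpf (by positivity : 0 ≤ 1 / (L / 4 + e0) ^ 2)
    have q4 := mul_le_mul_of_nonneg_right q1 (by positivity : 0 ≤ 1 / (L / 4 + f0))
    linarith
  -- the peel integral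
  have ht : ‖Fr.u a ζ 0‖ = 1 + ex a ζ := by unfold ex; ring
  obtain ⟨B, hB⟩ : ∃ B, B = Lm - 2 * α2 * xm := ⟨_, rfl⟩
  have hsp := b.hsp
  rw [← hB] at hsp hF
  have hGp0 := b.hGp0
  have hI : ‖Fr.u a ζ 0‖ * (‖Fr.u a ζ 0‖ + 1) * ∫ s in (0:ℝ)..1, s * Q a ζ s ≤
      (1 + xm) * (2 + xm) * (1 / (B / 4 + Gp) ^ 2 + Vp * (1 / (B / 4 - Gp))) := by
    have key : ∫ s in (0:ℝ)..1, s * Q a ζ s ≤
        1 / (B / 4 + Gp) ^ 2 + Vp * (1 / (B / 4 - Gp)) := by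
      have hconv : ConvexOn ℝ (Set.Icc (0:ℝ) 1) fun s => -(B / 2) * (s * (1 - s)) - Gp * s := by
        have h1 := convexOn_quad (α := B / 2) (by linarith) (-(B / 2) - Gp) 0
          (Set.Icc (0:ℝ) 1) (convex_Icc (0:ℝ) 1)
        refine h1.congr fun s _ => ?_
        ring
      have h2 := int_two Q_cont (ψ := fun s => -(B / 2) * (s * (1 - s)) - Gp * s) (F := fun s => Q a ζ s)
        ?_ hconv (u0 := 0) (u1 := -Gp) (d := B / 4 + Gp) (σ := B / 4 - Gp) (by linarith) hsp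
        (by simp) (by norm_num; linarith) (by norm_num; linarith) (by norm_num)
      · refine h2.trans ?_
        rw [Real.exp_zero, one_mul]
        have := mul_le_mul_of_nonneg_right hexpGp (by positivity : 0 ≤ 1 / (B / 4 - Gp))
        linarith
      · intro s hs
        refine (prod_tail_le h s).trans (Real.exp_le_exp.2 ?_)
        have h3 := peel_le h hs.1 hs.2 hz0 dc.hℓ hy
        have hss : 0 ≤ s * (1 - s) := mul_nonneg hs.1 (by linarith [hs.2])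
        have k1 : s * (1 - s) * a ^ 2 * ex a ζ ≤ s * (1 - s) * (α2 * xm) := by
          rw [mul_assoc (s * (1 - s))]
          exact mul_le_mul_of_nonneg_left (mul_le_mul hα2 hxm hex b.hα2) hss
        have k2 : -(M * a ^ 2 / 2) * (s * (1 - s)) ≤ -(Lm / 2) * (s * (1 - s)) :=
          mul_le_mul_of_nonneg_right (by rw [← hLd]; linarith) hss
        have k3 : s * (D + (2 * D / 3 - 1) * ex a ζ - ex a ζ ^ 2 / 2) ≤ s * D := by
          refine mul_le_mul_of_nonneg_left ?_ hs.1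
          have h1 : (2 * D / 3 - 1) * ex a ζ ≤ 0 :=
            mul_nonpos_of_nonpos_of_nonneg (by linarith) hex
          linarith [sq_nonneg (ex a ζ)]
        have k4 : s * (ℓ / (1 - a ^ 2) + (ex a ζ + a / (1 + a)) * (1 / z0)) ≤
            s * (κ + (xm + 1 / 2) * (1 / z0)) := by
          refine mul_le_mul_of_nonneg_left ?_ hs.1
          have h4 : (ex a ζ + a / (1 + a)) * (1 / z0) ≤ (xm + 1 / 2) * (1 / z0) :=
            mul_le_mul_of_nonneg_right (by linarith) hiz.le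
          linarith
        have k5 : s * (Gp + (κ + (xm + 1 / 2) * (1 / z0) + D)) ≤ s * gh a ζ :=
          mul_le_mul_of_nonneg_left (b.hGp.trans hgh) hs.1
        rw [hB]
        linarith
    have hQI : 0 ≤ ∫ s in (0:ℝ)..1, s * Q a ζ s :=
      intervalIntegral.integral_nonneg zero_le_one fun s hs =>
        mul_nonneg hs.1 (Finset.prod_nonneg fun _ _ => norm_nonneg _)
    refine mul_le_mul ?_ key hQI (by have := dc.hxm; positivity)
    rw [ht]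
    have h2 : (1 + ex a ζ) * (1 + ex a ζ + 1) ≤ (1 + xm) * (2 + xm) :=
      mul_le_mul (by linarith) (by linarith) (by linarith) (by linarith)
    exact h2
  -- the first term
  have hT : ‖1 - (a : ℂ) * Fr.u a ζ 0‖ * ∏ k, ‖1 - (a : ℂ) * Fr.ut a ζ k‖ ≤ pf * V := by
    have h1 := prod_tail_le h 1
    have h2 := K_le h (s := 1) zero_le_one le_rfl hz0 dc.hℓ hY
    have h3 : ‖(1 : ℂ) - ((1 : ℝ) : ℂ) * a * Fr.u a ζ 0‖ *
        ∏ k, ‖(1 : ℂ) - ((1 : ℝ) : ℂ) * a * Fr.ut a ζ k‖ ≤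
        Real.exp (ℓ / 2) * Real.exp (-G) := by
      refine (mul_le_mul_of_nonneg_left h1 (norm_nonneg _)).trans ?_
      have e1 : -(M * a ^ 2 / 2) * (1 * (1 - 1)) - gv a ζ * 1 +
          yv a ζ * (1 * (1 - a ^ 2 * (1 - 1))) / 2 =
          -gv a ζ * 1 + yv a ζ * (1 * (1 - a ^ 2 * (1 - 1))) / 2 := by ring
      rw [e1]
      refine h2.trans ?_
      rw [← Real.exp_add]
      refine Real.exp_le_exp.2 ?_
      linarith
    have h4 : Real.exp (ℓ / 2) * Real.exp (-G) ≤ pf * V :=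
      mul_le_mul dc.hpf hexpG (Real.exp_nonneg _) hpf0
    refine le_trans (le_of_eq ?_) (h3.trans h4)
    simp
  -- the end
  obtain ⟨J, hJd⟩ : ∃ J, J = pf * (1 / (L / 4 + e0) ^ 2 + 27183 / 10000 * V * (1 / (L / 4 + f0))) :=
    ⟨_, rfl⟩
  rw [← hJd] at hJ
  have hJ0 : 0 ≤ J := by rw [hJd]; positivity
  have hfin := core h hM1 hmax hJ hI hT hJ0 hR
  obtain ⟨I, hId⟩ : ∃ I, I = (1 + xm) * (2 + xm) *
    (1 / (B / 4 + Gp) ^ 2 + Vp * (1 / (B / 4 - Gp))) := ⟨_, rfl⟩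
  rw [← hId] at hfin
  have hI0 : 0 ≤ I := by rw [hId]; have := dc.hxm; positivity
  have f1 : a * ∏ k, ‖Fr.u a ζ k‖ ≤ a2 * E :=
    mul_le_mul haa hE (Finset.prod_nonneg fun _ _ => norm_nonneg _) b.ha2
  have f2 : a ^ 2 * I ≤ α2 * I := mul_le_mul_of_nonneg_right hα2 hI0
  have hL0 : 0 < L := by linarith
  have f3 : M * a ^ 2 * (1 - a ^ 2 / 4) + a ^ 2 * yv a ζ ≤
      L * ((1 - α1 / 4) + α2 * (2 * D) / Lm) := by
    have k1 : M * a ^ 2 * (1 - a ^ 2 / 4) ≤ L * (1 - α1 / 4) := by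
      rw [← hLd]
      exact mul_le_mul_of_nonneg_left (by linarith) hL0.le
    have k2 : a ^ 2 * yv a ζ ≤ a ^ 2 * (2 * D) := mul_le_mul_of_nonneg_left hy2 (sq_nonneg a)
    have k3 : a ^ 2 * (2 * D) ≤ α2 * (2 * D) :=
      mul_le_mul_of_nonneg_right hα2 (by linarith [dc.hD])
    have k4 : α2 * (2 * D) ≤ L * (α2 * (2 * D) / Lm) := by
      have j1 : 0 ≤ α2 * (2 * D) / Lm :=
        div_nonneg (mul_nonneg b.hα2 (by linarith)) hLm.le
      have j2 := mul_le_mul_of_nonneg_right hL j1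
      have j3 : Lm * (α2 * (2 * D) / Lm) = α2 * (2 * D) := by field_simp
      linarith
    linarith
  have f4 := mul_le_mul_of_nonneg_right f3 hJ0
  have f5 : L * (1 / (L / 4 + e0) ^ 2) ≤ Lm / (Lm / 4 + e0) ^ 2 := by
    rw [mul_one_div, div_le_div_iff₀ (pow_pos hd 2) (pow_pos hbd 2)]
    have k1 : 0 ≤ (L - Lm) * (L * Lm / 16 - e0 ^ 2) := by
      refine mul_nonneg (by linarith) ?_
      have : Lm * Lm ≤ L * Lm := mul_le_mul_of_nonneg_right hL hLm.le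
      have e : (Lm / 4) ^ 2 = Lm * Lm / 16 := by ring
      rw [e] at hbe
      linarith
    have e : Lm * (L / 4 + e0) ^ 2 - L * (Lm / 4 + e0) ^ 2 =
        (L - Lm) * (L * Lm / 16 - e0 ^ 2) := by ring
    linarith
  have f6 : L * (1 / (L / 4 + f0)) ≤ Lm / (Lm / 4 + f0) := by
    rw [mul_one_div, div_le_div_iff₀ hs hbs]
    have k1 : (L - Lm) * f0 ≤ 0 := mul_nonpos_of_nonneg_of_nonpos (by linarith) hbf
    linarith
  have f7 : L * J ≤ pf * (Lm / (Lm / 4 + e0) ^ 2 +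
      27183 / 10000 * V * (Lm / (Lm / 4 + f0))) := by
    have e : L * J = pf * (L * (1 / (L / 4 + e0) ^ 2) +
      27183 / 10000 * V * (L * (1 / (L / 4 + f0)))) := by rw [hJd]; ring
    rw [e]
    refine mul_le_mul_of_nonneg_left ?_ hpf0
    have := mul_le_mul_of_nonneg_left f6 (by positivity : 0 ≤ 27183 / 10000 * V)
    linarith
  have f8 : 0 ≤ (1 - α1 / 4) + α2 * (2 * D) / Lm := by
    have j1 : 0 ≤ α2 * (2 * D) / Lm :=
      div_nonneg (mul_nonneg b.hα2 (by linarith)) hLm.le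
    have := b.hα12
    linarith
  have f9 := mul_le_mul_of_nonneg_left f7 f8
  rw [mul_assoc α2, ← hId] at hF
  have e10 : L * ((1 - α1 / 4) + α2 * (2 * D) / Lm) * J =
      ((1 - α1 / 4) + α2 * (2 * D) / Lm) * (L * J) := by ring
  rw [e10] at f4
  linarith

end Pool.Agent.Lib.MP_172a45_an.H64.P
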