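import Pool.Agent.Lib.MP_172a45_an.H64.Grow
import Pool.Agent.Lib.MP_172a45_an.F.Red

set_option autoImplicit false

/-!
# The products over all indices but two
-/

namespace Pool.Agent.Lib.MP_172a45_an.H64

open Finset F

/-- the chord of a power, two endpoints (squared form) -/
theorem chord_pow2 {x y A B l : ℝ} {n : ℕ} (hn : 2 ≤ n) (hx : 0 ≤ x) (hy : 0 ≤ y) (hA : 0 ≤ A)
    (hB : 0 ≤ B) (hxA : x ^ n ≤ A ^ 2) (hyB : y ^ n ≤ B ^ 2)
    (hl : 0 ≤ l) (hl1 : l ≤ 1) : ((1 - l) * x + l * y) ^ n ≤ ((1 - l) * A + l * B) ^ 2 := by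
  have hp : (1:ℝ) ≤ (n : ℝ) / 2 := by
    have : (2:ℝ) ≤ n := by exact_mod_cast hn
    linarith
  have h1 := (convexOn_rpow hp).2 (Set.mem_Ici.2 hx) (Set.mem_Ici.2 hy)
    (by linarith : 0 ≤ 1 - l) hl (by ring)
  simp only [smul_eq_mul] at h1
  have key : ∀ {u V : ℝ}, 0 ≤ u → 0 ≤ V → u ^ n ≤ V ^ 2 → u ^ ((n : ℝ) / 2) ≤ V := by
    intro u V hu hV huV
    refine le_of_sq_le_sq ?_ hV
    rw [← Real.rpow_natCast (u ^ ((n : ℝ) / 2)) 2, ← Real.rpow_mul hu]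
    have : (n : ℝ) / 2 * ((2:ℕ) : ℝ) = n := by push_cast; ring
    rw [this, Real.rpow_natCast]
    exact huV
  have h2 := key hx hA hxA
  have h2' := key hy hB hyB
  have hl' : 0 ≤ 1 - l := by linarith
  have h3 : ((1 - l) * x + l * y) ^ ((n : ℝ) / 2) ≤ (1 - l) * A + l * B := by
    refine h1.trans ?_
    have := mul_le_mul_of_nonneg_left h2 hl'
    have := mul_le_mul_of_nonneg_left h2' hl
    linarith
  have h0 : 0 ≤ (1 - l) * x + l * y := by positivity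
  have h4 := pow_le_pow_left₀ (Real.rpow_nonneg h0 _) h3 2
  rw [← Real.rpow_natCast (((1 - l) * x + l * y) ^ ((n : ℝ) / 2)) 2, ← Real.rpow_mul h0] at h4
  have : (n : ℝ) / 2 * ((2:ℕ) : ℝ) = n := by push_cast; ring
  rw [this, Real.rpow_natCast] at h4
  exact h4

variable {N : ℕ} {a : ℝ} {ζ z : Fin N → ℂ}

/-- the product over all indices but `k, j` -/
noncomputable def PP (a : ℝ) (ζ : Fin N → ℂ) (k j : Fin N) (s : ℝ) : ℝ :=
  ∏ l ∈ (univ.erase k).erase j, ‖(1 : ℂ) - (s : ℂ) * a * Fr.u a ζ l‖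

/-- the mean square over all indices but `k, j` -/
noncomputable def CC (a : ℝ) (ζ : Fin N → ℂ) (k j : Fin N) (s : ℝ) : ℝ :=
  (∑ l ∈ (univ.erase k).erase j, ‖(1 : ℂ) - (s : ℂ) * a * Fr.u a ζ l‖ ^ 2) / ((N - 2 : ℕ) : ℝ)

theorem PP_nonneg (k j : Fin N) (s : ℝ) : 0 ≤ PP a ζ k j s :=
  Finset.prod_nonneg fun _ _ => norm_nonneg _

theorem PP_cont (k j : Fin N) : Continuous fun s => PP a ζ k j s := by
  unfold PP
  fun_prop

theorem CC_nonneg (k j : Fin N) (s : ℝ) : 0 ≤ CC a ζ k j s :=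
  div_nonneg (Finset.sum_nonneg fun _ _ => sq_nonneg _) (Nat.cast_nonneg _)

theorem card_erase2 {k j : Fin N} (hkj : k ≠ j) :
    #((univ.erase k).erase j : Finset (Fin N)) = N - 2 := by
  rw [Finset.card_erase_of_mem (Finset.mem_erase.2 ⟨hkj.symm, Finset.mem_univ j⟩),
    Finset.card_erase_of_mem (Finset.mem_univ k), Finset.card_univ, Fintype.card_fin]
  omega

theorem PP_sq_le (hN : 3 ≤ N) {k j : Fin N} (hkj : k ≠ j) (s : ℝ) :
    PP a ζ k j s ^ 2 ≤ CC a ζ k j s ^ (N - 2) := by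
  have hne : ((univ.erase k).erase j : Finset (Fin N)).Nonempty := by
    rw [← Finset.card_pos, card_erase2 hkj]
    omega
  have h1 := prod_le_sqrt_pow ((univ.erase k).erase j : Finset (Fin N)) hne
    (fun k => ‖(1 : ℂ) - (s : ℂ) * a * Fr.u a ζ k‖) (fun _ _ => norm_nonneg _)
  rw [card_erase2 hkj] at h1
  have h2 := pow_le_pow_left₀ (PP_nonneg k j s) h1 2
  refine h2.trans (le_of_eq ?_)
  change (√(CC a ζ k j s) ^ (N - 2)) ^ 2 = CC a ζ k j s ^ (N - 2)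
  rw [← pow_mul, mul_comm (N - 2) 2, pow_mul, Real.sq_sqrt (CC_nonneg k j s)]

/-- `CC` is a convex quadratic with value `1` at `0` -/
theorem CC_convex (k j : Fin N) (x y l : ℝ) (hl : 0 ≤ l) (hl1 : l ≤ 1) :
    CC a ζ k j ((1 - l) * x + l * y) ≤ (1 - l) * CC a ζ k j x + l * CC a ζ k j y := by
  unfold CC
  rw [mul_div_assoc', mul_div_assoc', ← add_div, Finset.mul_sum, Finset.mul_sum,
    ← Finset.sum_add_distrib]
  refine div_le_div_of_nonneg_right (Finset.sum_le_sum fun i _ => ?_) (Nat.cast_nonneg _)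
  simp only [← Complex.normSq_eq_norm_sq, Complex.normSq_apply, Complex.sub_re, Complex.sub_im,
    Complex.one_re, Complex.one_im, Complex.mul_re, Complex.mul_im, Complex.ofReal_re,
    Complex.ofReal_im]
  set p := (Fr.u a ζ i).re
  set q := (Fr.u a ζ i).im
  have h : 0 ≤ l * (1 - l) * (x - y) ^ 2 * (a ^ 2 * (p ^ 2 + q ^ 2)) := by
    have : 0 ≤ 1 - l := by linarith
    positivity
  nlinarith

theorem CC_zero (hN : 3 ≤ N) {k j : Fin N} (hkj : k ≠ j) : CC a ζ k j 0 = 1 := by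
  unfold CC
  simp only [Complex.ofReal_zero, zero_mul, sub_zero, norm_one, one_pow]
  rw [Finset.sum_const, card_erase2 hkj, nsmul_eq_mul, mul_one, div_self]
  have : 0 < N - 2 := by omega
  exact_mod_cast this.ne'

theorem cast_sub_two (hN : 3 ≤ N) : ((N - 2 : ℕ) : ℝ) = (N : ℝ) - 2 := by
  rw [Nat.cast_sub (by omega)]; norm_num

/-- a pair of norms -/
theorem pair_le (_h : Fr N a ζ z) {w τ : ℝ} (hW : W a ζ ≤ w) (hτ : 1 ≤ τ)
    (hwτ : w ≤ 2 * (τ - 1) ^ 2) {k j : Fin N} (hkj : k ≠ j) :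
    ‖Fr.u a ζ k‖ + ‖Fr.u a ζ j‖ ≤ 2 * τ := by
  have h1 : (‖Fr.u a ζ k‖ - 1) ^ 2 + (‖Fr.u a ζ j‖ - 1) ^ 2 ≤ W a ζ := by
    unfold W
    rw [← Finset.sum_pair (f := fun k => (‖Fr.u a ζ k‖ - 1) ^ 2) hkj]
    exact Finset.sum_le_sum_of_subset_of_nonneg (Finset.subset_univ _) fun _ _ _ => sq_nonneg _
  set x := ‖Fr.u a ζ k‖ - 1 with hx
  set y := ‖Fr.u a ζ j‖ - 1 with hy
  have h2 : (x + y) ^ 2 ≤ (2 * (τ - 1)) ^ 2 := by nlinarith [sq_nonneg (x - y)]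
  have h3 : x + y ≤ 2 * (τ - 1) := le_of_sq_le_sq h2 (by linarith)
  linarith

/-- the pointwise bound of the mean square -/
theorem CC_le (h : Fr N a ζ z) (hN : 3 ≤ N) {τ ρ s A η : ℝ} {k j : Fin N} (hkj : k ≠ j)
    (hτ : ‖Fr.u a ζ k‖ + ‖Fr.u a ζ j‖ ≤ 2 * τ) (hs : 0 ≤ s) (hs1 : s ≤ 1)
    (hA : A ≤ N * a ^ 2) (hη : η ≤ 2 * G a ζ - W a ζ) (hρ : 0 ≤ ρ)
    (hρ' : ρ = 0 ∨ ρ ≤ 1 - s * a * τ) :
    0 ≤ 1 + (2 - A * s * (1 - s) - η * s - 2 * ρ ^ 2) / ((N - 2 : ℕ) : ℝ) ∧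
    CC a ζ k j s ≤ 1 + (2 - A * s * (1 - s) - η * s - 2 * ρ ^ 2) / ((N - 2 : ℕ) : ℝ) := by
  have ha0 := h.a0
  have ha1 := h.a1
  have hN0 : (0 : ℝ) < (N : ℝ) - 2 := by
    have : (3:ℝ) ≤ N := by exact_mod_cast hN
    linarith
  have key : CC a ζ k j s ≤ 1 + (2 - A * s * (1 - s) - η * s - 2 * ρ ^ 2) / ((N - 2 : ℕ) : ℝ) := by
    unfold CC
    rw [cast_sub_two hN, div_le_iff₀ hN0, add_mul, div_mul_cancel₀ _ hN0.ne', one_mul]
    have e1 : ∑ l ∈ (univ.erase k).erase j, ‖(1 : ℂ) - (s : ℂ) * a * Fr.u a ζ l‖ ^ 2 =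
        ∑ l, ‖(1 : ℂ) - (s : ℂ) * a * Fr.u a ζ l‖ ^ 2 -
          ‖(1 : ℂ) - (s : ℂ) * a * Fr.u a ζ k‖ ^ 2 - ‖(1 : ℂ) - (s : ℂ) * a * Fr.u a ζ j‖ ^ 2 := by
      have e2 := Finset.add_sum_erase univ
        (fun l => ‖(1 : ℂ) - (s : ℂ) * a * Fr.u a ζ l‖ ^ 2) (Finset.mem_univ k)
      have e3 := Finset.add_sum_erase (univ.erase k)
        (fun l => ‖(1 : ℂ) - (s : ℂ) * a * Fr.u a ζ l‖ ^ 2)
        (Finset.mem_erase.2 ⟨hkj.symm, Finset.mem_univ j⟩)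
      linarith
    have e4 : ∑ l, ‖(1 : ℂ) - (s : ℂ) * a * Fr.u a ζ l‖ ^ 2 =
        N - 2 * (s * a) * (∑ k, Fr.u a ζ k).re + (s * a) ^ 2 * (N + W a ζ) := by
      rw [← sum_sq h, ← sum_norm_one_sub_sq (Fr.u a ζ) (s * a)]
      refine Finset.sum_congr rfl fun l _ => ?_
      push_cast
      rfl
    rw [e1, e4]
    -- the two removed factors
    have hnk : ∀ i, 1 - s * a * ‖Fr.u a ζ i‖ ≤ ‖(1 : ℂ) - (s : ℂ) * a * Fr.u a ζ i‖ := fun i => by
      have g1 := norm_sub_norm_le (1 : ℂ) ((s : ℂ) * a * Fr.u a ζ i)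
      rw [norm_one, norm_mul, norm_mul, Complex.norm_real, Complex.norm_real,
        Real.norm_of_nonneg hs, Real.norm_of_nonneg ha0.le] at g1
      exact g1
    have h5 : 2 * ρ ^ 2 ≤ ‖(1 : ℂ) - (s : ℂ) * a * Fr.u a ζ k‖ ^ 2 +
        ‖(1 : ℂ) - (s : ℂ) * a * Fr.u a ζ j‖ ^ 2 := by
      rcases hρ' with h0 | h0
      · rw [h0]
        nlinarith [sq_nonneg ‖(1 : ℂ) - (s : ℂ) * a * Fr.u a ζ k‖,
          sq_nonneg ‖(1 : ℂ) - (s : ℂ) * a * Fr.u a ζ j‖]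
      · have g1 := hnk k
        have g2 := hnk j
        have g3 : s * a * (‖Fr.u a ζ k‖ + ‖Fr.u a ζ j‖) ≤ s * a * (2 * τ) :=
          mul_le_mul_of_nonneg_left hτ (by positivity)
        set x := ‖(1 : ℂ) - (s : ℂ) * a * Fr.u a ζ k‖
        set y := ‖(1 : ℂ) - (s : ℂ) * a * Fr.u a ζ j‖
        have g4 : 2 * ρ ≤ x + y := by linarith
        have g5 : (2 * ρ) ^ 2 ≤ (x + y) ^ 2 := pow_le_pow_left₀ (by linarith) g4 2
        nlinarith [sq_nonneg (x - y)]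
    -- the sum
    have h6 : a * (∑ k, Fr.u a ζ k).re =
        G a ζ + N * a ^ 2 / 2 - (1 - a ^ 2) * W a ζ / 2 := by unfold G; ring
    have hs2 : 0 ≤ s * (1 - s) := mul_nonneg hs (by linarith)
    have h7 : A * (s * (1 - s)) ≤ N * a ^ 2 * (s * (1 - s)) := mul_le_mul_of_nonneg_right hA hs2
    have h8 : η * s ≤ (2 * G a ζ - W a ζ) * s := mul_le_mul_of_nonneg_right hη hs
    have h9 : 0 ≤ W a ζ * (a ^ 2 * (s * (1 - s))) := mul_nonneg W_nonneg (by positivity)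
    have h10 : 2 * (s * a) * (∑ k, Fr.u a ζ k).re =
        2 * s * (G a ζ + N * a ^ 2 / 2 - (1 - a ^ 2) * W a ζ / 2) := by
      rw [← h6]; ring
    rw [h10]
    nlinarith
  exact ⟨(CC_nonneg k j s).trans key, key⟩

/-- the bound of a product at a node -/
theorem CC_pow_le (h : Fr N a ζ z) (hN : 3 ≤ N) {N2 : ℕ} (hN2 : N ≤ N2) {τ ρ s A η V : ℝ}
    {k j : Fin N} (hkj : k ≠ j)
    (hτ : ‖Fr.u a ζ k‖ + ‖Fr.u a ζ j‖ ≤ 2 * τ) (hs : 0 ≤ s) (hs1 : s ≤ 1)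
    (hA : A ≤ N * a ^ 2) (hη : η ≤ 2 * G a ζ - W a ζ) (hρ : 0 ≤ ρ)
    (hρ' : ρ = 0 ∨ ρ ≤ 1 - s * a * τ)
    (hV : (1 + (2 - A * s * (1 - s) - η * s - 2 * ρ ^ 2) / ((N2 - 2 : ℕ) : ℝ)) ^ (N2 - 2) ≤
      V ^ 2) : CC a ζ k j s ^ (N - 2) ≤ V ^ 2 := by
  obtain ⟨h0, h1⟩ := CC_le h hN hkj hτ hs hs1 hA hη hρ hρ'
  refine (pow_le_pow_left₀ (CC_nonneg k j s) h1 _).trans ?_
  exact (one_add_div_pow_mono (by omega) (by omega) h0).trans hV

/-- the integral over a piece -/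
theorem int_piece (hN : 4 ≤ N) {k j : Fin N} (hkj : k ≠ j) {x y A B : ℝ}
    (hx : 0 ≤ x) (hxy : x < y) (hA : 0 ≤ A) (hB : 0 ≤ B)
    (hCx : CC a ζ k j x ^ (N - 2) ≤ A ^ 2) (hCy : CC a ζ k j y ^ (N - 2) ≤ B ^ 2) :
    ∫ s in x..y, s * PP a ζ k j s ≤
      (y - x) * ((2 * x + y) * A + (x + 2 * y) * B) / 6 := by
  have hd : 0 < y - x := by linarith
  have h1 : ∀ s ∈ Set.Icc x y, s * PP a ζ k j s ≤
      s * (A + (s - x) / (y - x) * (B - A)) := by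
    intro s hs
    refine mul_le_mul_of_nonneg_left ?_ (hx.trans hs.1)
    set l := (s - x) / (y - x) with hl
    have hl0 : 0 ≤ l := div_nonneg (by linarith [hs.1]) hd.le
    have hl1 : l ≤ 1 := by
      rw [hl, div_le_one hd]
      linarith [hs.2]
    have e : s = (1 - l) * x + l * y := by
      rw [hl]
      field_simp
      ring
    have h2 := CC_convex (a := a) (ζ := ζ) k j x y l hl0 hl1
    rw [← e] at h2
    have h3 := PP_sq_le (a := a) (ζ := ζ) (by omega) hkj s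
    have h4 := pow_le_pow_left₀ (CC_nonneg k j s) h2 (N - 2)
    have h5 := chord_pow2 (n := N - 2) (by omega) (CC_nonneg k j x) (CC_nonneg k j y) hA hB hCx hCy
      hl0 hl1
    have h6 : PP a ζ k j s ^ 2 ≤ ((1 - l) * A + l * B) ^ 2 := h3.trans (h4.trans h5)
    have h7 : 0 ≤ (1 - l) * A + l * B := by
      have : 0 ≤ 1 - l := by linarith
      positivity
    have h8 := le_of_sq_le_sq h6 h7
    linarith
  have h2 : ∫ s in x..y, s * PP a ζ k j s ≤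
      ∫ s in x..y, s * (A + (s - x) / (y - x) * (B - A)) := by
    refine intervalIntegral.integral_mono_on hxy.le ?_ ?_ h1
    · exact (continuous_id.mul (PP_cont k j)).intervalIntegrable _ _
    · refine Continuous.intervalIntegrable ?_ _ _
      fun_prop
  refine h2.trans (le_of_eq ?_)
  have h3 : ∀ s ∈ Set.uIcc x y, HasDerivAt (fun s : ℝ => A * s ^ 2 / 2 +
      (B - A) / (y - x) * (s ^ 3 / 3 - x * s ^ 2 / 2)) (s * (A + (s - x) / (y - x) * (B - A))) s := by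
    intro s _
    have g2 : HasDerivAt (fun s : ℝ => s ^ 2) (2 * s) s := by
      simpa using hasDerivAt_pow 2 s
    have g3 : HasDerivAt (fun s : ℝ => s ^ 3) (3 * s ^ 2) s := by
      simpa using hasDerivAt_pow 3 s
    have g4 := ((g2.const_mul A).div_const 2).add
      (((g3.div_const 3).sub ((g2.const_mul x).div_const 2)).const_mul ((B - A) / (y - x)))
    refine g4.congr_deriv ?_
    ring
  rw [intervalIntegral.integral_eq_sub_of_hasDerivAt h3]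
  · field_simp
    ring
  · refine Continuous.intervalIntegrable ?_ _ _
    fun_prop

end Pool.Agent.Lib.MP_172a45_an.H64
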