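import Pool.Agent.Lib.MP_172a45_an.H64.P4

set_option autoImplicit false

/-!
# Boxes (generated), deficit in `[(3/10), (1/2)]`, `M ≥ 99`
-/

namespace Pool.Agent.Lib.MP_172a45_an.H64.P

open Finset F

theorem q1_dc : DC (1/2) (347/250) (17/10) (13/10) (319/10000) (363/200) (10161/10000) := by
  refine ⟨by norm_num, by norm_num, by norm_num, by norm_num, by norm_num, by norm_num,
    by norm_num, by norm_num, ?_, by norm_num, fun x _ _ => Y_cert (by norm_num) (by norm_num) x,
    exp_num (by norm_num) (by norm_num [Pd])⟩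
  have := log_num (z0 := (13/10)) (l := (1313/5000)) (by norm_num) (by norm_num) (by norm_num)
  norm_num at this ⊢
  linarith

theorem q1_rc0 : RC (1/2) (347/250) (13/10) (261/1000) (2527/10000) 0 (8091/1000) (7839/1000) (7513/1000) (1669/250) (2897/500) (1311/250) := by
  refine ⟨by norm_num, ?_, ?_, ?_, ?_, ?_⟩
  · intro x hx hxm
    exact R_cert (xm := (347/250)) (q := (347/250)) (ξ := (347/250)) (V := (9689/10000)) (by norm_num) (by norm_num)
      (by norm_num) (by norm_num) (by norm_num [Pd]) (by norm_num) x hx hxm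
  · intro x hx hxm
    exact R_cert (xm := (347/250)) (q := (347/250)) (ξ := (347/250)) (V := (1857/2000)) (by norm_num) (by norm_num)
      (by norm_num) (by norm_num) (by norm_num [Pd]) (by norm_num) x hx hxm
  · intro x hx hxm
    exact R_cert (xm := (347/250)) (q := (347/250)) (ξ := (347/250)) (V := (8251/10000)) (by norm_num) (by norm_num)
      (by norm_num) (by norm_num) (by norm_num [Pd]) (by norm_num) x hx hxm
  · intro x hx hxm
    exact R_cert (xm := (347/250)) (q := (1191/1000)) (ξ := (11921/10000)) (V := (4143/5000)) (by norm_num) (by norm_num)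
      (by norm_num) (by norm_num) (by norm_num [Pd]) (by norm_num) x hx hxm
  · intro x hx hxm
    exact R_cert (xm := (347/250)) (q := (119/125)) (ξ := (596/625)) (V := (9099/10000)) (by norm_num) (by norm_num)
      (by norm_num) (by norm_num) (by norm_num [Pd]) (by norm_num) x hx hxm

theorem q1_rc1 : RC (1/2) (347/250) (13/10) (371/1000) (3233/5000) 0 (8091/1000) (4219/500) (1711/200) (8087/1000) (861/125) (5853/1000) := by
  refine ⟨by norm_num, ?_, ?_, ?_, ?_, ?_⟩
  · intro x hx hxm
    exact R_cert (xm := (347/250)) (q := (347/250)) (ξ := (347/250)) (V := (10429/10000)) (by norm_num) (by norm_num)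
      (by norm_num) (by norm_num) (by norm_num [Pd]) (by norm_num) x hx hxm
  · intro x hx hxm
    exact R_cert (xm := (347/250)) (q := (347/250)) (ξ := (347/250)) (V := (5287/5000)) (by norm_num) (by norm_num)
      (by norm_num) (by norm_num) (by norm_num [Pd]) (by norm_num) x hx hxm
  · intro x hx hxm
    exact R_cert (xm := (347/250)) (q := (347/250)) (ξ := (347/250)) (V := (1999/2000)) (by norm_num) (by norm_num)
      (by norm_num) (by norm_num) (by norm_num [Pd]) (by norm_num) x hx hxm
  · intro x hx hxm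
    exact R_cert (xm := (347/250)) (q := (631/500)) (ξ := (789/625)) (V := (1867/2000)) (by norm_num) (by norm_num)
      (by norm_num) (by norm_num) (by norm_num [Pd]) (by norm_num) x hx hxm
  · intro x hx hxm
    exact R_cert (xm := (347/250)) (q := (119/125)) (ξ := (596/625)) (V := (10157/10000)) (by norm_num) (by norm_num)
      (by norm_num) (by norm_num) (by norm_num [Pd]) (by norm_num) x hx hxm

theorem q1_0 : PB (1/2) (7409/10000) (347/250) (17/10) (13/10) (319/10000) (363/200) (10161/10000) (261/1000) (2527/10000) 0 (8091/1000) (7839/1000) (7513/1000) (1669/250) (2897/500) (1311/250) 99 99 99 99 0 (33/4) 0 (417/5000) (361/1250) 0 (2279/500) (4017/1000) (469/500) (877/1000) (377/500) (631/1000) (509/1000) (141/125) (63/50) (1541/1000) (1829/1000) (1053/500) (6053/10000) (229/625) (671/5000) (123/2500) (181/10000) := by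
  constructor <;> norm_num [Pd]

theorem q1_1 : PB (1/2) (7409/10000) (347/250) (17/10) (13/10) (319/10000) (363/200) (10161/10000) (261/1000) (2527/10000) 0 (8091/1000) (7839/1000) (7513/1000) (1669/250) (2897/500) (1311/250) 99 101 108 143 (33/4) (309/20) 0 (1561/10000) (3951/10000) (33/4) (4849/1000) (4307/1000) (229/250) (104/125) (83/125) (62/125) (41/125) (47/40) (1361/1000) (219/125) (1067/500) (123/50) (1859/5000) (1573/10000) (83/2000) (183/10000) (27/2000) := by
  constructor <;> norm_num [Pd]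

theorem q1_2 : PB (1/2) (7409/10000) (347/250) (17/10) (13/10) (319/10000) (363/200) (10161/10000) (261/1000) (2527/10000) 0 (8091/1000) (7839/1000) (7513/1000) (1669/250) (2897/500) (1311/250) 99 106 122 174 (309/20) (2427/100) 0 (613/2500) (619/1250) (309/20) (637/125) (4551/1000) (447/500) (789/1000) (579/1000) (46/125) (79/500) (1223/1000) (1459/1000) (1949/1000) (239/100) (67/25) (2433/10000) (377/5000) (3/200) (39/5000) (53/5000) := by
  constructor <;> norm_num [Pd]

theorem q1_3 : PB (1/2) (7409/10000) (347/250) (17/10) (13/10) (319/10000) (363/200) (10161/10000) (261/1000) (2527/10000) 0 (8091/1000) (7839/1000) (7513/1000) (1669/250) (2897/500) (1311/250) 99 117 148 231 (2427/100) 25 0 (1263/5000) (2513/5000) (2427/100) (1079/200) (97/20) (893/1000) (393/500) (143/250) (359/1000) (29/200) (49/40) (733/500) (393/200) (1203/500) (2691/1000) (1447/10000) (153/5000) (43/10000) (7/2500) (79/10000) := by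
  constructor <;> norm_num [Pd]

theorem q1_4 : PB (1/2) (7409/10000) (347/250) (17/10) (13/10) (319/10000) (363/200) (10161/10000) (371/1000) (3233/5000) 0 (8091/1000) (4219/500) (1711/200) (8087/1000) (861/125) (5853/1000) 99 117 148 231 25 (1909/50) 0 (3857/10000) (6211/10000) 25 (2691/500) (4833/1000) (217/250) (92/125) (59/125) (26/125) 0 (32/25) (1583/1000) (437/200) (2629/1000) (11/4) (1393/10000) (287/10000) (1/250) (13/5000) (1/125) := by
  constructor <;> norm_num [Pd]

theorem q1_5 : PB (1/2) (7409/10000) (347/250) (17/10) (13/10) (319/10000) (363/200) (10161/10000) (371/1000) (3233/5000) 0 (8091/1000) (4219/500) (1711/200) (8087/1000) (861/125) (5853/1000) 99 135 189 322 (1909/50) (2807/50) 0 (5671/10000) (7531/10000) (1909/50) (2849/500) (2569/500) (839/1000) (679/1000) (359/1000) (39/1000) 0 (269/200) (1717/1000) (1203/500) (1373/500) (11/4) (653/10000) (39/5000) (7/10000) (3/5000) (59/10000) := by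
  constructor <;> norm_num [Pd]

theorem q1_6 : PB (1/2) (7409/10000) (347/250) (17/10) (13/10) (319/10000) (363/200) (10161/10000) (371/1000) (3233/5000) 0 (8091/1000) (4219/500) (1711/200) (8087/1000) (861/125) (5853/1000) 99 162 251 453 (2807/50) 64 0 (1293/2000) (8041/10000) (2807/50) (3033/500) (5497/1000) (829/1000) (329/500) (79/250) 0 0 (171/125) (883/500) (2479/1000) (11/4) (11/4) (117/5000) (7/5000) (1/10000) (1/10000) (21/5000) := by
  constructor <;> norm_num [Pd]

theorem q1_all {M : ℕ} {a : ℝ} {ζ z : Fin (M + 1) → ℂ} (h : Fr (M + 1) a ζ z)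
    (hmax : ∀ k, ‖Fr.u a ζ k‖ ≤ ‖Fr.u a ζ 0‖) (hM : (99 : ℝ) ≤ M)
    (hD : -∑ k, Real.log ‖Fr.u a ζ k‖ ≤ (1/2)) (hD1 : (3/10) ≤ -∑ k, Real.log ‖Fr.u a ζ k‖)
    (hA : M * a ^ 2 ≤ 64) : False := by
  have hE : ∏ k, ‖Fr.u a ζ k‖ ≤ (7409/10000) := by
    rw [prod_eq_exp h]
    exact (Real.exp_le_exp.2 (neg_le_neg hD1)).trans (exp_num (by norm_num) (by norm_num [Pd]))
  have hA0 : (0 : ℝ) ≤ M * a ^ 2 := by positivity
  rcases le_total ((M : ℝ) * a ^ 2) (33/4) with g0 | g0
  · exact pbox h hmax q1_dc q1_rc0 q1_0 hM hA0 g0 (sq_nonneg a) hD hE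
  rcases le_total ((M : ℝ) * a ^ 2) (309/20) with g1 | g1
  · exact pbox h hmax q1_dc q1_rc0 q1_1 hM g0 g1 (sq_nonneg a) hD hE
  rcases le_total ((M : ℝ) * a ^ 2) (2427/100) with g2 | g2
  · exact pbox h hmax q1_dc q1_rc0 q1_2 hM g1 g2 (sq_nonneg a) hD hE
  rcases le_total ((M : ℝ) * a ^ 2) 25 with g3 | g3
  · exact pbox h hmax q1_dc q1_rc0 q1_3 hM g2 g3 (sq_nonneg a) hD hE
  rcases le_total ((M : ℝ) * a ^ 2) (1909/50) with g4 | g4
  · exact pbox h hmax q1_dc q1_rc1 q1_4 hM g3 g4 (sq_nonneg a) hD hE
  rcases le_total ((M : ℝ) * a ^ 2) (2807/50) with g5 | g5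
  · exact pbox h hmax q1_dc q1_rc1 q1_5 hM g4 g5 (sq_nonneg a) hD hE
  exact pbox h hmax q1_dc q1_rc1 q1_6 hM g5 hA (sq_nonneg a) hD hE

end Pool.Agent.Lib.MP_172a45_an.H64.P
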