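import Pool.Agent.Lib.MP_172a45_an.H64.P4

set_option autoImplicit false

/-!
# Boxes (generated), deficit in `[(1/2), (3/4)]`, `M ≥ 99`
-/

namespace Pool.Agent.Lib.MP_172a45_an.H64.P

open Finset F

theorem q2_dc : DC (3/4) (1823/1000) (947/500) (3/2) (29/400) (9/4) (1037/1000) := by
  refine ⟨by norm_num, by norm_num, by norm_num, by norm_num, by norm_num, by norm_num,
    by norm_num, by norm_num, ?_, by norm_num, fun x _ _ => Y_cert (by norm_num) (by norm_num) x,
    exp_num (by norm_num) (by norm_num [Pd])⟩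
  have := log_num (z0 := (3/2)) (l := (2029/5000)) (by norm_num) (by norm_num) (by norm_num)
  norm_num at this ⊢
  linarith

theorem q2_rc0 : RC (3/4) (1823/1000) (3/2) (47/200) (2527/10000) 0 (10793/1000) (1973/200) (8887/1000) (7019/1000) (6023/1000) (5439/1000) := by
  refine ⟨by norm_num, ?_, ?_, ?_, ?_, ?_⟩
  · intro x hx hxm
    exact R_cert (xm := (1823/1000)) (q := (1823/1000)) (ξ := (1823/1000)) (V := (457/500)) (by norm_num) (by norm_num)
      (by norm_num) (by norm_num) (by norm_num [Pd]) (by norm_num) x hx hxm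
  · intro x hx hxm
    exact R_cert (xm := (1823/1000)) (q := (1823/1000)) (ξ := (1823/1000)) (V := (4117/5000)) (by norm_num) (by norm_num)
      (by norm_num) (by norm_num) (by norm_num [Pd]) (by norm_num) x hx hxm
  · intro x hx hxm
    exact R_cert (xm := (1823/1000)) (q := (403/250)) (ξ := (4031/2500)) (V := (7439/10000)) (by norm_num) (by norm_num)
      (by norm_num) (by norm_num) (by norm_num [Pd]) (by norm_num) x hx hxm
  · intro x hx hxm
    exact R_cert (xm := (1823/1000)) (q := (1237/1000)) (ξ := (12377/10000)) (V := (8317/10000)) (by norm_num) (by norm_num)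
      (by norm_num) (by norm_num) (by norm_num [Pd]) (by norm_num) x hx hxm
  · intro x hx hxm
    exact R_cert (xm := (1823/1000)) (q := (999/1000)) (ξ := (10003/10000)) (V := (567/625)) (by norm_num) (by norm_num)
      (by norm_num) (by norm_num) (by norm_num [Pd]) (by norm_num) x hx hxm

theorem q2_rc1 : RC (3/4) (1823/1000) (3/2) (91/250) (3233/5000) 0 (10793/1000) (2169/200) (10501/1000) (8833/1000) (7289/1000) (1547/250) := by
  refine ⟨by norm_num, ?_, ?_, ?_, ?_, ?_⟩
  · intro x hx hxm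
    exact R_cert (xm := (1823/1000)) (q := (1823/1000)) (ξ := (1823/1000)) (V := (628/625)) (by norm_num) (by norm_num)
      (by norm_num) (by norm_num) (by norm_num [Pd]) (by norm_num) x hx hxm
  · intro x hx hxm
    exact R_cert (xm := (1823/1000)) (q := (1823/1000)) (ξ := (1823/1000)) (V := (973/1000)) (by norm_num) (by norm_num)
      (by norm_num) (by norm_num) (by norm_num [Pd]) (by norm_num) x hx hxm
  · intro x hx hxm
    exact R_cert (xm := (1823/1000)) (q := (7/4)) (ξ := (3501/2000)) (V := (1713/2000)) (by norm_num) (by norm_num)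
      (by norm_num) (by norm_num) (by norm_num [Pd]) (by norm_num) x hx hxm
  · intro x hx hxm
    exact R_cert (xm := (1823/1000)) (q := (327/250)) (ξ := (1309/1000)) (V := (4773/5000)) (by norm_num) (by norm_num)
      (by norm_num) (by norm_num) (by norm_num [Pd]) (by norm_num) x hx hxm
  · intro x hx hxm
    exact R_cert (xm := (1823/1000)) (q := (999/1000)) (ξ := (10003/10000)) (V := (10321/10000)) (by norm_num) (by norm_num)
      (by norm_num) (by norm_num) (by norm_num [Pd]) (by norm_num) x hx hxm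

theorem q2_0 : PB (3/4) (3033/5000) (1823/1000) (947/500) (3/2) (29/400) (9/4) (1037/1000) (47/200) (2527/10000) 0 (10793/1000) (1973/200) (8887/1000) (7019/1000) (6023/1000) (5439/1000) 99 99 99 99 0 (731/100) 0 (739/10000) (2719/10000) 0 (2279/500) (3727/1000) (187/200) (871/1000) (371/500) (613/1000) (97/200) (227/200) (637/500) (1569/1000) (1871/1000) (1079/500) (1569/2500) (3939/10000) (97/625) (153/2500) (241/10000) := by
  constructor <;> norm_num [Pd]

theorem q2_1 : PB (3/4) (3033/5000) (1823/1000) (947/500) (3/2) (29/400) (9/4) (1037/1000) (47/200) (2527/10000) 0 (10793/1000) (1973/200) (8887/1000) (7019/1000) (6023/1000) (5439/1000) 99 101 109 160 (731/100) (1311/100) 0 (53/400) (3641/10000) (731/100) (963/200) (3981/1000) (913/1000) (827/1000) (131/200) (241/500) (31/100) (591/500) (343/250) (1773/1000) (541/250) (2489/1000) (4077/10000) (1863/10000) (549/10000) (51/2000) (187/10000) := by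
  constructor <;> norm_num [Pd]

theorem q2_2 : PB (3/4) (3033/5000) (1823/1000) (947/500) (3/2) (29/400) (9/4) (1037/1000) (47/200) (2527/10000) 0 (10793/1000) (1973/200) (8887/1000) (7019/1000) (6023/1000) (5439/1000) 99 104 117 163 (1311/100) (1961/100) 0 (1981/10000) (4451/10000) (1311/100) (5019/1000) (2091/500) (447/500) (789/1000) (289/500) (367/1000) (39/250) (1223/1000) (1459/1000) (1951/1000) (299/125) (1341/500) (579/2000) (1029/10000) (241/10000) (8/625) (153/10000) := by
  constructor <;> norm_num [Pd]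

theorem q2_3 : PB (3/4) (3033/5000) (1823/1000) (947/500) (3/2) (29/400) (9/4) (1037/1000) (47/200) (2527/10000) 0 (10793/1000) (1973/200) (8887/1000) (7019/1000) (6023/1000) (5439/1000) 99 111 134 201 (1961/100) 25 0 (1263/5000) (2513/5000) (1961/100) (5239/1000) (2199/500) (881/1000) (381/500) (131/250) (143/500) (6/125) (1251/1000) (761/500) (2073/1000) (1263/500) (343/125) (79/400) (53/1000) (6/625) (59/10000) (31/2500) := by
  constructor <;> norm_num [Pd]

theorem q2_4 : PB (3/4) (3033/5000) (1823/1000) (947/500) (3/2) (29/400) (9/4) (1037/1000) (91/250) (3233/5000) 0 (10793/1000) (2169/200) (10501/1000) (8833/1000) (7289/1000) (1547/250) 99 117 148 231 25 (1863/50) 0 (941/2500) (767/1250) 25 (5381/1000) (4531/1000) (427/500) (709/1000) (209/500) (16/125) 0 (1311/1000) (823/500) (287/125) (338/125) (11/4) (1447/10000) (31/1000) (23/5000) (33/10000) (27/2500) := by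
  constructor <;> norm_num [Pd]

theorem q2_5 : PB (3/4) (3033/5000) (1823/1000) (947/500) (3/2) (29/400) (9/4) (1037/1000) (91/250) (3233/5000) 0 (10793/1000) (2169/200) (10501/1000) (8833/1000) (7289/1000) (1547/250) 99 133 185 312 (1863/50) (5631/100) 0 (711/1250) (3771/5000) (1863/50) (2837/500) (2399/500) (821/1000) (321/500) (57/200) 0 0 (693/500) (1803/1000) (316/125) (11/4) (11/4) (179/2500) (23/2500) (9/10000) (9/10000) (83/10000) := by
  constructor <;> norm_num [Pd]

theorem q2_6 : PB (3/4) (3033/5000) (1823/1000) (947/500) (3/2) (29/400) (9/4) (1037/1000) (91/250) (3233/5000) 0 (10793/1000) (2169/200) (10501/1000) (8833/1000) (7289/1000) (1547/250) 99 162 252 456 (5631/100) 64 0 (1293/2000) (8041/10000) (5631/100) (3033/500) (5171/1000) (809/1000) (619/1000) (119/500) 0 0 (1413/1000) (1857/1000) (2593/1000) (11/4) (11/4) (121/5000) (3/2000) (1/10000) (1/5000) (57/10000) := by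
  constructor <;> norm_num [Pd]

theorem q2_all {M : ℕ} {a : ℝ} {ζ z : Fin (M + 1) → ℂ} (h : Fr (M + 1) a ζ z)
    (hmax : ∀ k, ‖Fr.u a ζ k‖ ≤ ‖Fr.u a ζ 0‖) (hM : (99 : ℝ) ≤ M)
    (hD : -∑ k, Real.log ‖Fr.u a ζ k‖ ≤ (3/4)) (hD1 : (1/2) ≤ -∑ k, Real.log ‖Fr.u a ζ k‖)
    (hA : M * a ^ 2 ≤ 64) : False := by
  have hE : ∏ k, ‖Fr.u a ζ k‖ ≤ (3033/5000) := by
    rw [prod_eq_exp h]
    exact (Real.exp_le_exp.2 (neg_le_neg hD1)).trans (exp_num (by norm_num) (by norm_num [Pd]))
  have hA0 : (0 : ℝ) ≤ M * a ^ 2 := by positivity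
  rcases le_total ((M : ℝ) * a ^ 2) (731/100) with g0 | g0
  · exact pbox h hmax q2_dc q2_rc0 q2_0 hM hA0 g0 (sq_nonneg a) hD hE
  rcases le_total ((M : ℝ) * a ^ 2) (1311/100) with g1 | g1
  · exact pbox h hmax q2_dc q2_rc0 q2_1 hM g0 g1 (sq_nonneg a) hD hE
  rcases le_total ((M : ℝ) * a ^ 2) (1961/100) with g2 | g2
  · exact pbox h hmax q2_dc q2_rc0 q2_2 hM g1 g2 (sq_nonneg a) hD hE
  rcases le_total ((M : ℝ) * a ^ 2) 25 with g3 | g3
  · exact pbox h hmax q2_dc q2_rc0 q2_3 hM g2 g3 (sq_nonneg a) hD hE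
  rcases le_total ((M : ℝ) * a ^ 2) (1863/50) with g4 | g4
  · exact pbox h hmax q2_dc q2_rc1 q2_4 hM g3 g4 (sq_nonneg a) hD hE
  rcases le_total ((M : ℝ) * a ^ 2) (5631/100) with g5 | g5
  · exact pbox h hmax q2_dc q2_rc1 q2_5 hM g4 g5 (sq_nonneg a) hD hE
  exact pbox h hmax q2_dc q2_rc1 q2_6 hM g5 hA (sq_nonneg a) hD hE

end Pool.Agent.Lib.MP_172a45_an.H64.P
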