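import Pool.Agent.Lib.MP_172a45_an.H64.P4

set_option autoImplicit false

/-!
# Boxes (generated), deficit in `[(3/4), 1]`, `M ≥ 99`
-/

namespace Pool.Agent.Lib.MP_172a45_an.H64.P

open Finset F

theorem q3_dc : DC 1 (2231/1000) (2069/1000) (8/5) (477/5000) (713/250) (10489/10000) := by
  refine ⟨by norm_num, by norm_num, by norm_num, by norm_num, by norm_num, by norm_num,
    by norm_num, by norm_num, ?_, by norm_num, fun x _ _ => Y_cert (by norm_num) (by norm_num) x,
    exp_num (by norm_num) (by norm_num [Pd])⟩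
  have := log_num (z0 := (8/5)) (l := (294/625)) (by norm_num) (by norm_num) (by norm_num)
  norm_num at this ⊢
  linarith

theorem q3_rc0 : RC 1 (2231/1000) (8/5) (41/250) (2527/10000) 0 (13671/1000) (2359/200) 10 (939/125) (161/25) (2887/500) := by
  refine ⟨by norm_num, ?_, ?_, ?_, ?_, ?_⟩
  · intro x hx hxm
    exact R_cert (xm := (2231/1000)) (q := (2231/1000)) (ξ := (2231/1000)) (V := (2157/2500)) (by norm_num) (by norm_num)
      (by norm_num) (by norm_num) (by norm_num [Pd]) (by norm_num) x hx hxm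
  · intro x hx hxm
    exact R_cert (xm := (2231/1000)) (q := (2231/1000)) (ξ := (2231/1000)) (V := (1463/2000)) (by norm_num) (by norm_num)
      (by norm_num) (by norm_num) (by norm_num [Pd]) (by norm_num) x hx hxm
  · intro x hx hxm
    exact R_cert (xm := (2231/1000)) (q := (17/10)) (ξ := (1062/625)) (V := (7519/10000)) (by norm_num) (by norm_num)
      (by norm_num) (by norm_num) (by norm_num [Pd]) (by norm_num) x hx hxm
  · intro x hx hxm
    exact R_cert (xm := (2231/1000)) (q := (166/125)) (ξ := (6641/5000)) (V := (1039/1250)) (by norm_num) (by norm_num)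
      (by norm_num) (by norm_num) (by norm_num [Pd]) (by norm_num) x hx hxm
  · intro x hx hxm
    exact R_cert (xm := (2231/1000)) (q := (1093/1000)) (ξ := (10927/10000)) (V := (8919/10000)) (by norm_num) (by norm_num)
      (by norm_num) (by norm_num) (by norm_num [Pd]) (by norm_num) x hx hxm

theorem q3_rc1 : RC 1 (2231/1000) (8/5) (61/200) (3233/5000) 0 (13671/1000) (13217/1000) (6107/500) (1919/200) (3959/500) (831/125) := by
  refine ⟨by norm_num, ?_, ?_, ?_, ?_, ?_⟩
  · intro x hx hxm
    exact R_cert (xm := (2231/1000)) (q := (2231/1000)) (ξ := (2231/1000)) (V := (2417/2500)) (by norm_num) (by norm_num)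
      (by norm_num) (by norm_num) (by norm_num [Pd]) (by norm_num) x hx hxm
  · intro x hx hxm
    exact R_cert (xm := (2231/1000)) (q := (2231/1000)) (ξ := (2231/1000)) (V := (4467/5000)) (by norm_num) (by norm_num)
      (by norm_num) (by norm_num) (by norm_num [Pd]) (by norm_num) x hx hxm
  · intro x hx hxm
    exact R_cert (xm := (2231/1000)) (q := (46/25)) (ξ := (46/25)) (V := (4399/5000)) (by norm_num) (by norm_num)
      (by norm_num) (by norm_num) (by norm_num [Pd]) (by norm_num) x hx hxm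
  · intro x hx hxm
    exact R_cert (xm := (2231/1000)) (q := (1401/1000)) (ξ := (7003/5000)) (V := (606/625)) (by norm_num) (by norm_num)
      (by norm_num) (by norm_num) (by norm_num [Pd]) (by norm_num) x hx hxm
  · intro x hx hxm
    exact R_cert (xm := (2231/1000)) (q := (1093/1000)) (ξ := (10927/10000)) (V := (10269/10000)) (by norm_num) (by norm_num)
      (by norm_num) (by norm_num) (by norm_num [Pd]) (by norm_num) x hx hxm

theorem q3_0 : PB 1 (1181/2500) (2231/1000) (2069/1000) (8/5) (477/5000) (713/250) (10489/10000) (41/250) (2527/10000) 0 (13671/1000) (2359/200) 10 (939/125) (161/25) (2887/500) 99 99 99 99 0 (159/25) 0 (643/10000) (317/1250) 0 (2279/500) (3393/1000) (467/500) (217/250) (737/1000) (303/500) (19/40) (1137/1000) (32/25) (79/50) (1887/1000) (2179/1000) (409/625) (2141/5000) (917/5000) (393/5000) (337/10000) := by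
  constructor <;> norm_num [Pd]

theorem q3_1 : PB 1 (1181/2500) (2231/1000) (2069/1000) (8/5) (477/5000) (713/250) (10489/10000) (41/250) (2527/10000) 0 (13671/1000) (2359/200) 10 (939/125) (161/25) (2887/500) 99 100 104 128 (159/25) (54/5) 0 (1091/10000) (413/1250) (159/25) (598/125) (452/125) (457/500) (829/1000) (329/500) (487/1000) (79/250) (1179/1000) (171/125) (883/500) (2153/1000) (2479/1000) (899/2000) (2231/10000) (741/10000) (183/5000) (27/1000) := by
  constructor <;> norm_num [Pd]

theorem q3_2 : PB 1 (1181/2500) (2231/1000) (2069/1000) (8/5) (477/5000) (713/250) (10489/10000) (41/250) (2527/10000) 0 (13671/1000) (2359/200) 10 (939/125) (161/25) (2887/500) 99 103 115 169 (54/5) (377/25) 0 (381/2500) (244/625) (54/5) (247/50) (377/100) (899/1000) (399/500) (149/250) (197/500) (24/125) (303/250) (1439/1000) (191/100) (1171/500) (2647/1000) (3459/10000) (177/1250) (197/5000) (27/1250) (231/10000) := by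
  constructor <;> norm_num [Pd]

theorem q3_3 : PB 1 (1181/2500) (2231/1000) (2069/1000) (8/5) (477/5000) (713/250) (10489/10000) (41/250) (2527/10000) 0 (13671/1000) (2359/200) 10 (939/125) (161/25) (2887/500) 99 106 122 175 (377/25) (2023/100) 0 (511/2500) (2261/5000) (377/25) (636/125) (1957/500) (883/1000) (383/500) (133/250) (149/500) (8/125) (1247/1000) (1513/1000) (411/200) (627/250) (2739/1000) (168/625) (183/2000) (43/2000) (13/1000) (1/50) := by
  constructor <;> norm_num [Pd]

theorem q3_4 : PB 1 (1181/2500) (2231/1000) (2069/1000) (8/5) (477/5000) (713/250) (10489/10000) (41/250) (2527/10000) 0 (13671/1000) (2359/200) 10 (939/125) (161/25) (2887/500) 99 112 136 207 (2023/100) 25 0 (1263/5000) (2513/5000) (2023/100) (1051/200) (4077/1000) (87/100) (37/50) (12/25) (11/50) 0 (319/250) (1573/1000) (271/125) (523/200) (11/4) (497/2500) (271/5000) (21/2000) (71/10000) (17/1000) := by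
  constructor <;> norm_num [Pd]

theorem q3_5 : PB 1 (1181/2500) (2231/1000) (2069/1000) (8/5) (477/5000) (713/250) (10489/10000) (61/200) (3233/5000) 0 (13671/1000) (13217/1000) (6107/500) (1919/200) (3959/500) (831/125) 99 117 148 231 25 (3529/100) 0 (713/2000) (5971/10000) 25 (5383/1000) (839/200) (169/200) (691/1000) (191/500) (73/1000) 0 (333/250) (211/125) (591/250) (547/200) (11/4) (1509/10000) (337/10000) (11/2000) (21/5000) (151/10000) := by
  constructor <;> norm_num [Pd]

theorem q3_6 : PB 1 (1181/2500) (2231/1000) (2069/1000) (8/5) (477/5000) (713/250) (10489/10000) (61/200) (3233/5000) 0 (13671/1000) (13217/1000) (6107/500) (1919/200) (3959/500) (831/125) 99 130 178 296 (3529/100) (105/2) 0 (663/1250) (7283/10000) (3529/100) (5629/1000) (4413/1000) (811/1000) (623/1000) (123/500) 0 0 (1409/1000) (231/125) (2583/1000) (11/4) (11/4) (837/10000) (61/5000) (7/5000) (7/5000) (61/5000) := by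
  constructor <;> norm_num [Pd]

theorem q3_7 : PB 1 (1181/2500) (2231/1000) (2069/1000) (8/5) (477/5000) (713/250) (10489/10000) (61/200) (3233/5000) 0 (13671/1000) (13217/1000) (6107/500) (1919/200) (3959/500) (831/125) 99 156 237 422 (105/2) 64 0 (1293/2000) (8041/10000) (105/2) (5993/1000) (593/125) (99/125) (73/125) (21/125) 0 0 (1453/1000) (969/500) (2671/1000) (11/4) (11/4) (157/5000) (23/10000) (1/5000) (3/10000) (11/1250) := by
  constructor <;> norm_num [Pd]

theorem q3_all {M : ℕ} {a : ℝ} {ζ z : Fin (M + 1) → ℂ} (h : Fr (M + 1) a ζ z)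
    (hmax : ∀ k, ‖Fr.u a ζ k‖ ≤ ‖Fr.u a ζ 0‖) (hM : (99 : ℝ) ≤ M)
    (hD : -∑ k, Real.log ‖Fr.u a ζ k‖ ≤ 1) (hD1 : (3/4) ≤ -∑ k, Real.log ‖Fr.u a ζ k‖)
    (hA : M * a ^ 2 ≤ 64) : False := by
  have hE : ∏ k, ‖Fr.u a ζ k‖ ≤ (1181/2500) := by
    rw [prod_eq_exp h]
    exact (Real.exp_le_exp.2 (neg_le_neg hD1)).trans (exp_num (by norm_num) (by norm_num [Pd]))
  have hA0 : (0 : ℝ) ≤ M * a ^ 2 := by positivity
  rcases le_total ((M : ℝ) * a ^ 2) (159/25) with g0 | g0
  · exact pbox h hmax q3_dc q3_rc0 q3_0 hM hA0 g0 (sq_nonneg a) hD hE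
  rcases le_total ((M : ℝ) * a ^ 2) (54/5) with g1 | g1
  · exact pbox h hmax q3_dc q3_rc0 q3_1 hM g0 g1 (sq_nonneg a) hD hE
  rcases le_total ((M : ℝ) * a ^ 2) (377/25) with g2 | g2
  · exact pbox h hmax q3_dc q3_rc0 q3_2 hM g1 g2 (sq_nonneg a) hD hE
  rcases le_total ((M : ℝ) * a ^ 2) (2023/100) with g3 | g3
  · exact pbox h hmax q3_dc q3_rc0 q3_3 hM g2 g3 (sq_nonneg a) hD hE
  rcases le_total ((M : ℝ) * a ^ 2) 25 with g4 | g4
  · exact pbox h hmax q3_dc q3_rc0 q3_4 hM g3 g4 (sq_nonneg a) hD hE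
  rcases le_total ((M : ℝ) * a ^ 2) (3529/100) with g5 | g5
  · exact pbox h hmax q3_dc q3_rc1 q3_5 hM g4 g5 (sq_nonneg a) hD hE
  rcases le_total ((M : ℝ) * a ^ 2) (105/2) with g6 | g6
  · exact pbox h hmax q3_dc q3_rc1 q3_6 hM g5 g6 (sq_nonneg a) hD hE
  exact pbox h hmax q3_dc q3_rc1 q3_7 hM g6 hA (sq_nonneg a) hD hE

end Pool.Agent.Lib.MP_172a45_an.H64.P
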