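import Pool.Agent.Lib.MP_172a45_an.H64.P4

set_option autoImplicit false

/-!
# Boxes (generated), deficit in `[1, (5/4)]`, `M ≥ 99`
-/

namespace Pool.Agent.Lib.MP_172a45_an.H64.P

open Finset F

theorem q4_dc : DC (5/4) (2621/1000) (279/125) (9/5) (1441/10000) (849/250) (2687/2500) := by
  refine ⟨by norm_num, by norm_num, by norm_num, by norm_num, by norm_num, by norm_num,
    by norm_num, by norm_num, ?_, by norm_num, fun x _ _ => Y_cert (by norm_num) (by norm_num) x,
    exp_num (by norm_num) (by norm_num [Pd])⟩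
  have := log_num (z0 := (9/5)) (l := (1177/2000)) (by norm_num) (by norm_num) (by norm_num)
  norm_num at this ⊢
  linarith

theorem q4_rc0 : RC (5/4) (2621/1000) (9/5) (117/1000) (2527/10000) 0 (16733/1000) (13499/1000) (1067/100) (998/125) (1717/250) (1537/250) := by
  refine ⟨by norm_num, ?_, ?_, ?_, ?_, ?_⟩
  · intro x hx hxm
    exact R_cert (xm := (2621/1000)) (q := (2621/1000)) (ξ := (2621/1000)) (V := (8067/10000)) (by norm_num) (by norm_num)
      (by norm_num) (by norm_num) (by norm_num [Pd]) (by norm_num) x hx hxm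
  · intro x hx hxm
    exact R_cert (xm := (2621/1000)) (q := (643/250)) (ξ := (25731/10000)) (V := (6533/10000)) (by norm_num) (by norm_num)
      (by norm_num) (by norm_num) (by norm_num [Pd]) (by norm_num) x hx hxm
  · intro x hx hxm
    exact R_cert (xm := (2621/1000)) (q := (1767/1000)) (ξ := (17689/10000)) (V := (7659/10000)) (by norm_num) (by norm_num)
      (by norm_num) (by norm_num) (by norm_num [Pd]) (by norm_num) x hx hxm
  · intro x hx hxm
    exact R_cert (xm := (2621/1000)) (q := (1399/1000)) (ξ := (14001/10000)) (V := (4211/5000)) (by norm_num) (by norm_num)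
      (by norm_num) (by norm_num) (by norm_num [Pd]) (by norm_num) x hx hxm
  · intro x hx hxm
    exact R_cert (xm := (2621/1000)) (q := (583/500)) (ξ := (729/625)) (V := (1793/2000)) (by norm_num) (by norm_num)
      (by norm_num) (by norm_num) (by norm_num [Pd]) (by norm_num) x hx hxm

theorem q4_rc1 : RC (5/4) (2621/1000) (9/5) (287/1000) (3233/5000) 0 (16733/1000) (3859/250) (2701/200) (10417/1000) (4337/500) (7287/1000) := by
  refine ⟨by norm_num, ?_, ?_, ?_, ?_, ?_⟩
  · intro x hx hxm
    exact R_cert (xm := (2621/1000)) (q := (2621/1000)) (ξ := (2621/1000)) (V := (369/400)) (by norm_num) (by norm_num)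
      (by norm_num) (by norm_num) (by norm_num [Pd]) (by norm_num) x hx hxm
  · intro x hx hxm
    exact R_cert (xm := (2621/1000)) (q := (2621/1000)) (ξ := (2621/1000)) (V := (8071/10000)) (by norm_num) (by norm_num)
      (by norm_num) (by norm_num) (by norm_num [Pd]) (by norm_num) x hx hxm
  · intro x hx hxm
    exact R_cert (xm := (2621/1000)) (q := (191/100)) (ξ := (19109/10000)) (V := (1831/2000)) (by norm_num) (by norm_num)
      (by norm_num) (by norm_num) (by norm_num [Pd]) (by norm_num) x hx hxm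
  · intro x hx hxm
    exact R_cert (xm := (2621/1000)) (q := (1473/1000)) (ξ := (921/625)) (V := (10099/10000)) (by norm_num) (by norm_num)
      (by norm_num) (by norm_num) (by norm_num [Pd]) (by norm_num) x hx hxm
  · intro x hx hxm
    exact R_cert (xm := (2621/1000)) (q := (583/500)) (ξ := (729/625)) (V := (5313/5000)) (by norm_num) (by norm_num)
      (by norm_num) (by norm_num) (by norm_num [Pd]) (by norm_num) x hx hxm

theorem q4_0 : PB (5/4) (3679/10000) (2621/1000) (279/125) (9/5) (1441/10000) (849/250) (2687/2500) (117/1000) (2527/10000) 0 (16733/1000) (13499/1000) (1067/100) (998/125) (1717/250) (1537/250) 99 99 99 99 0 (537/100) 0 (543/10000) (2331/10000) 0 (2279/500) (3061/1000) (467/500) (869/1000) (739/1000) (609/1000) (479/1000) (1137/1000) (639/500) (197/125) (47/25) (2171/1000) (6821/10000) (4653/10000) (433/2000) (1007/10000) (469/10000) := by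
  constructor <;> norm_num [Pd]

theorem q4_1 : PB (5/4) (3679/10000) (2621/1000) (279/125) (9/5) (1441/10000) (849/250) (2687/2500) (117/1000) (2527/10000) 0 (16733/1000) (13499/1000) (1067/100) (998/125) (1717/250) (1537/250) 99 100 106 156 (537/100) (853/100) 0 (431/5000) (367/1250) (537/100) (4749/1000) (3249/1000) (459/500) (209/250) (84/125) (127/250) (43/125) (1171/1000) (169/125) (1733/1000) (527/250) (2433/1000) (4967/10000) (2683/10000) (1007/10000) (529/10000) (389/10000) := by
  constructor <;> norm_num [Pd]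

theorem q4_2 : PB (5/4) (3679/10000) (2621/1000) (279/125) (9/5) (1441/10000) (849/250) (2687/2500) (117/1000) (2527/10000) 0 (16733/1000) (13499/1000) (1067/100) (998/125) (1717/250) (1537/250) 99 101 108 141 (853/100) (549/50) 0 (111/1000) (833/2500) (853/100) (973/200) (3363/1000) (907/1000) (407/500) (157/250) (221/500) (32/125) (239/200) (701/500) (459/250) (281/125) (2569/1000) (103/250) (97/500) (641/10000) (361/10000) (347/10000) := by
  constructor <;> norm_num [Pd]

theorem q4_3 : PB (5/4) (3679/10000) (2621/1000) (279/125) (9/5) (1441/10000) (849/250) (2687/2500) (117/1000) (2527/10000) 0 (16733/1000) (13499/1000) (1067/100) (998/125) (1717/250) (1537/250) 99 103 114 161 (549/50) (1321/100) 0 (267/2000) (1827/5000) (549/50) (4951/1000) (3447/1000) (449/500) (199/250) (74/125) (97/250) (23/125) (607/500) (1443/1000) (1919/1000) (2353/1000) (531/200) (1783/5000) (151/1000) (453/10000) (27/1000) (319/10000) := by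
  constructor <;> norm_num [Pd]

theorem q4_4 : PB (5/4) (3679/10000) (2621/1000) (279/125) (9/5) (1441/10000) (849/250) (2687/2500) (117/1000) (2527/10000) 0 (16733/1000) (13499/1000) (1067/100) (998/125) (1717/250) (1537/250) 99 104 117 163 (1321/100) (388/25) 0 (98/625) (99/250) (1321/100) (5029/1000) (3523/1000) (889/1000) (779/1000) (279/500) (337/1000) (29/250) (617/500) (1483/1000) (1997/1000) (489/200) (339/125) (3127/10000) (601/5000) (33/1000) (207/10000) (37/1250) := by
  constructor <;> norm_num [Pd]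

theorem q4_5 : PB (5/4) (3679/10000) (2621/1000) (279/125) (9/5) (1441/10000) (849/250) (2687/2500) (117/1000) (2527/10000) 0 (16733/1000) (13499/1000) (1067/100) (998/125) (1717/250) (1537/250) 99 106 122 173 (388/25) (1819/100) 0 (919/5000) (268/625) (388/25) (5107/1000) (1799/500) (22/25) (19/25) (521/1000) (141/500) (21/500) (627/500) (1527/1000) (52/25) (633/250) (549/200) (273/1000) (19/200) (119/5000) (79/5000) (137/5000) := by
  constructor <;> norm_num [Pd]

theorem q4_6 : PB (5/4) (3679/10000) (2621/1000) (279/125) (9/5) (1441/10000) (849/250) (2687/2500) (117/1000) (2527/10000) 0 (16733/1000) (13499/1000) (1067/100) (998/125) (1717/250) (1537/250) 99 109 129 189 (1819/100) (541/25) 0 (1093/5000) (1169/2500) (1819/100) (649/125) (3679/1000) (869/1000) (739/1000) (239/500) (217/1000) 0 (639/500) (197/125) (2173/1000) (2619/1000) (11/4) (467/2000) (29/400) (41/2500) (29/2500) (253/10000) := by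
  constructor <;> norm_num [Pd]

theorem q4_7 : PB (5/4) (3679/10000) (2621/1000) (279/125) (9/5) (1441/10000) (849/250) (2687/2500) (117/1000) (2527/10000) 0 (16733/1000) (13499/1000) (1067/100) (998/125) (1717/250) (1537/250) 99 113 139 211 (541/25) 25 0 (1263/5000) (2513/5000) (541/25) (5301/1000) (473/125) (859/1000) (719/1000) (439/1000) (79/500) 0 (13/10) (1623/1000) (1127/500) (67/25) (11/4) (1909/10000) (511/10000) (101/10000) (39/5000) (57/2500) := by
  constructor <;> norm_num [Pd]

theorem q4_8 : PB (5/4) (3679/10000) (2621/1000) (279/125) (9/5) (1441/10000) (849/250) (2687/2500) (287/1000) (3233/5000) 0 (16733/1000) (3859/250) (2701/200) (10417/1000) (4337/500) (7287/1000) 99 117 148 231 25 (158/5) 0 (399/1250) (113/200) 25 (1347/250) (3861/1000) (421/500) (171/250) (369/1000) (27/500) 0 (669/500) (341/200) (597/250) (1371/500) (11/4) (1573/10000) (183/5000) (4/625) (27/5000) (211/10000) := by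
  constructor <;> norm_num [Pd]

theorem q4_9 : PB (5/4) (3679/10000) (2621/1000) (279/125) (9/5) (1441/10000) (849/250) (2687/2500) (287/1000) (3233/5000) 0 (16733/1000) (3859/250) (2701/200) (10417/1000) (4337/500) (7287/1000) 99 126 168 274 (158/5) (4233/100) 0 (1069/2500) (327/500) (158/5) (1111/200) (501/125) (817/1000) (127/200) (27/100) 0 0 (279/200) (91/50) (51/20) (11/4) (11/4) (1077/10000) (19/1000) (27/10000) (13/5000) (91/5000) := by
  constructor <;> norm_num [Pd]

theorem q4_10 : PB (5/4) (3679/10000) (2621/1000) (279/125) (9/5) (1441/10000) (849/250) (2687/2500) (287/1000) (3233/5000) 0 (16733/1000) (3859/250) (2701/200) (10417/1000) (4337/500) (7287/1000) 99 140 201 346 (4233/100) (1167/20) 0 (2947/5000) (3839/5000) (4233/100) (1157/200) (4189/1000) (157/200) (571/1000) (143/1000) 0 0 (1469/1000) (1967/1000) (673/250) (11/4) (11/4) (293/5000) (67/10000) (7/10000) (9/10000) (19/1250) := by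
  constructor <;> norm_num [Pd]

theorem q4_11 : PB (5/4) (3679/10000) (2621/1000) (279/125) (9/5) (1441/10000) (849/250) (2687/2500) (287/1000) (3233/5000) 0 (16733/1000) (3859/250) (2701/200) (10417/1000) (4337/500) (7287/1000) 99 165 259 471 (1167/20) 64 0 (1293/2000) (8041/10000) (1167/20) (3049/500) (4473/1000) (31/40) (551/1000) (51/500) 0 0 (373/250) (2013/1000) (2721/1000) (11/4) (11/4) (59/2500) (7/5000) (1/10000) (1/5000) (23/2000) := by
  constructor <;> norm_num [Pd]

theorem q4_all {M : ℕ} {a : ℝ} {ζ z : Fin (M + 1) → ℂ} (h : Fr (M + 1) a ζ z)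
    (hmax : ∀ k, ‖Fr.u a ζ k‖ ≤ ‖Fr.u a ζ 0‖) (hM : (99 : ℝ) ≤ M)
    (hD : -∑ k, Real.log ‖Fr.u a ζ k‖ ≤ (5/4)) (hD1 : 1 ≤ -∑ k, Real.log ‖Fr.u a ζ k‖)
    (hA : M * a ^ 2 ≤ 64) : False := by
  have hE : ∏ k, ‖Fr.u a ζ k‖ ≤ (3679/10000) := by
    rw [prod_eq_exp h]
    exact (Real.exp_le_exp.2 (neg_le_neg hD1)).trans (exp_num (by norm_num) (by norm_num [Pd]))
  have hA0 : (0 : ℝ) ≤ M * a ^ 2 := by positivity
  rcases le_total ((M : ℝ) * a ^ 2) (537/100) with g0 | g0
  · exact pbox h hmax q4_dc q4_rc0 q4_0 hM hA0 g0 (sq_nonneg a) hD hE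
  rcases le_total ((M : ℝ) * a ^ 2) (853/100) with g1 | g1
  · exact pbox h hmax q4_dc q4_rc0 q4_1 hM g0 g1 (sq_nonneg a) hD hE
  rcases le_total ((M : ℝ) * a ^ 2) (549/50) with g2 | g2
  · exact pbox h hmax q4_dc q4_rc0 q4_2 hM g1 g2 (sq_nonneg a) hD hE
  rcases le_total ((M : ℝ) * a ^ 2) (1321/100) with g3 | g3
  · exact pbox h hmax q4_dc q4_rc0 q4_3 hM g2 g3 (sq_nonneg a) hD hE
  rcases le_total ((M : ℝ) * a ^ 2) (388/25) with g4 | g4
  · exact pbox h hmax q4_dc q4_rc0 q4_4 hM g3 g4 (sq_nonneg a) hD hE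
  rcases le_total ((M : ℝ) * a ^ 2) (1819/100) with g5 | g5
  · exact pbox h hmax q4_dc q4_rc0 q4_5 hM g4 g5 (sq_nonneg a) hD hE
  rcases le_total ((M : ℝ) * a ^ 2) (541/25) with g6 | g6
  · exact pbox h hmax q4_dc q4_rc0 q4_6 hM g5 g6 (sq_nonneg a) hD hE
  rcases le_total ((M : ℝ) * a ^ 2) 25 with g7 | g7
  · exact pbox h hmax q4_dc q4_rc0 q4_7 hM g6 g7 (sq_nonneg a) hD hE
  rcases le_total ((M : ℝ) * a ^ 2) (158/5) with g8 | g8
  · exact pbox h hmax q4_dc q4_rc1 q4_8 hM g7 g8 (sq_nonneg a) hD hE
  rcases le_total ((M : ℝ) * a ^ 2) (4233/100) with g9 | g9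
  · exact pbox h hmax q4_dc q4_rc1 q4_9 hM g8 g9 (sq_nonneg a) hD hE
  rcases le_total ((M : ℝ) * a ^ 2) (1167/20) with g10 | g10
  · exact pbox h hmax q4_dc q4_rc1 q4_10 hM g9 g10 (sq_nonneg a) hD hE
  exact pbox h hmax q4_dc q4_rc1 q4_11 hM g10 hA (sq_nonneg a) hD hE

end Pool.Agent.Lib.MP_172a45_an.H64.P
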