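import Pool.Agent.Lib.MP_172a45_an.H64.P4

set_option autoImplicit false

/-!
# Boxes (generated), deficit in `[(5/4), (3/2)]`, `M ≥ 119`
-/

namespace Pool.Agent.Lib.MP_172a45_an.H64.P

open Finset F

theorem q5_dc : DC (3/2) 3 (597/250) (19/10) (1691/10000) (514/125) (10883/10000) := by
  refine ⟨by norm_num, by norm_num, by norm_num, by norm_num, by norm_num, by norm_num,
    by norm_num, by norm_num, ?_, by norm_num, fun x _ _ => Y_cert (by norm_num) (by norm_num) x,
    exp_num (by norm_num) (by norm_num [Pd])⟩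
  have := log_num (z0 := (19/10)) (l := (6427/10000)) (by norm_num) (by norm_num) (by norm_num)
  norm_num at this ⊢
  linarith

theorem q5_rc0 : RC (3/2) 3 (19/10) (3/500) (1051/5000) 0 20 (7443/500) (5559/500) (8389/1000) (1813/250) (6507/1000) := by
  refine ⟨by norm_num, ?_, ?_, ?_, ?_, ?_⟩
  · intro x hx hxm
    exact R_cert (xm := 3) (q := 3) (ξ := 3) (V := (7443/10000)) (by norm_num) (by norm_num)
      (by norm_num) (by norm_num) (by norm_num [Pd]) (by norm_num) x hx hxm
  · intro x hx hxm
    exact R_cert (xm := 3) (q := (2643/1000)) (ξ := (13217/5000)) (V := (6573/10000)) (by norm_num) (by norm_num)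
      (by norm_num) (by norm_num) (by norm_num [Pd]) (by norm_num) x hx hxm
  · intro x hx hxm
    exact R_cert (xm := 3) (q := (463/250)) (ξ := (9259/5000)) (V := (1909/2500)) (by norm_num) (by norm_num)
      (by norm_num) (by norm_num) (by norm_num [Pd]) (by norm_num) x hx hxm
  · intro x hx hxm
    exact R_cert (xm := 3) (q := (299/200)) (ξ := (14947/10000)) (V := (2079/2500)) (by norm_num) (by norm_num)
      (by norm_num) (by norm_num) (by norm_num [Pd]) (by norm_num) x hx hxm
  · intro x hx hxm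
    exact R_cert (xm := 3) (q := (159/125)) (ξ := (159/125)) (V := (547/625)) (by norm_num) (by norm_num)
      (by norm_num) (by norm_num) (by norm_num [Pd]) (by norm_num) x hx hxm

theorem q5_rc1 : RC (3/2) 3 (19/10) (59/500) (269/500) 0 20 (1681/100) (13519/1000) (5189/500) (4331/500) (3639/500) := by
  refine ⟨by norm_num, ?_, ?_, ?_, ?_, ?_⟩
  · intro x hx hxm
    exact R_cert (xm := 3) (q := 3) (ξ := 3) (V := (1681/2000)) (by norm_num) (by norm_num)
      (by norm_num) (by norm_num) (by norm_num [Pd]) (by norm_num) x hx hxm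
  · intro x hx hxm
    exact R_cert (xm := 3) (q := (2811/1000)) (ξ := (7027/2500)) (V := (7373/10000)) (by norm_num) (by norm_num)
      (by norm_num) (by norm_num) (by norm_num [Pd]) (by norm_num) x hx hxm
  · intro x hx hxm
    exact R_cert (xm := 3) (q := (493/250)) (ξ := (19717/10000)) (V := (8791/10000)) (by norm_num) (by norm_num)
      (by norm_num) (by norm_num) (by norm_num [Pd]) (by norm_num) x hx hxm
  · intro x hx hxm
    exact R_cert (xm := 3) (q := (1557/1000)) (ξ := (15571/10000)) (V := (9523/10000)) (by norm_num) (by norm_num)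
      (by norm_num) (by norm_num) (by norm_num [Pd]) (by norm_num) x hx hxm
  · intro x hx hxm
    exact R_cert (xm := 3) (q := (159/125)) (ξ := (159/125)) (V := (9789/10000)) (by norm_num) (by norm_num)
      (by norm_num) (by norm_num) (by norm_num [Pd]) (by norm_num) x hx hxm

theorem q5_0 : PB (3/2) (1433/5000) 3 (597/250) (19/10) (1691/10000) (514/125) (10883/10000) (3/500) (1051/5000) 0 20 (7443/500) (5559/500) (8389/1000) (1813/250) (6507/1000) 119 119 119 119 0 (501/100) 0 (211/5000) (411/2000) 0 (2373/500) (358/125) (469/500) (877/1000) (377/500) (631/1000) (509/1000) (141/125) (63/50) (1541/1000) (1829/1000) (1053/500) (6991/10000) (611/1250) (2389/10000) (73/625) (571/10000) := by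
  constructor <;> norm_num [Pd]

theorem q5_1 : PB (3/2) (1433/5000) 3 (597/250) (19/10) (1691/10000) (514/125) (10883/10000) (3/500) (1051/5000) 0 20 (7443/500) (5559/500) (8389/1000) (1813/250) (6507/1000) 119 120 127 207 (501/100) (771/100) 0 (81/1250) (1273/5000) (501/100) (2451/500) (1509/500) (231/250) (106/125) (87/125) (68/125) (49/125) (579/500) (53/40) (1677/1000) (507/250) (1173/500) (1043/2000) (147/500) (1183/10000) (651/10000) (49/1000) := by
  constructor <;> norm_num [Pd]

theorem q5_2 : PB (3/2) (1433/5000) 3 (597/250) (19/10) (1691/10000) (514/125) (10883/10000) (3/500) (1051/5000) 0 20 (7443/500) (5559/500) (8389/1000) (1813/250) (6507/1000) 119 121 130 190 (771/100) (479/50) 0 (403/5000) (71/250) (771/100) (1247/250) (3103/1000) (183/200) (83/100) (33/50) (491/1000) (321/1000) (1177/1000) (683/500) (1761/1000) (429/200) (2471/1000) (4451/10000) (447/2000) (809/10000) (237/5000) (9/200) := by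
  constructor <;> norm_num [Pd]

theorem q5_3 : PB (3/2) (1433/5000) 3 (597/250) (19/10) (1691/10000) (514/125) (10883/10000) (3/500) (1051/5000) 0 20 (7443/500) (5559/500) (8389/1000) (1813/250) (6507/1000) 119 122 133 193 (479/50) (553/50) 0 (93/1000) (61/200) (479/50) (5047/1000) (79/25) (227/250) (817/1000) (127/200) (453/1000) (271/1000) (149/125) (279/200) (91/50) (89/40) (637/250) (399/1000) (1849/10000) (623/10000) (381/10000) (17/400) := by
  constructor <;> norm_num [Pd]

theorem q5_4 : PB (3/2) (1433/5000) 3 (597/250) (19/10) (1691/10000) (514/125) (10883/10000) (3/500) (1051/5000) 0 20 (7443/500) (5559/500) (8389/1000) (1813/250) (6507/1000) 119 122 132 175 (553/50) (617/50) 0 (1037/10000) (3221/10000) (553/50) (2547/500) (1603/500) (903/1000) (807/1000) (123/200) (423/1000) (23/100) (1203/1000) (709/500) (933/500) (1143/500) (2603/1000) (3659/10000) (1591/10000) (253/5000) (321/10000) (203/5000) := by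
  constructor <;> norm_num [Pd]

theorem q5_5 : PB (3/2) (1433/5000) 3 (597/250) (19/10) (1691/10000) (514/125) (10883/10000) (3/500) (1051/5000) 0 20 (7443/500) (5559/500) (8389/1000) (1813/250) (6507/1000) 119 123 134 177 (617/50) (271/20) 0 (1139/10000) (27/80) (617/50) (642/125) (3247/1000) (899/1000) (399/500) (597/1000) (79/200) (97/500) (303/250) (1439/1000) (477/250) (117/50) (529/200) (1697/5000) (1397/10000) (211/5000) (69/2500) (39/1000) := by
  constructor <;> norm_num [Pd]

theorem q5_6 : PB (3/2) (1433/5000) 3 (597/250) (19/10) (1691/10000) (514/125) (10883/10000) (3/500) (1051/5000) 0 20 (7443/500) (5559/500) (8389/1000) (1813/250) (6507/1000) 119 124 137 185 (271/20) (59/4) 0 (31/250) (1761/5000) (271/20) (5173/1000) (3283/1000) (447/500) (789/1000) (579/1000) (369/1000) (79/500) (1223/1000) (1459/1000) (1949/1000) (597/250) (67/25) (1581/5000) (309/2500) (357/10000) (3/125) (47/1250) := by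
  constructor <;> norm_num [Pd]

theorem q5_7 : PB (3/2) (1433/5000) 3 (597/250) (19/10) (1691/10000) (514/125) (10883/10000) (3/500) (1051/5000) 0 20 (7443/500) (5559/500) (8389/1000) (1813/250) (6507/1000) 119 125 140 193 (59/4) (1601/100) 0 (673/5000) (3669/10000) (59/4) (5209/1000) (1659/500) (89/100) (39/50) (561/1000) (171/500) (123/1000) (154/125) (37/25) (199/100) (609/250) (2707/1000) (2949/10000) (219/2000) (151/5000) (209/10000) (363/10000) := by
  constructor <;> norm_num [Pd]

theorem q5_8 : PB (3/2) (1433/5000) 3 (597/250) (19/10) (1691/10000) (514/125) (10883/10000) (3/500) (1051/5000) 0 20 (7443/500) (5559/500) (8389/1000) (1813/250) (6507/1000) 119 126 143 200 (1601/100) (1741/100) 0 (183/1250) (3827/10000) (1601/100) (2623/500) (1677/500) (177/200) (771/1000) (543/1000) (157/500) (43/500) (1243/1000) (1501/1000) (2031/1000) (2483/1000) (2729/1000) (137/500) (241/2500) (253/10000) (181/10000) (7/200) := by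
  constructor <;> norm_num [Pd]

theorem q5_9 : PB (3/2) (1433/5000) 3 (597/250) (19/10) (1691/10000) (514/125) (10883/10000) (3/500) (1051/5000) 0 20 (7443/500) (5559/500) (8389/1000) (1813/250) (6507/1000) 119 128 148 215 (1741/100) (381/20) 0 (1601/10000) (2001/5000) (1741/100) (2643/500) (424/125) (22/25) (761/1000) (261/500) (283/1000) (11/250) (627/500) (381/250) (2077/1000) (2531/1000) (549/200) (1263/5000) (419/5000) (209/10000) (77/5000) (337/10000) := by
  constructor <;> norm_num [Pd]

theorem q5_10 : PB (3/2) (1433/5000) 3 (597/250) (19/10) (1691/10000) (514/125) (10883/10000) (3/500) (1051/5000) 0 20 (7443/500) (5559/500) (8389/1000) (1813/250) (6507/1000) 119 130 153 228 (381/20) (2111/100) 0 (887/5000) (1053/2500) (381/20) (1333/250) (859/250) (437/500) (187/250) (497/1000) (49/200) 0 (1267/1000) (311/200) (533/250) (323/125) (11/4) (2297/10000) (711/10000) (167/10000) (8/625) (323/10000) := by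
  constructor <;> norm_num [Pd]

theorem q5_11 : PB (3/2) (1433/5000) 3 (597/250) (19/10) (1691/10000) (514/125) (10883/10000) (3/500) (1051/5000) 0 20 (7443/500) (5559/500) (8389/1000) (1813/250) (6507/1000) 119 132 158 237 (2111/100) (2389/100) 0 (251/1250) (2241/5000) (2111/100) (5389/1000) (349/100) (433/500) (183/250) (58/125) (197/1000) 0 (257/200) (199/125) (1101/500) (2641/1000) (11/4) (1019/5000) (289/5000) (1/80) (51/5000) (153/5000) := by
  constructor <;> norm_num [Pd]

theorem q5_12 : PB (3/2) (1433/5000) 3 (597/250) (19/10) (1691/10000) (514/125) (10883/10000) (3/500) (1051/5000) 0 20 (7443/500) (5559/500) (8389/1000) (1813/250) (6507/1000) 119 135 165 250 (2389/100) 25 0 (2101/10000) (573/1250) (2389/100) (5469/1000) (3569/1000) (863/1000) (363/500) (113/250) (179/1000) 0 (1291/1000) (803/500) (2227/1000) (133/50) (11/4) (867/5000) (437/10000) (17/2000) (37/5000) (283/10000) := by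
  constructor <;> norm_num [Pd]

theorem q5_13 : PB (3/2) (1433/5000) 3 (597/250) (19/10) (1691/10000) (514/125) (10883/10000) (59/500) (269/500) 0 20 (1681/100) (13519/1000) (5189/500) (4331/500) (3639/500) 119 137 170 266 25 (2939/100) 0 (247/1000) (497/1000) 25 (686/125) (1791/500) (851/1000) (703/1000) (203/500) (109/1000) 0 (659/500) (83/50) (2319/1000) (2717/1000) (11/4) (1629/10000) (393/10000) (37/5000) (33/5000) (279/10000) := by
  constructor <;> norm_num [Pd]

theorem q5_14 : PB (3/2) (1433/5000) 3 (597/250) (19/10) (1691/10000) (514/125) (10883/10000) (59/500) (269/500) 0 20 (1681/100) (13519/1000) (5189/500) (4331/500) (3639/500) 119 142 181 284 (2939/100) (3621/100) 0 (3043/10000) (5517/10000) (2939/100) (1399/250) (3681/1000) (167/200) (67/100) (341/1000) (11/1000) 0 (677/500) (869/500) (1219/500) (11/4) (11/4) (633/5000) (127/5000) (41/10000) (41/10000) (253/10000) := by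
  constructor <;> norm_num [Pd]

theorem q5_15 : PB (3/2) (1433/5000) 3 (597/250) (19/10) (1691/10000) (514/125) (10883/10000) (59/500) (269/500) 0 20 (1681/100) (13519/1000) (5189/500) (4331/500) (3639/500) 119 151 202 329 (3621/100) (234/5) 0 (3933/10000) (392/625) (3621/100) (5743/1000) (381/100) (203/250) (5/8) (251/1000) 0 0 (1407/1000) (1843/1000) (322/125) (11/4) (11/4) (429/5000) (13/1000) (17/10000) (1/500) (111/5000) := by
  constructor <;> norm_num [Pd]

theorem q5_16 : PB (3/2) (1433/5000) 3 (597/250) (19/10) (1691/10000) (514/125) (10883/10000) (59/500) (269/500) 0 20 (1681/100) (13519/1000) (5189/500) (4331/500) (3639/500) 119 167 238 408 (234/5) (6141/100) 0 (5161/10000) (1437/2000) (234/5) (2973/500) (1989/500) (157/200) (571/1000) (71/500) 0 0 (1469/1000) (1967/1000) (2693/1000) (11/4) (11/4) (471/10000) (47/10000) (1/2500) (7/10000) (47/2500) := by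
  constructor <;> norm_num [Pd]

theorem q5_17 : PB (3/2) (1433/5000) 3 (597/250) (19/10) (1691/10000) (514/125) (10883/10000) (59/500) (269/500) 0 20 (1681/100) (13519/1000) (5189/500) (4331/500) (3639/500) 119 191 292 522 (6141/100) 64 0 (5379/10000) (1467/2000) (6141/100) (6209/1000) (4233/1000) (781/1000) (281/500) (31/250) 0 0 (739/500) (497/250) (2707/1000) (11/4) (11/4) (103/5000) (3/2500) (1/10000) (1/5000) (73/5000) := by
  constructor <;> norm_num [Pd]

theorem q5_all {M : ℕ} {a : ℝ} {ζ z : Fin (M + 1) → ℂ} (h : Fr (M + 1) a ζ z)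
    (hmax : ∀ k, ‖Fr.u a ζ k‖ ≤ ‖Fr.u a ζ 0‖) (hM : (119 : ℝ) ≤ M)
    (hD : -∑ k, Real.log ‖Fr.u a ζ k‖ ≤ (3/2)) (hD1 : (5/4) ≤ -∑ k, Real.log ‖Fr.u a ζ k‖)
    (hA : M * a ^ 2 ≤ 64) : False := by
  have hE : ∏ k, ‖Fr.u a ζ k‖ ≤ (1433/5000) := by
    rw [prod_eq_exp h]
    exact (Real.exp_le_exp.2 (neg_le_neg hD1)).trans (exp_num (by norm_num) (by norm_num [Pd]))
  have hA0 : (0 : ℝ) ≤ M * a ^ 2 := by positivity
  rcases le_total ((M : ℝ) * a ^ 2) (501/100) with g0 | g0
  · exact pbox h hmax q5_dc q5_rc0 q5_0 hM hA0 g0 (sq_nonneg a) hD hE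
  rcases le_total ((M : ℝ) * a ^ 2) (771/100) with g1 | g1
  · exact pbox h hmax q5_dc q5_rc0 q5_1 hM g0 g1 (sq_nonneg a) hD hE
  rcases le_total ((M : ℝ) * a ^ 2) (479/50) with g2 | g2
  · exact pbox h hmax q5_dc q5_rc0 q5_2 hM g1 g2 (sq_nonneg a) hD hE
  rcases le_total ((M : ℝ) * a ^ 2) (553/50) with g3 | g3
  · exact pbox h hmax q5_dc q5_rc0 q5_3 hM g2 g3 (sq_nonneg a) hD hE
  rcases le_total ((M : ℝ) * a ^ 2) (617/50) with g4 | g4
  · exact pbox h hmax q5_dc q5_rc0 q5_4 hM g3 g4 (sq_nonneg a) hD hE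
  rcases le_total ((M : ℝ) * a ^ 2) (271/20) with g5 | g5
  · exact pbox h hmax q5_dc q5_rc0 q5_5 hM g4 g5 (sq_nonneg a) hD hE
  rcases le_total ((M : ℝ) * a ^ 2) (59/4) with g6 | g6
  · exact pbox h hmax q5_dc q5_rc0 q5_6 hM g5 g6 (sq_nonneg a) hD hE
  rcases le_total ((M : ℝ) * a ^ 2) (1601/100) with g7 | g7
  · exact pbox h hmax q5_dc q5_rc0 q5_7 hM g6 g7 (sq_nonneg a) hD hE
  rcases le_total ((M : ℝ) * a ^ 2) (1741/100) with g8 | g8
  · exact pbox h hmax q5_dc q5_rc0 q5_8 hM g7 g8 (sq_nonneg a) hD hE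
  rcases le_total ((M : ℝ) * a ^ 2) (381/20) with g9 | g9
  · exact pbox h hmax q5_dc q5_rc0 q5_9 hM g8 g9 (sq_nonneg a) hD hE
  rcases le_total ((M : ℝ) * a ^ 2) (2111/100) with g10 | g10
  · exact pbox h hmax q5_dc q5_rc0 q5_10 hM g9 g10 (sq_nonneg a) hD hE
  rcases le_total ((M : ℝ) * a ^ 2) (2389/100) with g11 | g11
  · exact pbox h hmax q5_dc q5_rc0 q5_11 hM g10 g11 (sq_nonneg a) hD hE
  rcases le_total ((M : ℝ) * a ^ 2) 25 with g12 | g12
  · exact pbox h hmax q5_dc q5_rc0 q5_12 hM g11 g12 (sq_nonneg a) hD hE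
  rcases le_total ((M : ℝ) * a ^ 2) (2939/100) with g13 | g13
  · exact pbox h hmax q5_dc q5_rc1 q5_13 hM g12 g13 (sq_nonneg a) hD hE
  rcases le_total ((M : ℝ) * a ^ 2) (3621/100) with g14 | g14
  · exact pbox h hmax q5_dc q5_rc1 q5_14 hM g13 g14 (sq_nonneg a) hD hE
  rcases le_total ((M : ℝ) * a ^ 2) (234/5) with g15 | g15
  · exact pbox h hmax q5_dc q5_rc1 q5_15 hM g14 g15 (sq_nonneg a) hD hE
  rcases le_total ((M : ℝ) * a ^ 2) (6141/100) with g16 | g16
  · exact pbox h hmax q5_dc q5_rc1 q5_16 hM g15 g16 (sq_nonneg a) hD hE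
  exact pbox h hmax q5_dc q5_rc1 q5_17 hM g16 hA (sq_nonneg a) hD hE

end Pool.Agent.Lib.MP_172a45_an.H64.P
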