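import Pool.Agent.Lib.MP_172a45_an.H64.P4

set_option autoImplicit false

/-!
# Boxes (generated), deficit in `[(5/4), (3/2)]`, `M ≥ 99`, `M ≤ 119`
-/

namespace Pool.Agent.Lib.MP_172a45_an.H64.P

open Finset F

theorem q6_dc : DC (3/2) 3 (597/250) 2 (971/5000) 4 (551/500) := by
  refine ⟨by norm_num, by norm_num, by norm_num, by norm_num, by norm_num, by norm_num,
    by norm_num, by norm_num, ?_, by norm_num, fun x _ _ => Y_cert (by norm_num) (by norm_num) x,
    exp_num (by norm_num) (by norm_num [Pd])⟩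
  have := log_num (z0 := 2) (l := (3471/5000)) (by norm_num) (by norm_num) (by norm_num)
  norm_num at this ⊢
  linarith

theorem q6_rc0 : RC (3/2) 3 2 (13/250) (2527/10000) (423/1000) 20 (1968/125) (611/50) (4749/500) (1597/200) (659/100) := by
  refine ⟨by norm_num, ?_, ?_, ?_, ?_, ?_⟩
  · intro x hx hxm
    exact R_cert (xm := 3) (q := 3) (ξ := 3) (V := (492/625)) (by norm_num) (by norm_num)
      (by norm_num) (by norm_num) (by norm_num [Pd]) (by norm_num) x hx hxm
  · intro x hx hxm
    exact R_cert (xm := 3) (q := (2647/1000)) (ξ := (2647/1000)) (V := (721/1000)) (by norm_num) (by norm_num)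
      (by norm_num) (by norm_num) (by norm_num [Pd]) (by norm_num) x hx hxm
  · intro x hx hxm
    exact R_cert (xm := 3) (q := (231/125)) (ξ := (18483/10000)) (V := (4333/5000)) (by norm_num) (by norm_num)
      (by norm_num) (by norm_num) (by norm_num [Pd]) (by norm_num) x hx hxm
  · intro x hx hxm
    exact R_cert (xm := 3) (q := (1483/1000)) (ξ := (14829/10000)) (V := (577/625)) (by norm_num) (by norm_num)
      (by norm_num) (by norm_num) (by norm_num [Pd]) (by norm_num) x hx hxm
  · intro x hx hxm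
    exact R_cert (xm := 3) (q := (1251/1000)) (ξ := (6259/5000)) (V := (2251/2500)) (by norm_num) (by norm_num)
      (by norm_num) (by norm_num) (by norm_num [Pd]) (by norm_num) x hx hxm

theorem q6_rc1 : RC (3/2) 3 2 (253/1000) (3233/5000) (539/500) 20 (2467/125) (4449/250) (1868/125) (11743/1000) (8057/1000) := by
  refine ⟨by norm_num, ?_, ?_, ?_, ?_, ?_⟩
  · intro x hx hxm
    exact R_cert (xm := 3) (q := 3) (ξ := 3) (V := (2467/2500)) (by norm_num) (by norm_num)
      (by norm_num) (by norm_num) (by norm_num [Pd]) (by norm_num) x hx hxm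
  · intro x hx hxm
    exact R_cert (xm := 3) (q := (356/125)) (ξ := (5699/2000)) (V := (9539/10000)) (by norm_num) (by norm_num)
      (by norm_num) (by norm_num) (by norm_num [Pd]) (by norm_num) x hx hxm
  · intro x hx hxm
    exact R_cert (xm := 3) (q := (249/125)) (ξ := (19927/10000)) (V := (12511/10000)) (by norm_num) (by norm_num)
      (by norm_num) (by norm_num) (by norm_num [Pd]) (by norm_num) x hx hxm
  · intro x hx hxm
    exact R_cert (xm := 3) (q := (1557/1000)) (ξ := (15579/10000)) (V := (12911/10000)) (by norm_num) (by norm_num)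
      (by norm_num) (by norm_num) (by norm_num [Pd]) (by norm_num) x hx hxm
  · intro x hx hxm
    exact R_cert (xm := 3) (q := (1251/1000)) (ξ := (6259/5000)) (V := (11009/10000)) (by norm_num) (by norm_num)
      (by norm_num) (by norm_num) (by norm_num [Pd]) (by norm_num) x hx hxm

theorem q6_0 : PB (3/2) (1433/5000) 3 (597/250) 2 (971/5000) 4 (551/500) (13/250) (2527/10000) (423/1000) 20 (1968/125) (611/50) (4749/500) (1597/200) (659/100) 99 99 99 99 0 (219/50) 0 (443/10000) (421/2000) 0 (4559/1000) (2707/1000) (937/1000) (437/500) (187/250) (311/500) (497/1000) (113/100) (1267/1000) (311/200) (37/20) (533/250) (713/1000) (5083/10000) (323/1250) (657/5000) (167/2500) := by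
  constructor <;> norm_num [Pd]

theorem q6_1 : PB (3/2) (1433/5000) 3 (597/250) 2 (971/5000) 4 (551/500) (13/250) (2527/10000) (423/1000) 20 (1968/125) (611/50) (4749/500) (1597/200) (659/100) 99 100 107 107 (219/50) (164/25) (23/625) (663/10000) (103/400) (4527/1000) (2357/500) (143/50) (923/1000) (423/500) (173/250) (269/500) (77/200) (29/25) (1329/1000) (843/500) (1021/500) (2359/1000) (5461/10000) (3201/10000) (17/125) (383/5000) (573/10000) := by
  constructor <;> norm_num [Pd]

theorem q6_2 : PB (3/2) (1433/5000) 3 (597/250) 2 (971/5000) 4 (551/500) (13/250) (2527/10000) (423/1000) 20 (1968/125) (611/50) (4749/500) (1597/200) (659/100) 99 100 105 105 (164/25) (397/50) (551/10000) (803/10000) (1417/5000) (339/50) (959/200) (2939/1000) (183/200) (83/100) (661/1000) (123/250) (323/1000) (1177/1000) (683/500) (1759/1000) (2143/1000) (617/250) (239/500) (2541/10000) (493/5000) (117/2000) (53/1000) := by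
  constructor <;> norm_num [Pd]

theorem q6_3 : PB (3/2) (1433/5000) 3 (597/250) 2 (971/5000) 4 (551/500) (13/250) (2527/10000) (423/1000) 20 (1968/125) (611/50) (4749/500) (1597/200) (659/100) 99 100 103 116 (397/50) (447/50) (667/10000) (113/1250) (3007/10000) (4103/500) (606/125) (2991/1000) (91/100) (41/50) (16/25) (461/1000) (281/1000) (297/250) (347/250) (226/125) (276/125) (1267/500) (4393/10000) (1097/5000) (201/2500) (123/2500) (503/10000) := by
  constructor <;> norm_num [Pd]

theorem q6_4 : PB (3/2) (1433/5000) 3 (597/250) 2 (971/5000) 4 (551/500) (13/250) (2527/10000) (423/1000) 20 (1968/125) (611/50) (4749/500) (1597/200) (659/100) 99 100 103 114 (447/50) (243/25) (751/10000) (491/5000) (1567/5000) (231/25) (4887/1000) (3029/1000) (453/500) (203/250) (5/8) (219/500) (251/1000) (1197/1000) (1407/1000) (1843/1000) (282/125) (322/125) (1033/2500) (1973/10000) (693/10000) (217/5000) (121/2500) := by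
  constructor <;> norm_num [Pd]

theorem q6_5 : PB (3/2) (1433/5000) 3 (597/250) 2 (971/5000) 4 (551/500) (13/250) (2527/10000) (423/1000) 20 (1968/125) (611/50) (4749/500) (1597/200) (659/100) 99 100 103 112 (243/25) (259/25) (51/625) (1047/10000) (809/2500) (5023/500) (4917/1000) (1529/500) (903/1000) (403/500) (613/1000) (21/50) (227/1000) (1203/1000) (71/50) (1871/1000) (573/250) (2607/1000) (197/500) (227/1250) (309/5000) (197/5000) (47/1000) := by
  constructor <;> norm_num [Pd]

theorem q6_6 : PB (3/2) (1433/5000) 3 (597/250) 2 (971/5000) 4 (551/500) (13/250) (2527/10000) (423/1000) 20 (1968/125) (611/50) (4749/500) (1597/200) (659/100) 99 100 102 108 (259/25) (273/25) (87/1000) (69/625) (3323/10000) (2677/250) (4943/1000) (3083/1000) (9/10) (801/1000) (603/1000) (101/250) (103/500) (121/100) (179/125) (947/500) (2323/1000) (2631/1000) (947/2500) (106/625) (281/5000) (91/2500) (459/10000) := by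
  constructor <;> norm_num [Pd]

theorem q6_7 : PB (3/2) (1433/5000) 3 (597/250) 2 (971/5000) 4 (551/500) (13/250) (2527/10000) (423/1000) 20 (1968/125) (611/50) (4749/500) (1597/200) (659/100) 99 100 102 108 (273/25) (1143/100) (917/10000) (231/2000) (3399/10000) (5643/500) (993/200) (621/200) (449/500) (797/1000) (297/500) (391/1000) (47/250) (607/500) (1441/1000) (383/200) (587/250) (2651/1000) (183/500) (799/5000) (517/10000) (339/10000) (449/10000) := by
  constructor <;> norm_num [Pd]

theorem q6_8 : PB (3/2) (1433/5000) 3 (597/250) 2 (971/5000) 4 (551/500) (13/250) (2527/10000) (423/1000) 20 (1968/125) (611/50) (4749/500) (1597/200) (659/100) 99 100 102 107 (1143/100) (1191/100) (12/125) (301/2500) (347/1000) (5907/500) (2493/500) (25/8) (112/125) (99/125) (117/200) (189/500) (171/1000) (609/500) (1453/1000) (387/200) (593/250) (667/250) (3547/10000) (1513/10000) (479/10000) (159/5000) (11/250) := by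
  constructor <;> norm_num [Pd]

theorem q6_9 : PB (3/2) (1433/5000) 3 (597/250) 2 (971/5000) 4 (551/500) (13/250) (2527/10000) (423/1000) 20 (1968/125) (611/50) (4749/500) (1597/200) (659/100) 99 100 102 107 (1191/100) (1237/100) (1/10) (1/8) (221/625) (1231/100) (1001/200) (393/125) (447/500) (197/250) (577/1000) (183/500) (31/200) (1223/1000) (731/500) (977/500) (1197/500) (1341/500) (861/2500) (719/5000) (223/5000) (299/10000) (27/625) := by
  constructor <;> norm_num [Pd]

theorem q6_10 : PB (3/2) (1433/5000) 3 (597/250) 2 (971/5000) 4 (551/500) (13/250) (2527/10000) (423/1000) 20 (1968/125) (611/50) (4749/500) (1597/200) (659/100) 99 100 102 107 (1237/100) (1283/100) (1039/10000) (81/625) (9/25) (2557/200) (628/125) (1581/500) (223/250) (157/200) (57/100) (71/200) (7/50) (1227/1000) (1469/1000) (197/100) (2413/1000) (539/200) (837/2500) (1369/10000) (417/10000) (141/5000) (53/1250) := by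
  constructor <;> norm_num [Pd]

theorem q6_11 : PB (3/2) (1433/5000) 3 (597/250) 2 (971/5000) 4 (551/500) (13/250) (2527/10000) (423/1000) 20 (1968/125) (611/50) (4749/500) (1597/200) (659/100) 99 100 102 107 (1283/100) (133/10) (539/5000) (84/625) (3667/10000) (13261/1000) (5041/1000) (1589/500) (89/100) (781/1000) (281/500) (343/1000) (31/250) (154/125) (739/500) (497/250) (1217/500) (2707/1000) (651/2000) (163/1250) (39/1000) (267/10000) (417/10000) := by
  constructor <;> norm_num [Pd]

theorem q6_12 : PB (3/2) (1433/5000) 3 (597/250) 2 (971/5000) 4 (551/500) (13/250) (2527/10000) (423/1000) 20 (1968/125) (611/50) (4749/500) (1597/200) (659/100) 99 100 102 107 (133/10) (1379/100) (1117/10000) (1393/10000) (3733/10000) (6873/500) (5059/1000) (799/250) (111/125) (777/1000) (277/500) (331/1000) (27/250) (309/250) (1487/1000) (1003/500) (491/200) (2717/1000) (3163/10000) (31/250) (91/2500) (251/10000) (41/1000) := by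
  constructor <;> norm_num [Pd]

theorem q6_13 : PB (3/2) (1433/5000) 3 (597/250) 2 (971/5000) 4 (551/500) (13/250) (2527/10000) (423/1000) 20 (1968/125) (611/50) (4749/500) (1597/200) (659/100) 99 101 105 114 (1379/100) (1431/100) (579/5000) (723/5000) (3803/10000) (14253/1000) (5077/1000) (3213/1000) (443/500) (193/250) (109/200) (159/500) (91/1000) (31/25) (1499/1000) (1013/500) (619/250) (2727/1000) (307/1000) (589/5000) (169/5000) (237/10000) (403/10000) := by
  constructor <;> norm_num [Pd]

theorem q6_14 : PB (3/2) (1433/5000) 3 (597/250) 2 (971/5000) 4 (551/500) (13/250) (2527/10000) (423/1000) 20 (1968/125) (611/50) (4749/500) (1597/200) (659/100) 99 101 105 113 (1431/100) (1489/100) (601/5000) (301/2000) (97/250) (1479/100) (2549/500) (3233/1000) (221/250) (96/125) (67/125) (61/200) (73/1000) (249/200) (377/250) (1023/500) (2497/1000) (547/200) (1487/5000) (557/5000) (313/10000) (111/5000) (79/2000) := by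
  constructor <;> norm_num [Pd]

theorem q6_15 : PB (3/2) (1433/5000) 3 (597/250) 2 (971/5000) 4 (551/500) (13/250) (2527/10000) (423/1000) 20 (1968/125) (611/50) (4749/500) (1597/200) (659/100) 99 101 105 113 (1489/100) (1557/100) (1251/10000) (1573/10000) (3967/10000) (1539/100) (2561/500) (407/125) (881/1000) (763/1000) (263/500) (289/1000) (13/250) (1251/1000) (38/25) (2069/1000) (1261/500) (2743/1000) (2869/10000) (1047/10000) (287/10000) (103/5000) (193/5000) := by
  constructor <;> norm_num [Pd]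

theorem q6_16 : PB (3/2) (1433/5000) 3 (597/250) 2 (971/5000) 4 (551/500) (13/250) (2527/10000) (423/1000) 20 (1968/125) (611/50) (4749/500) (1597/200) (659/100) 99 101 104 110 (1557/100) (1639/100) (327/2500) (207/1250) (407/1000) (16093/1000) (5151/1000) (821/250) (439/500) (757/1000) (257/500) (271/1000) (7/250) (629/500) (767/500) (419/200) (637/250) (687/250) (172/625) (487/5000) (13/500) (189/10000) (3/80) := by
  constructor <;> norm_num [Pd]

theorem q6_17 : PB (3/2) (1433/5000) 3 (597/250) 2 (971/5000) 4 (551/500) (13/250) (2527/10000) (423/1000) 20 (1968/125) (611/50) (4749/500) (1597/200) (659/100) 99 101 104 109 (1639/100) (436/25) (1377/10000) (881/5000) (2099/5000) (847/50) (2593/500) (1659/500) (437/500) (749/1000) (249/500) (31/125) 0 (1267/1000) (194/125) (213/100) (129/50) (11/4) (327/1250) (223/2500) (23/1000) (17/1000) (363/10000) := by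
  constructor <;> norm_num [Pd]

theorem q6_18 : PB (3/2) (1433/5000) 3 (597/250) 2 (971/5000) 4 (551/500) (13/250) (2527/10000) (423/1000) 20 (1968/125) (611/50) (4749/500) (1597/200) (659/100) 99 101 104 109 (436/25) (471/25) (293/2000) (119/625) (1091/2500) (9013/500) (5227/1000) (3357/1000) (869/1000) (739/1000) (239/500) (109/500) 0 (639/500) (197/125) (2173/1000) (1309/500) (11/4) (2453/10000) (399/5000) (197/10000) (149/10000) (349/10000) := by
  constructor <;> norm_num [Pd]

theorem q6_19 : PB (3/2) (1433/5000) 3 (597/250) 2 (971/5000) 4 (551/500) (13/250) (2527/10000) (423/1000) 20 (1968/125) (611/50) (4749/500) (1597/200) (659/100) 99 102 106 113 (471/25) (2081/100) (1583/10000) (2103/10000) (2293/5000) (19473/1000) (5283/1000) (341/100) (863/1000) (363/500) (113/250) (89/500) 0 (1291/1000) (803/500) (2227/1000) (2661/1000) (11/4) (563/2500) (43/625) (2/125) (63/5000) (331/10000) := by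
  constructor <;> norm_num [Pd]

theorem q6_20 : PB (3/2) (1433/5000) 3 (597/250) 2 (971/5000) 4 (551/500) (13/250) (2527/10000) (423/1000) 20 (1968/125) (611/50) (4749/500) (1597/200) (659/100) 99 102 106 111 (2081/100) (598/25) (437/2500) (2417/10000) (4917/10000) (21509/1000) (537/100) (3491/1000) (853/1000) (353/500) (103/250) (119/1000) 0 (657/500) (1653/1000) (2307/1000) (271/100) (11/4) (997/5000) (557/10000) (119/10000) (49/5000) (61/2000) := by
  constructor <;> norm_num [Pd]

theorem q6_21 : PB (3/2) (1433/5000) 3 (597/250) 2 (971/5000) 4 (551/500) (13/250) (2527/10000) (423/1000) 20 (1968/125) (611/50) (4749/500) (1597/200) (659/100) 99 103 107 112 (598/25) 25 (201/1000) (1263/5000) (2513/5000) (6181/250) (1379/250) (909/250) (849/1000) (699/1000) (399/1000) (99/1000) 0 (1323/1000) (167/100) (583/250) (1361/500) (11/4) (1643/10000) (397/10000) (37/5000) (13/2000) (33/1250) := by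
  constructor <;> norm_num [Pd]

theorem q6_22 : PB (3/2) (1433/5000) 3 (597/250) 2 (971/5000) 4 (551/500) (253/1000) (3233/5000) (539/500) 20 (2467/125) (4449/250) (1868/125) (11743/1000) (8057/1000) 99 103 107 112 25 (3099/100) (21/100) (3131/10000) (1399/2500) (646/25) (5547/1000) (731/200) (104/125) (133/200) (331/1000) 0 0 (1361/1000) (1749/1000) (491/200) (11/4) (11/4) (771/5000) (89/2500) (4/625) (29/5000) (259/10000) := by
  constructor <;> norm_num [Pd]

theorem q6_23 : PB (3/2) (1433/5000) 3 (597/250) 2 (971/5000) 4 (551/500) (253/1000) (3233/5000) (539/500) 20 (2467/125) (4449/250) (1868/125) (11743/1000) (8057/1000) 99 104 109 114 (3099/100) (4351/100) (651/2500) (879/2000) (663/1000) (32031/1000) (2909/500) (1947/500) (401/500) (151/250) (26/125) 0 0 (143/100) (473/250) (2629/1000) (11/4) (11/4) (1067/10000) (47/2500) (27/10000) (27/10000) (51/2500) := by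
  constructor <;> norm_num [Pd]

theorem q6_24 : PB (3/2) (1433/5000) 3 (597/250) 2 (971/5000) 4 (551/500) (253/1000) (3233/5000) (539/500) 20 (2467/125) (4449/250) (1868/125) (11743/1000) (8057/1000) 99 107 112 116 (4351/100) 64 (457/1250) (1293/2000) (8041/10000) (11243/250) (811/125) (4463/1000) (759/1000) (519/1000) (39/1000) 0 0 (1529/1000) (521/250) (1373/500) (11/4) (11/4) (49/1000) (49/10000) (1/2500) (3/5000) (29/2500) := by
  constructor <;> norm_num [Pd]

theorem q6_all {M : ℕ} {a : ℝ} {ζ z : Fin (M + 1) → ℂ} (h : Fr (M + 1) a ζ z)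
    (hmax : ∀ k, ‖Fr.u a ζ k‖ ≤ ‖Fr.u a ζ 0‖) (hM : (99 : ℝ) ≤ M) (hM2 : (M : ℝ) ≤ 119)
    (hD : -∑ k, Real.log ‖Fr.u a ζ k‖ ≤ (3/2)) (hD1 : (5/4) ≤ -∑ k, Real.log ‖Fr.u a ζ k‖)
    (hA : M * a ^ 2 ≤ 64) : False := by
  have hE : ∏ k, ‖Fr.u a ζ k‖ ≤ (1433/5000) := by
    rw [prod_eq_exp h]
    exact (Real.exp_le_exp.2 (neg_le_neg hD1)).trans (exp_num (by norm_num) (by norm_num [Pd]))
  have hA0 : (0 : ℝ) ≤ M * a ^ 2 := by positivity
  have hal : ∀ {A1 c : ℝ}, A1 ≤ M * a ^ 2 → c * 119 ≤ A1 → c ≤ a ^ 2 := by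
    intro A1 c h1 h2
    have h3 : (M : ℝ) * a ^ 2 ≤ 119 * a ^ 2 := mul_le_mul_of_nonneg_right hM2 (sq_nonneg a)
    linarith
  rcases le_total ((M : ℝ) * a ^ 2) (219/50) with g0 | g0
  · exact pbox h hmax q6_dc q6_rc0 q6_0 hM hA0 g0 (hal hA0 (by norm_num)) hD hE
  rcases le_total ((M : ℝ) * a ^ 2) (164/25) with g1 | g1
  · exact pbox h hmax q6_dc q6_rc0 q6_1 hM g0 g1 (hal g0 (by norm_num)) hD hE
  rcases le_total ((M : ℝ) * a ^ 2) (397/50) with g2 | g2
  · exact pbox h hmax q6_dc q6_rc0 q6_2 hM g1 g2 (hal g1 (by norm_num)) hD hE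
  rcases le_total ((M : ℝ) * a ^ 2) (447/50) with g3 | g3
  · exact pbox h hmax q6_dc q6_rc0 q6_3 hM g2 g3 (hal g2 (by norm_num)) hD hE
  rcases le_total ((M : ℝ) * a ^ 2) (243/25) with g4 | g4
  · exact pbox h hmax q6_dc q6_rc0 q6_4 hM g3 g4 (hal g3 (by norm_num)) hD hE
  rcases le_total ((M : ℝ) * a ^ 2) (259/25) with g5 | g5
  · exact pbox h hmax q6_dc q6_rc0 q6_5 hM g4 g5 (hal g4 (by norm_num)) hD hE
  rcases le_total ((M : ℝ) * a ^ 2) (273/25) with g6 | g6
  · exact pbox h hmax q6_dc q6_rc0 q6_6 hM g5 g6 (hal g5 (by norm_num)) hD hE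
  rcases le_total ((M : ℝ) * a ^ 2) (1143/100) with g7 | g7
  · exact pbox h hmax q6_dc q6_rc0 q6_7 hM g6 g7 (hal g6 (by norm_num)) hD hE
  rcases le_total ((M : ℝ) * a ^ 2) (1191/100) with g8 | g8
  · exact pbox h hmax q6_dc q6_rc0 q6_8 hM g7 g8 (hal g7 (by norm_num)) hD hE
  rcases le_total ((M : ℝ) * a ^ 2) (1237/100) with g9 | g9
  · exact pbox h hmax q6_dc q6_rc0 q6_9 hM g8 g9 (hal g8 (by norm_num)) hD hE
  rcases le_total ((M : ℝ) * a ^ 2) (1283/100) with g10 | g10
  · exact pbox h hmax q6_dc q6_rc0 q6_10 hM g9 g10 (hal g9 (by norm_num)) hD hE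
  rcases le_total ((M : ℝ) * a ^ 2) (133/10) with g11 | g11
  · exact pbox h hmax q6_dc q6_rc0 q6_11 hM g10 g11 (hal g10 (by norm_num)) hD hE
  rcases le_total ((M : ℝ) * a ^ 2) (1379/100) with g12 | g12
  · exact pbox h hmax q6_dc q6_rc0 q6_12 hM g11 g12 (hal g11 (by norm_num)) hD hE
  rcases le_total ((M : ℝ) * a ^ 2) (1431/100) with g13 | g13
  · exact pbox h hmax q6_dc q6_rc0 q6_13 hM g12 g13 (hal g12 (by norm_num)) hD hE
  rcases le_total ((M : ℝ) * a ^ 2) (1489/100) with g14 | g14
  · exact pbox h hmax q6_dc q6_rc0 q6_14 hM g13 g14 (hal g13 (by norm_num)) hD hE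
  rcases le_total ((M : ℝ) * a ^ 2) (1557/100) with g15 | g15
  · exact pbox h hmax q6_dc q6_rc0 q6_15 hM g14 g15 (hal g14 (by norm_num)) hD hE
  rcases le_total ((M : ℝ) * a ^ 2) (1639/100) with g16 | g16
  · exact pbox h hmax q6_dc q6_rc0 q6_16 hM g15 g16 (hal g15 (by norm_num)) hD hE
  rcases le_total ((M : ℝ) * a ^ 2) (436/25) with g17 | g17
  · exact pbox h hmax q6_dc q6_rc0 q6_17 hM g16 g17 (hal g16 (by norm_num)) hD hE
  rcases le_total ((M : ℝ) * a ^ 2) (471/25) with g18 | g18
  · exact pbox h hmax q6_dc q6_rc0 q6_18 hM g17 g18 (hal g17 (by norm_num)) hD hE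
  rcases le_total ((M : ℝ) * a ^ 2) (2081/100) with g19 | g19
  · exact pbox h hmax q6_dc q6_rc0 q6_19 hM g18 g19 (hal g18 (by norm_num)) hD hE
  rcases le_total ((M : ℝ) * a ^ 2) (598/25) with g20 | g20
  · exact pbox h hmax q6_dc q6_rc0 q6_20 hM g19 g20 (hal g19 (by norm_num)) hD hE
  rcases le_total ((M : ℝ) * a ^ 2) 25 with g21 | g21
  · exact pbox h hmax q6_dc q6_rc0 q6_21 hM g20 g21 (hal g20 (by norm_num)) hD hE
  rcases le_total ((M : ℝ) * a ^ 2) (3099/100) with g22 | g22
  · exact pbox h hmax q6_dc q6_rc1 q6_22 hM g21 g22 (hal g21 (by norm_num)) hD hE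
  rcases le_total ((M : ℝ) * a ^ 2) (4351/100) with g23 | g23
  · exact pbox h hmax q6_dc q6_rc1 q6_23 hM g22 g23 (hal g22 (by norm_num)) hD hE
  exact pbox h hmax q6_dc q6_rc1 q6_24 hM g23 hA (hal g23 (by norm_num)) hD hE

end Pool.Agent.Lib.MP_172a45_an.H64.P
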