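import Pool.Agent.Lib.MP_172a45_an.H64.P5

set_option autoImplicit false

/-!
# The tail (generated), deficit in `[(3/10), (1/2)]`, `M ≥ 99`, `M a² ≥ 64`
-/

namespace Pool.Agent.Lib.MP_172a45_an.H64.P

open Finset F

theorem t1_dc0 : DC (1/2) (347/250) (17/10) (3/2) (29/400) (1667/1000) (1037/1000) := by
  refine ⟨by norm_num, by norm_num, by norm_num, by norm_num, by norm_num, by norm_num,
    by norm_num, by norm_num, ?_, by norm_num, fun x _ _ => Y_cert (by norm_num) (by norm_num) x,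
    exp_num (by norm_num) (by norm_num [Pd])⟩
  have := log_num (z0 := (3/2)) (l := (2029/5000)) (by norm_num) (by norm_num) (by norm_num)
  norm_num at this ⊢
  linarith

theorem t1_dc2 : DC (1/2) (347/250) (17/10) 1 0 (1463/500) 1 := by
  refine ⟨by norm_num, by norm_num, by norm_num, by norm_num, by norm_num, by norm_num,
    by norm_num, by norm_num, ?_, by norm_num, fun x _ hx => ?_, ?_⟩
  · norm_num
  · norm_num
    linarith
  · norm_num

theorem t1_0 : PT (1/2) (7409/10000) (347/250) (17/10) (3/2) (29/400) (1667/1000) (1037/1000) 133 64 0 (12/25) (6929/10000) (279/2000) (2371/500) (1043/250) (2843/1000) (411/1000) (193/12500) (5827/100000) := by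
  constructor <;> norm_num [Pd]

theorem t1_1 : PT (1/2) (7409/10000) (347/250) (17/10) 1 0 (1463/500) 1 99 64 (12/25) 1 1 0 (6967/1000) (1501/250) (4579/1000) (3/20) (249/100000) (1029/100000) := by
  constructor <;> norm_num [Pd]

theorem t1_all {M : ℕ} {a : ℝ} {ζ z : Fin (M + 1) → ℂ} (h : Fr (M + 1) a ζ z)
    (hmax : ∀ k, ‖Fr.u a ζ k‖ ≤ ‖Fr.u a ζ 0‖) (hM : (99 : ℝ) ≤ M)
    (hD : -∑ k, Real.log ‖Fr.u a ζ k‖ ≤ (1/2)) (hD1 : (3/10) ≤ -∑ k, Real.log ‖Fr.u a ζ k‖)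
    (hA : 64 ≤ M * a ^ 2) : False := by
  have hE : ∏ k, ‖Fr.u a ζ k‖ ≤ (7409/10000) := by
    rw [prod_eq_exp h]
    exact (Real.exp_le_exp.2 (neg_le_neg hD1)).trans (exp_num (by norm_num) (by norm_num [Pd]))
  have ha0 := h.a0
  have ha1 := h.a1
  have hM0 : (0 : ℝ) < M := by linarith
  have g0 : (0 : ℝ) ≤ a ^ 2 := sq_nonneg a
  have g1 : a ^ 2 ≤ 1 := by nlinarith
  have kM : ∀ {α Mb : ℝ}, a ^ 2 ≤ α → Mb * α ≤ 64 → 0 ≤ Mb → Mb ≤ M := by
    intro α Mb h1 h2 h3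
    by_contra hcon
    push Not at hcon
    have h4 : (M : ℝ) * a ^ 2 < Mb * a ^ 2 := mul_lt_mul_of_pos_right hcon (pow_pos ha0 2)
    have h5 : Mb * a ^ 2 ≤ Mb * α := mul_le_mul_of_nonneg_left h1 h3
    linarith
  have kL : ∀ {α Lm : ℝ}, α ≤ a ^ 2 → Lm ≤ 99 * α → Lm ≤ M * a ^ 2 := by
    intro α Lm h1 h2
    have h3 : (99 : ℝ) * a ^ 2 ≤ M * a ^ 2 := mul_le_mul_of_nonneg_right hM (sq_nonneg a)
    linarith
  rcases le_total (a ^ 2) (12/25) with c0 | c0
  · exact ptail h hmax t1_dc0 t1_0 (kM c0 (by norm_num) (by norm_num)) hA g0 c0 hD hE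
  exact ptail h hmax t1_dc2 t1_1 hM hA c0 g1 hD hE

end Pool.Agent.Lib.MP_172a45_an.H64.P
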