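import Pool.Agent.Lib.MP_172a45_an.H64.P5

set_option autoImplicit false

/-!
# The tail (generated), deficit in `[(3/4), 1]`, `M ≥ 99`, `M a² ≥ 64`
-/

namespace Pool.Agent.Lib.MP_172a45_an.H64.P

open Finset F

theorem t3_dc0 : DC 1 (2231/1000) (2069/1000) (3/2) (29/400) 3 (1037/1000) := by
  refine ⟨by norm_num, by norm_num, by norm_num, by norm_num, by norm_num, by norm_num,
    by norm_num, by norm_num, ?_, by norm_num, fun x _ _ => Y_cert (by norm_num) (by norm_num) x,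
    exp_num (by norm_num) (by norm_num [Pd])⟩
  have := log_num (z0 := (3/2)) (l := (2029/5000)) (by norm_num) (by norm_num) (by norm_num)
  norm_num at this ⊢
  linarith

theorem t3_dc1 : DC 1 (2231/1000) (2069/1000) (5/4) (233/10000) (3889/1000) (5059/5000) := by
  refine ⟨by norm_num, by norm_num, by norm_num, by norm_num, by norm_num, by norm_num,
    by norm_num, by norm_num, ?_, by norm_num, fun x _ _ => Y_cert (by norm_num) (by norm_num) x,
    exp_num (by norm_num) (by norm_num [Pd])⟩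
  have := log_num (z0 := (5/4)) (l := (2233/10000)) (by norm_num) (by norm_num) (by norm_num)
  norm_num at this ⊢
  linarith

theorem t3_dc2 : DC 1 (2231/1000) (2069/1000) 1 0 (239/40) 1 := by
  refine ⟨by norm_num, by norm_num, by norm_num, by norm_num, by norm_num, by norm_num,
    by norm_num, by norm_num, ?_, by norm_num, fun x _ hx => ?_, ?_⟩
  · norm_num
  · norm_num
    linarith
  · norm_num

theorem t3_0 : PT 1 (1181/2500) (2231/1000) (2069/1000) (3/2) (29/400) 3 (1037/1000) 156 64 0 (41/100) (1601/2500) (1229/10000) (4919/1000) (369/100) (79/40) (337/1000) (2499/100000) (13877/100000) := by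
  constructor <;> norm_num [Pd]

theorem t3_1 : PT 1 (1181/2500) (2231/1000) (2069/1000) (5/4) (233/10000) (3889/1000) (5059/5000) 99 64 (41/100) (97/100) (9849/10000) (7767/10000) (6357/1000) (553/125) (479/200) 0 (1201/100000) (9119/100000) := by
  constructor <;> norm_num [Pd]

theorem t3_2 : PT 1 (1181/2500) (2231/1000) (2069/1000) 1 0 (239/40) 1 99 (9603/100) (97/100) 1 1 0 (23997/1000) (21509/1000) (10133/500) 0 (1/100000) (1/100000) := by
  constructor <;> norm_num [Pd]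

theorem t3_all {M : ℕ} {a : ℝ} {ζ z : Fin (M + 1) → ℂ} (h : Fr (M + 1) a ζ z)
    (hmax : ∀ k, ‖Fr.u a ζ k‖ ≤ ‖Fr.u a ζ 0‖) (hM : (99 : ℝ) ≤ M)
    (hD : -∑ k, Real.log ‖Fr.u a ζ k‖ ≤ 1) (hD1 : (3/4) ≤ -∑ k, Real.log ‖Fr.u a ζ k‖)
    (hA : 64 ≤ M * a ^ 2) : False := by
  have hE : ∏ k, ‖Fr.u a ζ k‖ ≤ (1181/2500) := by
    rw [prod_eq_exp h]
    exact (Real.exp_le_exp.2 (neg_le_neg hD1)).trans (exp_num (by norm_num) (by norm_num [Pd]))
  have ha0 := h.a0
  have ha1 := h.a1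
  have hM0 : (0 : ℝ) < M := by linarith
  have g0 : (0 : ℝ) ≤ a ^ 2 := sq_nonneg a
  have g1 : a ^ 2 ≤ 1 := by nlinarith
  have kM : ∀ {α Mb : ℝ}, a ^ 2 ≤ α → Mb * α ≤ 64 → 0 ≤ Mb → Mb ≤ M := by
    intro α Mb h1 h2 h3
    by_contra hcon
    push Not at hcon
    have h4 : (M : ℝ) * a ^ 2 < Mb * a ^ 2 := mul_lt_mul_of_pos_right hcon (pow_pos ha0 2)
    have h5 : Mb * a ^ 2 ≤ Mb * α := mul_le_mul_of_nonneg_left h1 h3
    linarith
  have kL : ∀ {α Lm : ℝ}, α ≤ a ^ 2 → Lm ≤ 99 * α → Lm ≤ M * a ^ 2 := by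
    intro α Lm h1 h2
    have h3 : (99 : ℝ) * a ^ 2 ≤ M * a ^ 2 := mul_le_mul_of_nonneg_right hM (sq_nonneg a)
    linarith
  rcases le_total (a ^ 2) (41/100) with c0 | c0
  · exact ptail h hmax t3_dc0 t3_0 (kM c0 (by norm_num) (by norm_num)) hA g0 c0 hD hE
  rcases le_total (a ^ 2) (97/100) with c1 | c1
  · exact ptail h hmax t3_dc1 t3_1 hM hA c0 c1 hD hE
  exact ptail h hmax t3_dc2 t3_2 hM (kL c1 (by norm_num)) c1 g1 hD hE

end Pool.Agent.Lib.MP_172a45_an.H64.P
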