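import Pool.Agent.Lib.MP_172a45_an.H64.R
import Pool.Agent.Lib.MP_172a45_an.H64.Q1
import Pool.Agent.Lib.MP_172a45_an.H64.Q2
import Pool.Agent.Lib.MP_172a45_an.H64.Q3
import Pool.Agent.Lib.MP_172a45_an.H64.Q4
import Pool.Agent.Lib.MP_172a45_an.H64.Q5
import Pool.Agent.Lib.MP_172a45_an.H64.Q6
import Pool.Agent.Lib.MP_172a45_an.H64.T1
import Pool.Agent.Lib.MP_172a45_an.H64.T2
import Pool.Agent.Lib.MP_172a45_an.H64.T3
import Pool.Agent.Lib.MP_172a45_an.H64.T4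
import Pool.Agent.Lib.MP_172a45_an.H64.T5

set_option autoImplicit false

/-!
# Deficit at most `3/2`, `N ≥ 100`
-/

namespace Pool.Agent.Lib.MP_172a45_an.F

open Finset H64.P

/-- a permutation which puts a largest norm first keeps the deficit -/
theorem exists_max' {M : ℕ} {a : ℝ} {ζ z : Fin (M + 1) → ℂ} (h : Fr (M + 1) a ζ z) :
    ∃ ζ' : Fin (M + 1) → ℂ, Fr (M + 1) a ζ' z ∧ (∀ k, ‖Fr.u a ζ' k‖ ≤ ‖Fr.u a ζ' 0‖) ∧
      ∑ k, Real.log ‖Fr.u a ζ' k‖ = ∑ k, Real.log ‖Fr.u a ζ k‖ := by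
  obtain ⟨i, -, hi⟩ := Finset.exists_max_image (univ : Finset (Fin (M + 1)))
    (fun k => ‖Fr.u a ζ k‖) univ_nonempty
  have e : ∀ k, Fr.u a (ζ ∘ Equiv.swap 0 i) k = Fr.u a ζ (Equiv.swap 0 i k) := fun k => rfl
  refine ⟨ζ ∘ Equiv.swap 0 i, h.perm _, fun k => ?_, ?_⟩
  · rw [e, e, Equiv.swap_apply_left]
    exact hi _ (Finset.mem_univ _)
  · simp only [e]
    exact Equiv.sum_comp (Equiv.swap 0 i) fun k => Real.log ‖Fr.u a ζ k‖

theorem Fr.R2 {M : ℕ} {a : ℝ} {ζ z : Fin (M + 1) → ℂ} (h : Fr (M + 1) a ζ z) (hM : 99 ≤ M)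
    (hD : -∑ k, Real.log ‖Fr.u a ζ k‖ ≤ 3 / 2) : False := by
  obtain ⟨ζ', h', hmax, hs⟩ := exists_max' h
  rw [← hs] at hD
  have hM' : (99 : ℝ) ≤ M := by exact_mod_cast hM
  rcases le_total (-∑ k, Real.log ‖Fr.u a ζ' k‖) (3 / 10) with c0 | c0
  · exact h'.R (by omega) c0
  rcases le_total (-∑ k, Real.log ‖Fr.u a ζ' k‖) (1 / 2) with c1 | c1
  · rcases le_total ((M : ℝ) * a ^ 2) 64 with g | g
    · exact q1_all h' hmax hM' c1 c0 g
    · exact t1_all h' hmax hM' c1 c0 g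
  rcases le_total (-∑ k, Real.log ‖Fr.u a ζ' k‖) (3 / 4) with c2 | c2
  · rcases le_total ((M : ℝ) * a ^ 2) 64 with g | g
    · exact q2_all h' hmax hM' c2 c1 g
    · exact t2_all h' hmax hM' c2 c1 g
  rcases le_total (-∑ k, Real.log ‖Fr.u a ζ' k‖) 1 with c3 | c3
  · rcases le_total ((M : ℝ) * a ^ 2) 64 with g | g
    · exact q3_all h' hmax hM' c3 c2 g
    · exact t3_all h' hmax hM' c3 c2 g
  rcases le_total (-∑ k, Real.log ‖Fr.u a ζ' k‖) (5 / 4) with c4 | c4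
  · rcases le_total ((M : ℝ) * a ^ 2) 64 with g | g
    · exact q4_all h' hmax hM' c4 c3 g
    · exact t4_all h' hmax hM' c4 c3 g
  · rcases le_total ((M : ℝ) * a ^ 2) 64 with g | g
    · rcases le_total (M : ℝ) 119 with k | k
      · exact q6_all h' hmax hM' k hD c4 g
      · exact q5_all h' hmax k hD c4 g
    · exact t5_all h' hmax hM' hD c4 g

end Pool.Agent.Lib.MP_172a45_an.F
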