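import Pool.Agent.Lib.MP_172a45_an.H64.P5

set_option autoImplicit false

/-!
# The tail (generated), deficit in `[1, (5/4)]`, `M ≥ 99`, `M a² ≥ 64`
-/

namespace Pool.Agent.Lib.MP_172a45_an.H64.P

open Finset F

theorem t4_dc0 : DC (5/4) (2621/1000) (279/125) (3/2) (29/400) (3917/1000) (1037/1000) := by
  refine ⟨by norm_num, by norm_num, by norm_num, by norm_num, by norm_num, by norm_num,
    by norm_num, by norm_num, ?_, by norm_num, fun x _ _ => Y_cert (by norm_num) (by norm_num) x,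
    exp_num (by norm_num) (by norm_num [Pd])⟩
  have := log_num (z0 := (3/2)) (l := (2029/5000)) (by norm_num) (by norm_num) (by norm_num)
  norm_num at this ⊢
  linarith

theorem t4_dc2 : DC (5/4) (2621/1000) (279/125) 1 0 (7869/1000) 1 := by
  refine ⟨by norm_num, by norm_num, by norm_num, by norm_num, by norm_num, by norm_num,
    by norm_num, by norm_num, ?_, by norm_num, fun x _ hx => ?_, ?_⟩
  · norm_num
  · norm_num
    linarith
  · norm_num

theorem t4_0 : PT (5/4) (3679/10000) (2621/1000) (279/125) (3/2) (29/400) (3917/1000) (1037/1000) 200 64 0 (8/25) (5657/10000) (1067/10000) (2597/500) (703/200) (439/250) (46/125) (2977/100000) (691/4000) := by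
  constructor <;> norm_num [Pd]

theorem t4_1 : PT (5/4) (3679/10000) (2621/1000) (279/125) (3/2) (29/400) (3917/1000) (1037/1000) 99 64 (8/25) (81/100) (9/10) (477/1250) (2899/500) (1991/500) (417/200) 0 (1867/100000) (777/6250) := by
  constructor <;> norm_num [Pd]

theorem t4_2 : PT (5/4) (3679/10000) (2621/1000) (279/125) 1 0 (7869/1000) 1 99 (8019/100) (81/100) 1 1 0 (6867/500) (10299/1000) (9363/1000) 0 (1/25000) (9/100000) := by
  constructor <;> norm_num [Pd]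

theorem t4_all {M : ℕ} {a : ℝ} {ζ z : Fin (M + 1) → ℂ} (h : Fr (M + 1) a ζ z)
    (hmax : ∀ k, ‖Fr.u a ζ k‖ ≤ ‖Fr.u a ζ 0‖) (hM : (99 : ℝ) ≤ M)
    (hD : -∑ k, Real.log ‖Fr.u a ζ k‖ ≤ (5/4)) (hD1 : 1 ≤ -∑ k, Real.log ‖Fr.u a ζ k‖)
    (hA : 64 ≤ M * a ^ 2) : False := by
  have hE : ∏ k, ‖Fr.u a ζ k‖ ≤ (3679/10000) := by
    rw [prod_eq_exp h]
    exact (Real.exp_le_exp.2 (neg_le_neg hD1)).trans (exp_num (by norm_num) (by norm_num [Pd]))
  have ha0 := h.a0
  have ha1 := h.a1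
  have hM0 : (0 : ℝ) < M := by linarith
  have g0 : (0 : ℝ) ≤ a ^ 2 := sq_nonneg a
  have g1 : a ^ 2 ≤ 1 := by nlinarith
  have kM : ∀ {α Mb : ℝ}, a ^ 2 ≤ α → Mb * α ≤ 64 → 0 ≤ Mb → Mb ≤ M := by
    intro α Mb h1 h2 h3
    by_contra hcon
    push Not at hcon
    have h4 : (M : ℝ) * a ^ 2 < Mb * a ^ 2 := mul_lt_mul_of_pos_right hcon (pow_pos ha0 2)
    have h5 : Mb * a ^ 2 ≤ Mb * α := mul_le_mul_of_nonneg_left h1 h3
    linarith
  have kL : ∀ {α Lm : ℝ}, α ≤ a ^ 2 → Lm ≤ 99 * α → Lm ≤ M * a ^ 2 := by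
    intro α Lm h1 h2
    have h3 : (99 : ℝ) * a ^ 2 ≤ M * a ^ 2 := mul_le_mul_of_nonneg_right hM (sq_nonneg a)
    linarith
  rcases le_total (a ^ 2) (8/25) with c0 | c0
  · exact ptail h hmax t4_dc0 t4_0 (kM c0 (by norm_num) (by norm_num)) hA g0 c0 hD hE
  rcases le_total (a ^ 2) (81/100) with c1 | c1
  · exact ptail h hmax t4_dc0 t4_1 hM hA c0 c1 hD hE
  exact ptail h hmax t4_dc2 t4_2 hM (kL c1 (by norm_num)) c1 g1 hD hE

end Pool.Agent.Lib.MP_172a45_an.H64.P
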